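import Mathlib
import Pool.Agent.H28.VAL

/-!
Fournier's theorem, the case used here: if no two vertices of maximum degree are adjacent then the
graph is class 1.
-/

set_option autoImplicit false

namespace Pool.Agent.H71.DX

open Pool.Agent.H28

theorem four {V : Type} [Finite V] {G : SimpleGraph V} {d : ℕ}
    (hdeg : ∀ v, (G.neighborSet v).ncard ≤ d)
    (hind : ∀ u v, G.Adj u v →
      ¬ ((G.neighborSet u).ncard = d ∧ (G.neighborSet v).ncard = d)) : ECol G d := by
  by_contra hG
  obtain ⟨H, hHG, hH, hcrit⟩ := exists_critical hG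
  have hle : ∀ v, (H.neighborSet v).ncard ≤ (G.neighborSet v).ncard := fun v =>
    Set.ncard_le_ncard (fun w hw => hHG hw) (Set.toFinite _)
  have hdegH : ∀ v, (H.neighborSet v).ncard ≤ d := fun v => (hle v).trans (hdeg v)
  have key : ∀ x y, H.Adj x y → ∃ z, H.Adj x z ∧ (H.neighborSet z).ncard = d := by
    intro x y hxy
    have h := val hdegH hxy hH (hcrit x y hxy)
    have h1 := hdegH y
    have h2 : {z | H.Adj x z ∧ z ≠ y ∧ (H.neighborSet z).ncard = d}.Nonempty := by
      rw [Set.nonempty_iff_ne_empty]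
      intro h0
      rw [h0, Set.ncard_empty] at h
      omega
    obtain ⟨z, hz⟩ := h2
    exact ⟨z, hz.1, hz.2.2⟩
  by_cases hE : ∃ x y, H.Adj x y
  · obtain ⟨x, y, hxy⟩ := hE
    obtain ⟨z1, hz1, hd1⟩ := key x y hxy
    obtain ⟨z2, hz2, hd2⟩ := key z1 x hz1.symm
    refine hind z1 z2 (hHG hz2) ⟨?_, ?_⟩
    · exact le_antisymm (hdeg z1) (hd1 ▸ hle z1)
    · exact le_antisymm (hdeg z2) (hd2 ▸ hle z2)
  · push Not at hE
    exact hH ⟨fun _ => 0, fun u v h => absurd h (hE u v), fun u v w h => absurd h (hE u v)⟩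

end Pool.Agent.H71.DX
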