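import Mathlib
import Pool.Agent.H71.DN.Defs
import Pool.Agent.H71.DX.Four
import Pool.Agent.H70.HY.Defs

/-!
FN2: from edge-disjoint matchings for the labels `< L` to a labelling; the last `Δ + 2 p - L` labels
are given by an edge colouring of the rest (class 1 by `four`). Variant of `H71/DN/Fnl.lean` (proved);
copy and adapt.

Proof.  If `V` is empty take `fV = 0`, `fE = 0`. Let `d = Δ + 2 p - L ≥ 1`.
`G'.Adj u v := G.Adj u v ∧ ∀ ℓ < L, mm ℓ u ≠ v`. The `mm ℓ v ≠ v`, `ℓ < L`, are distinct neighbours of `v`, so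
`dg G' v = dg G v - (L - #{ℓ < L : mm ℓ v = v})`, i.e. `dg G' v + L = dg G v + #{ℓ < L : mm ℓ v = v}`. By `hd`
`dg G' v ≤ d`, with equality iff `dg G v + #{...} = Δ + 2 p`; by `hind` no two such vertices are adjacent
in `G'`. So `four` gives a proper edge colouring `ec` of `G'` with colours `< d`.
Labels: `fV = c`; the edge `u v` gets `ℓ` if `mm ℓ u = v` for an `ℓ < L`, and `L + ec s(u, v) < L + d = Δ + 2 p`
otherwise. The rest as in `Fnl.lean` (`L + j - c u ≥ k' + p - 1 - (k' - 1) = p` by `hL`).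
-/

set_option autoImplicit false

namespace Pool.Agent.H71.DX

open Finset Classical
open Pool.Agent.H71.DN

theorem final2 {V : Type} [Fintype V] (G : SimpleGraph V) (Δ p k' L : ℕ) (hp : 1 ≤ p)
    (hL : k' + p - 1 ≤ L) (hL2 : L + 1 ≤ Δ + 2 * p) (c : V → ℕ)
    (hc : ∀ v, c v < k') (hprop : ∀ u v, G.Adj u v → c u ≠ c v)
    (mm : ℕ → V → V) (hinv : ∀ ℓ < L, Inv (mm ℓ))
    (hadj : ∀ ℓ < L, ∀ v, mm ℓ v ≠ v → G.Adj v (mm ℓ v))
    (hdis : ∀ ℓ < L, ∀ ℓ' < L, ℓ ≠ ℓ' → ∀ v, mm ℓ v ≠ v → mm ℓ v ≠ mm ℓ' v)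
    (hfix : ∀ ℓ < L, ∀ v, c v < ℓ + p → ℓ < c v + p → mm ℓ v = v)
    (hd : ∀ v, dg G v + ((range L).filter fun ℓ => mm ℓ v = v).card ≤ Δ + 2 * p)
    (hind : ∀ a b, G.Adj a b →
      dg G a + ((range L).filter fun ℓ => mm ℓ a = a).card = Δ + 2 * p →
      dg G b + ((range L).filter fun ℓ => mm ℓ b = b).card = Δ + 2 * p →
      ∃ ℓ < L, mm ℓ a = b) :
    H70.HY.HYLab G Δ p := by
  obtain ⟨d, hd'⟩ : ∃ d, d = Δ + 2 * p - L := ⟨_, rfl⟩
  have hinv' : ∀ ℓ < L, ∀ u v, mm ℓ u = v → mm ℓ v = u := by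
    intro ℓ hℓ u v h
    rw [← h]
    exact hinv ℓ hℓ u
  obtain ⟨G', hG'⟩ : ∃ G' : SimpleGraph V, ∀ u v, G'.Adj u v ↔
      G.Adj u v ∧ ∀ ℓ < L, mm ℓ u ≠ v :=
    ⟨{ Adj := fun u v => G.Adj u v ∧ ∀ ℓ < L, mm ℓ u ≠ v
       symm := ⟨fun u v h => ⟨h.1.symm, fun ℓ hℓ h' => h.2 ℓ hℓ (hinv' ℓ hℓ v u h')⟩⟩
       loopless := ⟨fun u h => h.1.ne rfl⟩ }, fun _ _ => Iff.rfl⟩
  have hdg : ∀ v, (G'.neighborSet v).ncard = dg G' v := by
    intro v
    unfold dg
    rw [← Set.ncard_coe_finset]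
    congr 1
    ext w
    simp [SimpleGraph.mem_neighborSet]
  have hsum : ∀ v, dg G' v + L ≤ dg G v + ((range L).filter fun ℓ => mm ℓ v = v).card := by
    intro v
    -- the neighbours `mm ℓ v`
    have h2 : ((range L).filter fun ℓ => mm ℓ v ≠ v).card + dg G' v ≤ dg G v := by
      have h3 : (((range L).filter fun ℓ => mm ℓ v ≠ v).image fun ℓ => mm ℓ v).card =
          ((range L).filter fun ℓ => mm ℓ v ≠ v).card := by
        refine Finset.card_image_of_injOn ?_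
        intro a ha b hb hab
        simp only [Finset.coe_filter, Finset.mem_range, Set.mem_ofPred_eq] at ha hb
        by_contra hne
        exact hdis a ha.1 b hb.1 hne v ha.2 hab
      rw [← h3]
      unfold dg
      rw [← Finset.card_union_of_disjoint]
      · refine Finset.card_le_card fun w hw => ?_
        rw [Finset.mem_union] at hw
        rw [Finset.mem_filter]
        refine ⟨Finset.mem_univ _, ?_⟩
        rcases hw with hw | hw
        · obtain ⟨ℓ, hℓ, rfl⟩ := Finset.mem_image.1 hw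
          rw [Finset.mem_filter, Finset.mem_range] at hℓ
          exact hadj ℓ hℓ.1 v hℓ.2
        · exact ((hG' v w).1 (Finset.mem_filter.1 hw).2).1
      · rw [Finset.disjoint_left]
        intro w hw hw'
        obtain ⟨ℓ, hℓ, rfl⟩ := Finset.mem_image.1 hw
        rw [Finset.mem_filter, Finset.mem_range] at hℓ
        exact ((hG' v _).1 (Finset.mem_filter.1 hw').2).2 ℓ hℓ.1 rfl
    have h4 : ((range L).filter fun ℓ => mm ℓ v = v).card +
        ((range L).filter fun ℓ => mm ℓ v ≠ v).card = L := by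
      rw [Finset.card_filter_add_card_filter_not, Finset.card_range]
    omega
  have hdeg : ∀ v, (G'.neighborSet v).ncard ≤ d := by
    intro v
    rw [hdg]
    have h1 := hsum v
    have h2 := hd v
    omega
  have hmax : ∀ v, (G'.neighborSet v).ncard = d →
      dg G v + ((range L).filter fun ℓ => mm ℓ v = v).card = Δ + 2 * p := by
    intro v hv
    rw [hdg] at hv
    have h1 := hsum v
    have h2 := hd v
    omega
  have hcol : H28.ECol G' d := by
    refine four hdeg fun u v huv hh => ?_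
    have h1 := (hG' u v).1 huv
    obtain ⟨ℓ, hℓ, h2⟩ := hind u v h1.1 (hmax u hh.1) (hmax v hh.2)
    exact h1.2 ℓ hℓ h2
  obtain ⟨ec, hec1, hec2⟩ := hcol
  let Q : ℕ → Sym2 V → Prop := fun ℓ e => ∃ u v, e = s(u, v) ∧ mm ℓ u = v
  have hQ : ∀ ℓ < L, ∀ u v, Q ℓ s(u, v) → mm ℓ u = v := by
    rintro ℓ hℓ u v ⟨u', v', he, hm⟩
    rcases Sym2.eq_iff.1 he with ⟨h1, h2⟩ | ⟨h1, h2⟩
    · rw [h1, h2]; exact hm
    · rw [h1, h2]; exact hinv' ℓ hℓ _ _ hm
  let fE : Sym2 V → ℕ := fun e => if h : ∃ ℓ, ℓ < L ∧ Q ℓ e then h.choose else L + ec e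
  have hfE : ∀ u v, G.Adj u v → (∃ ℓ < L, fE s(u, v) = ℓ ∧ mm ℓ u = v) ∨
      (fE s(u, v) = L + ec s(u, v) ∧ G'.Adj u v) := by
    intro u v huv
    by_cases h : ∃ ℓ, ℓ < L ∧ Q ℓ s(u, v)
    · left
      refine ⟨h.choose, h.choose_spec.1, ?_, hQ _ h.choose_spec.1 _ _ h.choose_spec.2⟩
      simp only [fE]
      rw [dif_pos h]
    · right
      refine ⟨?_, (hG' u v).2 ⟨huv, fun ℓ hℓ hm => h ⟨ℓ, hℓ, u, v, rfl, hm⟩⟩⟩
      simp only [fE]
      rw [dif_neg h]
  refine ⟨c, fE, ?_, ?_, hprop, ?_, ?_⟩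
  · intro v
    have := hc v
    omega
  · intro e he
    induction e using Sym2.ind with
    | _ u v =>
      rw [SimpleGraph.mem_edgeSet] at he
      rcases hfE u v he with ⟨ℓ, hℓ, h1, _⟩ | ⟨h1, h2⟩
      · rw [h1]; omega
      · have h3 := hec1 u v h2
        rw [h1]; omega
  · intro u v huv
    rcases hfE u v huv with ⟨ℓ, hℓ, h1, h2⟩ | ⟨h1, h2⟩
    · have h4 : ¬ (c u < ℓ + p ∧ ℓ < c u + p) := by
        intro h
        have h5 := hfix ℓ hℓ u h.1 h.2
        rw [h2] at h5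
        exact huv.ne h5.symm
      rw [h1, le_abs]
      omega
    · have h3 := hc u
      rw [h1, le_abs]
      right
      push_cast
      omega
  · intro u v w huv huw hvw
    rcases hfE u v huv with ⟨ℓ, hℓ, h1, h2⟩ | ⟨h1, h2⟩ <;>
      rcases hfE u w huw with ⟨ℓ', hℓ', h1', h2'⟩ | ⟨h1', h2'⟩
    · rw [h1, h1']
      intro h
      rw [h, h2'] at h2
      exact hvw h2.symm
    · rw [h1, h1']; omega
    · rw [h1, h1']; omega
    · rw [h1, h1']
      have := hec2 u v w h2 h2' hvw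
      omega

end Pool.Agent.H71.DX
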