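import Mathlib
import Pool.Agent.H71.DN.Defs

/-!
Definitions for the Havet-Yu theorem for all graphs with `(1/2 + ε) n ≤ δ ≤ Δ ≤ (1 - ε) n`.
-/

set_option autoImplicit false

namespace Pool.Agent.H71.DX

open Finset Classical
open Pool.Agent.H71.DN

/-- `G` without the edges inside `Z`. -/
def gz {V : Type} (G : SimpleGraph V) (Z : Finset V) : SimpleGraph V where
  Adj u v := G.Adj u v ∧ ¬ (u ∈ Z ∧ v ∈ Z)
  symm := ⟨fun u v h => ⟨h.1.symm, fun h' => h.2 ⟨h'.2, h'.1⟩⟩⟩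
  loopless := ⟨fun u h => G.irrefl h.1⟩

/-- The expansion properties of the graph of unused reserve edges (three steps). -/
structure Ex2 {V : Type} [Fintype V] (F : SimpleGraph V) (D m b1 b2 q : ℕ) : Prop where
  d1 : ∀ v, D ≤ dg F v
  p2 : ∀ A Y : Finset V, m ≤ A.card → ee F A Y ≤ 8 * Fintype.card V →
    Y.card + b1 ≤ Fintype.card V
  p3 : ∀ A Y : Finset V, b1 ≤ A.card + q → ee F A Y ≤ 8 * Fintype.card V →
    Y.card + b2 ≤ Fintype.card V
  p4 : ∀ A B : Finset V, b2 ≤ A.card + q → b2 ≤ B.card + q → Fintype.card V < ee F A B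

/-- `K` edge-disjoint matchings `ν j`, `j < K`, of `G0`: at most `ζ` vertices are uncovered in each of
them, each vertex is uncovered in at most `e0` of them, and at most `e1` edges at each vertex are
not in their union. -/
structure NF {V : Type} [Fintype V] (G0 : SimpleGraph V) (K ζ e0 e1 : ℕ) (ν : ℕ → V → V) :
    Prop where
  inv : ∀ j < K, Inv (ν j)
  adj : ∀ j < K, ∀ v, ν j v ≠ v → G0.Adj v (ν j v)
  dis : ∀ i < K, ∀ j < K, i ≠ j → ∀ v, ν i v ≠ v → ν i v ≠ ν j v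
  unc : ∀ j < K, (univ.filter fun v => ν j v = v).card ≤ ζ
  mis : ∀ v, ((range K).filter fun j => ν j v = v).card ≤ e0
  lft : ∀ v, (univ.filter fun u => G0.Adj v u ∧ ∀ j < K, ν j v ≠ u).card ≤ e1

/-- The number of `U ℓ`, `ℓ < L`, that contain `v`. -/
noncomputable def mul {V : Type} (L : ℕ) (U : ℕ → Finset V) (v : V) : ℕ :=
  ((range L).filter fun ℓ => v ∈ U ℓ).card

/-- The numerical parameters of one graph: the reserve `R`, the graph `H` of the second batch, the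
set `Z` inside which there are no edges of `R` and `H`, natural families `ν1` (of the rest of
`G`) and `ν2` (of `H`). `u` bounds the forbidden sets, `s` their multiplicity. -/
structure Par2 {V : Type} [Fintype V] (G R H : SimpleGraph V) (Z : Finset V)
    (K1 K2 ζ0 e0 e1 f0 f1 u s t1 t2 D m b1 b2 q ζ β S1 c1 S2 c2 dS cap : ℕ)
    (ν1 ν2 : ℕ → V → V) : Prop where
  hR : R ≤ gz G Z
  hH : H ≤ gz G Z
  hRH : ∀ a b, R.Adj a b → ¬ H.Adj a b
  hν1 : NF (G \ (R ⊔ H)) K1 ζ0 e0 e1 ν1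
  hν2 : NF H K2 ζ0 f0 f1 ν2
  ht1 : Fintype.card V * s ^ t1 < t1.factorial
  ht2 : Fintype.card V * (s + dS) ^ t2 < t2.factorial
  hS1 : 0 < S1
  hS2 : 0 < S2
  h1 : ζ + 2 * β + 3 * m ≤ D
  h2 : ζ + 2 * β + 4 * m ≤ q
  hβ1 : u + c1 ≤ β
  hβ2 : u + cap + c2 ≤ β
  hζ : ζ0 + u + cap ≤ ζ
  hT1 : 14 * (Fintype.card V * (e0 + t1)) ≤ S1 * c1
  hT2 : 14 * (Fintype.card V * (f0 + t2)) ≤ S2 * c2
  hdS : e1 + s + t1 + (S1 + (e0 + t1)) ≤ dS
  hcap : 2 ≤ cap
  hK2 : 2 * s + 2 * dS + Fintype.card V * dS / (cap - 1) < K2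
  ex : ∀ F : SimpleGraph V, F ≤ R →
    (∀ v, dg R v ≤ dg F v + ((S1 + (e0 + t1)) + (S2 + (f0 + t2)))) →
    (∀ A B, ee R A B ≤ ee F A B + (14 * (Fintype.card V * (e0 + t1)) +
      14 * (Fintype.card V * (f0 + t2)))) → Ex2 F D m b1 b2 q

/-- The conclusion for the core theorem: matchings `mm ℓ`, `ℓ < L`, of `G - U ℓ`, every vertex is
uncovered outside the `U ℓ` at most once, and the vertices uncovered once are joined only by
edges of the matchings. -/
structure Cnc {V : Type} (G : SimpleGraph V) (L : ℕ) (U : ℕ → Finset V) (mm : ℕ → V → V) :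
    Prop where
  pm : PM G L U mm
  one : ∀ v, ((range L).filter fun ℓ => v ∉ U ℓ ∧ mm ℓ v = v).card ≤ 1
  ind : ∀ a b, G.Adj a b → (∃ ℓ < L, a ∉ U ℓ ∧ mm ℓ a = a) →
    (∃ ℓ < L, b ∉ U ℓ ∧ mm ℓ b = b) → ∃ ℓ < L, mm ℓ a = b

end Pool.Agent.H71.DX
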