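import Mathlib
import Pool.Agent.H71.DX.Defs
import Pool.Agent.H71.DN.Hit
import Pool.Agent.H28.VAL

/-!
NFF: natural families of matchings. (Compare `H71/DN/Ntm.lean`, which is proved: it contains the
definition of the matchings `ν j` of a proper edge colouring.)

`natf`. If `V` is empty take `K = N`... (everything is trivial). `H28.vizing` gives a proper edge
colouring of `G0` with `N` colours (`dg G0 v ≤ N - 1`); `ν' j v` = the neighbour `u` of `v` with
`c s(v, u) = j` if there is one, `v` otherwise. `#{j < N : ν' j v = v} = N - dg G0 v ≤ e0`. Call `j < N` bad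
if `#{v : ν' j v = v} > ζ`. `ζ #bad ≤ ∑_j #{v : ν' j v = v} = ∑_v #{j < N : ν' j v = v} ≤ #V e0`, so
`#bad ≤ #V e0 / ζ`. Let `K = N - #bad`, and `ν` the family of the good colours, numbered by `[0, K)` (and
`id` beyond). `lft`: a `G0`-neighbour `u` of `v` that is not among the `ν j v`, `j < K`, has a bad colour,
and different `u` have different colours: at most `#bad`.

`permf`. Let `I v j = {i : Fin K | ν j v ≠ v ∧ ν j v ∈ U i}` for `j : Fin K`; `#(I v j) ≤ s` by `hs` for the vertex
`ν j v`. `hit` gives `σ : Perm (Fin K)` with `#{j : σ j ∈ I v j} < t` for all `v`. `μ ℓ := ν (σ⁻¹ ℓ)` for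
`ℓ < K`. All the properties of `NF` are invariant under a permutation of `[0, K)`.
-/

set_option autoImplicit false

namespace Pool.Agent.H71.DX

open Finset Classical
open Pool.Agent.H71.DN

/-- The matching of the colour `j`. -/
noncomputable def nff_nu {V : Type} (G0 : SimpleGraph V) (c : Sym2 V → ℕ) (j : ℕ) (v : V) : V :=
  if h : ∃ u, G0.Adj v u ∧ c s(v, u) = j then h.choose else v

theorem nff_adj {V : Type} {G0 : SimpleGraph V} {c : Sym2 V → ℕ} {j : ℕ} {v : V}
    (h : nff_nu G0 c j v ≠ v) : G0.Adj v (nff_nu G0 c j v) ∧ c s(v, nff_nu G0 c j v) = j := by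
  by_cases hex : ∃ u, G0.Adj v u ∧ c s(v, u) = j
  · have h1 : nff_nu G0 c j v = hex.choose := by
      unfold nff_nu
      rw [dif_pos hex]
    rw [h1]
    exact hex.choose_spec
  · exfalso
    apply h
    unfold nff_nu
    rw [dif_neg hex]

theorem nff_eq {V : Type} {G0 : SimpleGraph V} {c : Sym2 V → ℕ} {N : ℕ} (hc : H28.IsEC G0 N c)
    {j : ℕ} {v u : V} (h : G0.Adj v u) (hj : c s(v, u) = j) : nff_nu G0 c j v = u := by
  have hex : ∃ u, G0.Adj v u ∧ c s(v, u) = j := ⟨u, h, hj⟩
  have h1 : nff_nu G0 c j v = hex.choose := by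
    unfold nff_nu
    rw [dif_pos hex]
  rw [h1]
  obtain ⟨h2, h3⟩ := hex.choose_spec
  by_contra hne
  exact hc.2 v _ _ h2 h hne (h3.trans hj.symm)

theorem nff_inv {V : Type} {G0 : SimpleGraph V} {c : Sym2 V → ℕ} {N : ℕ} (hc : H28.IsEC G0 N c)
    (j : ℕ) : Inv (nff_nu G0 c j) := by
  intro v
  by_cases h : nff_nu G0 c j v = v
  · rw [h, h]
  · obtain ⟨h1, h2⟩ := nff_adj h
    exact nff_eq hc h1.symm (by rw [Sym2.eq_swap]; exact h2)

theorem natf {V : Type} [Fintype V] (G0 : SimpleGraph V) (N ζ e0 : ℕ) (hζ : 1 ≤ ζ)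
    (hN : ∀ v, dg G0 v + 1 ≤ N) (he : ∀ v, N ≤ dg G0 v + e0) :
    ∃ (K : ℕ) (ν : ℕ → V → V), K ≤ N ∧ N ≤ K + Fintype.card V * e0 / ζ ∧
      NF G0 K ζ e0 (Fintype.card V * e0 / ζ) ν := by
  rcases isEmpty_or_nonempty V with hV | ⟨⟨v0⟩⟩
  · refine ⟨N, fun _ => id, le_rfl, Nat.le_add_right _ _, ?_⟩
    refine ⟨fun _ _ _ => rfl, fun _ _ v => (hV.false v).elim, fun _ _ _ _ _ v => (hV.false v).elim,
      fun j _ => ?_, fun v => (hV.false v).elim, fun v => (hV.false v).elim⟩
    rw [Finset.univ_eq_empty, Finset.filter_empty, Finset.card_empty]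
    exact Nat.zero_le _
  have hN1 : 1 ≤ N := by have := hN v0; omega
  obtain ⟨c, hc⟩ : H28.ECol G0 N := by
    have h1 := H28.vizing (G := G0) (d := N - 1) (fun v => by
      have h2 : (G0.neighborSet v).ncard = dg G0 v := by
        unfold dg
        rw [Set.ncard_eq_toFinset_card']
        congr 1
        ext u
        simp
      rw [h2]
      have := hN v
      omega)
    rwa [Nat.sub_add_cancel hN1] at h1
  set ν := nff_nu G0 c with hν
  have hdis : ∀ j j' v, ν j v ≠ v → ν j v = ν j' v → j = j' := by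
    intro j j' v h1 h2
    have h3 := (nff_adj h1).2
    have h4 : ν j' v ≠ v := by rw [← h2]; exact h1
    have h5 := (nff_adj h4).2
    change c s(v, ν j v) = j at h3
    change c s(v, ν j' v) = j' at h5
    rw [← h3, ← h5, h2]
  have hcount : ∀ v, ((range N).filter fun j => ν j v = v).card ≤ e0 := by
    intro v
    have h1 : dg G0 v ≤ ((range N).filter fun j => ¬ ν j v = v).card := by
      unfold dg
      apply Finset.card_le_card_of_injOn (fun u => c s(v, u))
      · intro u hu
        have hu' : G0.Adj v u := (mem_filter.1 hu).2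
        refine mem_filter.2 ⟨mem_range.2 (hc.1 v u hu'), ?_⟩
        have h2 : ν (c s(v, u)) v = u := nff_eq hc hu' rfl
        show ¬ ν (c s(v, u)) v = v
        rw [h2]
        exact hu'.ne'
      · intro a ha b hb hab
        by_contra hne
        exact hc.2 v a b (mem_filter.1 ha).2 (mem_filter.1 hb).2 hne hab
    have h2 := Finset.card_filter_add_card_filter_not (s := range N) (fun j => ν j v = v)
    rw [card_range] at h2
    have h3 := he v
    omega
  -- the good colours
  set Gd : Finset ℕ := (range N).filter (fun j => (univ.filter fun v => ν j v = v).card ≤ ζ)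
    with hGd
  set Bd : Finset ℕ := (range N).filter (fun j => ¬ (univ.filter fun v => ν j v = v).card ≤ ζ)
    with hBd
  have hsum : Gd.card + Bd.card = N := by
    have h2 := Finset.card_filter_add_card_filter_not (s := range N)
      (fun j => (univ.filter fun v => ν j v = v).card ≤ ζ)
    rw [card_range] at h2
    exact h2
  have hbad : Bd.card ≤ Fintype.card V * e0 / ζ := by
    rw [Nat.le_div_iff_mul_le hζ]
    have h1 : Bd.card * ζ ≤ ∑ j ∈ range N, (univ.filter fun v => ν j v = v).card := by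
      have h2 : ∑ j ∈ Bd, (univ.filter fun v => ν j v = v).card ≤
          ∑ j ∈ range N, (univ.filter fun v => ν j v = v).card :=
        Finset.sum_le_sum_of_subset (Finset.filter_subset _ _)
      refine le_trans ?_ h2
      rw [← smul_eq_mul]
      refine Finset.card_nsmul_le_sum _ _ _ ?_
      intro j hj
      have h3 := (mem_filter.1 hj).2
      omega
    refine h1.trans ?_
    have h4 : ∑ j ∈ range N, (univ.filter fun v => ν j v = v).card =
        ∑ v : V, ((range N).filter fun j => ν j v = v).card := by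
      simp_rw [Finset.card_filter]
      rw [Finset.sum_comm]
    rw [h4]
    refine (Finset.sum_le_card_nsmul _ _ e0 fun v _ => hcount v).trans (le_of_eq ?_)
    rw [card_univ, smul_eq_mul]
  set g : ℕ → ℕ := fun i => if h : i < Gd.card then Gd.orderEmbOfFin rfl ⟨i, h⟩ else 0 with hg
  have hgd : ∀ i (h : i < Gd.card), g i = Gd.orderEmbOfFin rfl ⟨i, h⟩ := by
    intro i h
    rw [hg]
    simp only [dif_pos h]
  have hgm : ∀ i < Gd.card, g i ∈ Gd := by
    intro i h
    rw [hgd i h]
    exact Finset.orderEmbOfFin_mem Gd rfl _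
  have hginj : ∀ i < Gd.card, ∀ j < Gd.card, g i = g j → i = j := by
    intro i hi j hj h
    rw [hgd i hi, hgd j hj] at h
    have h1 := (Gd.orderEmbOfFin rfl).injective h
    exact congrArg Fin.val h1
  have hgsurj : ∀ j ∈ Gd, ∃ i < Gd.card, g i = j := by
    intro j hj
    have h1 : j ∈ Set.range (Gd.orderEmbOfFin rfl) := by
      rw [Finset.range_orderEmbOfFin]
      exact mem_coe.2 hj
    obtain ⟨i, hi⟩ := h1
    refine ⟨i, i.2, ?_⟩
    rw [hgd i i.2]
    exact hi
  have hgN : ∀ i < Gd.card, g i < N := fun i hi => mem_range.1 (mem_filter.1 (hgm i hi)).1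
  refine ⟨Gd.card, fun j => ν (g j), by omega, by omega, ?_⟩
  refine ⟨fun j _ => nff_inv hc _, fun j _ v h => (nff_adj h).1, ?_, ?_, ?_, ?_⟩
  · intro i hi j hj hne v h1 h2
    exact hne (hginj i hi j hj (hdis _ _ v h1 h2))
  · intro j hj
    exact (mem_filter.1 (hgm j hj)).2
  · intro v
    refine le_trans ?_ (hcount v)
    apply Finset.card_le_card_of_injOn g
    · intro j hj
      have h0 := mem_range.1 (mem_filter.1 hj).1
      have h1 := (mem_filter.1 hj).2
      exact mem_filter.2 ⟨mem_range.2 (hgN j h0), h1⟩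
    · intro a ha b hb hab
      exact hginj a (mem_range.1 (mem_filter.1 ha).1) b (mem_range.1 (mem_filter.1 hb).1) hab
  · intro v
    refine le_trans ?_ hbad
    apply Finset.card_le_card_of_injOn (fun u => c s(v, u))
    · intro u hu
      obtain ⟨h1, h2⟩ := (mem_filter.1 hu).2
      refine mem_filter.2 ⟨mem_range.2 (hc.1 v u h1), ?_⟩
      intro h3
      have h4 : c s(v, u) ∈ Gd := mem_filter.2 ⟨mem_range.2 (hc.1 v u h1), h3⟩
      obtain ⟨i, hi, h5⟩ := hgsurj _ h4
      have h6 : ν (g i) v = u := by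
        rw [h5]
        exact nff_eq hc h1 rfl
      exact h2 i hi h6
    · intro a ha b hb hab
      by_contra hne
      exact hc.2 v a b (mem_filter.1 ha).2.1 (mem_filter.1 hb).2.1 hne hab

theorem permf {V : Type} [Fintype V] (G0 : SimpleGraph V) (K ζ e0 e1 s t : ℕ)
    (ν : ℕ → V → V) (hν : NF G0 K ζ e0 e1 ν) (U : ℕ → Finset V) (hs : ∀ v, mul K U v ≤ s)
    (ht : Fintype.card V * s ^ t < t.factorial) :
    ∃ μ : ℕ → V → V, NF G0 K ζ e0 e1 μ ∧
      ∀ v, ((range K).filter fun ℓ => μ ℓ v ≠ v ∧ μ ℓ v ∈ U ℓ).card ≤ t := by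
  set I : V → Fin K → Finset (Fin K) := fun v j =>
    univ.filter fun i : Fin K => ν j v ≠ v ∧ ν j v ∈ U i with hI
  have hIs : ∀ v j, (I v j).card ≤ s := by
    intro v j
    refine le_trans ?_ (hs (ν j v))
    unfold mul
    apply Finset.card_le_card_of_injOn (fun i : Fin K => (i : ℕ))
    · intro i hi
      have h1 := (mem_filter.1 hi).2
      exact mem_filter.2 ⟨mem_range.2 i.2, h1.2⟩
    · intro a _ b _ hab
      exact Fin.ext hab
  obtain ⟨σ, hσ⟩ := hit I s t hIs ht
  set g : ℕ → ℕ := fun ℓ => if h : ℓ < K then (σ.symm ⟨ℓ, h⟩ : ℕ) else ℓ with hg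
  have hgd : ∀ ℓ (h : ℓ < K), g ℓ = (σ.symm ⟨ℓ, h⟩ : ℕ) := by
    intro ℓ h
    rw [hg]
    simp only [dif_pos h]
  have hgK : ∀ ℓ < K, g ℓ < K := by
    intro ℓ h
    rw [hgd ℓ h]
    exact Fin.is_lt _
  have hginj : ∀ ℓ < K, ∀ ℓ' < K, g ℓ = g ℓ' → ℓ = ℓ' := by
    intro ℓ hℓ ℓ' hℓ' h
    rw [hgd ℓ hℓ, hgd ℓ' hℓ'] at h
    have h1 := σ.symm.injective (Fin.ext h)
    exact congrArg Fin.val h1
  have hgsurj : ∀ j < K, ∃ ℓ < K, g ℓ = j := by
    intro j hj
    refine ⟨σ ⟨j, hj⟩, Fin.is_lt _, ?_⟩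
    rw [hgd _ (Fin.is_lt _)]
    simp
  refine ⟨fun ℓ => ν (g ℓ), ?_, ?_⟩
  · refine ⟨fun j hj => hν.inv _ (hgK j hj), fun j hj => hν.adj _ (hgK j hj), ?_,
      fun j hj => hν.unc _ (hgK j hj), ?_, ?_⟩
    · intro i hi j hj hne
      exact hν.dis _ (hgK i hi) _ (hgK j hj) fun h => hne (hginj i hi j hj h)
    · intro v
      refine le_trans ?_ (hν.mis v)
      apply Finset.card_le_card_of_injOn g
      · intro j hj
        have h0 := mem_range.1 (mem_filter.1 hj).1
        have h1 := (mem_filter.1 hj).2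
        exact mem_filter.2 ⟨mem_range.2 (hgK j h0), h1⟩
      · intro a ha b hb hab
        exact hginj a (mem_range.1 (mem_filter.1 ha).1) b (mem_range.1 (mem_filter.1 hb).1) hab
    · intro v
      refine le_trans (card_le_card ?_) (hν.lft v)
      intro u hu
      obtain ⟨h1, h2⟩ := (mem_filter.1 hu).2
      refine mem_filter.2 ⟨mem_univ _, h1, ?_⟩
      intro j hj
      obtain ⟨ℓ, hℓ, rfl⟩ := hgsurj j hj
      exact h2 ℓ hℓ
  · intro v
    have hσv : (univ.filter fun i : Fin K => σ i ∈ I v i).card ≤ t := by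
      refine le_trans (le_of_eq ?_) (hσ v).le
      congr 1
      ext i
      simp only [mem_filter, mem_univ, true_and]
    refine le_trans ?_ hσv
    rcases Nat.eq_zero_or_pos K with hK0 | hK0
    · have h0 : ((range K).filter fun ℓ => ν (g ℓ) v ≠ v ∧ ν (g ℓ) v ∈ U ℓ).card = 0 := by
        rw [hK0, range_zero, Finset.filter_empty, Finset.card_empty]
      exact h0.le.trans (Nat.zero_le _)
    set g' : ℕ → Fin K := fun ℓ => if h : ℓ < K then σ.symm ⟨ℓ, h⟩ else ⟨0, hK0⟩ with hg'
    have hgd' : ∀ ℓ (h : ℓ < K), g' ℓ = σ.symm ⟨ℓ, h⟩ := by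
      intro ℓ h
      rw [hg']
      simp only [dif_pos h]
    apply Finset.card_le_card_of_injOn g'
    · intro ℓ hℓ
      have h0 := mem_range.1 (mem_filter.1 hℓ).1
      have h1 : ν (g ℓ) v ≠ v ∧ ν (g ℓ) v ∈ U ℓ := (mem_filter.1 hℓ).2
      refine mem_filter.2 ⟨mem_univ _, ?_⟩
      rw [hgd' ℓ h0, Equiv.apply_symm_apply]
      refine mem_filter.2 ⟨mem_univ _, ?_⟩
      rw [hgd ℓ h0] at h1
      exact h1
    · intro a ha b hb hab
      have ha0 := mem_range.1 (mem_filter.1 ha).1
      have hb0 := mem_range.1 (mem_filter.1 hb).1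
      rw [hgd' a ha0, hgd' b hb0] at hab
      have h1 := σ.symm.injective hab
      exact congrArg Fin.val h1

end Pool.Agent.H71.DX
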