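import Mathlib
import Pool.Agent.H71.DX.Defs

/-!
GLA: the windows and the forbidden sets of the vertices outside `Lo`.

`V1 = {v // v ∉ Lo}`. `Wn c p ℓ` is the window (a set of vertices of `V`), `U1 ...  ℓ` the forbidden set in `V1`:
the vertices of the window and the `f x ℓ`, `x ∈ Lo`, `sx x ≤ ℓ`.

`u1_card`: `U1 ℓ` is the union of `Wn ∩ V1` and of the image of `{x ∈ Lo : sx x ≤ ℓ}` under `x ↦ f x ℓ`.
`u1_par`: this image is disjoint from `Wn` and the map is injective on `{x ∈ Lo : sx x ≤ ℓ}`, so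
 `#(U1 ℓ) = #(Wn ∩ V1) + #{x ∈ Lo : sx x ≤ ℓ}`, and `#(univ \ U1 ℓ) + #(U1 ℓ) = #V1`.
`u1_mul`: the labels `ℓ < L` with `v ∈ Wn c p ℓ` are at most `2 p - 1` many (`c v < ℓ + p ∧ ℓ < c v + p`), and
 for each `x ∈ Lo` at most one `ℓ` has `f x ℓ = v` (injectivity `inj`).
-/

set_option autoImplicit false

namespace Pool.Agent.H71.DX

open Finset Classical
open Pool.Agent.H71.DN

/-- The window of the label `ℓ`. -/
noncomputable def Wn {V : Type} [Fintype V] (c : V → ℕ) (p ℓ : ℕ) : Finset V :=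
  univ.filter fun v => c v < ℓ + p ∧ ℓ < c v + p

/-- The forbidden set of the label `ℓ` outside `Lo`. -/
noncomputable def U1 {V : Type} [Fintype V] (Lo : Finset V) (sx : V → ℕ) (f : V → ℕ → V)
    (c : V → ℕ) (p ℓ : ℕ) : Finset {v // v ∉ Lo} :=
  univ.filter fun v => v.1 ∈ Wn c p ℓ ∨ ∃ x ∈ Lo, sx x ≤ ℓ ∧ f x ℓ = v.1

/-- The properties of the edges at the vertices of `Lo`. -/
structure Fok {V : Type} [Fintype V] (G : SimpleGraph V) (Lo : Finset V) (sx : V → ℕ)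
    (f : V → ℕ → V) (c : V → ℕ) (p L : ℕ) : Prop where
  adj : ∀ x ∈ Lo, ∀ ℓ < L, sx x ≤ ℓ → G.Adj x (f x ℓ) ∧ f x ℓ ∉ Lo ∧ f x ℓ ∉ Wn c p ℓ
  inj : ∀ x ∈ Lo, ∀ ℓ < L, ∀ ℓ' < L, sx x ≤ ℓ → sx x ≤ ℓ' → f x ℓ = f x ℓ' → ℓ = ℓ'
  dis : ∀ x ∈ Lo, ∀ y ∈ Lo, ∀ ℓ < L, sx x ≤ ℓ → sx y ≤ ℓ → f x ℓ = f y ℓ → x = y

private theorem DxGlA_mf {α : Type} (p : α → Prop) (i : DecidablePred p) (s : Finset α) (a : α)
    (h : a ∈ @Finset.filter α p i s) : a ∈ s ∧ p a := (@Finset.mem_filter α p i s a).1 h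

theorem u1_card {V : Type} [Fintype V] (Lo : Finset V) (sx : V → ℕ) (f : V → ℕ → V)
    (c : V → ℕ) (p ℓ : ℕ) : (U1 Lo sx f c p ℓ).card ≤ (Wn c p ℓ).card + Lo.card := by
  have h1 : (U1 Lo sx f c p ℓ).card = ((U1 Lo sx f c p ℓ).image Subtype.val).card :=
    (card_image_of_injective _ Subtype.val_injective).symm
  have h2 : (U1 Lo sx f c p ℓ).image Subtype.val ⊆ Wn c p ℓ ∪ Lo.image (fun x => f x ℓ) := by
    intro v hv
    rw [mem_image] at hv
    obtain ⟨w, hw, rfl⟩ := hv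
    unfold U1 at hw
    rw [mem_filter] at hw
    rw [mem_union, mem_image]
    rcases hw.2 with h | ⟨x, hx, -, h⟩
    · exact Or.inl h
    · exact Or.inr ⟨x, hx, h⟩
  rw [h1]
  refine (card_le_card h2).trans ((card_union_le _ _).trans ?_)
  exact Nat.add_le_add_left card_image_le _

theorem u1_par {V : Type} [Fintype V] (G : SimpleGraph V) (Lo : Finset V) (sx : V → ℕ)
    (f : V → ℕ → V) (c : V → ℕ) (p L : ℕ) (hf : Fok G Lo sx f c p L) (ℓ : ℕ) (hℓ : ℓ < L) :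
    Even (univ \ U1 Lo sx f c p ℓ).card ↔
      Even (Fintype.card {v // v ∉ Lo} + (Lo.filter fun x => sx x ≤ ℓ).card +
        (univ.filter fun v : {v // v ∉ Lo} => v.1 ∈ Wn c p ℓ).card) := by
  obtain ⟨A, hA⟩ : ∃ A : Finset {v // v ∉ Lo}, A = univ.filter fun v => v.1 ∈ Wn c p ℓ := ⟨_, rfl⟩
  obtain ⟨B, hB⟩ : ∃ B : Finset {v // v ∉ Lo},
    B = univ.filter fun v => ∃ x ∈ Lo, sx x ≤ ℓ ∧ f x ℓ = v.1 := ⟨_, rfl⟩
  have hU : U1 Lo sx f c p ℓ = A ∪ B := by
    rw [hA, hB]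
    unfold U1
    ext v
    simp only [mem_filter, mem_univ, true_and, mem_union]
  have hdis : Disjoint A B := by
    rw [disjoint_left]
    intro v hv hv'
    rw [hA, mem_filter] at hv
    rw [hB, mem_filter] at hv'
    obtain ⟨-, x, hx, hs, hfx⟩ := hv'
    have h3 := (hf.adj x hx ℓ hℓ hs).2.2
    rw [hfx] at h3
    exact h3 hv.2
  have hBc : B.card = (Lo.filter fun x => sx x ≤ ℓ).card := by
    have h1 : B.card = (B.image Subtype.val).card :=
      (card_image_of_injective _ Subtype.val_injective).symm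
    have h2 : B.image Subtype.val = (Lo.filter fun x => sx x ≤ ℓ).image (fun x => f x ℓ) := by
      ext v
      rw [mem_image, mem_image]
      constructor
      · rintro ⟨w, hw, rfl⟩
        rw [hB, mem_filter] at hw
        obtain ⟨-, x, hx, hs, hfx⟩ := hw
        exact ⟨x, mem_filter.2 ⟨hx, hs⟩, hfx⟩
      · rintro ⟨x, hx, hfx⟩
        rw [mem_filter] at hx
        have h3 := (hf.adj x hx.1 ℓ hℓ hx.2).2.1
        refine ⟨⟨f x ℓ, h3⟩, ?_, hfx⟩
        rw [hB, mem_filter]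
        exact ⟨mem_univ _, x, hx.1, hx.2, rfl⟩
    rw [h1, h2]
    apply card_image_of_injOn
    intro x hx y hy hxy
    rw [mem_coe, mem_filter] at hx hy
    exact hf.dis x hx.1 y hy.1 ℓ hℓ hx.2 hy.2 hxy
  have h4 : (univ \ U1 Lo sx f c p ℓ).card + (U1 Lo sx f c p ℓ).card =
      Fintype.card {v // v ∉ Lo} := by
    have h5 := card_sdiff_add_card_eq_card (subset_univ (U1 Lo sx f c p ℓ))
    rw [h5, card_univ]
  have h6 : (U1 Lo sx f c p ℓ).card = A.card + B.card := by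
    rw [hU, card_union_of_disjoint hdis]
  rw [h6, hBc] at h4
  rw [← hA, ← h4]
  have h7 : (univ \ U1 Lo sx f c p ℓ).card + (A.card + (Lo.filter fun x => sx x ≤ ℓ).card) +
      (Lo.filter fun x => sx x ≤ ℓ).card + A.card = (univ \ U1 Lo sx f c p ℓ).card +
      2 * (A.card + (Lo.filter fun x => sx x ≤ ℓ).card) := by ring
  rw [h7]
  constructor
  · intro h
    exact h.add (even_two_mul _)
  · intro h
    exact (Nat.even_add.1 h).2 (even_two_mul _)

theorem u1_mul {V : Type} [Fintype V] (G : SimpleGraph V) (Lo : Finset V) (sx : V → ℕ)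
    (f : V → ℕ → V) (c : V → ℕ) (p L : ℕ) (hf : Fok G Lo sx f c p L) (v : {v // v ∉ Lo}) :
    mul L (U1 Lo sx f c p) v ≤ (2 * p - 1) + Lo.card := by
  have key : ∀ S : Finset ℕ, (∀ ℓ ∈ S, ℓ < L ∧ v ∈ U1 Lo sx f c p ℓ) →
      S.card ≤ (2 * p - 1) + Lo.card := by
    intro S hS
    have h1 : S ⊆ (Ico (c v.1 + 1 - p) (c v.1 + p)) ∪
          Lo.biUnion fun x => (range L).filter fun ℓ => sx x ≤ ℓ ∧ f x ℓ = v.1 := by
      intro ℓ hℓ
      obtain ⟨hL, hU⟩ := hS ℓ hℓ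
      unfold U1 at hU
      rw [mem_filter] at hU
      rw [mem_union, mem_biUnion, mem_Ico]
      rcases hU.2 with h | ⟨x, hx, hs, h⟩
      · left
        unfold Wn at h
        rw [mem_filter] at h
        obtain ⟨-, h3, h4⟩ := h
        constructor <;> omega
      · right
        exact ⟨x, hx, mem_filter.2 ⟨mem_range.2 hL, hs, h⟩⟩
    have h0 := (card_le_card h1).trans (card_union_le _ _)
    have h2 : (Ico (c v.1 + 1 - p) (c v.1 + p)).card ≤ 2 * p - 1 := by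
      rw [Nat.card_Ico]
      omega
    have h3 : (Lo.biUnion fun x => (range L).filter fun ℓ => sx x ≤ ℓ ∧ f x ℓ = v.1).card ≤
        Lo.card * 1 := by
      refine card_biUnion_le_card_mul _ _ _ ?_
      intro x hx
      rw [card_le_one]
      intro a ha b hb
      rw [mem_filter, mem_range] at ha hb
      exact hf.inj x hx a ha.1 b hb.1 ha.2.1 hb.2.1 (by rw [ha.2.2, hb.2.2])
    rw [mul_one] at h3
    exact h0.trans (Nat.add_le_add h2 h3)
  unfold mul
  refine key _ ?_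
  intro ℓ hℓ
  have h5 := DxGlA_mf _ _ _ _ hℓ
  exact ⟨mem_range.1 h5.1, h5.2⟩

end Pool.Agent.H71.DX
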