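import Mathlib
import Pool.Agent.H71.DX.Defs
import Pool.Agent.H71.DN.Alt

/-!
SAS and ZAS: two greedy choices.

`sas`: the edges of the sparse graph `S` are distributed to `K` labels (small matchings avoiding the
sets `U j`). Proof: put the edges of `S` one after the other (induction on a set/list of edges, or on
the subgraphs of `S`) into matchings `σ j`, keeping: `Inv (σ j)`, moved pairs are edges already treated,
each treated edge is in exactly one `σ j`, `σ j` fixes `U j`, `#{v : σ j v ≠ v} ≤ cap`. For a new edge `a b`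
a label `j < K` is forbidden if `a ∈ U j` or `b ∈ U j` (at most `2 s` labels), or `σ j a ≠ a` or `σ j b ≠ b`
(at most `2 dS` labels, since the `σ j a ≠ a` are different `S`-neighbours of `a`), or
`#{v : σ j v ≠ v} ≥ cap - 1` (at most `#V dS / (cap - 1)` labels, since
`∑_j #{v : σ j v ≠ v} = ∑_v #{j : σ j v ≠ v} ≤ #V dS`). So there is a free `j`; put `σ j a = b`, `σ j b = a`
(`join` of `H71/DN/Alt.lean`).

`zas`: choose `z ℓ ∈ Z ∖ U ℓ` for the `ℓ ∈ B` one after the other, different from the earlier ones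
(fewer than `#B` many).
-/

set_option autoImplicit false

namespace Pool.Agent.H71.DX

open Finset Classical
open Pool.Agent.H71.DN

/-- the invariant: the edges in `T` have been treated -/
structure SasI {V : Type} [Fintype V] (K : ℕ) (U : ℕ → Finset V) (cap : ℕ)
    (T : Finset (Sym2 V)) (σ : ℕ → V → V) : Prop where
  p1 : ∀ j < K, Inv (σ j)
  p2 : ∀ j < K, ∀ v, σ j v ≠ v → s(v, σ j v) ∈ T
  p3 : ∀ i < K, ∀ j < K, i ≠ j → ∀ v, σ i v ≠ v → σ i v ≠ σ j v
  p4 : ∀ a b, s(a, b) ∈ T → ∃ j < K, σ j a = b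
  p5 : ∀ j < K, ∀ v ∈ U j, σ j v = v
  p6 : ∀ j < K, (univ.filter fun v => σ j v ≠ v).card ≤ cap

theorem sas_deg {V : Type} [Fintype V] (S : SimpleGraph V) (K : ℕ) (U : ℕ → Finset V)
    (dS cap : ℕ) (hd : ∀ v, dg S v ≤ dS) (T : Finset (Sym2 V)) (hT : ∀ e ∈ T, e ∈ S.edgeSet)
    (σ : ℕ → V → V) (I : SasI K U cap T σ) (v : V) :
    ((range K).filter fun j => σ j v ≠ v).card ≤ dS := by
  refine le_trans ?_ (hd v)
  unfold dg
  refine card_le_card_of_injOn (fun j => σ j v) ?_ ?_
  · intro j hj
    rw [mem_coe, mem_filter, mem_range] at hj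
    rw [mem_coe, mem_filter]
    exact ⟨mem_univ _, hT _ (I.p2 j hj.1 v hj.2)⟩
  · intro i hi j hj hij
    rw [mem_coe, mem_filter, mem_range] at hi hj
    by_contra hne
    exact I.p3 i hi.1 j hj.1 hne v hi.2 hij

theorem sas_step {V : Type} [Fintype V] (S : SimpleGraph V) (K : ℕ) (U : ℕ → Finset V)
    (dS s cap : ℕ) (hd : ∀ v, dg S v ≤ dS) (hs : ∀ v, mul K U v ≤ s) (hcap : 2 ≤ cap)
    (hK : 2 * s + 2 * dS + Fintype.card V * dS / (cap - 1) < K)
    (T : Finset (Sym2 V)) (hT : ∀ e ∈ T, e ∈ S.edgeSet) (a b : V) (hab : S.Adj a b)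
    (hn : s(a, b) ∉ T) (σ : ℕ → V → V) (I : SasI K U cap T σ) :
    ∃ σ', SasI K U cap (insert s(a, b) T) σ' := by
  have hne : a ≠ b := hab.ne
  obtain ⟨B5, hB5⟩ : ∃ B5 : Finset ℕ, B5 = (range K).filter (fun j =>
    cap - 1 ≤ (univ.filter fun v => σ j v ≠ v).card) := ⟨_, rfl⟩
  have c5 : B5.card ≤ Fintype.card V * dS / (cap - 1) := by
    rw [Nat.le_div_iff_mul_le (by omega)]
    have h1 : B5.card * (cap - 1) ≤ ∑ j ∈ B5, (univ.filter fun v => σ j v ≠ v).card := by
      rw [← smul_eq_mul]
      refine card_nsmul_le_sum _ _ _ fun j hj => ?_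
      rw [hB5, mem_filter] at hj
      exact hj.2
    have h2 : ∑ j ∈ B5, (univ.filter fun v => σ j v ≠ v).card ≤
        ∑ j ∈ range K, (univ.filter fun v => σ j v ≠ v).card := by
      refine sum_le_sum_of_subset ?_
      rw [hB5]
      exact filter_subset _ _
    have h3 : ∑ j ∈ range K, (univ.filter fun v => σ j v ≠ v).card =
        ∑ v : V, ((range K).filter fun j => σ j v ≠ v).card := by
      simp only [card_filter]
      exact sum_comm
    have h4 : ∑ v : V, ((range K).filter fun j => σ j v ≠ v).card ≤ Fintype.card V * dS := by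
      refine (sum_le_sum fun v _ => sas_deg S K U dS cap hd T hT σ I v).trans ?_
      rw [sum_const, smul_eq_mul, card_univ]
    omega
  obtain ⟨j, hj, hjB⟩ : ∃ j ∈ range K, j ∉ ((range K).filter fun j => a ∈ U j) ∪
      ((range K).filter fun j => b ∈ U j) ∪ ((range K).filter fun j => σ j a ≠ a) ∪
      ((range K).filter fun j => σ j b ≠ b) ∪ B5 := by
    by_contra hc
    push Not at hc
    have h1 := card_le_card (fun j hj => hc j hj)
    rw [card_range] at h1
    have e1 := card_union_le (((range K).filter fun j => a ∈ U j) ∪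
      ((range K).filter fun j => b ∈ U j) ∪ ((range K).filter fun j => σ j a ≠ a) ∪
      ((range K).filter fun j => σ j b ≠ b)) B5
    have e2 := card_union_le (((range K).filter fun j => a ∈ U j) ∪
      ((range K).filter fun j => b ∈ U j) ∪ ((range K).filter fun j => σ j a ≠ a))
      ((range K).filter fun j => σ j b ≠ b)
    have e3 := card_union_le (((range K).filter fun j => a ∈ U j) ∪
      ((range K).filter fun j => b ∈ U j)) ((range K).filter fun j => σ j a ≠ a)
    have e4 := card_union_le ((range K).filter fun j => a ∈ U j)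
      ((range K).filter fun j => b ∈ U j)
    have m1 : ((range K).filter fun j => a ∈ U j).card ≤ s := hs a
    have m2 : ((range K).filter fun j => b ∈ U j).card ≤ s := hs b
    have m3 := sas_deg S K U dS cap hd T hT σ I a
    have m4 := sas_deg S K U dS cap hd T hT σ I b
    omega
  have hjK : j < K := mem_range.1 hj
  simp only [mem_union, not_or] at hjB
  obtain ⟨⟨⟨⟨n1, n2⟩, n3⟩, n4⟩, n5⟩ := hjB
  have ha : a ∉ U j := fun h => n1 (mem_filter.2 ⟨hj, h⟩)
  have hb : b ∉ U j := fun h => n2 (mem_filter.2 ⟨hj, h⟩)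
  have ha2 : σ j a = a := by
    by_contra h
    exact n3 (mem_filter.2 ⟨hj, h⟩)
  have hb2 : σ j b = b := by
    by_contra h
    exact n4 (mem_filter.2 ⟨hj, h⟩)
  have hc2 : ¬ cap - 1 ≤ (univ.filter fun v => σ j v ≠ v).card := fun h =>
    n5 (by rw [hB5]; exact mem_filter.2 ⟨hj, h⟩)
  obtain ⟨π, q1, q2, q3, q4⟩ := join (σ j) (I.p1 j hjK) a b hne ha2 hb2
  have upd : ∀ i, i ≠ j → Function.update σ j π i = σ i := fun i hi =>
    Function.update_of_ne hi _ _
  have upds : Function.update σ j π j = π := Function.update_self _ _ _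
  -- edges of the other matchings are different from `a b`
  have hx : ∀ i < K, ∀ v w, s(v, w) = s(a, b) → v ≠ w → σ i v ≠ w := by
    intro i hi v w hvw hvw2 h
    refine hn ?_
    rw [← hvw, ← h]
    exact I.p2 i hi v (by rw [h]; exact hvw2.symm)
  refine ⟨Function.update σ j π, ⟨?_, ?_, ?_, ?_, ?_, ?_⟩⟩
  · intro i hi
    by_cases h : i = j
    · subst h
      rw [upds]
      exact q1
    · rw [upd i h]
      exact I.p1 i hi
  · intro i hi v hv
    rw [mem_insert]
    by_cases h : i = j
    · subst h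
      rw [upds] at hv ⊢
      by_cases hva : v = a
      · subst hva
        left
        rw [q2]
      · by_cases hvb : v = b
        · subst hvb
          left
          rw [q3]
          exact Sym2.eq_swap
        · right
          rw [q4 v hva hvb] at hv ⊢
          exact I.p2 i hi v hv
    · rw [upd i h] at hv ⊢
      exact Or.inr (I.p2 i hi v hv)
  · intro i hi i' hi' hii v hv
    by_cases h : i = j
    · have h' : i' ≠ j := fun h2 => hii (h.trans h2.symm)
      subst h
      rw [upds] at hv ⊢
      rw [upd i' h']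
      by_cases hva : v = a
      · subst hva
        rw [q2]
        exact (hx i' hi' v b rfl hne).symm
      · by_cases hvb : v = b
        · subst hvb
          rw [q3]
          exact (hx i' hi' v a Sym2.eq_swap hne.symm).symm
        · rw [q4 v hva hvb] at hv ⊢
          exact I.p3 i hi i' hi' hii v hv
    · rw [upd i h] at hv ⊢
      by_cases h' : i' = j
      · subst h'
        rw [upds]
        by_cases hva : v = a
        · subst hva
          rw [q2]
          exact hx i hi v b rfl hne
        · by_cases hvb : v = b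
          · subst hvb
            rw [q3]
            exact hx i hi v a Sym2.eq_swap hne.symm
          · rw [q4 v hva hvb]
            exact I.p3 i hi i' hi' hii v hv
      · rw [upd i' h']
        exact I.p3 i hi i' hi' hii v hv
  · intro x y hxy
    rw [mem_insert] at hxy
    rcases hxy with hxy | hxy
    · refine ⟨j, hjK, ?_⟩
      rw [upds]
      rw [Sym2.eq_iff] at hxy
      rcases hxy with ⟨rfl, rfl⟩ | ⟨rfl, rfl⟩
      · exact q2
      · exact q3
    · obtain ⟨i, hi, h2⟩ := I.p4 x y hxy
      refine ⟨i, hi, ?_⟩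
      by_cases h : i = j
      · subst h
        rw [upds]
        have hxy3 : x ≠ y := by
          have h5 := hT _ hxy
          rw [SimpleGraph.mem_edgeSet] at h5
          exact h5.ne
        have hxa : x ≠ a := fun h4 => by
          rw [h4, ha2] at h2
          exact hxy3 (h4.trans h2)
        have hxb : x ≠ b := fun h4 => by
          rw [h4, hb2] at h2
          exact hxy3 (h4.trans h2)
        rw [q4 x hxa hxb]
        exact h2
      · rw [upd i h]
        exact h2
  · intro i hi v hv
    by_cases h : i = j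
    · subst h
      rw [upds, q4 v (fun h2 => ha (h2 ▸ hv)) (fun h2 => hb (h2 ▸ hv))]
      exact I.p5 i hi v hv
    · rw [upd i h]
      exact I.p5 i hi v hv
  · intro i hi
    by_cases h : i = j
    · subst h
      rw [upds]
      have h1 : (univ.filter fun v => π v ≠ v) ⊆ (univ.filter fun v => σ i v ≠ v) ∪ {a, b} := by
        intro v hv
        rw [mem_filter] at hv
        rw [mem_union, mem_filter, mem_insert, mem_singleton]
        by_cases hva : v = a
        · exact Or.inr (Or.inl hva)
        · by_cases hvb : v = b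
          · exact Or.inr (Or.inr hvb)
          · left
            rw [q4 v hva hvb] at hv
            exact ⟨mem_univ _, hv.2⟩
      have h2 := (card_le_card h1).trans (card_union_le _ _)
      have h3 : ({a, b} : Finset V).card ≤ 2 := card_le_two
      omega
    · rw [upd i h]
      exact I.p6 i hi

theorem sas {V : Type} [Fintype V] (S : SimpleGraph V) (K : ℕ) (U : ℕ → Finset V)
    (dS s cap : ℕ) (hd : ∀ v, dg S v ≤ dS) (hs : ∀ v, mul K U v ≤ s) (hcap : 2 ≤ cap)
    (hK : 2 * s + 2 * dS + Fintype.card V * dS / (cap - 1) < K) :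
    ∃ σ : ℕ → V → V, (∀ j < K, Inv (σ j)) ∧ (∀ j < K, ∀ v, σ j v ≠ v → S.Adj v (σ j v)) ∧
      (∀ i < K, ∀ j < K, i ≠ j → ∀ v, σ i v ≠ v → σ i v ≠ σ j v) ∧
      (∀ a b, S.Adj a b → ∃ j < K, σ j a = b) ∧ (∀ j < K, ∀ v ∈ U j, σ j v = v) ∧
      (∀ j < K, (univ.filter fun v => σ j v ≠ v).card ≤ cap) := by
  have key : ∀ T : Finset (Sym2 V), (∀ e ∈ T, e ∈ S.edgeSet) → ∃ σ, SasI K U cap T σ := by
    intro T
    induction T using Finset.induction_on with
    | empty =>
      intro _
      refine ⟨fun _ v => v, ⟨?_, ?_, ?_, ?_, ?_, ?_⟩⟩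
      · exact fun _ _ _ => rfl
      · exact fun _ _ v hv => absurd rfl hv
      · exact fun _ _ _ _ _ v hv => absurd rfl hv
      · intro a b hab
        simp at hab
      · exact fun _ _ _ _ => rfl
      · intro j _
        simp
    | insert e T he ih =>
      intro hT
      obtain ⟨σ, I⟩ := ih fun e' he' => hT e' (mem_insert_of_mem he')
      have he2 := hT e (mem_insert_self _ _)
      revert he he2
      refine Sym2.ind (fun a b => ?_) e
      intro he he2
      exact sas_step S K U dS s cap hd hs hcap hK T (fun e' he' => hT e' (mem_insert_of_mem he'))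
        a b he2 he σ I
  obtain ⟨σ, I⟩ := key (univ.filter fun e => e ∈ S.edgeSet) fun e he => (mem_filter.1 he).2
  refine ⟨σ, I.p1, fun j hj v hv => ?_, I.p3, fun a b hab => ?_, I.p5, I.p6⟩
  · exact (mem_filter.1 (I.p2 j hj v hv)).2
  · exact I.p4 a b (mem_filter.2 ⟨mem_univ _, hab⟩)

theorem zas {V : Type} [Fintype V] (Z : Finset V) (B : Finset ℕ) (U : ℕ → Finset V) (u : ℕ)
    (hU : ∀ ℓ ∈ B, (U ℓ).card ≤ u) (h : B.card + u < Z.card) :
    ∃ z : ℕ → V, (∀ ℓ ∈ B, z ℓ ∈ Z ∧ z ℓ ∉ U ℓ) ∧
      ∀ ℓ ∈ B, ∀ ℓ' ∈ B, z ℓ = z ℓ' → ℓ = ℓ' := by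
  induction B using Finset.induction_on with
  | empty =>
    by_cases hZ : Z.Nonempty
    · exact ⟨fun _ => hZ.choose, fun ℓ hℓ => absurd hℓ (notMem_empty ℓ),
        fun ℓ hℓ => absurd hℓ (notMem_empty ℓ)⟩
    · rw [not_nonempty_iff_eq_empty] at hZ
      rw [hZ, card_empty] at h
      exact absurd h (Nat.not_lt_zero _)
  | insert b B hb ih =>
    rw [card_insert_of_notMem hb] at h
    obtain ⟨z, h1, h2⟩ := ih (fun ℓ hℓ => hU ℓ (mem_insert_of_mem hℓ)) (by omega)
    obtain ⟨x, hx, hx2⟩ : ∃ x ∈ Z, x ∉ U b ∪ B.image z := by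
      by_contra hc
      push Not at hc
      have h3 := (card_le_card (fun x hx => hc x hx)).trans (card_union_le _ _)
      have h4 : (B.image z).card ≤ B.card := card_image_le
      have h5 := hU b (mem_insert_self _ _)
      omega
    rw [mem_union, not_or] at hx2
    have hnb : ∀ ℓ ∈ B, ℓ ≠ b := fun ℓ hℓ h3 => hb (by rw [← h3]; exact hℓ)
    have hzx : ∀ ℓ ∈ B, z ℓ ≠ x := fun ℓ hℓ h3 => hx2.2 (mem_image.2 ⟨ℓ, hℓ, h3⟩)
    refine ⟨Function.update z b x, fun ℓ hℓ => ?_, fun ℓ hℓ ℓ' hℓ' he => ?_⟩
    · rw [mem_insert] at hℓ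
      rcases hℓ with rfl | hℓ
      · rw [Function.update_self]
        exact ⟨hx, hx2.1⟩
      · rw [Function.update_of_ne (hnb _ hℓ)]
        exact h1 ℓ hℓ
    · rw [mem_insert] at hℓ hℓ'
      rcases hℓ with rfl | hℓ
      · rcases hℓ' with rfl | hℓ'
        · rfl
        · rw [Function.update_self, Function.update_of_ne (hnb _ hℓ')] at he
          exact absurd he.symm (hzx ℓ' hℓ')
      · rcases hℓ' with rfl | hℓ'
        · rw [Function.update_self, Function.update_of_ne (hnb _ hℓ)] at he
          exact absurd he (hzx ℓ hℓ)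
        · rw [Function.update_of_ne (hnb _ hℓ),
            Function.update_of_ne (hnb _ hℓ')] at he
          exact h2 ℓ hℓ ℓ' hℓ' he

end Pool.Agent.H71.DX
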