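import Mathlib
import Pool.Agent.H71.DN.Chn

/-!
CHX: tail bounds for a uniformly random function `f : E → Fin Q`, `X_e = [f e ∈ I e]` for given sets
`I e ⊆ Fin Q`. The proofs are those of `H71/DN/Chn.lean` (proved there for `I e = {0}`): independent
`X_e` with `P(X_e = 1) = p_e = #(I e) / Q`.

`tail1x`: `2 ^ (-t)`-moment: `∑_f ∏_e 2 ^ (- X_e c e) = ∏_e (Q - #(I e) (1 - 2 ^ (- c e)))`
 `≤ Q ^ #E exp (- ∑_e p_e (1 - 2 ^ (- c e))) ≤ Q ^ #E exp (- (3/8) q0 S)`, `S = ∑ c`, because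
 `1 - 2 ^ (- c) ≥ (3/8) c` for `c ∈ {0, 1, 2}` and `p_e ≥ q0` when `c e > 0`; Markov with `2 ^ (q0 S / 4)`
 and `log 2 / 4 ≤ 7 / 40`.
`tail2x`: as `tail2`: `∑_{i} exp (± t ([i ∈ I e] - p_e)) / Q ≤ 1 + t ^ 2 ≤ exp (t ^ 2)`, `t = x / 2`.
-/

set_option autoImplicit false

namespace Pool.Agent.H71.DX

open Finset Classical

theorem Chx_swap {E : Type} [Fintype E] (Q : ℕ) (w : E → Fin Q → ℝ) :
    ∑ f : E → Fin Q, ∏ e, w e (f e) = ∏ e, ∑ i : Fin Q, w e i := by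
  rw [Finset.prod_univ_sum, Fintype.piFinset_univ]

theorem Chx_c (c : ℕ) (hc : c ≤ 2) : (3 / 8 : ℝ) * c ≤ 1 - (1 / 2) ^ c := by
  interval_cases c <;> norm_num

theorem Chx_pow {E : Type} [Fintype E] (Q : ℕ) (c : E → ℕ) (I : E → Finset (Fin Q)) (f : E → Fin Q) :
    ∏ e, (if f e ∈ I e then (1 / 2 : ℝ) ^ (c e) else 1) =
      (1 / 2) ^ (∑ e, if f e ∈ I e then c e else 0) := by
  rw [← Finset.prod_pow_eq_pow_sum]
  refine Finset.prod_congr rfl fun e _ => ?_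
  by_cases h : f e ∈ I e
  · rw [if_pos h, if_pos h]
  · rw [if_neg h, if_neg h, pow_zero]

theorem Chx_sum (Q : ℕ) (J : Finset (Fin Q)) (u : ℝ) :
    ∑ i : Fin Q, (if i ∈ J then u else 1) = (Q : ℝ) - (J.card : ℝ) * (1 - u) := by
  have h1 : ∀ i : Fin Q, (if i ∈ J then u else 1) = 1 - (if i ∈ J then (1 - u) else 0) := by
    intro i
    split_ifs <;> ring
  rw [Finset.sum_congr rfl fun i _ => h1 i, Finset.sum_sub_distrib, Finset.sum_ite_mem, Finset.univ_inter,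
    Finset.sum_const, Finset.sum_const, Finset.card_univ, Fintype.card_fin, nsmul_eq_mul, nsmul_eq_mul, mul_one]

theorem tail1x {E : Type} [Fintype E] (Q : ℕ) (hQ : 1 ≤ Q) (c : E → ℕ) (hc : ∀ e, c e ≤ 2)
    (I : E → Finset (Fin Q)) (q0 : ℝ) (hq0 : 0 ≤ q0)
    (hI : ∀ e, 0 < c e → q0 * Q ≤ ((I e).card : ℝ)) :
    ((univ.filter fun f : E → Fin Q =>
      ((∑ e, if f e ∈ I e then c e else 0 : ℕ) : ℝ) < q0 / 4 * (∑ e, c e : ℕ)).card : ℝ) ≤
      (Q : ℝ) ^ Fintype.card E * Real.exp (-(q0 * (∑ e, c e : ℕ) / 5)) := by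
  obtain ⟨S, hS⟩ : ∃ S : ℝ, S = ((∑ e, c e : ℕ) : ℝ) := ⟨_, rfl⟩
  have hS0 : 0 ≤ S := by rw [hS]; positivity
  have hQ0 : (0 : ℝ) < Q := by exact_mod_cast hQ
  have hfac : ∀ e, ∑ i : Fin Q, (if i ∈ I e then (1 / 2 : ℝ) ^ (c e) else 1) ≤
      Q * Real.exp (-(3 / 8 * q0 * (c e : ℝ))) := by
    intro e
    rw [Chx_sum]
    have h2 := Real.add_one_le_exp (-(3 / 8 * q0 * (c e : ℝ)))
    have h3 := mul_le_mul_of_nonneg_left h2 hQ0.le
    have h4 := Chx_c (c e) (hc e)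
    rcases Nat.eq_zero_or_pos (c e) with h5 | h5
    · rw [h5]
      simp
    · have h6 := hI e h5
      have h7 : 0 ≤ 1 - (1 / 2 : ℝ) ^ (c e) := le_trans (by positivity) h4
      have h8 : q0 * Q * (3 / 8 * (c e : ℝ)) ≤ ((I e).card : ℝ) * (1 - (1 / 2 : ℝ) ^ (c e)) :=
        (mul_le_mul_of_nonneg_left h4 (by positivity)).trans (mul_le_mul_of_nonneg_right h6 h7)
      linarith
  have htot : ∑ f : E → Fin Q, (1 / 2 : ℝ) ^ (∑ e, if f e ∈ I e then c e else 0) ≤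
      (Q : ℝ) ^ Fintype.card E * Real.exp (-(3 / 8 * q0 * S)) := by
    have h1 : ∑ f : E → Fin Q, (1 / 2 : ℝ) ^ (∑ e, if f e ∈ I e then c e else 0) =
        ∏ e, ∑ i : Fin Q, (if i ∈ I e then (1 / 2 : ℝ) ^ (c e) else 1) := by
      rw [← Chx_swap Q (fun e i => if i ∈ I e then (1 / 2 : ℝ) ^ (c e) else 1)]
      exact Finset.sum_congr rfl fun f _ => (Chx_pow Q c I f).symm
    rw [h1]
    have h2 : ∏ e, ∑ i : Fin Q, (if i ∈ I e then (1 / 2 : ℝ) ^ (c e) else 1) ≤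
        ∏ e : E, ((Q : ℝ) * Real.exp (-(3 / 8 * q0 * (c e : ℝ)))) := by
      refine Finset.prod_le_prod (fun e _ => Finset.sum_nonneg fun i _ => ?_) fun e _ => hfac e
      split_ifs <;> positivity
    refine h2.trans (le_of_eq ?_)
    rw [Finset.prod_mul_distrib, Finset.prod_const, Finset.card_univ, ← Real.exp_sum]
    congr 2
    rw [hS, Nat.cast_sum, Finset.mul_sum, Finset.sum_neg_distrib]
  have hlow : ∀ f ∈ (univ.filter fun f : E → Fin Q =>
      ((∑ e, if f e ∈ I e then c e else 0 : ℕ) : ℝ) < q0 / 4 * (∑ e, c e : ℕ)),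
      Real.exp (-(7 / 40 * q0 * S)) ≤ (1 / 2 : ℝ) ^ (∑ e, if f e ∈ I e then c e else 0) := by
    intro f hf
    have h1 := (Finset.mem_filter.1 hf).2
    obtain ⟨X, hX⟩ : ∃ X : ℕ, X = ∑ e, if f e ∈ I e then c e else 0 := ⟨_, rfl⟩
    rw [← hX, ← hS] at h1
    rw [← hX]
    have h3 : (1 / 2 : ℝ) ^ X = Real.exp (-(Real.log 2 * X)) := by
      rw [one_div, inv_pow, Real.exp_neg, Real.exp_mul, Real.exp_log (by norm_num), Real.rpow_natCast]
    rw [h3]
    refine Real.exp_le_exp.2 (neg_le_neg ?_)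
    have h4 : Real.log 2 ≤ 7 / 10 := by linarith [Real.log_two_lt_d9]
    calc Real.log 2 * X ≤ 7 / 10 * (q0 / 4 * S) :=
          mul_le_mul h4 h1.le (Nat.cast_nonneg X) (by norm_num)
      _ = 7 / 40 * q0 * S := by ring
  have hcard : ((univ.filter fun f : E → Fin Q =>
      ((∑ e, if f e ∈ I e then c e else 0 : ℕ) : ℝ) < q0 / 4 * (∑ e, c e : ℕ)).card : ℝ) *
        Real.exp (-(7 / 40 * q0 * S)) ≤
      (Q : ℝ) ^ Fintype.card E * Real.exp (-(3 / 8 * q0 * S)) := by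
    refine le_trans ?_ htot
    rw [← nsmul_eq_mul]
    refine (Finset.card_nsmul_le_sum _ _ _ hlow).trans ?_
    exact Finset.sum_le_sum_of_subset_of_nonneg (Finset.filter_subset _ _) fun f _ _ => by positivity
  have he : Real.exp (-(7 / 40 * q0 * S)) * Real.exp (7 / 40 * q0 * S) = 1 := by
    rw [← Real.exp_add]
    simp
  have hfin := mul_le_mul_of_nonneg_right hcard (Real.exp_pos (7 / 40 * q0 * S)).le
  rw [mul_assoc, he, mul_one, mul_assoc, ← Real.exp_add] at hfin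
  refine hfin.trans (le_of_eq ?_)
  congr 2
  rw [hS]
  ring

theorem Chx_mgf (Q : ℕ) (hQ : 1 ≤ Q) (J : Finset (Fin Q)) (σ t : ℝ) (hσ : |σ| = 1) (ht0 : 0 ≤ t) (ht1 : t ≤ 1 / 2) :
    ∑ i : Fin Q, Real.exp (σ * t * ((if i ∈ J then 1 else 0) - (J.card : ℝ) / Q)) ≤ Q * Real.exp (t ^ 2) := by
  have hQ0 : (0 : ℝ) < Q := by exact_mod_cast hQ
  have hJ : (J.card : ℝ) ≤ Q := by
    have h := Finset.card_le_univ J
    rw [Fintype.card_fin] at h
    exact_mod_cast h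
  have hp1 : (J.card : ℝ) / Q ≤ 1 := by
    rw [div_le_one hQ0]
    exact hJ
  have hp0 : 0 ≤ (J.card : ℝ) / Q := by positivity
  have hy : ∀ i : Fin Q, |(if i ∈ J then (1 : ℝ) else 0) - (J.card : ℝ) / Q| ≤ 1 := by
    intro i
    split_ifs <;> rw [abs_le] <;> constructor <;> linarith
  have hpt : ∀ i : Fin Q, Real.exp (σ * t * ((if i ∈ J then 1 else 0) - (J.card : ℝ) / Q)) ≤
      1 + σ * t * ((if i ∈ J then 1 else 0) - (J.card : ℝ) / Q) + t ^ 2 := by
    intro i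
    obtain ⟨y, hyd⟩ : ∃ y : ℝ, y = (if i ∈ J then (1 : ℝ) else 0) - (J.card : ℝ) / Q := ⟨_, rfl⟩
    have hy1 : |y| ≤ 1 := by rw [hyd]; exact hy i
    rw [← hyd]
    have h1 : |σ * t * y| ≤ t := by
      rw [abs_mul, abs_mul, hσ, one_mul, abs_of_nonneg ht0]
      exact mul_le_of_le_one_right ht0 hy1
    have h2 := Real.abs_exp_sub_one_sub_id_le (x := σ * t * y) (h1.trans (by linarith))
    have h3 := (abs_le.1 h2).2
    have h4 : (σ * t * y) ^ 2 ≤ t ^ 2 := by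
      rw [← sq_abs (σ * t * y)]
      exact pow_le_pow_left₀ (abs_nonneg _) h1 2
    linarith
  refine (Finset.sum_le_sum fun i _ => hpt i).trans ?_
  have hz : ∑ i : Fin Q, ((if i ∈ J then (1 : ℝ) else 0) - (J.card : ℝ) / Q) = 0 := by
    rw [Finset.sum_sub_distrib, Finset.sum_ite_mem, Finset.univ_inter, Finset.sum_const, Finset.sum_const,
      Finset.card_univ, Fintype.card_fin, nsmul_eq_mul, nsmul_eq_mul, mul_one]
    field_simp
    ring
  rw [Finset.sum_add_distrib, Finset.sum_add_distrib, ← Finset.mul_sum, hz, mul_zero, add_zero]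
  simp only [Finset.sum_const, Finset.card_univ, Fintype.card_fin, nsmul_eq_mul, mul_one]
  have h5 := Real.add_one_le_exp (t ^ 2)
  nlinarith

theorem Chx_one {E : Type} [Fintype E] (Q : ℕ) (hQ : 1 ≤ Q) (D : Finset E) (I : E → Finset (Fin Q))
    (x n σ : ℝ) (hσ : |σ| = 1) (hx0 : 0 ≤ x) (hx1 : x ≤ 1) (hn : (D.card : ℝ) ≤ n) :
    ((univ.filter fun f : E → Fin Q =>
      x * n < σ * (((D.filter fun e => f e ∈ I e).card : ℝ) - (∑ e ∈ D, ((I e).card : ℝ)) / Q)).card : ℝ) ≤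
      (Q : ℝ) ^ Fintype.card E * Real.exp (-(x ^ 2 * n / 4)) := by
  have hQ0 : (0 : ℝ) < Q := by exact_mod_cast hQ
  obtain ⟨t, ht⟩ : ∃ t, t = x / 2 := ⟨_, rfl⟩
  have ht0 : 0 ≤ t := by rw [ht]; positivity
  have ht1 : t ≤ 1 / 2 := by rw [ht]; linarith
  have hYe : ∀ f : E → Fin Q, ((D.filter fun e => f e ∈ I e).card : ℝ) - (∑ e ∈ D, ((I e).card : ℝ)) / Q =
      ∑ e ∈ D, ((if f e ∈ I e then (1 : ℝ) else 0) - ((I e).card : ℝ) / Q) := by
    intro f
    rw [Finset.sum_sub_distrib, Finset.card_filter, Finset.sum_div]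
    push_cast
    ring
  have hprod : ∀ f : E → Fin Q, ∏ e, (if e ∈ D then
      Real.exp (σ * t * ((if f e ∈ I e then 1 else 0) - ((I e).card : ℝ) / Q)) else 1) =
      Real.exp (σ * t * (((D.filter fun e => f e ∈ I e).card : ℝ) - (∑ e ∈ D, ((I e).card : ℝ)) / Q)) := by
    intro f
    rw [hYe f, Finset.mul_sum, Real.exp_sum, Finset.prod_ite_mem, Finset.univ_inter]
  have htot : ∑ f : E → Fin Q, Real.exp (σ * t * (((D.filter fun e => f e ∈ I e).card : ℝ) - (∑ e ∈ D, ((I e).card : ℝ)) / Q)) ≤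
      (Q : ℝ) ^ Fintype.card E * Real.exp (t ^ 2 * n) := by
    have h1 : ∑ f : E → Fin Q, Real.exp (σ * t * (((D.filter fun e => f e ∈ I e).card : ℝ) - (∑ e ∈ D, ((I e).card : ℝ)) / Q)) =
        ∏ e, ∑ i : Fin Q, (if e ∈ D then
          Real.exp (σ * t * ((if i ∈ I e then 1 else 0) - ((I e).card : ℝ) / Q)) else 1) := by
      rw [← Chx_swap Q (fun e i => if e ∈ D then
          Real.exp (σ * t * ((if i ∈ I e then 1 else 0) - ((I e).card : ℝ) / Q)) else 1)]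
      exact Finset.sum_congr rfl fun f _ => (hprod f).symm
    rw [h1]
    have h2 : ∏ e, ∑ i : Fin Q, (if e ∈ D then
          Real.exp (σ * t * ((if i ∈ I e then 1 else 0) - ((I e).card : ℝ) / Q)) else 1) ≤
        ∏ e : E, ((Q : ℝ) * (if e ∈ D then Real.exp (t ^ 2) else 1)) := by
      refine Finset.prod_le_prod (fun e _ => Finset.sum_nonneg fun i _ => ?_) fun e _ => ?_
      · split_ifs <;> positivity
      · by_cases he : e ∈ D
        · simp only [if_pos he]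
          exact Chx_mgf Q hQ (I e) σ t hσ ht0 ht1
        · simp only [if_neg he, Finset.sum_const, Finset.card_univ, Fintype.card_fin, nsmul_eq_mul, mul_one]
          exact le_rfl
    refine h2.trans ?_
    rw [Finset.prod_mul_distrib, Finset.prod_const, Finset.card_univ, Finset.prod_ite_mem, Finset.univ_inter,
      Finset.prod_const, ← Real.exp_nat_mul]
    refine mul_le_mul_of_nonneg_left (Real.exp_le_exp.2 ?_) (by positivity)
    have := mul_le_mul_of_nonneg_right hn (sq_nonneg t)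
    linarith
  have hlow : ∀ f ∈ (univ.filter fun f : E → Fin Q =>
      x * n < σ * (((D.filter fun e => f e ∈ I e).card : ℝ) - (∑ e ∈ D, ((I e).card : ℝ)) / Q)),
      Real.exp (t * (x * n)) ≤
        Real.exp (σ * t * (((D.filter fun e => f e ∈ I e).card : ℝ) - (∑ e ∈ D, ((I e).card : ℝ)) / Q)) := by
    intro f hf
    have h1 := (Finset.mem_filter.1 hf).2
    refine Real.exp_le_exp.2 ?_
    have := mul_le_mul_of_nonneg_left h1.le ht0
    linarith
  have hcard : ((univ.filter fun f : E → Fin Q =>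
      x * n < σ * (((D.filter fun e => f e ∈ I e).card : ℝ) - (∑ e ∈ D, ((I e).card : ℝ)) / Q)).card : ℝ) *
      Real.exp (t * (x * n)) ≤ (Q : ℝ) ^ Fintype.card E * Real.exp (t ^ 2 * n) := by
    refine le_trans ?_ htot
    rw [← nsmul_eq_mul]
    refine (Finset.card_nsmul_le_sum _ _ _ hlow).trans ?_
    exact Finset.sum_le_sum_of_subset_of_nonneg (Finset.filter_subset _ _) fun f _ _ => by positivity
  have he : Real.exp (t * (x * n)) * Real.exp (-(t * (x * n))) = 1 := by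
    rw [← Real.exp_add]
    simp
  have hfin := mul_le_mul_of_nonneg_right hcard (Real.exp_pos (-(t * (x * n)))).le
  rw [mul_assoc, he, mul_one, mul_assoc, ← Real.exp_add] at hfin
  refine hfin.trans (le_of_eq ?_)
  congr 2
  rw [ht]
  ring

theorem tail2x {E : Type} [Fintype E] (Q : ℕ) (hQ : 1 ≤ Q) (D : Finset E)
    (I : E → Finset (Fin Q)) (x n : ℝ) (hx0 : 0 ≤ x) (hx1 : x ≤ 1) (hn : (D.card : ℝ) ≤ n) :
    ((univ.filter fun f : E → Fin Q =>
      x * n < |((D.filter fun e => f e ∈ I e).card : ℝ) - (∑ e ∈ D, ((I e).card : ℝ)) / Q|).card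
        : ℝ) ≤ 2 * (Q : ℝ) ^ Fintype.card E * Real.exp (-(x ^ 2 * n / 4)) := by
  have h1 := Chx_one Q hQ D I x n 1 (by simp) hx0 hx1 hn
  have h2 := Chx_one Q hQ D I x n (-1) (by simp) hx0 hx1 hn
  have hsub : (univ.filter fun f : E → Fin Q =>
      x * n < |((D.filter fun e => f e ∈ I e).card : ℝ) - (∑ e ∈ D, ((I e).card : ℝ)) / Q|) ⊆
      (univ.filter fun f : E → Fin Q =>
        x * n < 1 * (((D.filter fun e => f e ∈ I e).card : ℝ) - (∑ e ∈ D, ((I e).card : ℝ)) / Q)) ∪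
      (univ.filter fun f : E → Fin Q =>
        x * n < (-1) * (((D.filter fun e => f e ∈ I e).card : ℝ) - (∑ e ∈ D, ((I e).card : ℝ)) / Q)) := by
    intro f hf
    have h3 := (Finset.mem_filter.1 hf).2
    rw [Finset.mem_union, Finset.mem_filter, Finset.mem_filter]
    rcases lt_abs.1 h3 with h4 | h4
    · exact Or.inl ⟨Finset.mem_univ _, by linarith⟩
    · exact Or.inr ⟨Finset.mem_univ _, by linarith⟩
  have h3 : ((univ.filter fun f : E → Fin Q =>
      x * n < |((D.filter fun e => f e ∈ I e).card : ℝ) - (∑ e ∈ D, ((I e).card : ℝ)) / Q|).card : ℝ) ≤ _ :=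
    Nat.cast_le.2 ((Finset.card_le_card hsub).trans (Finset.card_union_le _ _))
  rw [Nat.cast_add] at h3
  linarith

end Pool.Agent.H71.DX
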