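import Mathlib
import Pool.Agent.H71.DX.Defs
import Pool.Agent.H71.DX.Chx
import Pool.Agent.H71.DN.Res

/-!
RND: the random set `Z` and the random graphs `R`, `H` without edges inside `Z`.
(Compare `H71/DN/Res.lean`, which is proved.)

`rndZ`. `E = V`, `Q = 2 M`, `I v = {i : i < M - 1}`, `Z = {v : f v ∈ I v}`; `p = (M - 1) / (2 M)`. `tail2x` with
 `D = univ` and with `D =` the neighbours of `v` (`n = #V`, `x = min η 1`): the number of bad `f` is at
 most `Q ^ n (2 + 2 n) exp (- x² n / 4) < Q ^ n` for `n ≥ n0`.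

`rndR`. `E = Sym2 V`, `f : Sym2 V → Fin Q`. For an edge `e = s(a, b)` let `w e = M + 1` if exactly one of
 `a, b` is in `Z`, `w e = 2` if none is, and `w e = 0` if both are in `Z`. `e` is in `R` iff `G.Adj a b` and
 `f e < J w e`; in `H` iff `G.Adj a b` and `J w e ≤ f e < (J + 1) w e` (`(J + 1) (M + 1) ≤ Q`, `M + 1 ≥ 2`).
 So `R, H ≤ gz G Z` are disjoint.
 * Degrees: `tail2x` with `D_v = {s(v, u) : G.Adj v u}`, `I e = {i : i < J w e}` resp.
   `{i : J w e ≤ i < (J + 1) w e}`, real bound `n`: for all but `2 Q ^ #E exp (- x² n / 4)` functions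
   `|dg R v - (∑_{e ∈ D_v} J w e) / Q| ≤ x n`, and `∑_{e ∈ D_v} w e` is `(M + 1) dy` for `v ∈ Z` and
   `(M + 1) dz + 2 dy` for `v ∉ Z` (`dz`, `dy` the numbers of neighbours of `v` in and outside `Z`).
 * Pairs `(A, B)` with `lam n² ≤ ee (gz G Z) A B`: `c e = #{x ∈ A ×ˢ B : (gz G Z).Adj x.1 x.2, s(x.1, x.2) = e}`,
   `∑ c = ee (gz G Z) A B`, `ee R A B = ∑ [f e < J w e] c e`; `c e > 0` implies `w e ≥ 2`, so `tail1x` with
   `q0 = 2 J / Q` gives: for all but `Q ^ #E exp (- q0 lam n² / 5)` functions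
   `ee R A B ≥ (q0 / 4) ee (gz G Z) A B ≥ (q0 / 4) lam n²`. There are `4 ^ n` pairs.
 The total number of bad functions is `< Q ^ #E` for `n ≥ n0`.
-/

set_option autoImplicit false

namespace Pool.Agent.H71.DX

open Finset Classical
open Pool.Agent.H71.DN

/-- The expected degree of `v` in `R` (for `J`) and in `H` (for `J = 1`). -/
noncomputable def mean {V : Type} [Fintype V] (G : SimpleGraph V) (Z : Finset V) (M Q : ℕ)
    (J : ℝ) (v : V) : ℝ :=
  if v ∈ Z then J * (M + 1) / Q * ((univ.filter fun u => G.Adj v u ∧ u ∉ Z).card : ℝ)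
  else J * (M + 1) / Q * ((univ.filter fun u => G.Adj v u ∧ u ∈ Z).card : ℝ) +
    2 * J / Q * ((univ.filter fun u => G.Adj v u ∧ u ∉ Z).card : ℝ)

/-- the elements `i` of `Fin Q` with `a ≤ i < b` -/
def Iv (Q a b : ℕ) : Finset (Fin Q) := univ.filter fun i : Fin Q => a ≤ (i : ℕ) ∧ (i : ℕ) < b

theorem Rnd_Iv_card (Q a b : ℕ) (hb : b ≤ Q) : (Iv Q a b).card = b - a := by
  have h : (Iv Q a b).image (fun i : Fin Q => (i : ℕ)) = Finset.Ico a b := by
    ext x
    unfold Iv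
    simp only [Finset.mem_image, Finset.mem_filter, Finset.mem_univ, true_and, Finset.mem_Ico]
    constructor
    · rintro ⟨i, hi, rfl⟩
      exact hi
    · intro hx
      exact ⟨⟨x, lt_of_lt_of_le hx.2 hb⟩, hx, rfl⟩
  rw [← Nat.card_Ico, ← h, Finset.card_image_of_injective _ Fin.val_injective]

theorem Rnd_good {E ι : Type} [Fintype E] (Q : ℕ) (T : Finset ι) (B : ι → Finset (E → Fin Q))
    (h : ∑ i ∈ T, ((B i).card : ℝ) < (Q : ℝ) ^ Fintype.card E) :
    ∃ f : E → Fin Q, ∀ i ∈ T, f ∉ B i := by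
  by_contra hcon
  push Not at hcon
  have hcov : (univ : Finset (E → Fin Q)) ⊆ T.biUnion B := by
    intro f _
    rw [Finset.mem_biUnion]
    exact hcon f
  have h1 := (Finset.card_le_card hcov).trans Finset.card_biUnion_le
  rw [Finset.card_univ, Fintype.card_fun, Fintype.card_fin] at h1
  have h2 : (Q : ℝ) ^ Fintype.card E ≤ ∑ i ∈ T, ((B i).card : ℝ) := by exact_mod_cast h1
  linarith

theorem Rnd_num (c a : ℝ) (hc : 0 < c) (ha : 0 < a) :
    ∃ n0 : ℕ, ∀ n : ℕ, n0 ≤ n → 1 ≤ n ∧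
      4 * (n : ℝ) * Real.exp (-(c * n)) + 4 ^ n * Real.exp (-(a * (n : ℝ) ^ 2)) < 1 := by
  obtain ⟨n0, hn0⟩ := Res_num (c / 2) a (by positivity) ha
  refine ⟨n0 + 1, fun n hn => ⟨by omega, ?_⟩⟩
  have h := hn0 n (by omega)
  have hn1 : (1 : ℝ) ≤ n := by
    have : 1 ≤ n := by omega
    exact_mod_cast this
  obtain ⟨y, hy⟩ : ∃ y : ℝ, y = Real.exp (-(c / 2 * n)) := ⟨_, rfl⟩
  have hy0 : 0 < y := by rw [hy]; exact Real.exp_pos _
  have hyy : Real.exp (-(c * n)) = y * y := by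
    rw [hy, ← Real.exp_add]
    congr 1
    ring
  rw [← hy] at h
  rw [hyy]
  have hp : 0 < (4 : ℝ) ^ n * Real.exp (-(a * (n : ℝ) ^ 2)) := by positivity
  have h1 : (n : ℝ) * (2 * y) < 1 := by linarith
  have h2 : 2 * y ≤ 1 := by nlinarith
  have h3 : 4 * (n : ℝ) * (y * y) ≤ (n : ℝ) * (2 * y) := by
    have h4 : 0 ≤ (n : ℝ) * (2 * y) := by positivity
    nlinarith
  linarith

theorem rndZ (M : ℕ) (hM : 2 ≤ M) (η : ℝ) (hη : 0 < η) :
    ∃ n0 : ℕ, ∀ (V : Type) [Fintype V] (G : SimpleGraph V), n0 ≤ Fintype.card V →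
      ∃ Z : Finset V,
        |(Z.card : ℝ) - (M - 1) / (2 * M) * Fintype.card V| ≤ η * Fintype.card V ∧
        ∀ v, |((univ.filter fun u => G.Adj v u ∧ u ∈ Z).card : ℝ) -
          (M - 1) / (2 * M) * dg G v| ≤ η * Fintype.card V := by
  obtain ⟨n0, hn0⟩ := Rnd_num ((min η 1) ^ 2 / 4) 1 (by positivity) one_pos
  refine ⟨n0, fun V _ G hV => ?_⟩
  obtain ⟨n, hn⟩ : ∃ n : ℕ, n = Fintype.card V := ⟨_, rfl⟩
  rw [← hn] at hV ⊢
  obtain ⟨hn1, hnum⟩ := hn0 n hV
  obtain ⟨x, hx⟩ : ∃ x : ℝ, x = min η 1 := ⟨_, rfl⟩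
  have hx0 : 0 ≤ x := by rw [hx]; positivity
  have hx1 : x ≤ 1 := by rw [hx]; exact min_le_right _ _
  have hxη : x ≤ η := by rw [hx]; exact min_le_left _ _
  rw [← hx] at hnum
  have hn1' : (1 : ℝ) ≤ n := by exact_mod_cast hn1
  have hM0 : (0 : ℝ) < M := by
    have : 0 < M := by omega
    exact_mod_cast this
  obtain ⟨D, hD⟩ : ∃ D : Option V → Finset V, D = fun o =>
    match o with
    | none => univ
    | some v => univ.filter fun u => G.Adj v u := ⟨_, rfl⟩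
  obtain ⟨B, hB⟩ : ∃ B : Option V → Finset (V → Fin (2 * M)), B = fun o =>
    univ.filter fun f : V → Fin (2 * M) =>
      x * (n : ℝ) < |(((D o).filter fun e => f e ∈ Iv (2 * M) 0 (M - 1)).card : ℝ) -
        (∑ e ∈ D o, ((Iv (2 * M) 0 (M - 1)).card : ℝ)) / (2 * M : ℕ)| := ⟨_, rfl⟩
  have hBc : ∀ o, ((B o).card : ℝ) ≤
      2 * ((2 * M : ℕ) : ℝ) ^ Fintype.card V * Real.exp (-(x ^ 2 * n / 4)) := by
    intro o
    have h := tail2x (E := V) (2 * M) (by omega) (D o) (fun _ => Iv (2 * M) 0 (M - 1)) x n hx0 hx1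
      (by
        rw [hn]
        exact_mod_cast Finset.card_le_univ _)
    rw [hB]
    refine (le_of_eq ?_).trans h
    refine congrArg (fun k : ℕ => (k : ℝ)) (congrArg Finset.card ?_)
    ext f
    simp only [Finset.mem_filter, Finset.mem_univ, true_and]
  have hΩ0 : 0 < ((2 * M : ℕ) : ℝ) ^ Fintype.card V := by positivity
  obtain ⟨f, hf⟩ := Rnd_good (E := V) (2 * M) (univ : Finset (Option V)) B (by
    refine lt_of_le_of_lt (Finset.sum_le_sum fun o _ => hBc o) ?_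
    rw [Finset.sum_const, Finset.card_univ, Fintype.card_option, nsmul_eq_mul, ← hn]
    push_cast
    obtain ⟨Ω, hΩ⟩ : ∃ Ω : ℝ, Ω = (2 * (M : ℝ)) ^ n := ⟨_, rfl⟩
    have hΩp : 0 < Ω := by rw [hΩ]; positivity
    rw [← hΩ]
    have he : Real.exp (-(x ^ 2 * n / 4)) = Real.exp (-(x ^ 2 / 4 * n)) := by
      congr 1
      ring
    rw [he]
    have hp : 0 < (4 : ℝ) ^ n * Real.exp (-(1 * (n : ℝ) ^ 2)) := by positivity
    have hy0 := Real.exp_pos (-(x ^ 2 / 4 * n))
    have h1 : 4 * (n : ℝ) * Real.exp (-(x ^ 2 / 4 * n)) < 1 := by linarith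
    have h2 : ((n : ℝ) + 1) * (2 * Ω * Real.exp (-(x ^ 2 / 4 * n))) ≤
        Ω * (4 * (n : ℝ) * Real.exp (-(x ^ 2 / 4 * n))) := by
      have h3 : 0 ≤ Ω * Real.exp (-(x ^ 2 / 4 * n)) := by positivity
      nlinarith
    have h4 := mul_lt_mul_of_pos_left h1 hΩp
    linarith)
  have hIc : ((Iv (2 * M) 0 (M - 1)).card : ℝ) = (M : ℝ) - 1 := by
    rw [Rnd_Iv_card _ _ _ (by omega), Nat.sub_zero, Nat.cast_sub (by omega)]
    simp
  have hgen : ∀ o, |(((D o).filter fun e => f e ∈ Iv (2 * M) 0 (M - 1)).card : ℝ) -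
      (M - 1) / (2 * M) * (D o).card| ≤ η * n := by
    intro o
    have h := hf o (Finset.mem_univ _)
    rw [hB] at h
    simp only [Finset.mem_filter, Finset.mem_univ, true_and, not_lt] at h
    rw [Finset.sum_const, nsmul_eq_mul, hIc] at h
    have h5 : (M - 1 : ℝ) / (2 * M) * (D o).card = (D o).card * (M - 1) / (2 * M : ℕ) := by
      push_cast
      ring
    rw [h5]
    exact h.trans (mul_le_mul_of_nonneg_right hxη (by linarith))
  refine ⟨univ.filter fun v => f v ∈ Iv (2 * M) 0 (M - 1), ?_, ?_⟩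
  · have h := hgen none
    rw [hD] at h
    simp only at h
    rw [Finset.card_univ, ← hn] at h
    exact h
  · intro v
    have h := hgen (some v)
    rw [hD] at h
    simp only at h
    have h1 : ((univ.filter fun u => G.Adj v u).filter fun e => f e ∈ Iv (2 * M) 0 (M - 1)) =
        univ.filter fun u => G.Adj v u ∧ u ∈ univ.filter fun v => f v ∈ Iv (2 * M) 0 (M - 1) := by
      ext u
      simp only [Finset.mem_filter, Finset.mem_univ, true_and]
    rw [h1] at h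
    exact h

/-- the random subgraph given by `f` and the sets `I` -/
def RI {V : Type} (G : SimpleGraph V) {Q : ℕ} (I : Sym2 V → Finset (Fin Q)) (f : Sym2 V → Fin Q) :
    SimpleGraph V where
  Adj u v := G.Adj u v ∧ f s(u, v) ∈ I s(u, v)
  symm := by
    constructor
    intro u v h
    refine ⟨h.1.symm, ?_⟩
    rw [Sym2.eq_swap]
    exact h.2
  loopless := by
    constructor
    intro v h
    exact G.loopless.irrefl v h.1

theorem Rnd_dg {V : Type} [Fintype V] (G : SimpleGraph V) {Q : ℕ} (I : Sym2 V → Finset (Fin Q))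
    (f : Sym2 V → Fin Q) (v : V) :
    ((Dv G v).filter fun e => f e ∈ I e).card = dg (RI G I f) v := by
  have h : (Dv G v).filter (fun e => f e ∈ I e) =
      (univ.filter fun u => (RI G I f).Adj v u).image (fun u => s(v, u)) := by
    ext e
    unfold Dv
    simp only [Finset.mem_filter, Finset.mem_image, Finset.mem_univ, true_and]
    constructor
    · rintro ⟨⟨u, hu, rfl⟩, h0⟩
      exact ⟨u, ⟨hu, h0⟩, rfl⟩
    · rintro ⟨u, hu, rfl⟩
      exact ⟨⟨u, hu.1, rfl⟩, hu.2⟩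
  rw [h, Finset.card_image_of_injective _ (Res_inj v)]
  rfl

theorem Rnd_sum0 {V : Type} [Fintype V] (G : SimpleGraph V) {Q : ℕ} (I : Sym2 V → Finset (Fin Q))
    (f : Sym2 V → Fin Q) (A B : Finset V) :
    ∑ e, (if f e ∈ I e then cc G A B e else 0) = ee (RI G I f) A B := by
  rw [← Res_sum (RI G I f) A B]
  refine Finset.sum_congr rfl (fun e _ => ?_)
  by_cases h : f e ∈ I e
  · rw [if_pos h]
    unfold cc
    congr 1
    ext x
    simp only [Finset.mem_filter]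
    constructor
    · rintro ⟨⟨h1, h2⟩, h3⟩
      refine ⟨⟨h1, h2, ?_⟩, h3⟩
      rw [h3]
      exact h
    · rintro ⟨⟨h1, h2⟩, h3⟩
      exact ⟨⟨h1, h2.1⟩, h3⟩
  · rw [if_neg h]
    unfold cc
    symm
    rw [Finset.card_eq_zero]
    apply Finset.eq_empty_of_forall_notMem
    intro x hx
    have h3 := (Finset.mem_filter.1 hx).2
    have h2 := (Finset.mem_filter.1 (Finset.mem_filter.1 hx).1).2
    apply h
    rw [← h3]
    exact h2.2

/-- the weight of an edge -/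
noncomputable def ww {V : Type} (Z : Finset V) (M : ℕ) (e : Sym2 V) : ℕ :=
  if ∀ x ∈ e, x ∈ Z then 0 else if ∃ x ∈ e, x ∈ Z then M + 1 else 2

theorem Rnd_ww_le {V : Type} (Z : Finset V) (M : ℕ) (hM : 2 ≤ M) (e : Sym2 V) :
    ww Z M e ≤ M + 1 := by
  unfold ww
  split_ifs <;> omega

theorem Rnd_ww_mix {V : Type} (Z : Finset V) (M : ℕ) (a b : V) (ha : a ∈ Z) (hb : b ∉ Z) :
    ww Z M s(a, b) = M + 1 := by
  unfold ww
  rw [if_neg, if_pos]
  · exact ⟨a, Sym2.mem_mk_left a b, ha⟩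
  · intro h
    exact hb (h b (Sym2.mem_mk_right a b))

theorem Rnd_ww_mix' {V : Type} (Z : Finset V) (M : ℕ) (a b : V) (ha : a ∉ Z) (hb : b ∈ Z) :
    ww Z M s(a, b) = M + 1 := by
  rw [Sym2.eq_swap]
  exact Rnd_ww_mix Z M b a hb ha

theorem Rnd_ww_out {V : Type} (Z : Finset V) (M : ℕ) (a b : V) (ha : a ∉ Z) (hb : b ∉ Z) :
    ww Z M s(a, b) = 2 := by
  unfold ww
  rw [if_neg, if_neg]
  · rintro ⟨x, hx, hxZ⟩
    rcases Sym2.mem_iff.1 hx with rfl | rfl
    · exact ha hxZ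
    · exact hb hxZ
  · intro h
    exact hb (h b (Sym2.mem_mk_right a b))

theorem Rnd_ww_two {V : Type} (G : SimpleGraph V) (Z : Finset V) (M : ℕ) (hM : 2 ≤ M) (a b : V)
    (h : (gz G Z).Adj a b) : 2 ≤ ww Z M s(a, b) := by
  by_cases ha : a ∈ Z
  · have hb : b ∉ Z := fun hb => h.2 ⟨ha, hb⟩
    rw [Rnd_ww_mix Z M a b ha hb]
    omega
  · by_cases hb : b ∈ Z
    · rw [Rnd_ww_mix' Z M a b ha hb]
      omega
    · rw [Rnd_ww_out Z M a b ha hb]

theorem Rnd_sumD {V : Type} [Fintype V] (G : SimpleGraph V) (Z : Finset V) (M Q : ℕ) (J : ℝ)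
    (v : V) : (∑ e ∈ Dv (gz G Z) v, J * (ww Z M e : ℝ)) / Q = mean G Z M Q J v := by
  have h0 : ∑ e ∈ Dv (gz G Z) v, J * (ww Z M e : ℝ) =
      ∑ u ∈ univ.filter (fun u => (gz G Z).Adj v u), J * (ww Z M s(v, u) : ℝ) := by
    unfold Dv
    rw [Finset.sum_image fun a _ b _ h => Res_inj v h]
  rw [h0]
  unfold mean
  by_cases hv : v ∈ Z
  · rw [if_pos hv]
    have h1 : (univ.filter fun u => (gz G Z).Adj v u) = univ.filter fun u => G.Adj v u ∧ u ∉ Z := by
      ext u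
      simp only [Finset.mem_filter, Finset.mem_univ, true_and]
      constructor
      · intro h
        exact ⟨h.1, fun hu => h.2 ⟨hv, hu⟩⟩
      · intro h
        exact ⟨h.1, fun h' => h.2 h'.2⟩
    rw [h1, Finset.sum_congr rfl (g := fun _ => J * ((M : ℝ) + 1)) (fun u hu => ?_),
      Finset.sum_const, nsmul_eq_mul]
    · ring
    · rw [Rnd_ww_mix Z M v u hv (Finset.mem_filter.1 hu).2.2]
      push_cast
      ring
  · rw [if_neg hv]
    have h1 : (univ.filter fun u => (gz G Z).Adj v u) =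
        (univ.filter fun u => G.Adj v u ∧ u ∈ Z) ∪ univ.filter fun u => G.Adj v u ∧ u ∉ Z := by
      ext u
      simp only [Finset.mem_filter, Finset.mem_union, Finset.mem_univ, true_and]
      constructor
      · intro h
        by_cases hu : u ∈ Z
        · exact Or.inl ⟨h.1, hu⟩
        · exact Or.inr ⟨h.1, hu⟩
      · rintro (h | h)
        · exact ⟨h.1, fun h' => hv h'.1⟩
        · exact ⟨h.1, fun h' => hv h'.1⟩
    have h2 : Disjoint (univ.filter fun u => G.Adj v u ∧ u ∈ Z)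
        (univ.filter fun u => G.Adj v u ∧ u ∉ Z) := by
      rw [Finset.disjoint_left]
      intro u hu hu'
      exact (Finset.mem_filter.1 hu').2.2 (Finset.mem_filter.1 hu).2.2
    rw [h1, Finset.sum_union h2,
      Finset.sum_congr rfl (g := fun _ => J * ((M : ℝ) + 1))
        (s₁ := univ.filter fun u => G.Adj v u ∧ u ∈ Z) (fun u hu => ?_),
      Finset.sum_congr rfl (g := fun _ => J * (2 : ℝ))
        (s₁ := univ.filter fun u => G.Adj v u ∧ u ∉ Z) (fun u hu => ?_),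
      Finset.sum_const, Finset.sum_const, nsmul_eq_mul, nsmul_eq_mul]
    · ring
    · rw [Rnd_ww_out Z M v u hv (Finset.mem_filter.1 hu).2.2]
      push_cast
      ring
    · rw [Rnd_ww_mix' Z M v u hv (Finset.mem_filter.1 hu).2.2]
      push_cast
      ring

theorem rndR (M Q J : ℕ) (hM : 2 ≤ M) (hJ : 1 ≤ J) (hQ : (J + 1) * (M + 1) ≤ Q) (η lam : ℝ)
    (hη : 0 < η) (hl : 0 < lam) :
    ∃ n0 : ℕ, ∀ (V : Type) [Fintype V] (G : SimpleGraph V) (Z : Finset V),
      n0 ≤ Fintype.card V →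
      ∃ R H : SimpleGraph V, R ≤ gz G Z ∧ H ≤ gz G Z ∧ (∀ a b, R.Adj a b → ¬ H.Adj a b) ∧
        (∀ v, |(dg R v : ℝ) - mean G Z M Q J v| ≤ η * Fintype.card V) ∧
        (∀ v, |(dg H v : ℝ) - mean G Z M Q 1 v| ≤ η * Fintype.card V) ∧
        (∀ A B : Finset V, lam * (Fintype.card V : ℝ) ^ 2 ≤ ee (gz G Z) A B →
          2 * J / Q / 4 * (lam * (Fintype.card V : ℝ) ^ 2) ≤ ee R A B) := by
  have hQ2 : (2 : ℕ) ≤ Q := by nlinarith
  have hQ0 : (0 : ℝ) < Q := by
    have : 0 < Q := by omega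
    exact_mod_cast this
  have hJ0 : (0 : ℝ) < J := by
    have : 0 < J := by omega
    exact_mod_cast this
  obtain ⟨q0, hq0⟩ : ∃ q0 : ℝ, q0 = 2 * J / Q := ⟨_, rfl⟩
  have hq0p : 0 < q0 := by rw [hq0]; positivity
  obtain ⟨n0, hn0⟩ := Rnd_num ((min η 1) ^ 2 / 4) (q0 * lam / 5) (by positivity) (by positivity)
  refine ⟨n0, fun V _ G Z hV => ?_⟩
  obtain ⟨n, hn⟩ : ∃ n : ℕ, n = Fintype.card V := ⟨_, rfl⟩
  rw [← hn] at hV ⊢
  obtain ⟨hn1, hnum⟩ := hn0 n hV
  obtain ⟨x, hx⟩ : ∃ x : ℝ, x = min η 1 := ⟨_, rfl⟩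
  have hx0 : 0 ≤ x := by rw [hx]; positivity
  have hx1 : x ≤ 1 := by rw [hx]; exact min_le_right _ _
  have hxη : x ≤ η := by rw [hx]; exact min_le_left _ _
  rw [← hx] at hnum
  have hn1' : (1 : ℝ) ≤ n := by exact_mod_cast hn1
  obtain ⟨I, hI⟩ : ∃ I : Bool → Sym2 V → Finset (Fin Q), I = fun b e =>
    if b then Iv Q 0 (J * ww Z M e) else Iv Q (J * ww Z M e) ((J + 1) * ww Z M e) := ⟨_, rfl⟩
  have hw1 : ∀ e : Sym2 V, (J + 1) * ww Z M e ≤ Q := fun e =>
    (Nat.mul_le_mul_left _ (Rnd_ww_le Z M hM e)).trans hQ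
  have hw0 : ∀ e : Sym2 V, J * ww Z M e ≤ Q := fun e =>
    (Nat.mul_le_mul_right _ (by omega)).trans (hw1 e)
  have hIt : ∀ e, ((I true e).card : ℝ) = (J : ℝ) * ww Z M e := by
    intro e
    rw [hI]
    simp only [if_true]
    rw [Rnd_Iv_card _ _ _ (hw0 e), Nat.sub_zero]
    push_cast
    ring
  have hIf : ∀ e, ((I false e).card : ℝ) = (1 : ℝ) * ww Z M e := by
    intro e
    rw [hI]
    simp only [Bool.false_eq_true, if_false]
    rw [Rnd_Iv_card _ _ _ (hw1 e)]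
    have : (J + 1) * ww Z M e - J * ww Z M e = ww Z M e := by
      rw [Nat.add_mul, one_mul]
      omega
    rw [this, one_mul]
  obtain ⟨G', hG'⟩ : ∃ G' : SimpleGraph V, G' = gz G Z := ⟨_, rfl⟩
  obtain ⟨Ω, hΩ⟩ : ∃ Ω : ℝ, Ω = (Q : ℝ) ^ Fintype.card (Sym2 V) := ⟨_, rfl⟩
  have hΩ0 : 0 < Ω := by rw [hΩ]; positivity
  obtain ⟨B1, hB1⟩ : ∃ B1 : Bool × V → Finset (Sym2 V → Fin Q), B1 = fun p =>
    univ.filter fun f : Sym2 V → Fin Q =>
      x * (n : ℝ) < |(((Dv G' p.2).filter fun e => f e ∈ I p.1 e).card : ℝ) -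
        (∑ e ∈ Dv G' p.2, ((I p.1 e).card : ℝ)) / Q| := ⟨_, rfl⟩
  obtain ⟨B2, hB2⟩ : ∃ B2 : Finset V × Finset V → Finset (Sym2 V → Fin Q), B2 = fun P =>
    univ.filter fun f : Sym2 V → Fin Q =>
      ((∑ e, if f e ∈ I true e then cc G' P.1 P.2 e else 0 : ℕ) : ℝ) <
        q0 / 4 * (∑ e, cc G' P.1 P.2 e : ℕ) := ⟨_, rfl⟩
  obtain ⟨PP, hPP⟩ : ∃ PP : Finset (Finset V × Finset V), PP =
    univ.filter fun P => lam * (n : ℝ) ^ 2 ≤ (ee G' P.1 P.2 : ℝ) := ⟨_, rfl⟩
  have c1 : ∀ p, ((B1 p).card : ℝ) ≤ Ω * (2 * Real.exp (-(x ^ 2 / 4 * n))) := by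
    intro p
    have h := tail2x (E := Sym2 V) Q (by omega) (Dv G' p.2) (I p.1) x n hx0 hx1 (by
      rw [Res_Dv_card, hn]
      unfold dg
      exact_mod_cast Finset.card_le_univ _)
    rw [hB1]
    refine (le_of_eq ?_).trans (h.trans (le_of_eq ?_))
    · refine congrArg (fun k : ℕ => (k : ℝ)) (congrArg Finset.card ?_)
      ext f
      simp only [Finset.mem_filter, Finset.mem_univ, true_and]
    · rw [hΩ, show -(x ^ 2 * (n : ℝ) / 4) = -(x ^ 2 / 4 * n) by ring]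
      ring
  have c2 : ∀ P ∈ PP, ((B2 P).card : ℝ) ≤ Ω * Real.exp (-(q0 * lam / 5 * (n : ℝ) ^ 2)) := by
    intro P hP
    rw [hPP] at hP
    have hP' : lam * (n : ℝ) ^ 2 ≤ (ee G' P.1 P.2 : ℝ) := (Finset.mem_filter.1 hP).2
    have h := tail1x (E := Sym2 V) Q (by omega) (cc G' P.1 P.2) (Res_cc_le G' P.1 P.2) (I true) q0
      hq0p.le (by
        intro e he
        rw [hIt]
        have h2 : 2 ≤ ww Z M e := by
          unfold cc at he
          obtain ⟨y, hy⟩ := Finset.card_pos.1 he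
          have hy1 := (Finset.mem_filter.1 hy).2
          have hy2 := (Finset.mem_filter.1 (Finset.mem_filter.1 hy).1).2
          rw [← hy1]
          rw [hG'] at hy2
          exact Rnd_ww_two G Z M hM y.1 y.2 hy2
        have h3 : (2 : ℝ) ≤ ww Z M e := by exact_mod_cast h2
        have h4 : q0 * Q = J * 2 := by
          rw [hq0]
          field_simp
        rw [h4]
        exact mul_le_mul_of_nonneg_left h3 hJ0.le)
    rw [hB2]
    refine (le_of_eq ?_).trans (h.trans ?_)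
    · refine congrArg (fun k : ℕ => (k : ℝ)) (congrArg Finset.card ?_)
      ext f
      simp only [Finset.mem_filter, Finset.mem_univ, true_and]
    · rw [hΩ]
      refine mul_le_mul_of_nonneg_left (Real.exp_le_exp.2 ?_) (by positivity)
      rw [Res_sum]
      have := mul_le_mul_of_nonneg_left hP' hq0p.le
      linarith
  obtain ⟨f, hf⟩ := Rnd_good (E := Sym2 V) Q
    ((univ : Finset (Bool × V)).disjSum PP) (Sum.elim B1 B2) (by
    rw [Finset.sum_disjSum]
    simp only [Sum.elim_inl, Sum.elim_inr]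
    have s1 : (∑ p, ((B1 p).card : ℝ)) ≤ Ω * (4 * (n : ℝ) * Real.exp (-(x ^ 2 / 4 * n))) := by
      refine (Finset.sum_le_sum (fun p _ => c1 p)).trans (le_of_eq ?_)
      rw [Finset.sum_const, Finset.card_univ, Fintype.card_prod, Fintype.card_bool, nsmul_eq_mul,
        ← hn]
      push_cast
      ring
    have hPPc : (PP.card : ℝ) ≤ 4 ^ n := by
      have h1 : PP.card ≤ Fintype.card (Finset V × Finset V) := Finset.card_le_univ _
      rw [Fintype.card_prod, Fintype.card_finset, ← hn, ← mul_pow] at h1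
      have h2 : (PP.card : ℝ) ≤ (((2 * 2) ^ n : ℕ) : ℝ) := by exact_mod_cast h1
      refine h2.trans (le_of_eq ?_)
      push_cast
      norm_num
    have s2 : (∑ P ∈ PP, ((B2 P).card : ℝ)) ≤
        Ω * (4 ^ n * Real.exp (-(q0 * lam / 5 * (n : ℝ) ^ 2))) := by
      refine (Finset.sum_le_sum c2).trans ?_
      rw [Finset.sum_const, nsmul_eq_mul]
      have he := (Real.exp_pos (-(q0 * lam / 5 * (n : ℝ) ^ 2))).le
      calc (PP.card : ℝ) * (Ω * Real.exp (-(q0 * lam / 5 * (n : ℝ) ^ 2)))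
          ≤ 4 ^ n * (Ω * Real.exp (-(q0 * lam / 5 * (n : ℝ) ^ 2))) :=
            mul_le_mul_of_nonneg_right hPPc (mul_nonneg hΩ0.le he)
        _ = _ := by ring
    have h6 := mul_lt_mul_of_pos_left hnum hΩ0
    rw [← hΩ]
    linarith)
  have hdeg : ∀ b v, |(dg (RI G' (I b) f) v : ℝ) - (∑ e ∈ Dv G' v, ((I b e).card : ℝ)) / Q| ≤
      η * n := by
    intro b v
    have h := hf (Sum.inl (b, v)) (Finset.inl_mem_disjSum.2 (Finset.mem_univ _))
    rw [Sum.elim_inl, hB1] at h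
    simp only [Finset.mem_filter, Finset.mem_univ, true_and, not_lt] at h
    rw [Rnd_dg] at h
    exact h.trans (mul_le_mul_of_nonneg_right hxη (by linarith))
  refine ⟨RI G' (I true) f, RI G' (I false) f, ?_, ?_, ?_, ?_, ?_, ?_⟩
  · rw [hG']
    exact fun u v h => h.1
  · rw [hG']
    exact fun u v h => h.1
  · intro a b h1 h2
    have h3 := h1.2
    have h4 := h2.2
    rw [hI] at h3 h4
    simp only [Bool.false_eq_true, if_false, if_true] at h3 h4
    unfold Iv at h3 h4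
    have h5 := (Finset.mem_filter.1 h3).2.2
    have h6 := (Finset.mem_filter.1 h4).2.1
    omega
  · intro v
    have h := hdeg true v
    rw [Finset.sum_congr rfl fun e _ => hIt e] at h
    rw [hG', Rnd_sumD G Z M Q J v, ← hG'] at h
    exact h
  · intro v
    have h := hdeg false v
    rw [Finset.sum_congr rfl fun e _ => hIf e] at h
    rw [hG', Rnd_sumD G Z M Q 1 v, ← hG'] at h
    exact h
  · intro A B hAB
    rw [← hG'] at hAB
    have hP : (A, B) ∈ PP := by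
      rw [hPP, Finset.mem_filter]
      exact ⟨Finset.mem_univ _, hAB⟩
    have h := hf (Sum.inr (A, B)) (Finset.inr_mem_disjSum.2 hP)
    rw [Sum.elim_inr, hB2] at h
    simp only [Finset.mem_filter, Finset.mem_univ, true_and, not_lt] at h
    rw [Res_sum, Rnd_sum0] at h
    rw [← hq0]
    refine le_trans (mul_le_mul_of_nonneg_left hAB (by positivity)) h

end Pool.Agent.H71.DX
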