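import Mathlib
import Pool.Agent.H71.DX.Defs

/-! `fact12` of `DX/Nma.lean` (split for the build time). -/

set_option autoImplicit false

namespace Pool.Agent.H71.DX

open Finset Classical
open Pool.Agent.H71.DN

theorem fact12 (κ : ℝ) (hκ : 0 < κ) : ∃ n0 : ℕ, ∀ n s : ℕ, n0 ≤ n → κ * n ≤ s →
    n * s ^ (12 * s) < (12 * s).factorial := by
  refine ⟨⌈1 / κ ^ 2⌉₊ + 1, fun n s hn hs => ?_⟩
  have hn1 : (1 : ℝ) ≤ n := by
    have : 1 ≤ n := by omega
    exact_mod_cast this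
  have hn2 : 1 ≤ κ ^ 2 * n := by
    have h1 : 1 / κ ^ 2 ≤ (n : ℝ) := (Nat.le_ceil _).trans (by
      have : ⌈1 / κ ^ 2⌉₊ ≤ n := by omega
      exact_mod_cast this)
    rw [div_le_iff₀ (by positivity)] at h1
    linarith
  have hs0 : (0 : ℝ) < s := lt_of_lt_of_le (by positivity) hs
  have hns : (n : ℝ) ≤ (s : ℝ) ^ 2 := by
    have h1 : (κ * n) ^ 2 ≤ (s : ℝ) ^ 2 := pow_le_pow_left₀ (by positivity) hs 2
    nlinarith
  obtain ⟨t, ht⟩ : ∃ t : ℕ, t = 12 * s := ⟨_, rfl⟩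
  have hts : (t : ℝ) = 12 * s := by
    rw [ht]
    push_cast
    ring
  rw [← ht]
  have h1 : (t : ℝ) ^ t / t.factorial ≤ Real.exp t := Real.pow_div_factorial_le_exp _ (Nat.cast_nonneg t) t
  have h2 : Real.exp t ≤ 3 ^ t := by
    have : Real.exp t = Real.exp 1 ^ t := by
      rw [← Real.exp_nat_mul, mul_one]
    rw [this]
    exact pow_le_pow_left₀ (Real.exp_pos _).le Real.exp_one_lt_three.le t
  have hf : (0 : ℝ) < t.factorial := by exact_mod_cast Nat.factorial_pos t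
  have h3 : (t : ℝ) ^ t ≤ 3 ^ t * t.factorial := by
    have := h1.trans h2
    rwa [div_le_iff₀ hf] at this
  have h4 : (t : ℝ) ^ t = 3 ^ t * (4 ^ t * (s : ℝ) ^ t) := by
    rw [hts, ← mul_pow, ← mul_pow]
    congr 1
    ring
  rw [h4] at h3
  have h5 : 4 ^ t * (s : ℝ) ^ t ≤ t.factorial := le_of_mul_le_mul_left h3 (by positivity)
  have h6 : (n : ℝ) < 4 ^ t := by
    have h7 : (t : ℝ) < 2 ^ t := by exact_mod_cast Nat.lt_two_pow_self
    have h8 : (4 : ℝ) ^ t = (2 ^ t) ^ 2 := by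
      rw [← pow_mul, mul_comm t 2, pow_mul]
      norm_num
    rw [h8]
    have h9 : (s : ℝ) ≤ t := by
      rw [hts]
      linarith
    have h10 : (s : ℝ) ^ 2 < ((2 : ℝ) ^ t) ^ 2 := by
      have : (s : ℝ) < 2 ^ t := lt_of_le_of_lt h9 h7
      exact pow_lt_pow_left₀ this hs0.le (by norm_num)
    linarith
  have h11 : (n : ℝ) * (s : ℝ) ^ t < t.factorial :=
    lt_of_lt_of_le (mul_lt_mul_of_pos_right h6 (by positivity)) h5
  exact_mod_cast h11

end Pool.Agent.H71.DX
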