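import Mathlib
import Pool.Agent.H71.DX.Defs
import Pool.Agent.H71.DN.Alt

/-!
CN3: two uncovered vertices `w1 ≠ w2` get covered by an alternating path
`w1 - x1 = a1 - y1 = b1 - u1 = v1 - v2 = u2 - b2 = y2 - a2 = x2 - w2`
(`-` an edge of `F`, `=` an edge of the matching `π`). A longer version of `H71/DN/Conn.lean` (which is
proved; imitate it).

Proof (`n = #V`).  Let `B' = {v : v ∈ Bl ∨ π v ∈ Bl ∨ (π v = v ∧ v ∉ Bl)}`; `#B' ≤ 2 β + ζ`. Write
`good = V ∖ B'`: for `v ∈ good`, `v` is covered, `v, π v ∉ Bl`; `good` is `π`-invariant.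
1. `N_F(w1) ∩ good` has at least `D - 2β - ζ ≥ 3m` elements: take `X1` in it, `#X1 = m`.
   `S1 := X1 ∪ π(X1)`, `#S1 ≤ 2m`, `π`-invariant.
2. `(N_F(w2) ∩ good) ∖ S1` has at least `m` elements: `X2` in it, `#X2 = m`; `S2 := X2 ∪ π(X2)`;
   `S1, S2` are disjoint. `A1 := π(X1)`, `A2 := π(X2)`, `#A1 = #A2 = m`.
3. `NA1 := {y : ∃ a ∈ A1, F.Adj a y}`; `p2` with `A = A1`, `Y = univ ∖ NA1` (`ee F A1 Y = 0`) gives
   `#NA1 ≥ b1`. `B1 := π '' {y ∈ NA1 : y ∈ good, y ∉ S1 ∪ S2}`, `b1 ≤ #B1 + q`. The same for `B2`.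
4. `NB1 := {u : 8 ≤ #{b ∈ B1 : F.Adj b u}}`; for `Y = univ ∖ NB1` we have `ee F B1 Y ≤ 7 #Y ≤ 8 n`, so `p3`
   gives `#NB1 ≥ b2`. `C1 := π '' {u ∈ NB1 : u ∈ good, u ∉ S1 ∪ S2}`, `b2 ≤ #C1 + q`. The same for `C2`.
5. `p4`: `ee F C1 C2 > n ≥ #C1`. The pairs `(v, π v)`, `v ∈ C1`, are at most `#C1` many, so there are
   `v1 ∈ C1`, `v2 ∈ C2` with `F.Adj v1 v2` and `v2 ≠ π v1`. `u1 := π v1`, `u2 := π v2`; the sets `{u1, v1}`
   and `{u2, v2}` are disjoint.
   Among the `≥ 8` vertices `b ∈ B1` with `F.Adj b u1` choose `b1 ∉ {u1, v1, u2, v2}`; `y1 := π b1` is also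
   not in this `π`-invariant set. Among the `≥ 8` vertices `b ∈ B2` with `F.Adj b u2` choose
   `b2 ∉ {u1, v1, u2, v2, b1, y1}`, `y2 := π b2`. Then `a1 ∈ A1` with `F.Adj a1 y1`, `x1 := π a1 ∈ X1`;
   `a2 ∈ A2` with `F.Adj a2 y2`, `x2 := π a2 ∈ X2`. The twelve vertices
   `x1, a1 ∈ S1`, `x2, a2 ∈ S2`, `y1, b1, y2, b2, u1, v1, u2, v2 ∈ good ∖ (S1 ∪ S2)` are covered, distinct,
   and different from the uncovered `w1, w2`.
6. `rot` `(w1, x1)` (uncovers `a1`), `rot` `(a1, y1)` (uncovers `b1`), `rot` `(b1, u1)` (uncovers `v1`), the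
   same on the side of `w2`, and `join` `(v1, v2)`. (Or define `π'` by the table `w1 ↔ x1`, `a1 ↔ y1`,
   `b1 ↔ u1`, `v1 ↔ v2`, `u2 ↔ b2`, `y2 ↔ a2`, `x2 ↔ w2`, and `π' = π` elsewhere.) Only the 14 vertices
   change, none of them but `w1, w2` is in `Bl`; the new pairs are edges of `F`; everything covered
   stays covered.
-/

set_option autoImplicit false

namespace Pool.Agent.H71.DX

open Finset Classical
open Pool.Agent.H71.DN

/-- `w - x1 = π x1 - x2 = π x2 - ... - w2`. -/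
private def DxCn3_Ch {V : Type} (F : SimpleGraph V) (π : V → V) (w2 : V) : V → List V → Prop
  | w, [] => F.Adj w w2
  | w, x :: L => F.Adj w x ∧ DxCn3_Ch F π w2 (π x) L

private theorem DxCn3_congr {V : Type} (F : SimpleGraph V) (π π1 : V → V) (w2 : V) :
    ∀ (L : List V) (w : V), (∀ x ∈ L, π1 x = π x) → DxCn3_Ch F π w2 w L → DxCn3_Ch F π1 w2 w L := by
  intro L
  induction L with
  | nil => intro w _ h; exact h
  | cons x L ih =>
    intro w h1 h2
    refine ⟨h2.1, ?_⟩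
    rw [h1 x List.mem_cons_self]
    exact ih _ (fun y hy => h1 y (List.mem_cons_of_mem _ hy)) h2.2

private theorem DxCn3_path {V : Type} (F : SimpleGraph V) (w2 : V) :
    ∀ (L : List V) (π : V → V) (w : V), Inv π → π w = w → π w2 = w2 → w ≠ w2 →
      (∀ x ∈ L, π x ≠ x) → L.Pairwise (fun x y => y ≠ x ∧ y ≠ π x) → DxCn3_Ch F π w2 w L →
      ∃ π' : V → V, Inv π' ∧
        (∀ v, (v = w ∨ v = w2 ∨ v ∈ L ∨ π v ∈ L) → F.Adj v (π' v)) ∧
        (∀ v, v ≠ w → v ≠ w2 → v ∉ L → π v ∉ L → π' v = π v) := by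
  intro L
  induction L with
  | nil =>
    intro π w hπ hw hw2 hne _ _ hch
    obtain ⟨π', i, h1, h2, h3⟩ := join π hπ w w2 hne hw hw2
    refine ⟨π', i, ?_, fun v h4 h5 _ _ => h3 v h4 h5⟩
    rintro v (rfl | rfl | h | h)
    · rw [h1]; exact hch
    · rw [h2]; exact (show F.Adj w v from hch).symm
    · exact absurd h List.not_mem_nil
    · exact absurd h List.not_mem_nil
  | cons x L ih =>
    intro π w hπ hw hw2 hne hfx hpw hch
    have hx : π x ≠ x := hfx x List.mem_cons_self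
    have hwxa : F.Adj w x := hch.1
    obtain ⟨π1, i1, r1w, r1x, r1a, r1o⟩ := rot π hπ w x hw hx
    rw [List.pairwise_cons] at hpw
    have hfL : ∀ y ∈ L, π y ≠ y := fun y hy => hfx y (List.mem_cons_of_mem _ hy)
    have hwL : w ∉ L := fun h => hfL w h hw
    have hxL : x ∉ L := fun h => (hpw.1 x h).1 rfl
    have hpxL : π x ∉ L := fun h => (hpw.1 _ h).2 rfl
    have hwx : w ≠ x := fun h => hx (by rw [← h]; exact hw)
    have hwpx : w ≠ π x := fun h => hwx (by rw [← hw, h, hπ x] )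
    have hw2x : w2 ≠ x := fun h => hx (by rw [← h]; exact hw2)
    have hw2px : w2 ≠ π x := fun h => hw2x (by rw [← hw2, h, hπ x])
    have q1 : ∀ y ∈ L, π1 y = π y := by
      intro y hy
      refine r1o y ?_ ?_ ?_
      · rintro rfl; exact hwL hy
      · rintro rfl; exact hxL hy
      · rintro rfl; exact hpxL hy
    have q2 : π1 w2 = w2 := by rw [r1o w2 hne.symm hw2x hw2px, hw2]
    have q3 : L.Pairwise (fun x y => y ≠ x ∧ y ≠ π1 x) := by
      refine List.Pairwise.imp_of_mem ?_ hpw.2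
      intro a b ha _ h
      rw [q1 a ha]
      exact h
    obtain ⟨π', i, hA, hB⟩ := ih π1 (π x) i1 r1a q2 hw2px.symm
      (fun y hy => by rw [q1 y hy]; exact hfL y hy) q3 (DxCn3_congr F π π1 w2 L _ q1 hch.2)
    refine ⟨π', i, ?_, ?_⟩
    · rintro v (rfl | rfl | h | h)
      · have h4 : π' v = π1 v := hB v hwpx hne hwL (by rw [r1w]; exact hxL)
        rw [h4, r1w]
        exact hch.1
      · exact hA v (Or.inr (Or.inl rfl))
      · rcases List.mem_cons.1 h with rfl | h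
        · have h4 : π' v = π1 v := hB v hx.symm hw2x.symm hxL (by rw [r1x]; exact hwL)
          rw [h4, r1x]
          exact hwxa.symm
        · exact hA v (Or.inr (Or.inr (Or.inl h)))
      · rcases List.mem_cons.1 h with h5 | h5
        · refine hA v (Or.inl ?_)
          rw [← h5, hπ v]
        · refine hA v (Or.inr (Or.inr (Or.inr ?_)))
          rw [r1o v]
          · exact h5
          · intro h6; rw [h6, hw] at h5; exact hwL h5
          · intro h6; rw [h6] at h5; exact hpxL h5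
          · intro h6; rw [h6, hπ x] at h5; exact hxL h5
    · intro v h1 h2 h3 h4
      rw [List.mem_cons, not_or] at h3 h4
      have h5 : v ≠ π x := by
        rintro rfl
        exact h4.1 (hπ x)
      have h6 : π1 v = π v := r1o v h1 h3.1 h5
      rw [hB v h5 h2 h3.2 (by rw [h6]; exact h4.2), h6]

private theorem DxCn3_sel {V : Type} [Fintype V] (F : SimpleGraph V) (w : V) (Bp T : Finset V)
    (m : ℕ) (h : m + Bp.card + T.card ≤ dg F w) :
    ∃ X : Finset V, X.card = m ∧ ∀ x ∈ X, F.Adj w x ∧ x ∉ Bp ∧ x ∉ T := by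
  have h1 : m ≤ ((univ.filter fun u => F.Adj w u) \ (Bp ∪ T)).card := by
    have h2 := le_card_sdiff (Bp ∪ T) (univ.filter fun u => F.Adj w u)
    have h3 := card_union_le Bp T
    unfold dg at h
    omega
  obtain ⟨X, hX, hc⟩ := exists_subset_card_eq h1
  refine ⟨X, hc, fun x hx => ?_⟩
  have h2 := hX hx
  rw [mem_sdiff, mem_filter, mem_union, not_or] at h2
  exact ⟨h2.1.2, h2.2.1, h2.2.2⟩

private theorem DxCn3_B {V : Type} [Fintype V] (F : SimpleGraph V) (D m b1 b2 q : ℕ)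
    (hF : Ex2 F D m b1 b2 q) (π : V → V) (hπ : Inv π) (A : Finset V) (hA : m ≤ A.card)
    (Bad : Finset V) (hBad : Bad.card ≤ q) :
    ∃ B : Finset V, b1 ≤ B.card + q ∧ ∀ b ∈ B, π b ∉ Bad ∧ ∃ a ∈ A, F.Adj a (π b) := by
  have hinj : Function.Injective π := fun a b h => by rw [← hπ a, h, hπ b]
  obtain ⟨NA, hNA⟩ : ∃ NA : Finset V, NA = univ.filter (fun y => ∃ a ∈ A, F.Adj a y) := ⟨_, rfl⟩
  have h1 := hF.p2 A (univ \ NA) hA (by
    have : ee F A (univ \ NA) = 0 := by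
      unfold ee
      rw [card_eq_zero, filter_eq_empty_iff]
      rintro ⟨a, y⟩ hx hay
      rw [mem_product, mem_sdiff] at hx
      apply hx.2.2
      rw [hNA, mem_filter]
      exact ⟨mem_univ _, a, hx.1, hay⟩
    omega)
  have h2 : (univ \ NA).card = Fintype.card V - NA.card := by
    rw [card_univ_sdiff]
  have h3 : NA.card ≤ Fintype.card V := card_le_univ _
  have h4 := le_card_sdiff Bad NA
  refine ⟨(NA \ Bad).image π, ?_, ?_⟩
  · rw [card_image_of_injective _ hinj]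
    omega
  · intro b hb
    rw [mem_image] at hb
    obtain ⟨c, hc, rfl⟩ := hb
    rw [mem_sdiff, hNA, mem_filter] at hc
    rw [hπ c]
    exact ⟨hc.2, hc.1.2⟩

private theorem DxCn3_C {V : Type} [Fintype V] (F : SimpleGraph V) (D m b1 b2 q : ℕ)
    (hF : Ex2 F D m b1 b2 q) (π : V → V) (hπ : Inv π) (A : Finset V) (hA : b1 ≤ A.card + q)
    (Bad : Finset V) (hBad : Bad.card ≤ q) :
    ∃ B : Finset V, b2 ≤ B.card + q ∧ ∀ b ∈ B, π b ∉ Bad ∧
      8 ≤ (A.filter fun a => F.Adj a (π b)).card := by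
  have hinj : Function.Injective π := fun a b h => by rw [← hπ a, h, hπ b]
  obtain ⟨NA, hNA⟩ : ∃ NA : Finset V,
    NA = univ.filter (fun y => 8 ≤ (A.filter fun a => F.Adj a y).card) := ⟨_, rfl⟩
  have h1 := hF.p3 A (univ \ NA) hA (by
    have h5 : ee F A (univ \ NA) = ∑ y ∈ univ \ NA, (A.filter fun a => F.Adj a y).card := by
      unfold ee
      rw [card_filter, sum_product_right]
      refine sum_congr rfl fun y _ => ?_
      rw [card_filter]
    rw [h5]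
    have h6 : ∑ y ∈ univ \ NA, (A.filter fun a => F.Adj a y).card ≤ ∑ y ∈ univ \ NA, 8 := by
      refine sum_le_sum fun y hy => ?_
      rw [mem_sdiff, hNA, mem_filter] at hy
      by_contra hcon
      exact hy.2 ⟨mem_univ _, by omega⟩
    have h7 : (univ \ NA).card ≤ Fintype.card V := card_le_univ _
    rw [sum_const, smul_eq_mul] at h6
    omega)
  have h2 : (univ \ NA).card = Fintype.card V - NA.card := by
    rw [card_univ_sdiff]
  have h3 : NA.card ≤ Fintype.card V := card_le_univ _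
  have h4 := le_card_sdiff Bad NA
  refine ⟨(NA \ Bad).image π, ?_, ?_⟩
  · rw [card_image_of_injective _ hinj]
    omega
  · intro b hb
    rw [mem_image] at hb
    obtain ⟨c, hc, rfl⟩ := hb
    rw [mem_sdiff, hNA, mem_filter] at hc
    rw [hπ c]
    exact ⟨hc.2, hc.1.2⟩

theorem conn3 {V : Type} [Fintype V] (F : SimpleGraph V) (D m b1 b2 q ζ β : ℕ)
    (hF : Ex2 F D m b1 b2 q) (h1 : ζ + 2 * β + 3 * m ≤ D) (h2 : ζ + 2 * β + 4 * m ≤ q)
    (π : V → V) (hπ : Inv π) (Bl : Finset V) (hBl : Bl.card ≤ β)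
    (hZ : (univ.filter fun v => π v = v ∧ v ∉ Bl).card ≤ ζ)
    (w1 w2 : V) (hw : w1 ≠ w2) (hw1 : π w1 = w1) (hw2 : π w2 = w2) :
    ∃ π' : V → V, Inv π' ∧ (∀ v, π v ≠ v → π' v ≠ v) ∧ π' w1 ≠ w1 ∧ π' w2 ≠ w2 ∧
      (∀ v, π' v = π v ∨ F.Adj v (π' v)) ∧ (∀ v ∈ Bl, v ≠ w1 → v ≠ w2 → π' v = π v) ∧
      (univ.filter fun v => π' v ≠ π v).card ≤ 14 := by
  have hinj : Function.Injective π := fun a b h => by rw [← hπ a, h, hπ b]
  -- the bad vertices
  obtain ⟨Bp, hBp⟩ : ∃ Bp : Finset V, Bp = (Bl ∪ Bl.image π) ∪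
      univ.filter (fun v => π v = v ∧ v ∉ Bl) := ⟨_, rfl⟩
  have hBpc : Bp.card ≤ 2 * β + ζ := by
    rw [hBp]
    have h3 := card_union_le (Bl ∪ Bl.image π) (univ.filter (fun v => π v = v ∧ v ∉ Bl))
    have h4 := card_union_le Bl (Bl.image π)
    have h5 : (Bl.image π).card ≤ Bl.card := card_image_le
    omega
  have hBpi : ∀ v, v ∈ Bp → π v ∈ Bp := by
    intro v hv
    rw [hBp] at hv ⊢
    simp only [mem_union, mem_image, mem_filter, mem_univ, true_and] at hv ⊢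
    rcases hv with (h | ⟨u, h, rfl⟩) | ⟨h, h'⟩
    · exact Or.inl (Or.inr ⟨v, h, rfl⟩)
    · rw [hπ u]
      exact Or.inl (Or.inl h)
    · right
      rw [h]
      exact ⟨h, h'⟩
  have hBpn : ∀ v, v ∉ Bp → π v ∉ Bp := by
    intro v hv h
    have := hBpi _ h
    rw [hπ v] at this
    exact hv this
  have hBpf : ∀ v, π v = v → v ∈ Bp := by
    intro v hv
    rw [hBp]
    simp only [mem_union, mem_image, mem_filter, mem_univ, true_and]
    by_cases h : v ∈ Bl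
    · exact Or.inl (Or.inl h)
    · exact Or.inr ⟨hv, h⟩
  have hBpB : ∀ v, v ∈ Bl → v ∈ Bp := by
    intro v hv
    rw [hBp]
    exact mem_union_left _ (mem_union_left _ hv)
  -- the first neighbours
  obtain ⟨X1, hX1c, hX1⟩ := DxCn3_sel F w1 Bp ∅ m (by
    rw [card_empty]
    have := hF.d1 w1
    omega)
  obtain ⟨S1, hS1⟩ : ∃ S1 : Finset V, S1 = X1 ∪ X1.image π := ⟨_, rfl⟩
  have hS1c : S1.card ≤ 2 * m := by
    rw [hS1]
    have h3 := card_union_le X1 (X1.image π)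
    have h5 : (X1.image π).card ≤ X1.card := card_image_le
    omega
  obtain ⟨X2, hX2c, hX2⟩ := DxCn3_sel F w2 Bp S1 m (by
    have := hF.d1 w2
    omega)
  obtain ⟨S2, hS2⟩ : ∃ S2 : Finset V, S2 = X2 ∪ X2.image π := ⟨_, rfl⟩
  have hS2c : S2.card ≤ 2 * m := by
    rw [hS2]
    have h3 := card_union_le X2 (X2.image π)
    have h5 : (X2.image π).card ≤ X2.card := card_image_le
    omega
  have hinv : ∀ X : Finset V, ∀ v, v ∈ X ∪ X.image π → π v ∈ X ∪ X.image π := by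
    intro X v hv
    rw [mem_union, mem_image] at hv ⊢
    rcases hv with h | ⟨u, h, rfl⟩
    · exact Or.inr ⟨v, h, rfl⟩
    · rw [hπ u]
      exact Or.inl h
  have hS1i : ∀ v, v ∈ S1 → π v ∈ S1 := by
    rw [hS1]
    exact hinv X1
  have hS2i : ∀ v, v ∈ S2 → π v ∈ S2 := by
    rw [hS2]
    exact hinv X2
  have hdis : ∀ v, v ∈ S2 → v ∉ S1 := by
    intro v hv
    rw [hS2, mem_union, mem_image] at hv
    rcases hv with h | ⟨u, h, rfl⟩
    · exact (hX2 v h).2.2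
    · intro h3
      have := hS1i _ h3
      rw [hπ u] at this
      exact (hX2 u h).2.2 this
  -- all the bad ones
  obtain ⟨Bad, hBad⟩ : ∃ Bad : Finset V, Bad = Bp ∪ (S1 ∪ S2) := ⟨_, rfl⟩
  have hBadc : Bad.card ≤ q := by
    rw [hBad]
    have h3 := card_union_le Bp (S1 ∪ S2)
    have h4 := card_union_le S1 S2
    omega
  have hBadi : ∀ v, v ∈ Bad → π v ∈ Bad := by
    intro v hv
    rw [hBad, mem_union, mem_union] at hv ⊢
    rcases hv with h | h | h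
    · exact Or.inl (hBpi v h)
    · exact Or.inr (Or.inl (hS1i v h))
    · exact Or.inr (Or.inr (hS2i v h))
  have hBadn : ∀ v, v ∉ Bad → π v ∉ Bad := by
    intro v hv h
    have := hBadi _ h
    rw [hπ v] at this
    exact hv this
  have hBadn' : ∀ v, π v ∉ Bad → v ∉ Bad := fun v hv h => hv (hBadi v h)
  have hA : ∀ X : Finset V, X.card = m → m ≤ (X.image π).card := by
    intro X hX
    rw [card_image_of_injective _ hinj, hX]
  obtain ⟨B1, hB1c, hB1⟩ := DxCn3_B F D m b1 b2 q hF π hπ (X1.image π) (hA X1 hX1c) Bad hBadc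
  obtain ⟨B2, hB2c, hB2⟩ := DxCn3_B F D m b1 b2 q hF π hπ (X2.image π) (hA X2 hX2c) Bad hBadc
  obtain ⟨C1, hC1c, hC1⟩ := DxCn3_C F D m b1 b2 q hF π hπ B1 hB1c Bad hBadc
  obtain ⟨C2, hC2c, hC2⟩ := DxCn3_C F D m b1 b2 q hF π hπ B2 hB2c Bad hBadc
  have hex : ∃ v1 ∈ C1, ∃ v2 ∈ C2, F.Adj v1 v2 ∧ v2 ≠ π v1 := by
    by_contra hcon
    push Not at hcon
    have h3 := hF.p4 C1 C2 hC1c hC2c
    have h4 : ((C1 ×ˢ C2).filter fun x => F.Adj x.1 x.2) ⊆ C1.image (fun b => (b, π b)) := by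
      intro x hx
      rw [mem_filter, mem_product] at hx
      rw [mem_image]
      refine ⟨x.1, hx.1.1, ?_⟩
      have := hcon x.1 hx.1.1 x.2 hx.1.2 hx.2
      rw [← this]
    have h5 := (card_le_card h4).trans card_image_le
    have h6 : C1.card ≤ Fintype.card V := card_le_univ _
    unfold ee at h3
    omega
  obtain ⟨v1, hv1, v2, hv2, hvv, hne⟩ := hex
  obtain ⟨hu1n, hc1⟩ := hC1 v1 hv1
  obtain ⟨hu2n, hc2⟩ := hC2 v2 hv2
  obtain ⟨u1, hu1⟩ : ∃ u1, u1 = π v1 := ⟨_, rfl⟩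
  obtain ⟨u2, hu2⟩ : ∃ u2, u2 = π v2 := ⟨_, rfl⟩
  rw [← hu1] at hu1n hc1 hne
  rw [← hu2] at hu2n hc2
  have huv1 : π u1 = v1 := by rw [hu1, hπ v1]
  have huv2 : π u2 = v2 := by rw [hu2, hπ v2]
  -- choice of `b1`
  obtain ⟨c1, hc1m, hc1n⟩ : ∃ c ∈ B1.filter (fun a => F.Adj a u1), c ∉ ({u1, v1, u2, v2} : Finset V) := by
    apply exists_mem_notMem_of_card_lt_card
    have : ({u1, v1, u2, v2} : Finset V).card ≤ 4 := card_le_four
    omega
  rw [mem_filter] at hc1m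
  obtain ⟨hc1B, hc1u⟩ := hc1m
  obtain ⟨y1, hy1⟩ : ∃ y1, y1 = π c1 := ⟨_, rfl⟩
  have hyc1 : π y1 = c1 := by rw [hy1, hπ c1]
  obtain ⟨c2, hc2m, hc2n⟩ : ∃ c ∈ B2.filter (fun a => F.Adj a u2),
      c ∉ ({u1, v1, u2, v2, c1, y1} : Finset V) := by
    apply exists_mem_notMem_of_card_lt_card
    have : ({u1, v1, u2, v2, c1, y1} : Finset V).card ≤ 6 := card_le_six
    omega
  rw [mem_filter] at hc2m
  obtain ⟨hc2B, hc2u⟩ := hc2m
  obtain ⟨y2, hy2⟩ : ∃ y2, y2 = π c2 := ⟨_, rfl⟩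
  have hyc2 : π y2 = c2 := by rw [hy2, hπ c2]
  obtain ⟨hy1n, a1, ha1, hay1⟩ := hB1 c1 hc1B
  obtain ⟨hy2n, a2, ha2, hay2⟩ := hB2 c2 hc2B
  rw [← hy1] at hy1n hay1
  rw [← hy2] at hy2n hay2
  rw [mem_image] at ha1 ha2
  obtain ⟨x1, hx1, hxa1⟩ := ha1
  obtain ⟨x2, hx2, hxa2⟩ := ha2
  have hax2 : π a2 = x2 := by rw [← hxa2, hπ x2]
  obtain ⟨hwx1, Bx1, -⟩ := hX1 x1 hx1
  obtain ⟨hwx2, Bx2, -⟩ := hX2 x2 hx2
  have Sx1 : x1 ∈ S1 := by
    rw [hS1]
    exact mem_union_left _ hx1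
  have Sa1 : a1 ∈ S1 := by
    rw [← hxa1]
    exact hS1i _ Sx1
  have Tx2 : x2 ∈ S2 := by
    rw [hS2]
    exact mem_union_left _ hx2
  have Ta2 : a2 ∈ S2 := by
    rw [← hxa2]
    exact hS2i _ Tx2
  have Sa2 : a2 ∉ S1 := hdis _ Ta2
  have Ba2 : a2 ∉ Bp := by
    rw [← hxa2]
    exact hBpn _ Bx2
  have hfix : ∀ v, v ∉ Bp → π v ≠ v := fun v h h' => h (hBpf v h')
  have hgB : ∀ v, v ∉ Bad → v ∉ Bp := by
    intro v hv h
    apply hv
    rw [hBad]
    exact mem_union_left _ h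
  have hgS : ∀ v, v ∉ Bad → v ∉ S1 := by
    intro v hv h
    apply hv
    rw [hBad]
    exact mem_union_right _ (mem_union_left _ h)
  have hgT : ∀ v, v ∉ Bad → v ∉ S2 := by
    intro v hv h
    apply hv
    rw [hBad]
    exact mem_union_right _ (mem_union_right _ h)
  have gc1 : c1 ∉ Bad := by rw [← hyc1]; exact hBadn _ hy1n
  have gc2 : c2 ∉ Bad := by rw [← hyc2]; exact hBadn _ hy2n
  have gv1 : v1 ∉ Bad := by rw [← huv1]; exact hBadn _ hu1n
  have gv2 : v2 ∉ Bad := by rw [← huv2]; exact hBadn _ hu2n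
  simp only [mem_insert, mem_singleton, not_or] at hc1n hc2n
  obtain ⟨k11, k12, k13, k14⟩ := hc1n
  obtain ⟨k21, k22, k23, k24, k25, k26⟩ := hc2n
  have s12 : ∀ a b, a ∈ S1 → b ∉ S1 → b ≠ a := fun a b h3 h4 h5 => h4 (h5 ▸ h3)
  have t12 : ∀ a b, a ∉ S2 → b ∈ S2 → b ≠ a := fun a b h3 h4 h5 => h3 (h5 ▸ h4)
  have hvu2 : π v2 = u2 := hu2.symm
  have hcy2 : π c2 = y2 := hy2.symm
  obtain ⟨π', i, hon, hoff⟩ := DxCn3_path F w2 [x1, y1, u1, v2, c2, a2] π w1 hπ hw1 hw2 hw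
    (by
      intro x hx
      simp only [List.mem_cons, List.not_mem_nil, or_false] at hx
      rcases hx with rfl | rfl | rfl | rfl | rfl | rfl
      · exact hfix _ Bx1
      · exact hfix _ (hgB _ hy1n)
      · exact hfix _ (hgB _ hu1n)
      · exact hfix _ (hgB _ gv2)
      · exact hfix _ (hgB _ gc2)
      · exact hfix _ Ba2)
    (by
      simp only [List.pairwise_cons, List.mem_cons, List.not_mem_nil, or_false, forall_eq_or_imp,
        forall_eq, IsEmpty.forall_iff, implies_true, List.Pairwise.nil, and_true, hxa1, hyc1, huv1,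
        hvu2, hcy2]
      refine ⟨⟨⟨s12 _ _ Sx1 (hgS _ hy1n), s12 _ _ Sa1 (hgS _ hy1n)⟩,
          ⟨s12 _ _ Sx1 (hgS _ hu1n), s12 _ _ Sa1 (hgS _ hu1n)⟩,
          ⟨s12 _ _ Sx1 (hgS _ gv2), s12 _ _ Sa1 (hgS _ gv2)⟩,
          ⟨s12 _ _ Sx1 (hgS _ gc2), s12 _ _ Sa1 (hgS _ gc2)⟩,
          ⟨s12 _ _ Sx1 Sa2, s12 _ _ Sa1 Sa2⟩⟩,
        ⟨⟨?_, Ne.symm k11⟩, ⟨?_, Ne.symm k14⟩, ⟨k26, k25⟩,
          ⟨t12 _ _ (hgT _ hy1n) Ta2, t12 _ _ (hgT _ gc1) Ta2⟩⟩,
        ⟨⟨hne, ?_⟩, ⟨k21, k22⟩, ⟨t12 _ _ (hgT _ hu1n) Ta2, t12 _ _ (hgT _ gv1) Ta2⟩⟩,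
        ⟨⟨k24, k23⟩, ⟨t12 _ _ (hgT _ gv2) Ta2, t12 _ _ (hgT _ hu2n) Ta2⟩⟩,
        ⟨t12 _ _ (hgT _ gc2) Ta2, t12 _ _ (hgT _ hy2n) Ta2⟩⟩
      · intro h
        exact k12 (by rw [← hyc1, ← h, huv1])
      · intro h
        exact k13 (by rw [← hyc1, ← h, hvu2])
      · exact (F.ne_of_adj hvv).symm)
    (by
      simp only [DxCn3_Ch, hxa1, hyc1, huv1, hvu2, hcy2, hax2]
      exact ⟨hwx1, hay1, hc1u, hvv, hc2u.symm, hay2.symm, hwx2.symm⟩)
  have hpL : ∀ v, π v ∈ [x1, y1, u1, v2, c2, a2] → v ∈ [a1, c1, v1, u2, y2, x2] := by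
    intro v hv
    simp only [List.mem_cons, List.not_mem_nil, or_false] at hv ⊢
    rcases hv with h | h | h | h | h | h
    · left; rw [← hπ v, h, hxa1]
    · right; left; rw [← hπ v, h, hyc1]
    · right; right; left; rw [← hπ v, h, huv1]
    · right; right; right; left; rw [← hπ v, h, hvu2]
    · right; right; right; right; left; rw [← hπ v, h, hcy2]
    · right; right; right; right; right; rw [← hπ v, h, hax2]
  refine ⟨π', i, ?_, ?_, ?_, ?_, ?_, ?_⟩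
  · intro v hv
    by_cases hvl : v = w1 ∨ v = w2 ∨ v ∈ [x1, y1, u1, v2, c2, a2] ∨ π v ∈ [x1, y1, u1, v2, c2, a2]
    · exact (F.ne_of_adj (hon v hvl)).symm
    · simp only [not_or] at hvl
      rw [hoff v hvl.1 hvl.2.1 hvl.2.2.1 hvl.2.2.2]
      exact hv
  · exact (F.ne_of_adj (hon w1 (Or.inl rfl))).symm
  · exact (F.ne_of_adj (hon w2 (Or.inr (Or.inl rfl)))).symm
  · intro v
    by_cases hvl : v = w1 ∨ v = w2 ∨ v ∈ [x1, y1, u1, v2, c2, a2] ∨ π v ∈ [x1, y1, u1, v2, c2, a2]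
    · exact Or.inr (hon v hvl)
    · simp only [not_or] at hvl
      exact Or.inl (hoff v hvl.1 hvl.2.1 hvl.2.2.1 hvl.2.2.2)
  · intro v hv h3 h4
    have hvB := hBpB v hv
    have h5 : ∀ u ∈ [x1, y1, u1, v2, c2, a2], u ∉ Bp := by
      intro x hx
      simp only [List.mem_cons, List.not_mem_nil, or_false] at hx
      rcases hx with rfl | rfl | rfl | rfl | rfl | rfl
      · exact Bx1
      · exact hgB _ hy1n
      · exact hgB _ hu1n
      · exact hgB _ gv2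
      · exact hgB _ gc2
      · exact Ba2
    refine hoff v h3 h4 (fun h => h5 v h hvB) (fun h => h5 _ h (hBpi v hvB))
  · have h3 : (univ.filter fun v => π' v ≠ π v) ⊆
        ([w1, w2, x1, y1, u1, v2, c2, a2, a1, c1, v1, u2, y2, x2] : List V).toFinset := by
      intro v hv
      rw [mem_filter] at hv
      rw [List.mem_toFinset]
      by_contra h
      apply hv.2
      simp only [List.mem_cons, List.not_mem_nil, not_or, or_false] at h
      refine hoff v h.1 h.2.1 ?_ ?_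
      · simp only [List.mem_cons, List.not_mem_nil, not_or, or_false]
        exact ⟨h.2.2.1, h.2.2.2.1, h.2.2.2.2.1, h.2.2.2.2.2.1, h.2.2.2.2.2.2.1, h.2.2.2.2.2.2.2.1⟩
      · intro h4
        have h5 := hpL v h4
        simp only [List.mem_cons, List.not_mem_nil, or_false] at h5
        obtain ⟨-, -, -, -, -, -, -, -, z1, z2, z3, z4, z5, z6⟩ := h
        rcases h5 with h | h | h | h | h | h
        · exact z1 h
        · exact z2 h
        · exact z3 h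
        · exact z4 h
        · exact z5 h
        · exact z6 h
    refine (card_le_card h3).trans ((List.toFinset_card_le _).trans ?_)
    simp

end Pool.Agent.H71.DX
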