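import Mathlib
import Pool.Agent.H71.DX.Cn3

/-!
LB2: one label. `π0` is the initial matching for this label, `U ⊆ Bl` the forbidden vertices. All the
uncovered vertices outside `U` (an even number, at most `ζ`) get covered. (Simpler version of
`H71/DN/Lab.lean`, which is proved.)

Proof.  Let `W = {v : π0 v = v, v ∉ U}`. Strong induction on `k`: for every `π` with
 (i) `Inv π`; (ii) `∀ v, π0 v ≠ v → π v ≠ v`; (iii) `∀ v, π v = π0 v ∨ F.Adj v (π v)`;
 (iv) `∀ v ∈ Bl, v ∉ W → π v = π0 v`; (v) `#{v : π v ≠ π0 v} + 14 k ≤ 14 #W`;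
 (vi) `#{v ∈ W : π v = v} ≤ k`,
there is `π'` as claimed.
If no vertex of `W` is uncovered by `π`: take `π' = π` (`v ∈ U` is in `Bl`, not in `W`, so
`π v = π0 v = v`; a vertex `v ∉ U` is in `W` or has `π0 v ≠ v`).
Otherwise choose `w1 ∈ W`, `π w1 = w1`. The set `{v : π v = v, v ∉ U}` is contained in
`{v ∈ W : π v = v}` by (ii) and has an even number of elements by `par` (Alt.lean; `π v = v` on `U`), so
there is another `w2 ≠ w1` in it. The uncovered vertices outside `Bl` are in `W`, so at most `ζ` many.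
`conn3` gives `π1`; both `w1`, `w2` get covered; `≤ 14` more changed vertices; the number of uncovered
vertices of `W` goes down by 2 (everything covered stays covered). Use the induction hypothesis for
`k - 1`.
-/

set_option autoImplicit false

namespace Pool.Agent.H71.DX

open Finset Classical
open Pool.Agent.H71.DN

theorem lab2 {V : Type} [Fintype V] (F : SimpleGraph V) (D m b1 b2 q ζ β : ℕ)
    (hF : Ex2 F D m b1 b2 q) (h1 : ζ + 2 * β + 3 * m ≤ D) (h2 : ζ + 2 * β + 4 * m ≤ q)
    (π0 : V → V) (hπ : Inv π0) (U Bl : Finset V) (hUB : U ⊆ Bl) (hBl : Bl.card ≤ β)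
    (hU : ∀ v ∈ U, π0 v = v) (hev : Even (univ \ U).card)
    (hζ : (univ.filter fun v => π0 v = v ∧ v ∉ U).card ≤ ζ) :
    ∃ π' : V → V, Inv π' ∧ (∀ v ∈ U, π' v = v) ∧ (∀ v, v ∉ U → π' v ≠ v) ∧
      (∀ v, π' v = π0 v ∨ F.Adj v (π' v)) ∧
      (∀ v ∈ Bl, π0 v ≠ v → π' v = π0 v) ∧
      (univ.filter fun v => π' v ≠ π0 v).card ≤
        14 * (univ.filter fun v => π0 v = v ∧ v ∉ U).card := by
  obtain ⟨W, hW⟩ : ∃ W : Finset V, W = univ.filter fun v => π0 v = v ∧ v ∉ U := ⟨_, rfl⟩
  have hmW : ∀ v, v ∈ W ↔ π0 v = v ∧ v ∉ U := by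
    intro v
    rw [hW, mem_filter]
    exact ⟨fun h => h.2, fun h => ⟨mem_univ _, h⟩⟩
  rw [← hW] at hζ ⊢
  have hUfix : ∀ π : V → V, (∀ v ∈ Bl, v ∉ W → π v = π0 v) → ∀ v ∈ U, π v = v := by
    intro π h4 v hv
    rw [h4 v (hUB hv) (fun h => ((hmW v).1 h).2 hv), hU v hv]
  -- composition of changes
  have hcomp : ∀ π π1 : V → V, (univ.filter fun v => π1 v ≠ π0 v).card ≤
      (univ.filter fun v => π1 v ≠ π v).card + (univ.filter fun v => π v ≠ π0 v).card := by
    intro π π1
    refine le_trans (card_le_card ?_) (card_union_le _ _)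
    intro v hv
    rw [mem_filter] at hv
    by_cases h : π1 v = π v
    · refine mem_union_right _ (mem_filter.2 ⟨mem_univ _, ?_⟩)
      rw [← h]
      exact hv.2
    · exact mem_union_left _ (mem_filter.2 ⟨mem_univ _, h⟩)
  have main : ∀ k : ℕ, ∀ π : V → V, Inv π → (∀ v, π0 v ≠ v → π v ≠ v) →
      (∀ v, π v = π0 v ∨ F.Adj v (π v)) → (∀ v ∈ Bl, v ∉ W → π v = π0 v) →
      (univ.filter fun v => π v ≠ π0 v).card + 14 * k ≤ 14 * W.card →
      (W.filter fun v => π v = v).card = k →
      ∃ π' : V → V, Inv π' ∧ (∀ v ∈ U, π' v = v) ∧ (∀ v, v ∉ U → π' v ≠ v) ∧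
      (∀ v, π' v = π0 v ∨ F.Adj v (π' v)) ∧
      (∀ v ∈ Bl, π0 v ≠ v → π' v = π0 v) ∧
      (univ.filter fun v => π' v ≠ π0 v).card ≤ 14 * W.card := by
    intro k
    induction k using Nat.strong_induction_on with
    | _ k ih =>
    intro π hi hii hiii hiv hv hvi
    -- the uncovered vertices
    have hfix : ∀ v, π v = v → v ∉ U → v ∈ W := by
      intro v h1 h2
      exact (hmW v).2 ⟨by_contra fun h => hii v h h1, h2⟩
    by_cases hex : ∃ w ∈ W, π w = w
    swap
    · push Not at hex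
      refine ⟨π, hi, hUfix π hiv, ?_, hiii, ?_, by omega⟩
      · intro v hvU hvv
        exact hex v (hfix v hvv hvU) hvv
      · intro v hvB hv0
        exact hiv v hvB (fun h => hv0 ((hmW v).1 h).1)
    obtain ⟨w, hwW, hw⟩ := hex
    have hwk : w ∈ W.filter fun v => π v = v := mem_filter.2 ⟨hwW, hw⟩
    have hkpos : 0 < k := by
      rw [← hvi]
      exact card_pos.2 ⟨w, hwk⟩
    have hex2 : ∃ w2 ∈ W, w2 ≠ w ∧ π w2 = w2 := by
      by_contra hno
      push Not at hno
      have hpar := par π hi U (hUfix π hiv) hev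
      have hset : (univ.filter fun v => π v = v ∧ v ∉ U) = {w} := by
        ext v
        rw [mem_filter, mem_singleton]
        constructor
        · rintro ⟨_, hv1, hv2⟩
          by_contra hvw
          exact hno v (hfix v hv1 hv2) hvw hv1
        · rintro rfl
          exact ⟨mem_univ _, hw, ((hmW v).1 hwW).2⟩
      rw [hset, card_singleton] at hpar
      exact absurd hpar (by decide)
    obtain ⟨w2, hw2W, hne, hw2⟩ := hex2
    have hZ : (univ.filter fun v => π v = v ∧ v ∉ Bl).card ≤ ζ := by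
      refine le_trans (card_le_card ?_) hζ
      intro v hv'
      rw [mem_filter] at hv'
      exact hfix v hv'.2.1 (fun h => hv'.2.2 (hUB h))
    obtain ⟨π1, a1, a2, a3, a3', a4, a5, a6⟩ := conn3 F D m b1 b2 q ζ β hF h1 h2
      π hi Bl hBl hZ w w2 (fun h => hne h.symm) hw hw2
    have hlt : (W.filter fun v => π1 v = v).card < k := by
      rw [← hvi]
      refine card_lt_card ⟨?_, ?_⟩
      · intro v hv'
        rw [mem_filter] at hv' ⊢
        exact ⟨hv'.1, by_contra fun h => a2 v h hv'.2⟩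
      · intro h
        exact a3 (mem_filter.1 (h hwk)).2
    refine ih _ hlt π1 a1 (fun v h => a2 v (hii v h)) ?_ ?_ ?_ rfl
    · intro v
      rcases a4 v with h' | h'
      · rw [h']
        exact hiii v
      · exact Or.inr h'
    · intro v hvB hvW
      rw [a5 v hvB (fun h => hvW (h ▸ hwW)) (fun h => hvW (h ▸ hw2W)), hiv v hvB hvW]
    · have := hcomp π π1
      omega
  refine main _ π0 hπ (fun v h => h) (fun v => Or.inl rfl) (fun v _ _ => rfl) ?_ rfl
  have h0 : (univ.filter fun v => π0 v ≠ π0 v) = ∅ := by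
    ext v
    simp
  rw [h0, card_empty, Nat.zero_add]
  exact Nat.mul_le_mul_left _ (card_le_card (filter_subset _ _))

end Pool.Agent.H71.DX
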