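import Mathlib
import Pool.Agent.H71.DX.Pr2
import Pool.Agent.H71.DX.Nff

/-!
INC: one batch of labels `ℓ < K`: from a natural family `ν` of `G0` and a reserve `R` we get
edge-disjoint perfect matchings of the graphs `(G0 ⊔ R) - U ℓ`.

Proof (`n = #V`).  `permf` gives `μ`. `m0 ℓ v := if v ∈ U ℓ ∨ μ ℓ v ∈ U ℓ then v else μ ℓ v` (for `ℓ < K`; an
involution). `m0 ℓ v` is `v` or a `G0`-neighbour of `v`, so `¬ R.Adj v (m0 ℓ v)` by `hGR`.
If `m0 ℓ v = v` and `v ∉ U ℓ` then `μ ℓ v = v`, or (`μ ℓ v ≠ v` and `μ ℓ v ∈ U ℓ`). Hence for each `v` the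
number of these `ℓ < K` is at most `e0 + t =: E`, for each `ℓ` the number of these `v` is at most
`ζ0 + #(U ℓ) ≤ ζ` (`μ ℓ` is injective), and the total number is at most `n E =: T`.
`prc2` gives `mm`. `PM (G0 ⊔ R) K U mm`: as in `H71/DN/InA.lean`.
`F1.Adj a b := R.Adj a b ∧ ∀ ℓ < K, mm ℓ a ≠ b`. `dg R v ≤ dg F1 v + #{ℓ < K : R.Adj v (mm ℓ v)}`,
`ee R A B ≤ ee F1 A B + ∑ v, #{ℓ < K : R.Adj v (mm ℓ v)}`: use the last two conclusions of `prc2`.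
The third claim: let `G0.Adj v u` and `mm ℓ v ≠ u` for all `ℓ < K`. If `μ ℓ v ≠ u` for all `ℓ < K`: at most
`e1` such `u`. Otherwise `u = μ ℓ v ≠ v` for some `ℓ < K` (different `u` have different `ℓ`), and
`v ∈ U ℓ` (at most `s` labels), or `μ ℓ v ∈ U ℓ` (at most `t` labels), or `m0 ℓ v = μ ℓ v = u ≠ mm ℓ v`, so
`R.Adj v (mm ℓ v)`: at most `S0 + E` labels.
-/

set_option autoImplicit false

namespace Pool.Agent.H71.DX

open Finset Classical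
open Pool.Agent.H71.DN

theorem inC {V : Type} [Fintype V] (G0 R : SimpleGraph V)
    (hGR : ∀ a b, G0.Adj a b → ¬ R.Adj a b) (K ζ0 e0 e1 s t : ℕ) (ν : ℕ → V → V)
    (hν : NF G0 K ζ0 e0 e1 ν) (U : ℕ → Finset V) (hs : ∀ v, mul K U v ≤ s)
    (ht : Fintype.card V * s ^ t < t.factorial)
    (D m b1 b2 q ζ β β2 S0 : ℕ) (hS0 : 0 < S0)
    (h1 : ζ + 2 * β + 3 * m ≤ D) (h2 : ζ + 2 * β + 4 * m ≤ q)
    (hR : ∀ F : SimpleGraph V, F ≤ R → (∀ v, dg R v ≤ dg F v + (S0 + (e0 + t))) →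
      (∀ A B, ee R A B ≤ ee F A B + 14 * (Fintype.card V * (e0 + t))) → Ex2 F D m b1 b2 q)
    (hβ : ∀ ℓ < K, (U ℓ).card + β2 ≤ β) (hζ : ∀ ℓ < K, ζ0 + (U ℓ).card ≤ ζ)
    (hT : 14 * (Fintype.card V * (e0 + t)) ≤ S0 * β2)
    (hev : ∀ ℓ < K, Even (univ \ U ℓ).card) :
    ∃ (mm : ℕ → V → V) (F1 : SimpleGraph V), PM (G0 ⊔ R) K U mm ∧
      (∀ ℓ < K, ∀ v, v ∉ U ℓ → mm ℓ v ≠ v) ∧
      (∀ v, (univ.filter fun u => G0.Adj v u ∧ ∀ ℓ < K, mm ℓ v ≠ u).card ≤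
        e1 + s + t + (S0 + (e0 + t))) ∧
      F1 ≤ R ∧ (∀ ℓ < K, ∀ v, ¬ F1.Adj v (mm ℓ v)) ∧
      (∀ v, dg R v ≤ dg F1 v + (S0 + (e0 + t))) ∧
      (∀ A B, ee R A B ≤ ee F1 A B + 14 * (Fintype.card V * (e0 + t))) := by
  obtain ⟨μ, hμ, hμt⟩ := permf G0 K ζ0 e0 e1 s t ν hν U hs ht
  obtain ⟨m0, hm0⟩ : ∃ m0 : ℕ → V → V, m0 = fun ℓ v =>
      if ℓ < K then (if v ∈ U ℓ ∨ μ ℓ v ∈ U ℓ then v else μ ℓ v) else v := ⟨_, rfl⟩
  have hmpos : ∀ ℓ v, (v ∈ U ℓ ∨ μ ℓ v ∈ U ℓ) → m0 ℓ v = v := by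
    intro ℓ v h
    rw [hm0]
    show (if ℓ < K then (if v ∈ U ℓ ∨ μ ℓ v ∈ U ℓ then v else μ ℓ v) else v) = v
    rw [if_pos h]
    split_ifs <;> rfl
  have hmneg : ∀ ℓ < K, ∀ v, ¬ (v ∈ U ℓ ∨ μ ℓ v ∈ U ℓ) → m0 ℓ v = μ ℓ v := by
    intro ℓ hℓ v h
    rw [hm0]
    show (if ℓ < K then (if v ∈ U ℓ ∨ μ ℓ v ∈ U ℓ then v else μ ℓ v) else v) = μ ℓ v
    rw [if_pos hℓ, if_neg h]
  have hcase : ∀ ℓ < K, ∀ v, m0 ℓ v = v ∨ m0 ℓ v = μ ℓ v := by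
    intro ℓ hℓ v
    by_cases h : v ∈ U ℓ ∨ μ ℓ v ∈ U ℓ
    · exact Or.inl (hmpos ℓ v h)
    · exact Or.inr (hmneg ℓ hℓ v h)
  have hinv : ∀ ℓ < K, Inv (m0 ℓ) := by
    intro ℓ hℓ v
    by_cases h : v ∈ U ℓ ∨ μ ℓ v ∈ U ℓ
    · rw [hmpos ℓ v h, hmpos ℓ v h]
    · rw [hmneg ℓ hℓ v h]
      have h2 : ¬ (μ ℓ v ∈ U ℓ ∨ μ ℓ (μ ℓ v) ∈ U ℓ) := by
        rw [hμ.inv ℓ hℓ v]
        intro h3
        exact h (Or.symm h3)
      rw [hmneg ℓ hℓ _ h2, hμ.inv ℓ hℓ v]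
  have hm1 : ∀ ℓ < K, ∀ v, ¬ R.Adj v (m0 ℓ v) := by
    intro ℓ hℓ v hRv
    rcases hcase ℓ hℓ v with h | h
    · rw [h] at hRv
      exact R.irrefl hRv
    · rw [h] at hRv
      by_cases h2 : μ ℓ v = v
      · rw [h2] at hRv
        exact R.irrefl hRv
      · exact hGR _ _ (hμ.adj ℓ hℓ v h2) hRv
  -- the uncovered vertices
  have hunc : ∀ ℓ < K, ∀ v, (m0 ℓ v = v ∧ v ∉ U ℓ) → μ ℓ v = v ∨ (μ ℓ v ≠ v ∧ μ ℓ v ∈ U ℓ) := by
    rintro ℓ hℓ v ⟨h5, h4⟩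
    by_cases h6 : μ ℓ v = v
    · exact Or.inl h6
    · right
      refine ⟨h6, ?_⟩
      by_contra h7
      have h8 : ¬ (v ∈ U ℓ ∨ μ ℓ v ∈ U ℓ) := by
        intro h
        rcases h with h | h
        · exact h4 h
        · exact h7 h
      rw [hmneg ℓ hℓ v h8] at h5
      exact h6 h5
  have hE : ∀ v, ((range K).filter fun ℓ => m0 ℓ v = v ∧ v ∉ U ℓ).card ≤ e0 + t := by
    intro v
    have hsub : ((range K).filter fun ℓ => m0 ℓ v = v ∧ v ∉ U ℓ) ⊆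
        ((range K).filter fun ℓ => μ ℓ v = v) ∪
        ((range K).filter fun ℓ => μ ℓ v ≠ v ∧ μ ℓ v ∈ U ℓ) := by
      intro ℓ hℓ
      rw [Finset.mem_filter] at hℓ
      rw [Finset.mem_union, Finset.mem_filter, Finset.mem_filter]
      rcases hunc ℓ (Finset.mem_range.1 hℓ.1) v hℓ.2 with h | h
      · exact Or.inl ⟨hℓ.1, h⟩
      · exact Or.inr ⟨hℓ.1, h⟩
    have k1 := (Finset.card_le_card hsub).trans (Finset.card_union_le _ _)
    have k2 := hμ.mis v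
    have k3 := hμt v
    omega
  have hζ' : ∀ ℓ < K, (univ.filter fun v => m0 ℓ v = v ∧ v ∉ U ℓ).card ≤ ζ := by
    intro ℓ hℓ
    have hsub : (univ.filter fun v => m0 ℓ v = v ∧ v ∉ U ℓ) ⊆
        (univ.filter fun v => μ ℓ v = v) ∪ (U ℓ).image (μ ℓ) := by
      intro v hv
      rw [Finset.mem_filter] at hv
      rw [Finset.mem_union, Finset.mem_filter, Finset.mem_image]
      rcases hunc ℓ hℓ v hv.2 with h | h
      · exact Or.inl ⟨hv.1, h⟩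
      · exact Or.inr ⟨μ ℓ v, h.2, hμ.inv ℓ hℓ v⟩
    have k1 := (Finset.card_le_card hsub).trans (Finset.card_union_le _ _)
    have k2 := hμ.unc ℓ hℓ
    have k3 : ((U ℓ).image (μ ℓ)).card ≤ (U ℓ).card := Finset.card_image_le
    have k4 := hζ ℓ hℓ
    omega
  have hTsum : ∑ ℓ ∈ range K, (univ.filter fun v => m0 ℓ v = v ∧ v ∉ U ℓ).card ≤
      Fintype.card V * (e0 + t) := by
    have e1 : ∑ ℓ ∈ range K, (univ.filter fun v => m0 ℓ v = v ∧ v ∉ U ℓ).card =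
        ∑ v : V, ((range K).filter fun ℓ => m0 ℓ v = v ∧ v ∉ U ℓ).card := by
      simp_rw [Finset.card_filter]
      rw [Finset.sum_comm]
    rw [e1]
    refine (Finset.sum_le_card_nsmul _ _ (e0 + t) fun v _ => hE v).trans (le_of_eq ?_)
    rw [Finset.card_univ, smul_eq_mul]
  obtain ⟨mm, k1, k2, k3, k5, k6, k7, k8⟩ := prc2 R K U m0 D m b1 b2 q ζ β β2 S0 (e0 + t)
    (Fintype.card V * (e0 + t)) hS0 h1 h2 hR hinv hm1 (fun ℓ _ v hv => hmpos ℓ v (Or.inl hv))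
    hζ' hev hβ hTsum hT hE
  have hF : ∀ v, dg R v ≤ dg (pr2F R mm K k1) v + pr2U R mm K v := fun v => pr2_deg R mm K k1 v
  refine ⟨mm, pr2F R mm K k1, ⟨k1, ?_, ?_, k2⟩, k3, ?_, fun a b hab => hab.1, ?_, ?_, ?_⟩
  · intro ℓ hℓ v hv
    rcases k5 ℓ hℓ v with h | h
    · rw [h] at hv ⊢
      rcases hcase ℓ hℓ v with h3 | h3
      · exact absurd h3 hv
      · rw [h3] at hv ⊢
        exact Or.inl (hμ.adj ℓ hℓ v hv)
    · exact Or.inr h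
  · intro ℓ hℓ ℓ' hℓ' hne v hv he
    by_cases hRv : R.Adj v (mm ℓ v)
    · exact k6 ℓ hℓ ℓ' hℓ' (Ne.symm hne) v hRv he
    · have g1 : mm ℓ v = m0 ℓ v := (k5 ℓ hℓ v).resolve_right hRv
      have hR' : ¬ R.Adj v (mm ℓ' v) := by
        rw [← he]
        exact hRv
      have g2 : mm ℓ' v = m0 ℓ' v := (k5 ℓ' hℓ' v).resolve_right hR'
      have g3 : m0 ℓ v = μ ℓ v := by
        rcases hcase ℓ hℓ v with h | h
        · exact absurd (g1.trans h) hv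
        · exact h
      have hv' : mm ℓ' v ≠ v := by
        rw [← he]
        exact hv
      have g4 : m0 ℓ' v = μ ℓ' v := by
        rcases hcase ℓ' hℓ' v with h | h
        · exact absurd (g2.trans h) hv'
        · exact h
      refine hμ.dis ℓ hℓ ℓ' hℓ' hne v ?_ ?_
      · rw [← g3, ← g1]
        exact hv
      · rw [← g3, ← g1, he, g2, g4]
  · intro v
    have hsub : (univ.filter fun u => G0.Adj v u ∧ ∀ ℓ < K, mm ℓ v ≠ u) ⊆
        (univ.filter fun u => G0.Adj v u ∧ ∀ ℓ < K, μ ℓ v ≠ u) ∪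
        ((((range K).filter fun ℓ => v ∈ U ℓ) ∪ ((range K).filter fun ℓ => μ ℓ v ≠ v ∧ μ ℓ v ∈ U ℓ)) ∪
          ((range K).filter fun ℓ => R.Adj v (mm ℓ v))).image (fun ℓ => μ ℓ v) := by
      intro u hu
      rw [Finset.mem_filter] at hu
      obtain ⟨-, hu1, hu2⟩ := hu
      rw [Finset.mem_union, Finset.mem_filter]
      by_cases hall : ∀ ℓ < K, μ ℓ v ≠ u
      · exact Or.inl ⟨mem_univ _, hu1, hall⟩
      · right
        push Not at hall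
        obtain ⟨ℓ, hℓ, hℓu⟩ := hall
        rw [Finset.mem_image]
        refine ⟨ℓ, ?_, hℓu⟩
        rw [Finset.mem_union, Finset.mem_union, Finset.mem_filter, Finset.mem_filter, Finset.mem_filter]
        have hKℓ := Finset.mem_range.2 hℓ
        by_cases c1 : v ∈ U ℓ
        · exact Or.inl (Or.inl ⟨hKℓ, c1⟩)
        · by_cases c2 : μ ℓ v ∈ U ℓ
          · refine Or.inl (Or.inr ⟨hKℓ, ?_, c2⟩)
            rw [hℓu]
            exact hu1.ne'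
          · right
            refine ⟨hKℓ, ?_⟩
            have c3 : m0 ℓ v = μ ℓ v := hmneg ℓ hℓ v (fun h => h.elim c1 c2)
            rcases k5 ℓ hℓ v with h | h
            · exfalso
              apply hu2 ℓ hℓ
              rw [h, c3, hℓu]
            · exact h
    have g1 := (Finset.card_le_card hsub).trans (Finset.card_union_le _ _)
    have g2 : ((((range K).filter fun ℓ => v ∈ U ℓ) ∪ ((range K).filter fun ℓ => μ ℓ v ≠ v ∧ μ ℓ v ∈ U ℓ)) ∪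
          ((range K).filter fun ℓ => R.Adj v (mm ℓ v))).card ≤ s + t + (S0 + (e0 + t)) := by
      refine (Finset.card_union_le _ _).trans (Nat.add_le_add ((Finset.card_union_le _ _).trans
        (Nat.add_le_add (hs v) (hμt v))) (k7 v))
    have g3 : (((((range K).filter fun ℓ => v ∈ U ℓ) ∪ ((range K).filter fun ℓ => μ ℓ v ≠ v ∧ μ ℓ v ∈ U ℓ)) ∪
          ((range K).filter fun ℓ => R.Adj v (mm ℓ v))).image (fun ℓ => μ ℓ v)).card ≤
        s + t + (S0 + (e0 + t)) := Finset.card_image_le.trans g2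
    have g4 := hμ.lft v
    omega
  · intro ℓ hℓ v h
    exact h.2 ℓ hℓ rfl
  · intro v
    exact (hF v).trans (Nat.add_le_add_left (k7 v) _)
  · intro A B
    exact (pr2_ee R mm K k1 A B).trans (Nat.add_le_add_left k8 _)

end Pool.Agent.H71.DX
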