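import Mathlib
import Pool.Agent.H71.DX.Rnd
import Pool.Agent.H71.DX.F12

/-! `meanb` of `DX/Nma.lean` (split for the build time). -/

set_option autoImplicit false

namespace Pool.Agent.H71.DX

open Finset Classical
open Pool.Agent.H71.DN

theorem meanb {V : Type} [Fintype V] (G : SimpleGraph V) (Z : Finset V) (M Q J Δ : ℕ)
    (hM : 2 ≤ M) (hQ : J * (M + 1) ≤ Q) (hQ0 : 0 < Q) (η ρ : ℝ)
    (hZ : ∀ v, |((univ.filter fun u => G.Adj v u ∧ u ∈ Z).card : ℝ) -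
          (M - 1) / (2 * M) * dg G v| ≤ η * Fintype.card V)
    (hd : ∀ v, dg G v ≤ Δ ∧ (Δ : ℝ) ≤ dg G v + ρ * Fintype.card V) (v : V) :
    |mean G Z M Q J v - J * (((M : ℝ) + 1) ^ 2 / (2 * M * Q)) * Δ| ≤
      (2 * η + 2 * ρ) * Fintype.card V := by
  obtain ⟨dz, hdz⟩ : ∃ d : ℝ, d = ((univ.filter fun u => G.Adj v u ∧ u ∈ Z).card : ℝ) := ⟨_, rfl⟩
  obtain ⟨dy, hdy⟩ : ∃ d : ℝ, d = ((univ.filter fun u => G.Adj v u ∧ u ∉ Z).card : ℝ) := ⟨_, rfl⟩
  obtain ⟨N, hN⟩ : ∃ N : ℝ, N = (Fintype.card V : ℝ) := ⟨_, rfl⟩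
  obtain ⟨D, hD⟩ : ∃ D : ℝ, D = (dg G v : ℝ) := ⟨_, rfl⟩
  have hsum : dz + dy = D := by
    rw [hdz, hdy, hD]
    unfold dg
    have h1 := Finset.card_filter_add_card_filter_not (s := univ.filter fun u => G.Adj v u) (fun u => u ∈ Z)
    rw [Finset.filter_filter, Finset.filter_filter] at h1
    exact_mod_cast h1
  have h1 := hZ v
  have h2 : (D : ℝ) ≤ Δ := by
    rw [hD]
    exact_mod_cast (hd v).1
  have h3 := (hd v).2
  rw [← hdz, ← hD, ← hN] at h1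
  rw [← hD, ← hN] at h3
  rw [← hN]
  have hMp : (2 : ℝ) ≤ M := by exact_mod_cast hM
  have hQp : (0 : ℝ) < Q := by exact_mod_cast hQ0
  have hJ0 : (0 : ℝ) ≤ J := Nat.cast_nonneg J
  have hQ' : (J : ℝ) * (M + 1) ≤ Q := by exact_mod_cast hQ
  obtain ⟨z, hz⟩ : ∃ z : ℝ, z = ((M : ℝ) - 1) / (2 * M) := ⟨_, rfl⟩
  have hz0 : 0 ≤ z := by
    rw [hz]
    exact div_nonneg (by linarith) (by linarith)
  have hz1 : z ≤ 1 := by
    rw [hz, div_le_one (by linarith)]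
    linarith
  have hz' : 1 - z = ((M : ℝ) + 1) / (2 * M) := by
    rw [hz]
    field_simp
    ring
  rw [← hz] at h1
  obtain ⟨a, ha⟩ : ∃ a : ℝ, a = (J : ℝ) * (M + 1) / Q := ⟨_, rfl⟩
  obtain ⟨b, hb⟩ : ∃ b : ℝ, b = 2 * (J : ℝ) / Q := ⟨_, rfl⟩
  have ha0 : 0 ≤ a := by
    rw [ha]
    positivity
  have ha1 : a ≤ 1 := by
    rw [ha, div_le_one hQp]
    exact hQ'
  have hb0 : 0 ≤ b := by
    rw [hb]
    positivity
  have hb1 : b ≤ 1 := by
    rw [hb, div_le_one hQp]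
    nlinarith
  have hJr1 : (J : ℝ) * (((M : ℝ) + 1) ^ 2 / (2 * M * Q)) = a * (1 - z) := by
    rw [ha, hz']
    field_simp
  have hJr2 : (J : ℝ) * (((M : ℝ) + 1) ^ 2 / (2 * M * Q)) = a * z + b * (1 - z) := by
    rw [ha, hb, hz', hz]
    field_simp
    ring
  obtain ⟨k1, k2⟩ := abs_le.1 h1
  have hηN : 0 ≤ η * N := (abs_nonneg _).trans h1
  have hρN : 0 ≤ ρ * N := by linarith
  have hmul : ∀ (w x B : ℝ), 0 ≤ w → w ≤ 1 → -B ≤ x → x ≤ B → -B ≤ w * x ∧ w * x ≤ B := by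
    intro w x B hw0 hw1 hx1 hx2
    have hB : 0 ≤ B := by linarith
    constructor
    · nlinarith [mul_nonneg hw0 (show 0 ≤ x + B by linarith), mul_nonneg (show 0 ≤ 1 - w by linarith) hB]
    · nlinarith [mul_nonneg hw0 (show 0 ≤ B - x by linarith), mul_nonneg (show 0 ≤ 1 - w by linarith) hB]
  unfold mean
  split_ifs with hv
  · rw [← hdy, ← ha, hJr1]
    have e : a * dy - a * (1 - z) * Δ = a * (dy - (1 - z) * D) + a * (1 - z) * (D - Δ) := by ring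
    rw [e]
    obtain ⟨l1, l2⟩ := hmul a (dy - (1 - z) * D) (η * N) ha0 ha1 (by nlinarith) (by nlinarith)
    obtain ⟨l3, l4⟩ := hmul (a * (1 - z)) (D - Δ) (ρ * N) (by nlinarith [mul_nonneg ha0 (show 0 ≤ 1 - z by linarith)])
      (by nlinarith [mul_nonneg ha0 hz0]) (by linarith) (by linarith)
    rw [abs_le]
    constructor <;> linarith
  · rw [← hdy, ← hdz, ← ha, ← hb, hJr2]
    have e : a * dz + b * dy - (a * z + b * (1 - z)) * Δ =
        a * (dz - z * D) + b * (dy - (1 - z) * D) + (a * z + b * (1 - z)) * (D - Δ) := by ring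
    rw [e]
    obtain ⟨l1, l2⟩ := hmul a (dz - z * D) (η * N) ha0 ha1 (by linarith) (by linarith)
    obtain ⟨l3, l4⟩ := hmul b (dy - (1 - z) * D) (η * N) hb0 hb1 (by nlinarith) (by nlinarith)
    have hz2 : 0 ≤ 1 - z := by linarith
    obtain ⟨l5, l6⟩ := hmul (a * z + b * (1 - z)) (D - Δ) (ρ * N) (by positivity)
      (by nlinarith [mul_nonneg (show 0 ≤ 1 - a by linarith) hz0, mul_nonneg (show 0 ≤ 1 - b by linarith) hz2])
      (by linarith) (by linarith)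
    rw [abs_le]
    constructor <;> linarith

end Pool.Agent.H71.DX
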