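import Mathlib
import Pool.Agent.H71.DX.Nma0
import Pool.Agent.H71.DX.Nff

/-! The small lemmas of `DX/Nmb.lean` (split for the build time). -/

set_option autoImplicit false

namespace Pool.Agent.H71.DX

open Finset Classical
open Pool.Agent.H71.DN

theorem nmb_card3 {V : Type} [Fintype V] (P A B C : V → Prop)
    (h : ∀ u, P u ↔ (A u ∨ B u) ∨ C u) (hAB : ∀ u, A u → ¬ B u) (hC : ∀ u, A u ∨ B u → ¬ C u) :
    (univ.filter fun u => A u).card + (univ.filter fun u => B u).card +
      (univ.filter fun u => C u).card = (univ.filter fun u => P u).card := by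
  have h1 : (univ.filter fun u => P u) =
      ((univ.filter fun u => A u) ∪ (univ.filter fun u => B u)) ∪
        (univ.filter fun u => C u) := by
    ext u
    simp only [mem_filter, mem_univ, true_and, mem_union]
    exact h u
  have d1 : Disjoint (univ.filter fun u => A u) (univ.filter fun u => B u) := by
    rw [Finset.disjoint_left]
    intro u hu hu'
    exact hAB u (mem_filter.1 hu).2 (mem_filter.1 hu').2
  have d2 : Disjoint ((univ.filter fun u => A u) ∪ (univ.filter fun u => B u))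
      (univ.filter fun u => C u) := by
    rw [Finset.disjoint_left]
    intro u hu hu'
    rcases mem_union.1 hu with h2 | h2
    · exact hC u (Or.inl (mem_filter.1 h2).2) (mem_filter.1 hu').2
    · exact hC u (Or.inr (mem_filter.1 h2).2) (mem_filter.1 hu').2
  rw [h1, card_union_of_disjoint d2, card_union_of_disjoint d1]

theorem nmb_dg {V : Type} [Fintype V] (G R H : SimpleGraph V) (hR : R ≤ G) (hH : H ≤ G)
    (hRH : ∀ a b, R.Adj a b → ¬ H.Adj a b) (v : V) :
    dg (G \ (R ⊔ H)) v + dg R v + dg H v = dg G v := by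
  refine nmb_card3 _ _ _ _ ?_ ?_ ?_
  · intro u
    constructor
    · intro h
      by_cases h1 : R.Adj v u
      · exact Or.inl (Or.inr h1)
      · by_cases h2 : H.Adj v u
        · exact Or.inr h2
        · exact Or.inl (Or.inl ⟨h, fun h3 => Or.elim h3 h1 h2⟩)
    · rintro ((h | h) | h)
      · exact h.1
      · exact hR h
      · exact hH h
  · intro u h h'
    exact h.2 (Or.inl h')
  · rintro u (h | h) h'
    · exact h.2 (Or.inr h')
    · exact hRH _ _ h h'

/-- The degrees in the rest, in `R` and in `H`. -/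
theorem nmb_deg (g0 gR gH g Δ : ℕ) (a b x : ℝ) (h : g0 + gR + gH = g)
    (hR : |(gR : ℝ) - a| ≤ 5 * x) (hH : |(gH : ℝ) - b| ≤ 5 * x) (hg : g ≤ Δ)
    (hg' : (Δ : ℝ) ≤ g + x) :
    (g0 : ℝ) ≤ Δ - a - b + 10 * x ∧ Δ - a - b - 11 * x ≤ g0 := by
  have h1 : (g0 : ℝ) + gR + gH = g := by exact_mod_cast h
  have h2 : (g : ℝ) ≤ Δ := by exact_mod_cast hg
  have h3 := abs_le.1 hR
  have h4 := abs_le.1 hH
  constructor <;> linarith [h3.1, h3.2, h4.1, h4.2]

theorem nmb_ceil (a : ℝ) (ha : 0 ≤ a) : ∃ m : ℕ, a ≤ m ∧ (m : ℝ) ≤ a + 1 :=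
  ⟨⌈a⌉₊, Nat.le_ceil a, (Nat.ceil_lt_add_one ha).le⟩

theorem nmb_floor (a : ℝ) (ha : 0 ≤ a) : ∃ m : ℕ, (m : ℝ) ≤ a ∧ a < m + 1 :=
  ⟨⌊a⌋₊, Nat.floor_le ha, Nat.lt_floor_add_one a⟩

end Pool.Agent.H71.DX
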