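import Mathlib
import Pool.Agent.H71.DX.InC
import Pool.Agent.H71.DX.Sas

/-!
CR2: the core theorem for one graph with parameters `Par2`: two batches of labels.

Proof (`n = #V`, `L = K1 + K2`).
0. `B := {ℓ < L : ¬ Even #(univ \ U ℓ)}`; `zas` gives `z ℓ ∈ Z ∖ U ℓ` for `ℓ ∈ B`, all different.
   `U2 ℓ := insert (z ℓ) (U ℓ)` for `ℓ ∈ B`, `U2 ℓ := U ℓ` otherwise. So `#(univ \ U2 ℓ)` is even for all
   `ℓ < L`, `#(U2 ℓ) ≤ u`, and `mul L U2 v ≤ s` (at most one more label than for `U`).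
1. First batch: `inC` for `G0 = G \ (R ⊔ H)`, `K = K1`, `ν = ν1`, `U = U2`, `t = t1`, `β2 = c1`, `S0 = S1`
   (`hR` from `ex`: if `dg R v ≤ dg F v + (S1 + (e0 + t1))` then also with the larger bound). It gives
   `mm1`, `F1`. `G0 ⊔ R ≤ G`. At most `dS` of the `G0`-edges at each vertex are not in the `mm1 ℓ`.
2. `S` := the graph of the edges of `G` inside `Z` that are not in the `mm1 ℓ`:
   `S.Adj a b := G.Adj a b ∧ a ∈ Z ∧ b ∈ Z ∧ ∀ ℓ < K1, mm1 ℓ a ≠ b`. These are `G0`-edges (`R, H ≤ gz G Z`), so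
   `dg S v ≤ dS`. `sas` for `S`, `K = K2`, the sets `U2 (K1 + j)`, gives `σ j`, `j < K2`
   (`mul K2 (fun j => U2 (K1 + j)) v ≤ mul L U2 v ≤ s`).
   `U3 j := U2 (K1 + j) ∪ {v : σ j v ≠ v}`: a disjoint union (`σ j` fixes `U2 (K1 + j)`), the second set has
   an even number of elements (at most `cap`), so `#(univ \ U3 j)` is even, `#(U3 j) ≤ u + cap`, and
   `mul K2 U3 v ≤ s + dS` (the `σ j v ≠ v` are different `S`-neighbours of `v`).
3. Second batch: `inC` for `G0 = H`, the reserve `F1` (`F1 ≤ R`, so `H.Adj a b → ¬ F1.Adj a b`), `K = K2`,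
   `ν = ν2`, `U = U3`, `s := s + dS`, `t = t2`, `β2 = c2`, `S0 = S2`. Its `hR`: if `F ≤ F1`,
   `dg F1 v ≤ dg F v + (S2 + (f0 + t2))`, `ee F1 A B ≤ ee F A B + 14 n (f0 + t2)`, then with the last two
   conclusions of step 1 the hypotheses of `ex` hold. It gives `mm2`.
4. `mm ℓ := mm1 ℓ` for `ℓ < K1`; for `ℓ = K1 + j`, `mm ℓ v := if σ j v ≠ v then σ j v else mm2 j v` (an
   involution: `mm2 j` fixes `U3 j ⊇ {v : σ j v ≠ v}`).
   * `PM G L U mm`: `inv`, `adj` clear; `fix`: `U ℓ ⊆ U2 ℓ` (and `σ j` fixes `U2 (K1 + j)`).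
     `dis`: within batch 1 and within batch 2 for `mm2` from `inC`; the `σ`'s among each other from
     `sas`; `σ`-edges are in `S`: edges of `G0` (not of `H` or `F1`) not in batch 1; `mm2`-edges are edges
     of `H` (not of `G0 ⊔ R`) or of `F1` (not in batch 1).
   * every `v ∉ U2 ℓ` is covered by `mm ℓ`. So `v ∉ U ℓ`, `mm ℓ v = v` implies `ℓ ∈ B`, `v = z ℓ`; the `z ℓ` are
     different, so at most one `ℓ` for each `v`: `one`.
   * `ind`: then `a, b ∈ Z`; if `mm1 ℓ a ≠ b` for all `ℓ < K1` then `S.Adj a b`, so `σ j a = b` for some `j < K2`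
     and `mm (K1 + j) a = b`.
-/

set_option autoImplicit false

namespace Pool.Agent.H71.DX

open Finset Classical
open Pool.Agent.H71.DN

theorem Cr2_memf {V : Type} [Fintype V] (p : V → Prop) (i : DecidablePred p) (w : V) (h : p w) :
    w ∈ @Finset.filter V p i univ := by
  rw [Finset.mem_filter]
  exact ⟨Finset.mem_univ _, h⟩

theorem Cr2_mul_le {V : Type} (L K a : ℕ) (U : ℕ → Finset V) (v : V) (h : ∀ j < K, a + j < L) :
    mul K (fun j => U (a + j)) v ≤ mul L U v := by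
  unfold mul
  refine Finset.card_le_card_of_injOn (fun j => a + j) ?_ ?_
  · intro j hj
    have hj2 := Finset.mem_filter.1 (Finset.mem_coe.1 hj)
    refine Finset.mem_coe.2 (Finset.mem_filter.2 ⟨?_, hj2.2⟩)
    exact Finset.mem_range.2 (h j (Finset.mem_range.1 hj2.1))
  · intro i _ j _ hij
    have hij2 : a + i = a + j := hij
    omega

/-- Step 0: the parity correction. -/
theorem Cr2_par {V : Type} [Fintype V] (Z : Finset V) (L u s : ℕ) (U : ℕ → Finset V)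
    (hU : ∀ ℓ < L, (U ℓ).card + 1 ≤ u) (hs : ∀ v, mul L U v + 1 ≤ s)
    (hB : ((range L).filter fun ℓ => ¬ Even (univ \ U ℓ).card).card + u < Z.card) :
    ∃ (U2 : ℕ → Finset V) (z : ℕ → V) (B : Finset ℕ),
      (∀ ℓ < L, Even (univ \ U2 ℓ).card) ∧ (∀ ℓ < L, (U2 ℓ).card ≤ u) ∧
      (∀ v, mul L U2 v ≤ s) ∧ (∀ ℓ, U ℓ ⊆ U2 ℓ) ∧
      (∀ ℓ v, v ∈ U2 ℓ → v ∉ U ℓ → ℓ ∈ B ∧ v = z ℓ) ∧ (∀ ℓ ∈ B, z ℓ ∈ Z) ∧
      (∀ ℓ ∈ B, ∀ ℓ' ∈ B, z ℓ = z ℓ' → ℓ = ℓ') := by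
  obtain ⟨B, hBd⟩ : ∃ B : Finset ℕ, B = (range L).filter fun ℓ => ¬ Even (univ \ U ℓ).card :=
    ⟨_, rfl⟩
  rw [← hBd] at hB
  obtain ⟨z, hz1, hz2⟩ := zas Z B U u (fun ℓ hℓ => by
    rw [hBd, Finset.mem_filter, Finset.mem_range] at hℓ
    have := hU ℓ hℓ.1
    omega) hB
  refine ⟨fun ℓ => if ℓ ∈ B then insert (z ℓ) (U ℓ) else U ℓ, z, B, ?_, ?_, ?_, ?_, ?_, ?_, hz2⟩
  · intro ℓ hℓ
    by_cases h : ℓ ∈ B
    · simp only [if_pos h]
      have h1 : ¬ Even (univ \ U ℓ).card := by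
        rw [hBd, Finset.mem_filter] at h
        exact h.2
      have h2 : univ \ insert (z ℓ) (U ℓ) = (univ \ U ℓ).erase (z ℓ) := by
        ext x
        simp only [Finset.mem_sdiff, Finset.mem_univ, true_and, Finset.mem_insert,
          Finset.mem_erase, not_or]
      have h3 : z ℓ ∈ univ \ U ℓ := Finset.mem_sdiff.2 ⟨Finset.mem_univ _, (hz1 ℓ h).2⟩
      rw [h2, Finset.card_erase_of_mem h3]
      rw [Nat.not_even_iff_odd] at h1
      exact Nat.Odd.sub_odd h1 odd_one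
    · simp only [if_neg h]
      by_contra h1
      refine h ?_
      rw [hBd, Finset.mem_filter]
      exact ⟨Finset.mem_range.2 hℓ, h1⟩
  · intro ℓ hℓ
    have h1 := hU ℓ hℓ
    by_cases h : ℓ ∈ B
    · simp only [if_pos h]
      exact (Finset.card_insert_le _ _).trans h1
    · simp only [if_neg h]
      omega
  · intro v
    refine le_trans ?_ (hs v)
    unfold mul
    beta_reduce
    have h1 : ((range L).filter fun ℓ => v ∈ (if ℓ ∈ B then insert (z ℓ) (U ℓ) else U ℓ)) ⊆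
        ((range L).filter fun ℓ => v ∈ U ℓ) ∪ (B.filter fun ℓ => z ℓ = v) := by
      intro ℓ hℓ
      rw [Finset.mem_filter] at hℓ
      rw [Finset.mem_union, Finset.mem_filter, Finset.mem_filter]
      obtain ⟨h2, h3⟩ := hℓ
      by_cases h : ℓ ∈ B
      · rw [if_pos h, Finset.mem_insert] at h3
        rcases h3 with h3 | h3
        · exact Or.inr ⟨h, h3.symm⟩
        · exact Or.inl ⟨h2, h3⟩
      · rw [if_neg h] at h3
        exact Or.inl ⟨h2, h3⟩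
    have h2 : (B.filter fun ℓ => z ℓ = v).card ≤ 1 := by
      rw [Finset.card_le_one]
      intro ℓ hℓ ℓ' hℓ'
      rw [Finset.mem_filter] at hℓ hℓ'
      exact hz2 ℓ hℓ.1 ℓ' hℓ'.1 (hℓ.2.trans hℓ'.2.symm)
    have h3 := (Finset.card_le_card h1).trans (Finset.card_union_le _ _)
    omega
  · intro ℓ
    by_cases h : ℓ ∈ B
    · simp only [if_pos h]
      exact Finset.subset_insert _ _
    · simp only [if_neg h]
      exact Finset.Subset.refl _
  · intro ℓ v h1 h2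
    by_cases h : ℓ ∈ B
    · simp only [if_pos h] at h1
      rw [Finset.mem_insert] at h1
      rcases h1 with h1 | h1
      · exact ⟨h, h1⟩
      · exact absurd h1 h2
    · simp only [if_neg h] at h1
      exact absurd h1 h2
  · intro ℓ hℓ
    exact (hz1 ℓ hℓ).1

/-- Step 2: the number of labels `j` with `σ j v ≠ v`. -/
theorem Cr2_sig {V : Type} [Fintype V] (S : SimpleGraph V) (K dS : ℕ) (σ : ℕ → V → V)
    (hd : ∀ v, dg S v ≤ dS) (hadj : ∀ j < K, ∀ v, σ j v ≠ v → S.Adj v (σ j v))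
    (hdis : ∀ i < K, ∀ j < K, i ≠ j → ∀ v, σ i v ≠ v → σ i v ≠ σ j v) (v : V) :
    ((range K).filter fun j => σ j v ≠ v).card ≤ dS := by
  refine le_trans ?_ (hd v)
  unfold dg
  refine Finset.card_le_card_of_injOn (fun j => σ j v) ?_ ?_
  · intro j hj
    have hj2 := Finset.mem_filter.1 (Finset.mem_coe.1 hj)
    exact Finset.mem_coe.2 (Finset.mem_filter.2 ⟨Finset.mem_univ _,
      hadj j (Finset.mem_range.1 hj2.1) v hj2.2⟩)
  · intro i hi j hj hij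
    have hi2 := Finset.mem_filter.1 (Finset.mem_coe.1 hi)
    have hj2 := Finset.mem_filter.1 (Finset.mem_coe.1 hj)
    by_contra hne
    exact hdis i (Finset.mem_range.1 hi2.1) j (Finset.mem_range.1 hj2.1) hne v hi2.2 hij

theorem cr2 {V : Type} [Fintype V] (G R H : SimpleGraph V) (Z : Finset V)
    (K1 K2 ζ0 e0 e1 f0 f1 u s t1 t2 D m b1 b2 q ζ β S1 c1 S2 c2 dS cap : ℕ)
    (ν1 ν2 : ℕ → V → V)
    (hP : Par2 G R H Z K1 K2 ζ0 e0 e1 f0 f1 u s t1 t2 D m b1 b2 q ζ β S1 c1 S2 c2 dS cap ν1 ν2)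
    (U : ℕ → Finset V) (hU : ∀ ℓ < K1 + K2, (U ℓ).card + 1 ≤ u)
    (hs : ∀ v, mul (K1 + K2) U v + 1 ≤ s)
    (hB : ((range (K1 + K2)).filter fun ℓ => ¬ Even (univ \ U ℓ).card).card + u < Z.card) :
    ∃ mm : ℕ → V → V, Cnc G (K1 + K2) U mm := by
  obtain ⟨U2, z, B, hev, hcard, hmul, hsub, hz, hzZ, hzi⟩ := Cr2_par Z (K1 + K2) u s U hU hs hB
  have hRg : ∀ a b, R.Adj a b → G.Adj a b ∧ ¬ (a ∈ Z ∧ b ∈ Z) := fun a b h => hP.hR h
  have hHg : ∀ a b, H.Adj a b → G.Adj a b ∧ ¬ (a ∈ Z ∧ b ∈ Z) := fun a b h => hP.hH h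
  have hβ1 := hP.hβ1
  have hβ2 := hP.hβ2
  have hζ := hP.hζ
  -- first batch
  obtain ⟨mm1, F1, hPM1, hcov1, hlft1, hF1R, hF1m, hF1d, hF1e⟩ :=
    inC (G \ (R ⊔ H)) R (fun a b h h' => by
        rw [SimpleGraph.sdiff_adj] at h
        exact h.2 (Or.inl h')) K1 ζ0 e0 e1 s t1 ν1 hP.hν1 U2
      (fun v => (by
        have h1 := Cr2_mul_le (K1 + K2) K1 0 U2 v (fun j hj => by omega)
        simp only [Nat.zero_add] at h1
        exact h1.trans (hmul v))) hP.ht1 D m b1 b2 q ζ β c1 S1 hP.hS1 hP.h1 hP.h2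
      (fun F hF h1 h2 => hP.ex F hF (fun v => (h1 v).trans (by omega))
        (fun A B => (h2 A B).trans (by omega)))
      (fun ℓ hℓ => by
        have := hcard ℓ (by omega)
        omega)
      (fun ℓ hℓ => by
        have := hcard ℓ (by omega)
        omega) hP.hT1 (fun ℓ hℓ => hev ℓ (by omega))
  -- the graph S
  obtain ⟨S, hS⟩ : ∃ S : SimpleGraph V, ∀ a b, S.Adj a b ↔
      G.Adj a b ∧ a ∈ Z ∧ b ∈ Z ∧ ∀ ℓ < K1, mm1 ℓ a ≠ b :=
    ⟨{ Adj := fun a b => G.Adj a b ∧ a ∈ Z ∧ b ∈ Z ∧ ∀ ℓ < K1, mm1 ℓ a ≠ b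
       symm := ⟨fun a b h => ⟨h.1.symm, h.2.2.1, h.2.1, fun ℓ hℓ he => h.2.2.2 ℓ hℓ (by
        rw [← he]
        exact hPM1.inv ℓ hℓ b)⟩⟩
       loopless := ⟨fun a h => G.irrefl h.1⟩ }, fun a b => Iff.rfl⟩
  have hdS : ∀ v, dg S v ≤ dS := by
    intro v
    refine le_trans ?_ ((hlft1 v).trans hP.hdS)
    unfold dg
    refine Finset.card_le_card ?_
    intro w hw
    rw [Finset.mem_filter] at hw
    obtain ⟨h1, h2, h3, h4⟩ := (hS v w).1 hw.2
    refine Cr2_memf _ _ _ ⟨?_, h4⟩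
    rw [SimpleGraph.sdiff_adj]
    refine ⟨h1, fun h5 => ?_⟩
    rcases h5 with h5 | h5
    · exact (hRg _ _ h5).2 ⟨h2, h3⟩
    · exact (hHg _ _ h5).2 ⟨h2, h3⟩
  obtain ⟨σ, hσi, hσa, hσd, hσc, hσf, hσn⟩ := sas S K2 (fun j => U2 (K1 + j)) dS s cap hdS
    (fun v => (Cr2_mul_le (K1 + K2) K2 K1 U2 v (fun j hj => by omega)).trans (hmul v))
    hP.hcap hP.hK2
  obtain ⟨U3, hU3⟩ : ∃ U3 : ℕ → Finset V, ∀ j, U3 j = U2 (K1 + j) ∪
      (univ.filter fun v => σ j v ≠ v) := ⟨_, fun _ => rfl⟩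
  have hU3c : ∀ j < K2, (U3 j).card ≤ u + cap := by
    intro j hj
    rw [hU3]
    refine (Finset.card_union_le _ _).trans (Nat.add_le_add (hcard _ (by omega)) ?_)
    exact hσn j hj
  have hU3e : ∀ j < K2, Even (univ \ U3 j).card := by
    intro j hj
    have h1 := par (σ j) (hσi j hj) (U2 (K1 + j)) (hσf j hj) (hev _ (by omega))
    have h2 : univ \ U3 j = (univ.filter fun v => σ j v = v ∧ v ∉ U2 (K1 + j)) := by
      ext v
      rw [hU3, Finset.mem_sdiff, Finset.mem_union, Finset.mem_filter, Finset.mem_filter]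
      simp only [Finset.mem_univ, true_and]
      tauto
    rw [h2]
    exact h1
  have hU3m : ∀ v, mul K2 U3 v ≤ s + dS := by
    intro v
    have h1 := Cr2_sig S K2 dS σ hdS hσa hσd v
    have h2 := (Cr2_mul_le (K1 + K2) K2 K1 U2 v (fun j hj => by omega)).trans (hmul v)
    unfold mul at h2 ⊢
    beta_reduce at h2
    have h3 : ((range K2).filter fun j => v ∈ U3 j) ⊆
        ((range K2).filter fun j => v ∈ U2 (K1 + j)) ∪ ((range K2).filter fun j => σ j v ≠ v) := by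
      intro j hj
      rw [Finset.mem_filter, hU3, Finset.mem_union, Finset.mem_filter] at hj
      rw [Finset.mem_union, Finset.mem_filter, Finset.mem_filter]
      rcases hj.2 with h4 | h4
      · exact Or.inl ⟨hj.1, h4⟩
      · exact Or.inr ⟨hj.1, h4.2⟩
    have h4 := (Finset.card_le_card h3).trans (Finset.card_union_le _ _)
    omega
  -- second batch
  obtain ⟨mm2, F2, hPM2, hcov2, -, -, -, -, -⟩ :=
    inC H F1 (fun a b h h' => hP.hRH a b (hF1R h') h) K2 ζ0 f0 f1 (s + dS) t2 ν2 hP.hν2 U3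
      hU3m hP.ht2 D m b1 b2 q ζ β c2 S2 hP.hS2 hP.h1 hP.h2
      (fun F hF h1 h2 => hP.ex F (hF.trans hF1R)
        (fun v => by
          have h3 := h1 v
          have h4 := hF1d v
          omega)
        (fun A B => by
          have h3 := h2 A B
          have h4 := hF1e A B
          omega))
      (fun ℓ hℓ => by
        have := hU3c ℓ hℓ
        omega)
      (fun ℓ hℓ => by
        have := hU3c ℓ hℓ
        omega) hP.hT2 hU3e
  -- the combined matchings of the second batch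
  obtain ⟨m3, hm3⟩ : ∃ m3 : ℕ → V → V, ∀ j v, m3 j v = if σ j v ≠ v then σ j v else mm2 j v :=
    ⟨_, fun _ _ => rfl⟩
  have hm3a : ∀ j v, σ j v ≠ v → m3 j v = σ j v := fun j v h => by rw [hm3, if_pos h]
  have hm3b : ∀ j v, σ j v = v → m3 j v = mm2 j v := fun j v h => by
    rw [hm3, if_neg (not_not.2 h)]
  have hmemU3 : ∀ j v, σ j v ≠ v → v ∈ U3 j := fun j v h => by
    rw [hU3, Finset.mem_union, Finset.mem_filter]
    exact Or.inr ⟨Finset.mem_univ _, h⟩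
  have hm3inv : ∀ j < K2, ∀ v, m3 j (m3 j v) = v := by
    intro j hj v
    by_cases h : σ j v = v
    · rw [hm3b j v h]
      by_cases h1 : σ j (mm2 j v) = mm2 j v
      · rw [hm3b j _ h1]
        exact hPM2.inv j hj v
      · have h2 := hPM2.fix j hj _ (hmemU3 j _ h1)
        rw [hPM2.inv j hj v] at h2
        rw [← h2] at h1
        exact absurd h h1
    · rw [hm3a j v h]
      have h1 : σ j (σ j v) ≠ σ j v := by
        rw [hσi j hj v]
        exact fun h2 => h h2.symm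
      rw [hm3a j _ h1]
      exact hσi j hj v
  have hm3adj : ∀ j < K2, ∀ v, m3 j v ≠ v →
      (σ j v ≠ v ∧ m3 j v = σ j v ∧ S.Adj v (m3 j v)) ∨
      (σ j v = v ∧ m3 j v = mm2 j v ∧ (H ⊔ F1).Adj v (m3 j v)) := by
    intro j hj v hv
    by_cases h : σ j v = v
    · right
      rw [hm3b j v h] at hv ⊢
      exact ⟨h, rfl, hPM2.adj j hj v hv⟩
    · left
      rw [hm3a j v h]
      exact ⟨h, rfl, hσa j hj v h⟩
  have hHFg : ∀ a b, (H ⊔ F1).Adj a b → G.Adj a b ∧ ¬ (a ∈ Z ∧ b ∈ Z) := by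
    intro a b h
    rcases h with h | h
    · exact hHg _ _ h
    · exact hRg _ _ (hF1R h)
  have hG0g : ∀ a b, ((G \ (R ⊔ H)) ⊔ R).Adj a b → G.Adj a b := by
    intro a b h
    rcases h with h | h
    · rw [SimpleGraph.sdiff_adj] at h
      exact h.1
    · exact (hRg _ _ h).1
  have hm3fix : ∀ j < K2, ∀ v ∈ U2 (K1 + j), m3 j v = v := by
    intro j hj v hv
    rw [hm3b j v (hσf j hj v hv)]
    exact hPM2.fix j hj v (by
      rw [hU3, Finset.mem_union]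
      exact Or.inl hv)
  have hm3cov : ∀ j < K2, ∀ v, v ∉ U2 (K1 + j) → m3 j v ≠ v := by
    intro j hj v hv
    by_cases h : σ j v = v
    · rw [hm3b j v h]
      refine hcov2 j hj v ?_
      rw [hU3, Finset.mem_union, Finset.mem_filter, not_or]
      exact ⟨hv, fun h1 => h1.2 h⟩
    · rw [hm3a j v h]
      exact h
  -- disjointness between the batches
  have hd12 : ∀ ℓ < K1, ∀ j < K2, ∀ v, mm1 ℓ v ≠ v → mm1 ℓ v ≠ m3 j v := by
    intro ℓ hℓ j hj v hv he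
    have hv3 : m3 j v ≠ v := by
      rw [← he]
      exact hv
    rcases hm3adj j hj v hv3 with ⟨-, -, h1⟩ | ⟨-, -, h1⟩
    · exact ((hS _ _).1 h1).2.2.2 ℓ hℓ he
    · have h2 := hPM1.adj ℓ hℓ v hv
      rw [← he] at h1
      rcases h1 with h1 | h1
      · rcases h2 with h2 | h2
        · rw [SimpleGraph.sdiff_adj] at h2
          exact h2.2 (Or.inr h1)
        · exact hP.hRH _ _ h2 h1
      · exact hF1m ℓ hℓ v h1
  have hd33 : ∀ i < K2, ∀ j < K2, i ≠ j → ∀ v, m3 i v ≠ v → m3 i v ≠ m3 j v := by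
    intro i hi j hj hij v hv he
    have hv3 : m3 j v ≠ v := by
      rw [← he]
      exact hv
    rcases hm3adj i hi v hv with ⟨a1, a2, a3⟩ | ⟨a1, a2, a3⟩
    · rcases hm3adj j hj v hv3 with ⟨c1, c2, c3⟩ | ⟨c1, c2, c3⟩
      · exact hσd i hi j hj hij v a1 (by rw [← a2, ← c2]; exact he)
      · rw [← he] at c3
        obtain ⟨-, e2, e3, -⟩ := (hS _ _).1 a3
        exact (hHFg _ _ c3).2 ⟨e2, e3⟩
    · rcases hm3adj j hj v hv3 with ⟨c1, c2, c3⟩ | ⟨c1, c2, c3⟩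
      · rw [← he] at c3
        obtain ⟨-, e2, e3, -⟩ := (hS _ _).1 c3
        exact (hHFg _ _ a3).2 ⟨e2, e3⟩
      · rw [a2] at hv
        exact hPM2.dis i hi j hj hij v hv (by rw [← a2, ← c2]; exact he)
  obtain ⟨mm, hmm⟩ : ∃ mm : ℕ → V → V, ∀ ℓ, mm ℓ = if ℓ < K1 then mm1 ℓ else m3 (ℓ - K1) :=
    ⟨_, fun _ => rfl⟩
  have hmma : ∀ ℓ < K1, mm ℓ = mm1 ℓ := fun ℓ hℓ => by rw [hmm, if_pos hℓ]
  have hmmb : ∀ j, mm (K1 + j) = m3 j := fun j => by
    rw [hmm, if_neg (by omega), Nat.add_sub_cancel_left]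
  have hcase : ∀ ℓ < K1 + K2, ℓ < K1 ∨ ∃ j < K2, ℓ = K1 + j := by
    intro ℓ hℓ
    by_cases h : ℓ < K1
    · exact Or.inl h
    · exact Or.inr ⟨ℓ - K1, by omega, by omega⟩
  have hunc : ∀ ℓ < K1 + K2, ∀ v, v ∉ U ℓ → mm ℓ v = v → ℓ ∈ B ∧ v = z ℓ := by
    intro ℓ hℓ v hv he
    refine hz ℓ v ?_ hv
    by_contra h1
    rcases hcase ℓ hℓ with h2 | ⟨j, hj, rfl⟩
    · rw [hmma ℓ h2] at he
      exact hcov1 ℓ h2 v h1 he
    · rw [hmmb j] at he
      exact hm3cov j hj v h1 he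
  refine ⟨mm, ⟨?_, ?_, ?_, ?_⟩, ?_, ?_⟩
  · intro ℓ hℓ
    rcases hcase ℓ hℓ with h2 | ⟨j, hj, rfl⟩
    · rw [hmma ℓ h2]
      exact hPM1.inv ℓ h2
    · rw [hmmb j]
      exact hm3inv j hj
  · intro ℓ hℓ v hv
    rcases hcase ℓ hℓ with h2 | ⟨j, hj, rfl⟩
    · rw [hmma ℓ h2] at hv ⊢
      exact hG0g _ _ (hPM1.adj ℓ h2 v hv)
    · rw [hmmb j] at hv ⊢
      rcases hm3adj j hj v hv with ⟨-, -, h1⟩ | ⟨-, -, h1⟩
      · exact ((hS _ _).1 h1).1
      · exact (hHFg _ _ h1).1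
  · intro ℓ hℓ ℓ' hℓ' hne v hv
    rcases hcase ℓ hℓ with h2 | ⟨j, hj, rfl⟩
    · rcases hcase ℓ' hℓ' with h3 | ⟨j', hj', rfl⟩
      · rw [hmma ℓ h2] at hv ⊢
        rw [hmma ℓ' h3]
        exact hPM1.dis ℓ h2 ℓ' h3 hne v hv
      · rw [hmma ℓ h2] at hv ⊢
        rw [hmmb j']
        exact hd12 ℓ h2 j' hj' v hv
    · rcases hcase ℓ' hℓ' with h3 | ⟨j', hj', rfl⟩
      · rw [hmmb j] at hv ⊢
        rw [hmma ℓ' h3]
        intro he
        refine hd12 ℓ' h3 j hj v ?_ he.symm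
        rw [← he]
        exact hv
      · rw [hmmb j] at hv ⊢
        rw [hmmb j']
        exact hd33 j hj j' hj' (fun h => hne (by rw [h])) v hv
  · intro ℓ hℓ v hv
    have hv2 := hsub ℓ hv
    rcases hcase ℓ hℓ with h2 | ⟨j, hj, rfl⟩
    · rw [hmma ℓ h2]
      exact hPM1.fix ℓ h2 v hv2
    · rw [hmmb j]
      exact hm3fix j hj v hv2
  · intro v
    rw [Finset.card_le_one]
    intro ℓ hℓ ℓ' hℓ'
    rw [Finset.mem_filter, Finset.mem_range] at hℓ hℓ'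
    obtain ⟨a1, a2⟩ := hunc ℓ hℓ.1 v hℓ.2.1 hℓ.2.2
    obtain ⟨b1, b2⟩ := hunc ℓ' hℓ'.1 v hℓ'.2.1 hℓ'.2.2
    exact hzi ℓ a1 ℓ' b1 (a2.symm.trans b2)
  · rintro a b hab ⟨ℓ, hℓ, ha1, ha2⟩ ⟨ℓ', hℓ', hb1, hb2⟩
    obtain ⟨a1, a2⟩ := hunc ℓ hℓ a ha1 ha2
    obtain ⟨b1, b2⟩ := hunc ℓ' hℓ' b hb1 hb2
    have haZ : a ∈ Z := by
      rw [a2]
      exact hzZ ℓ a1
    have hbZ : b ∈ Z := by
      rw [b2]
      exact hzZ ℓ' b1
    by_cases h : ∃ k < K1, mm1 k a = b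
    · obtain ⟨k, hk, he⟩ := h
      exact ⟨k, by omega, by rw [hmma k hk]; exact he⟩
    · have hSab : S.Adj a b := by
        rw [hS]
        refine ⟨hab, haZ, hbZ, fun k hk he => h ⟨k, hk, he⟩⟩
      obtain ⟨j, hj, he⟩ := hσc a b hSab
      have hne : σ j a ≠ a := by
        rw [he]
        exact fun h1 => hab.ne h1.symm
      exact ⟨K1 + j, by omega, by rw [hmmb j, hm3a j a hne]; exact he⟩

end Pool.Agent.H71.DX
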