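import Mathlib
import Pool.Agent.H71.DN.Defs

/-!
LYV and LWP.

`lyV`: realise the class sizes. `π` is an involution with at least `2 #Y2` moved points. Choose `#Y2` of
the pairs `{v, π v}` (`v ≠ π v`), give each of them one label of `Y2` (a bijection), and give the remaining
`#V - 2 #Y2 = #Y1` vertices the labels of `Y1` (a bijection). (For example by induction on `#Y2`: pick
`m ∈ Y2`, a moved `v`, restrict to the other vertices; or choose a set `T` of representatives of the
moved pairs with `#T = #Y2`, an equivalence of `T` with `Y2`, and an equivalence of the complement of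
`T ∪ π T` with `Y1`.)

`lwp`: greedy choice of `f x ℓ` for `x ∈ Lo` and `sx x ≤ ℓ < L`, over `ℓ = 0, 1, ...` and for fixed `ℓ` over
`x ∈ Lo`: among the `dg G x` neighbours of `x` avoid `Lo` (at most `#Lo`), `W ℓ` (at most `w`), the
`f x ℓ'`, `ℓ' < ℓ`, `sx x ≤ ℓ'` (at most `L - sx x - 1`), and the `f y ℓ`, `y ∈ Lo` already chosen (at most
`#Lo`); by `h` something remains.
-/

set_option autoImplicit false

namespace Pool.Agent.H71.DX

open Finset Classical
open Pool.Agent.H71.DN

theorem lyV_aux {V : Type} [Fintype V] (π : V → V) (hπ : Inv π) (Y1 Y2 : Finset ℕ) :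
    Disjoint Y1 Y2 → ∀ S : Finset V, (∀ v ∈ S, π v ∈ S) →
    2 * Y2.card ≤ (S.filter fun v => π v ≠ v).card → Y1.card + 2 * Y2.card = S.card →
    ∃ c : V → ℕ, (∀ v ∈ S, c v ∈ Y1 ∪ Y2) ∧ (∀ m ∈ Y2, (S.filter fun v => c v = m).card = 2) ∧
      (∀ m ∈ Y1, (S.filter fun v => c v = m).card = 1) ∧
      ∀ u ∈ S, ∀ v ∈ S, c u = c v → u = v ∨ (u ≠ v ∧ π u = v) := by
  induction Y2 using Finset.induction_on with
  | empty =>
    intro _ S _ _ hc
    have hc' : S.card = Y1.card := by simpa using hc.symm
    let e : S ≃ Y1 := Finset.equivOfCardEq hc'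
    have hval : ∀ v (hv : v ∈ S), (if h : v ∈ S then ((e ⟨v, h⟩ : Y1) : ℕ) else 0)
        = ((e ⟨v, hv⟩ : Y1) : ℕ) := fun v hv => dif_pos hv
    refine ⟨fun v => if h : v ∈ S then ((e ⟨v, h⟩ : Y1) : ℕ) else 0, ?_, ?_, ?_, ?_⟩
    · intro v hv
      simp only [hval v hv]
      exact Finset.mem_union_left _ (e ⟨v, hv⟩).2
    · intro m hm
      exact absurd hm (Finset.notMem_empty m)
    · intro m hm
      rw [Finset.card_eq_one]
      refine ⟨((e.symm ⟨m, hm⟩ : S) : V), ?_⟩
      ext v
      rw [Finset.mem_filter, Finset.mem_singleton]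
      constructor
      · rintro ⟨hv, h2⟩
        simp only [hval v hv] at h2
        have h3 : e ⟨v, hv⟩ = ⟨m, hm⟩ := Subtype.ext h2
        rw [← h3, Equiv.symm_apply_apply]
      · intro hv
        have hvS : v ∈ S := by rw [hv]; exact (e.symm ⟨m, hm⟩).2
        refine ⟨hvS, ?_⟩
        simp only [hval v hvS]
        have h3 : (⟨v, hvS⟩ : S) = e.symm ⟨m, hm⟩ := Subtype.ext hv
        rw [h3, Equiv.apply_symm_apply]
    · intro u hu v hv huv
      left
      simp only [hval u hu, hval v hv] at huv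
      have h3 : e ⟨u, hu⟩ = e ⟨v, hv⟩ := Subtype.ext huv
      exact congrArg Subtype.val (e.injective h3)
  | insert m Y2 hm ih =>
    intro hd S hS h2 hc
    rw [Finset.card_insert_of_notMem hm] at h2 hc
    have hdY : Disjoint Y1 Y2 := Finset.disjoint_of_subset_right (Finset.subset_insert _ _) hd
    have hmY1 : m ∉ Y1 := fun h => (Finset.disjoint_left.1 hd h) (Finset.mem_insert_self _ _)
    have hne : (S.filter fun v => π v ≠ v).Nonempty := by
      rw [← Finset.card_pos]; omega
    obtain ⟨p, hp⟩ := hne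
    rw [Finset.mem_filter] at hp
    obtain ⟨hpS, hpp⟩ := hp
    have hpair : ({p, π p} : Finset V) ⊆ S := by
      intro x hx
      rw [Finset.mem_insert, Finset.mem_singleton] at hx
      rcases hx with h | h
      · rw [h]; exact hpS
      · rw [h]; exact hS p hpS
    have hpc : ({p, π p} : Finset V).card = 2 := Finset.card_pair (Ne.symm hpp)
    have hmem : ∀ x, x ∈ S \ {p, π p} ↔ x ∈ S ∧ x ≠ p ∧ x ≠ π p := by
      intro x
      rw [Finset.mem_sdiff, Finset.mem_insert, Finset.mem_singleton, not_or]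
    have hS' : ∀ v ∈ S \ {p, π p}, π v ∈ S \ {p, π p} := by
      intro v hv
      rw [hmem] at hv ⊢
      refine ⟨hS v hv.1, ?_, ?_⟩
      · intro h
        apply hv.2.2
        rw [← h, hπ v]
      · intro h
        apply hv.2.1
        rw [← hπ v, h, hπ p]
    have hcard : (S \ {p, π p}).card = S.card - 2 := by
      rw [Finset.card_sdiff_of_subset hpair, hpc]
    have hfil : (S.filter fun v => π v ≠ v) \ {p, π p} ⊆
        (S \ {p, π p}).filter fun v => π v ≠ v := by
      intro x hx
      rw [Finset.mem_sdiff, Finset.mem_filter] at hx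
      rw [Finset.mem_filter, Finset.mem_sdiff]
      exact ⟨⟨hx.1.1, hx.2⟩, hx.1.2⟩
    have hfc : (S.filter fun v => π v ≠ v).card - 2 ≤
        ((S \ {p, π p}).filter fun v => π v ≠ v).card := by
      refine le_trans ?_ (Finset.card_le_card hfil)
      have := Finset.le_card_sdiff ({p, π p} : Finset V) (S.filter fun v => π v ≠ v)
      rw [hpc] at this
      exact this
    obtain ⟨c, hc1, hc2, hc3, hc4⟩ := ih hdY (S \ {p, π p}) hS' (by omega) (by omega)
    have hcm : ∀ v ∈ S \ {p, π p}, c v ≠ m := by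
      intro v hv h
      have := hc1 v hv
      rw [h, Finset.mem_union] at this
      rcases this with h | h
      · exact hmY1 h
      · exact hm h
    have hin : ∀ v, (v = p ∨ v = π p) →
        (if v = p ∨ v = π p then m else c v) = m := fun v hv => if_pos hv
    have hout : ∀ v, ¬ (v = p ∨ v = π p) →
        (if v = p ∨ v = π p then m else c v) = c v := fun v hv => if_neg hv
    have hmem' : ∀ v ∈ S, ¬ (v = p ∨ v = π p) → v ∈ S \ {p, π p} := by
      intro v hv h
      rw [not_or] at h
      rw [hmem]; exact ⟨hv, h.1, h.2⟩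
    have hfib : ∀ k, k ≠ m → (S.filter fun v => (if v = p ∨ v = π p then m else c v) = k)
        = (S \ {p, π p}).filter fun v => c v = k := by
      intro k hk
      ext v
      rw [Finset.mem_filter, Finset.mem_filter]
      by_cases hv : v = p ∨ v = π p
      · rw [hin v hv]
        constructor
        · rintro ⟨_, h⟩
          exact absurd h.symm hk
        · rintro ⟨h, _⟩
          rw [hmem] at h
          rcases hv with h' | h'
          · exact absurd h' h.2.1
          · exact absurd h' h.2.2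
      · rw [hout v hv]
        constructor
        · rintro ⟨h1, h⟩
          exact ⟨hmem' v h1 hv, h⟩
        · rintro ⟨h1, h⟩
          rw [hmem] at h1
          exact ⟨h1.1, h⟩
    refine ⟨fun v => if v = p ∨ v = π p then m else c v, ?_, ?_, ?_, ?_⟩
    · intro v hv
      by_cases h : v = p ∨ v = π p
      · simp only [hin v h]
        exact Finset.mem_union_right _ (Finset.mem_insert_self _ _)
      · simp only [hout v h]
        have := hc1 v (hmem' v hv h)
        rw [Finset.mem_union] at this ⊢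
        rcases this with h | h
        · exact Or.inl h
        · exact Or.inr (Finset.mem_insert_of_mem h)
    · intro k hk
      by_cases hkm : k = m
      · rw [hkm]
        have : (S.filter fun v => (if v = p ∨ v = π p then m else c v) = m)
            = {p, π p} := by
          ext v
          rw [Finset.mem_filter, Finset.mem_insert, Finset.mem_singleton]
          by_cases hv : v = p ∨ v = π p
          · rw [hin v hv]
            constructor
            · intro _; exact hv
            · intro _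
              refine ⟨?_, rfl⟩
              apply hpair
              rw [Finset.mem_insert, Finset.mem_singleton]
              exact hv
          · rw [hout v hv]
            constructor
            · rintro ⟨h1, h⟩
              exact absurd h (hcm v (hmem' v h1 hv))
            · intro h; exact absurd h hv
        rw [this, hpc]
      · rw [hfib k hkm]
        apply hc2
        rw [Finset.mem_insert] at hk
        rcases hk with h | h
        · exact absurd h hkm
        · exact h
    · intro k hk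
      have hkm : k ≠ m := fun h => hmY1 (h ▸ hk)
      rw [hfib k hkm]
      exact hc3 k hk
    · intro u hu v hv huv
      by_cases h1 : u = p ∨ u = π p
      · by_cases h2 : v = p ∨ v = π p
        · rcases h1 with h1 | h1 <;> rcases h2 with h2 | h2
          · left; rw [h1, h2]
          · right; rw [h1, h2]; exact ⟨Ne.symm hpp, rfl⟩
          · right; rw [h1, h2]; exact ⟨hpp, hπ p⟩
          · left; rw [h1, h2]
        · simp only [hin u h1, hout v h2] at huv
          exact absurd huv.symm (hcm v (hmem' v hv h2))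
      · by_cases h2 : v = p ∨ v = π p
        · simp only [hin v h2, hout u h1] at huv
          exact absurd huv (hcm u (hmem' u hu h1))
        · simp only [hout u h1, hout v h2] at huv
          exact hc4 u (hmem' u hu h1) v (hmem' v hv h2) huv

theorem lyV {V : Type} [Fintype V] (π : V → V) (hπ : Inv π) (Y1 Y2 : Finset ℕ)
    (hd : Disjoint Y1 Y2) (h2 : 2 * Y2.card ≤ (univ.filter fun v => π v ≠ v).card)
    (hc : Y1.card + 2 * Y2.card = Fintype.card V) :
    ∃ c : V → ℕ, (∀ v, c v ∈ Y1 ∪ Y2) ∧ (∀ m ∈ Y2, (univ.filter fun v => c v = m).card = 2) ∧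
      (∀ m ∈ Y1, (univ.filter fun v => c v = m).card = 1) ∧
      ∀ u v, c u = c v → u = v ∨ (u ≠ v ∧ π u = v) := by
  obtain ⟨c, h1, h2', h3, h4⟩ := lyV_aux π hπ Y1 Y2 hd univ (fun v _ => Finset.mem_univ _) h2
    (by rw [hc, Finset.card_univ])
  exact ⟨c, fun v => h1 v (Finset.mem_univ _), h2', h3,
    fun u v => h4 u (Finset.mem_univ _) v (Finset.mem_univ _)⟩

theorem lwp_sdr {V : Type} (A : V → Finset V) (S : Finset V) :
    (∀ x ∈ S, S.card ≤ (A x).card) →
    ∃ g : V → V, (∀ x ∈ S, g x ∈ A x) ∧ ∀ x ∈ S, ∀ y ∈ S, g x = g y → x = y := by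
  induction S using Finset.induction_on with
  | empty =>
    intro _
    exact ⟨id, fun x hx => absurd hx (Finset.notMem_empty x),
      fun x hx => absurd hx (Finset.notMem_empty x)⟩
  | insert a S ha ih =>
    intro h
    rw [Finset.card_insert_of_notMem ha] at h
    obtain ⟨g, hg1, hg2⟩ := ih (fun x hx => by
      have := h x (Finset.mem_insert_of_mem hx)
      omega)
    have hne : (A a \ S.image g).Nonempty := by
      rw [← Finset.card_pos]
      have h1 := Finset.le_card_sdiff (S.image g) (A a)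
      have h2 : (S.image g).card ≤ S.card := Finset.card_image_le
      have h3 := h a (Finset.mem_insert_self _ _)
      omega
    obtain ⟨b, hb⟩ := hne
    rw [Finset.mem_sdiff] at hb
    have hupd : ∀ x ∈ S, Function.update g a b x = g x := by
      intro x hx
      apply Function.update_of_ne
      intro h
      exact ha (h ▸ hx)
    have hupa : Function.update g a b a = b := Function.update_self _ _ _
    refine ⟨Function.update g a b, ?_, ?_⟩
    · intro x hx
      rw [Finset.mem_insert] at hx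
      rcases hx with hx | hx
      · rw [hx, hupa]; exact hb.1
      · rw [hupd x hx]; exact hg1 x hx
    · intro x hx y hy hxy
      rw [Finset.mem_insert] at hx hy
      rcases hx with hx | hx <;> rcases hy with hy | hy
      · rw [hx, hy]
      · rw [hx, hupa, hupd y hy] at hxy
        exact absurd (Finset.mem_image.2 ⟨y, hy, hxy.symm⟩) hb.2
      · rw [hy, hupa, hupd x hx] at hxy
        exact absurd (Finset.mem_image.2 ⟨x, hx, hxy⟩) hb.2
      · rw [hupd x hx, hupd y hy] at hxy
        exact hg2 x hx y hy hxy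

theorem lwp {V : Type} [Fintype V] (G : SimpleGraph V) (Lo : Finset V) (L w : ℕ) (sx : V → ℕ)
    (W : ℕ → Finset V) (hW : ∀ ℓ < L, (W ℓ).card ≤ w)
    (h : ∀ x ∈ Lo, (L - sx x) + w + 2 * Lo.card ≤ dg G x) :
    ∃ f : V → ℕ → V,
      (∀ x ∈ Lo, ∀ ℓ < L, sx x ≤ ℓ → G.Adj x (f x ℓ) ∧ f x ℓ ∉ Lo ∧ f x ℓ ∉ W ℓ) ∧
      (∀ x ∈ Lo, ∀ ℓ < L, ∀ ℓ' < L, sx x ≤ ℓ → sx x ≤ ℓ' → f x ℓ = f x ℓ' → ℓ = ℓ') ∧
      (∀ x ∈ Lo, ∀ y ∈ Lo, ∀ ℓ < L, sx x ≤ ℓ → sx y ≤ ℓ → f x ℓ = f y ℓ → x = y) := by
  suffices H : ∀ M ≤ L, ∃ f : V → ℕ → V,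
      (∀ x ∈ Lo, ∀ ℓ < M, sx x ≤ ℓ → G.Adj x (f x ℓ) ∧ f x ℓ ∉ Lo ∧ f x ℓ ∉ W ℓ) ∧
      (∀ x ∈ Lo, ∀ ℓ < M, ∀ ℓ' < M, sx x ≤ ℓ → sx x ≤ ℓ' → f x ℓ = f x ℓ' → ℓ = ℓ') ∧
      (∀ x ∈ Lo, ∀ y ∈ Lo, ∀ ℓ < M, sx x ≤ ℓ → sx y ≤ ℓ → f x ℓ = f y ℓ → x = y) from
    H L le_rfl
  intro M
  induction M with
  | zero =>
    intro _
    exact ⟨fun x _ => x, fun x _ ℓ hℓ => absurd hℓ (Nat.not_lt_zero _),
      fun x _ ℓ hℓ => absurd hℓ (Nat.not_lt_zero _),
      fun x _ y _ ℓ hℓ => absurd hℓ (Nat.not_lt_zero _)⟩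
  | succ M ih =>
    intro hM
    obtain ⟨f, hf1, hf2, hf3⟩ := ih (by omega)
    set A : V → Finset V := fun x =>
      (((univ.filter fun u => G.Adj x u) \ Lo) \ W M) \
        ((Finset.range M).filter fun ℓ => sx x ≤ ℓ).image (f x) with hA
    have hcardA : ∀ x ∈ Lo, Lo.card ≤ (A x).card := by
      intro x hx
      have h0 := h x hx
      have h1 := Finset.le_card_sdiff Lo (univ.filter fun u => G.Adj x u)
      have h2 := Finset.le_card_sdiff (W M) ((univ.filter fun u => G.Adj x u) \ Lo)
      have h3 := Finset.le_card_sdiff (((Finset.range M).filter fun ℓ => sx x ≤ ℓ).image (f x))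
        (((univ.filter fun u => G.Adj x u) \ Lo) \ W M)
      have h4 : (((Finset.range M).filter fun ℓ => sx x ≤ ℓ).image (f x)).card
          ≤ M - sx x := by
        refine Finset.card_image_le.trans ?_
        have h5 : ((Finset.range M).filter fun ℓ => sx x ≤ ℓ) ⊆ Finset.Ico (sx x) M := by
          intro ℓ hℓ
          rw [Finset.mem_filter, Finset.mem_range] at hℓ
          rw [Finset.mem_Ico]
          exact ⟨hℓ.2, hℓ.1⟩
        have := Finset.card_le_card h5
        rwa [Nat.card_Ico] at this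
      have h5 := hW M (by omega)
      have h6 : dg G x = (univ.filter fun u => G.Adj x u).card := rfl
      have h7 : (A x).card = ((((univ.filter fun u => G.Adj x u) \ Lo) \ W M) \
        ((Finset.range M).filter fun ℓ => sx x ≤ ℓ).image (f x)).card := rfl
      omega
    obtain ⟨g, hg1, hg2⟩ := lwp_sdr A Lo hcardA
    have hgA : ∀ x ∈ Lo, G.Adj x (g x) ∧ g x ∉ Lo ∧ g x ∉ W M ∧
        ∀ ℓ < M, sx x ≤ ℓ → f x ℓ ≠ g x := by
      intro x hx
      have h1 := hg1 x hx
      simp only [hA, Finset.mem_sdiff, Finset.mem_filter, Finset.mem_univ, true_and] at h1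
      refine ⟨h1.1.1.1, h1.1.1.2, h1.1.2, ?_⟩
      intro ℓ hℓ hs he
      apply h1.2
      rw [Finset.mem_image]
      exact ⟨ℓ, Finset.mem_filter.2 ⟨Finset.mem_range.2 hℓ, hs⟩, he⟩
    have e1 : ∀ x ℓ, ℓ < M → (if ℓ < M then f x ℓ else g x) = f x ℓ :=
      fun x ℓ hℓ => if_pos hℓ
    have e2 : ∀ x, (if M < M then f x M else g x) = g x :=
      fun x => if_neg (lt_irrefl M)
    refine ⟨fun x ℓ => if ℓ < M then f x ℓ else g x, ?_, ?_, ?_⟩
    · intro x hx ℓ hℓ hs
      rcases Nat.lt_succ_iff_lt_or_eq.1 hℓ with h1 | h1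
      · simp only [e1 x ℓ h1]
        exact hf1 x hx ℓ h1 hs
      · subst h1
        simp only [lt_irrefl, if_false]
        obtain ⟨a, b, c, _⟩ := hgA x hx
        exact ⟨a, b, c⟩
    · intro x hx ℓ hℓ ℓ' hℓ' hs hs' he
      rcases Nat.lt_succ_iff_lt_or_eq.1 hℓ with h1 | h1 <;>
        rcases Nat.lt_succ_iff_lt_or_eq.1 hℓ' with h2 | h2
      · simp only [e1 x ℓ h1, e1 x ℓ' h2] at he
        exact hf2 x hx ℓ h1 ℓ' h2 hs hs' he
      · subst h2
        simp only [e1 x ℓ h1, e2 x] at he
        exact absurd he ((hgA x hx).2.2.2 ℓ h1 hs)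
      · subst h1
        simp only [e1 x ℓ' h2, e2 x] at he
        exact absurd he.symm ((hgA x hx).2.2.2 ℓ' h2 hs')
      · rw [h1, h2]
    · intro x hx y hy ℓ hℓ hs hs' he
      rcases Nat.lt_succ_iff_lt_or_eq.1 hℓ with h1 | h1
      · simp only [e1 x ℓ h1, e1 y ℓ h1] at he
        exact hf3 x hx y hy ℓ h1 hs hs' he
      · subst h1
        simp only [e2 x, e2 y] at he
        exact hg2 x hx y hy he

end Pool.Agent.H71.DX
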