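import Mathlib
import Pool.Agent.H71.DX.GluA
import Pool.Agent.H71.DX.Fn2

/-!
GLU: glue the matchings `mm1 ℓ` on the vertices outside `Lo` with the edges `x (f x ℓ)`, `x ∈ Lo`, `sx x ≤ ℓ`.

`V1 = {v // v ∉ Lo}`. `Wn c p ℓ` is the window (a set of vertices of `V`), `U1 ...  ℓ` the forbidden set in `V1`:
the vertices of the window and the `f x ℓ`, `x ∈ Lo`, `sx x ≤ ℓ`.

`glue`: `mm ℓ v := if v ∈ Lo then (if sx v ≤ ℓ then f v ℓ else v) else`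
 `(if there is x ∈ Lo with sx x ≤ ℓ, f x ℓ = v then this (unique) x else mm1 ℓ ⟨v, _⟩)`, for `ℓ < L`.
Check the hypotheses of `final2`:
 * `hinv`: if `v ∈ Lo`, `sx v ≤ ℓ`: `mm ℓ v = f v ℓ ∉ Lo`, and `mm ℓ (f v ℓ) = v` (uniqueness `dis`). If `v ∉ Lo`,
   `v = f x ℓ`: `mm ℓ v = x`, `mm ℓ x = v`. Otherwise `v ∉ Lo` is no `f x ℓ`; `w := mm1 ℓ v`: if `w = v` fine; if
   `w ≠ v` then `w ∉ U1 ℓ` (elements of `U1 ℓ` are fixed), so `w` is no `f x ℓ` and `mm ℓ w = mm1 ℓ w = v`.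
 * `hadj`: clear (`mm1` has edges of the induced graph).
 * `hdis`, `ℓ ≠ ℓ'`, `mm ℓ v ≠ v`: `v ∈ Lo`: `f v ℓ ≠ f v ℓ'` by `inj`, and `f v ℓ ≠ v`. `v ∉ Lo`: `mm ℓ v` and
   `mm ℓ' v` equal: both in `Lo` (the same `x` with `f x ℓ = v = f x ℓ'`, so `ℓ = ℓ'`), or both outside (`PM.dis`).
 * `hfix`: `v` in the window of `ℓ`. `v ∈ Lo`: `ℓ < c v + p ≤ sx v` by `hcl`, so `mm ℓ v = v`. `v ∉ Lo`: `v` is no
   `f x ℓ` (these are not in the window), `v ∈ U1 ℓ`, so `mm1 ℓ v = v`.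
 * `hd`: `v ∈ Lo`: the `ℓ < L` with `mm ℓ v = v` are those with `ℓ < sx v`: at most `sx v`, and
   `dg G v + sx v < Δ + 2 p`. `v ∉ Lo`: they have `v ∈ Wn c p ℓ` (at most `2 p - 1`), or `v ∉ U1 ℓ` and
   `mm1 ℓ v = v` (at most one by `Cnc.one`): at most `2 p`; `dg G v ≤ Δ`.
 * `hind`: equality forces `a, b ∉ Lo`, and that there are `ℓ`'s as in `Cnc.ind`; so `mm1 ℓ a = b` for some
   `ℓ < L`; `mm1 ℓ a ≠ a`, so `a ∉ U1 ℓ`, `a` is no `f x ℓ` and `mm ℓ a = b`.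
-/

set_option autoImplicit false

namespace Pool.Agent.H71.DX

open Finset Classical
open Pool.Agent.H71.DN

/-- The glued matchings. -/
noncomputable def Glu_m {V : Type} (Lo : Finset V) (sx : V → ℕ) (f : V → ℕ → V)
    (mm1 : ℕ → {v // v ∉ Lo} → {v // v ∉ Lo}) (ℓ : ℕ) (v : V) : V :=
  if h : v ∈ Lo then (if sx v ≤ ℓ then f v ℓ else v)
  else (if h2 : ∃ x, x ∈ Lo ∧ sx x ≤ ℓ ∧ f x ℓ = v then h2.choose else (mm1 ℓ ⟨v, h⟩).1)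

theorem Glu_fc {s : Finset ℕ} {P : ℕ → Prop} (d1 d2 : DecidablePred P) :
    (@Finset.filter ℕ P d1 s).card = (@Finset.filter ℕ P d2 s).card := by
  rw [Subsingleton.elim d1 d2]

section
variable {V : Type} [Fintype V] {G : SimpleGraph V} {Lo : Finset V} {sx : V → ℕ} {f : V → ℕ → V}
  {c : V → ℕ} {p L : ℕ} {mm1 : ℕ → {v // v ∉ Lo} → {v // v ∉ Lo}}

theorem Glu_e1 {ℓ : ℕ} {v : V} (h : v ∈ Lo) (h1 : sx v ≤ ℓ) : Glu_m Lo sx f mm1 ℓ v = f v ℓ := by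
  unfold Glu_m
  rw [dif_pos h, if_pos h1]

theorem Glu_e2 {ℓ : ℕ} {v : V} (h : v ∈ Lo) (h1 : ¬ sx v ≤ ℓ) : Glu_m Lo sx f mm1 ℓ v = v := by
  unfold Glu_m
  rw [dif_pos h, if_neg h1]

theorem Glu_e3 (hf : Fok G Lo sx f c p L) {ℓ : ℕ} (hℓ : ℓ < L) {x : V} (h : x ∈ Lo) (h1 : sx x ≤ ℓ) :
    Glu_m Lo sx f mm1 ℓ (f x ℓ) = x := by
  have h2 : f x ℓ ∉ Lo := (hf.adj x h ℓ hℓ h1).2.1
  have h3 : ∃ y, y ∈ Lo ∧ sx y ≤ ℓ ∧ f y ℓ = f x ℓ := ⟨x, h, h1, rfl⟩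
  unfold Glu_m
  rw [dif_neg h2, dif_pos h3]
  obtain ⟨a1, a2, a3⟩ := h3.choose_spec
  exact hf.dis _ a1 x h ℓ hℓ a2 h1 a3

theorem Glu_e4 {ℓ : ℕ} {v : V} (h : v ∉ Lo) (h1 : ¬ ∃ x, x ∈ Lo ∧ sx x ≤ ℓ ∧ f x ℓ = v) :
    Glu_m Lo sx f mm1 ℓ v = (mm1 ℓ ⟨v, h⟩).1 := by
  unfold Glu_m
  rw [dif_neg h, dif_neg h1]

theorem Glu_mem {ℓ : ℕ} {v : {v // v ∉ Lo}} : v ∈ U1 Lo sx f c p ℓ ↔
    v.1 ∈ Wn c p ℓ ∨ ∃ x, x ∈ Lo ∧ sx x ≤ ℓ ∧ f x ℓ = v.1 := by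
  unfold U1
  rw [Finset.mem_filter]
  simp only [Finset.mem_univ, true_and]

theorem Glu_wn {ℓ : ℕ} {v : V} : v ∈ Wn c p ℓ ↔ c v < ℓ + p ∧ ℓ < c v + p := by
  unfold Wn
  rw [Finset.mem_filter]
  simp only [Finset.mem_univ, true_and]

/-- the image of a free vertex is free -/
theorem Glu_free (hpm : PM (G.comap (fun v : {v // v ∉ Lo} => v.1)) L (U1 Lo sx f c p) mm1)
    {ℓ : ℕ} (hℓ : ℓ < L) {v : {v // v ∉ Lo}} (h1 : ¬ ∃ x, x ∈ Lo ∧ sx x ≤ ℓ ∧ f x ℓ = v.1) :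
    ¬ ∃ x, x ∈ Lo ∧ sx x ≤ ℓ ∧ f x ℓ = (mm1 ℓ v).1 := by
  intro h2
  have h3 : mm1 ℓ (mm1 ℓ v) = mm1 ℓ v := hpm.fix ℓ hℓ _ (Glu_mem.2 (Or.inr h2))
  have h4 : mm1 ℓ (mm1 ℓ v) = v := hpm.inv ℓ hℓ v
  rw [h4] at h3
  rw [← h3] at h2
  exact h1 h2

theorem Glu_inv (hf : Fok G Lo sx f c p L)
    (hpm : PM (G.comap (fun v : {v // v ∉ Lo} => v.1)) L (U1 Lo sx f c p) mm1)
    {ℓ : ℕ} (hℓ : ℓ < L) (v : V) : Glu_m Lo sx f mm1 ℓ (Glu_m Lo sx f mm1 ℓ v) = v := by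
  by_cases h : v ∈ Lo
  · by_cases h1 : sx v ≤ ℓ
    · rw [Glu_e1 h h1, Glu_e3 hf hℓ h h1]
    · rw [Glu_e2 h h1, Glu_e2 h h1]
  · by_cases h2 : ∃ x, x ∈ Lo ∧ sx x ≤ ℓ ∧ f x ℓ = v
    · obtain ⟨x, a1, a2, a3⟩ := h2
      subst a3
      rw [Glu_e3 hf hℓ a1 a2, Glu_e1 a1 a2]
    · rw [Glu_e4 h h2, Glu_e4 (mm1 ℓ ⟨v, h⟩).2 (Glu_free hpm hℓ (v := ⟨v, h⟩) h2)]
      have h4 : mm1 ℓ (mm1 ℓ ⟨v, h⟩) = ⟨v, h⟩ := hpm.inv ℓ hℓ _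
      exact congrArg Subtype.val h4

theorem Glu_adj (hf : Fok G Lo sx f c p L)
    (hpm : PM (G.comap (fun v : {v // v ∉ Lo} => v.1)) L (U1 Lo sx f c p) mm1)
    {ℓ : ℕ} (hℓ : ℓ < L) (v : V) (hv : Glu_m Lo sx f mm1 ℓ v ≠ v) : G.Adj v (Glu_m Lo sx f mm1 ℓ v) := by
  by_cases h : v ∈ Lo
  · by_cases h1 : sx v ≤ ℓ
    · rw [Glu_e1 h h1]
      exact (hf.adj v h ℓ hℓ h1).1
    · exact absurd (Glu_e2 h h1) hv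
  · by_cases h2 : ∃ x, x ∈ Lo ∧ sx x ≤ ℓ ∧ f x ℓ = v
    · obtain ⟨x, a1, a2, a3⟩ := h2
      subst a3
      rw [Glu_e3 hf hℓ a1 a2]
      exact (hf.adj x a1 ℓ hℓ a2).1.symm
    · rw [Glu_e4 h h2] at hv ⊢
      have h5 : mm1 ℓ ⟨v, h⟩ ≠ ⟨v, h⟩ := fun h6 => hv (congrArg Subtype.val h6)
      exact hpm.adj ℓ hℓ ⟨v, h⟩ h5

theorem Glu_dis (hf : Fok G Lo sx f c p L)
    (hpm : PM (G.comap (fun v : {v // v ∉ Lo} => v.1)) L (U1 Lo sx f c p) mm1)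
    {ℓ ℓ' : ℕ} (hℓ : ℓ < L) (hℓ' : ℓ' < L) (hne : ℓ ≠ ℓ') (v : V) (hv : Glu_m Lo sx f mm1 ℓ v ≠ v) :
    Glu_m Lo sx f mm1 ℓ v ≠ Glu_m Lo sx f mm1 ℓ' v := by
  intro heq
  by_cases h : v ∈ Lo
  · by_cases h1 : sx v ≤ ℓ
    · by_cases h1' : sx v ≤ ℓ'
      · rw [Glu_e1 h h1, Glu_e1 h h1'] at heq
        exact hne (hf.inj v h ℓ hℓ ℓ' hℓ' h1 h1' heq)
      · rw [Glu_e2 h h1'] at heq
        exact hv heq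
    · exact hv (Glu_e2 h h1)
  · by_cases h2 : ∃ x, x ∈ Lo ∧ sx x ≤ ℓ ∧ f x ℓ = v
    · obtain ⟨x, a1, a2, a3⟩ := h2
      have e1 : Glu_m Lo sx f mm1 ℓ v = x := by
        rw [← a3]
        exact Glu_e3 hf hℓ a1 a2
      by_cases h2' : ∃ x, x ∈ Lo ∧ sx x ≤ ℓ' ∧ f x ℓ' = v
      · obtain ⟨y, b1, b2, b3⟩ := h2'
        have e2 : Glu_m Lo sx f mm1 ℓ' v = y := by
          rw [← b3]
          exact Glu_e3 hf hℓ' b1 b2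
        rw [e1, e2] at heq
        subst heq
        exact hne (hf.inj x a1 ℓ hℓ ℓ' hℓ' a2 b2 (a3.trans b3.symm))
      · rw [e1, Glu_e4 h h2'] at heq
        exact (mm1 ℓ' ⟨v, h⟩).2 (heq ▸ a1)
    · by_cases h2' : ∃ x, x ∈ Lo ∧ sx x ≤ ℓ' ∧ f x ℓ' = v
      · obtain ⟨y, b1, b2, b3⟩ := h2'
        have e2 : Glu_m Lo sx f mm1 ℓ' v = y := by
          rw [← b3]
          exact Glu_e3 hf hℓ' b1 b2
        rw [e2, Glu_e4 h h2] at heq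
        exact (mm1 ℓ ⟨v, h⟩).2 (heq.symm ▸ b1)
      · rw [Glu_e4 h h2] at hv heq
        rw [Glu_e4 h h2'] at heq
        have h5 : mm1 ℓ ⟨v, h⟩ ≠ ⟨v, h⟩ := fun h6 => hv (congrArg Subtype.val h6)
        exact hpm.dis ℓ hℓ ℓ' hℓ' hne ⟨v, h⟩ h5 (Subtype.ext heq)

theorem Glu_fix (hf : Fok G Lo sx f c p L)
    (hpm : PM (G.comap (fun v : {v // v ∉ Lo} => v.1)) L (U1 Lo sx f c p) mm1)
    (hcl : ∀ x ∈ Lo, c x + p ≤ sx x)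
    {ℓ : ℕ} (hℓ : ℓ < L) (v : V) (h1 : c v < ℓ + p) (h2 : ℓ < c v + p) : Glu_m Lo sx f mm1 ℓ v = v := by
  have hw : v ∈ Wn c p ℓ := Glu_wn.2 ⟨h1, h2⟩
  by_cases h : v ∈ Lo
  · have h3 := hcl v h
    exact Glu_e2 h (by omega)
  · by_cases h4 : ∃ x, x ∈ Lo ∧ sx x ≤ ℓ ∧ f x ℓ = v
    · obtain ⟨x, a1, a2, a3⟩ := h4
      exact absurd (a3 ▸ hw) (hf.adj x a1 ℓ hℓ a2).2.2
    · rw [Glu_e4 h h4]
      have h5 : mm1 ℓ ⟨v, h⟩ = ⟨v, h⟩ := hpm.fix ℓ hℓ _ (Glu_mem.2 (Or.inl hw))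
      exact congrArg Subtype.val h5

theorem Glu_lo (hf : Fok G Lo sx f c p L) {v : V} (h : v ∈ Lo) :
    ((range L).filter fun ℓ => Glu_m Lo sx f mm1 ℓ v = v).card ≤ sx v := by
  have h1 : ((range L).filter fun ℓ => Glu_m Lo sx f mm1 ℓ v = v) ⊆ range (sx v) := by
    intro ℓ hℓ
    obtain ⟨a1, a2⟩ := Finset.mem_filter.1 hℓ
    rw [Finset.mem_range]
    by_contra hc
    have h2 : sx v ≤ ℓ := not_lt.1 hc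
    rw [Glu_e1 h h2] at a2
    have h3 := (hf.adj v h ℓ (Finset.mem_range.1 a1) h2).1
    rw [a2] at h3
    exact G.irrefl h3
  have h2 := Finset.card_le_card h1
  rwa [Finset.card_range] at h2

theorem Glu_win (v : V) (hp : 1 ≤ p) :
    ((range L).filter fun ℓ => c v < ℓ + p ∧ ℓ < c v + p).card ≤ 2 * p - 1 := by
  have h1 : ((range L).filter fun ℓ => c v < ℓ + p ∧ ℓ < c v + p) ⊆ Finset.Ico (c v + 1 - p) (c v + p) := by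
    intro ℓ hℓ
    obtain ⟨_, a1, a2⟩ := Finset.mem_filter.1 hℓ
    rw [Finset.mem_Ico]
    omega
  have h2 := Finset.card_le_card h1
  rw [Nat.card_Ico] at h2
  omega

theorem Glu_sub (v : V) (h : v ∉ Lo) :
    ((range L).filter fun ℓ => Glu_m Lo sx f mm1 ℓ v = v) ⊆
      ((range L).filter fun ℓ => c v < ℓ + p ∧ ℓ < c v + p) ∪
      ((range L).filter fun ℓ => (⟨v, h⟩ : {v // v ∉ Lo}) ∉ U1 Lo sx f c p ℓ ∧ mm1 ℓ ⟨v, h⟩ = ⟨v, h⟩)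
    ∨ ∃ ℓ < L, ∃ x, x ∈ Lo ∧ sx x ≤ ℓ ∧ f x ℓ = v ∧ Glu_m Lo sx f mm1 ℓ v = v := by
  by_cases hh : ∃ ℓ < L, ∃ x, x ∈ Lo ∧ sx x ≤ ℓ ∧ f x ℓ = v ∧ Glu_m Lo sx f mm1 ℓ v = v
  · exact Or.inr hh
  · refine Or.inl ?_
    intro ℓ hℓ
    obtain ⟨a1, a2⟩ := Finset.mem_filter.1 hℓ
    have h4 : ¬ ∃ x, x ∈ Lo ∧ sx x ≤ ℓ ∧ f x ℓ = v := by
      rintro ⟨x, b1, b2, b3⟩
      exact hh ⟨ℓ, Finset.mem_range.1 a1, x, b1, b2, b3, a2⟩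
    rw [Glu_e4 h h4] at a2
    have h5 : mm1 ℓ ⟨v, h⟩ = ⟨v, h⟩ := Subtype.ext a2
    by_cases h6 : (⟨v, h⟩ : {v // v ∉ Lo}) ∈ U1 Lo sx f c p ℓ
    · rcases Glu_mem.1 h6 with h7 | h7
      · exact Finset.mem_union_left _ (Finset.mem_filter.2 ⟨a1, Glu_wn.1 h7⟩)
      · exact absurd h7 h4
    · exact Finset.mem_union_right _ (Finset.mem_filter.2 ⟨a1, h6, h5⟩)

theorem Glu_cnt (hf : Fok G Lo sx f c p L) (hp : 1 ≤ p) (v : V) (h : v ∉ Lo) :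
    ((range L).filter fun ℓ => Glu_m Lo sx f mm1 ℓ v = v).card ≤ 2 * p - 1 +
      ((range L).filter fun ℓ => (⟨v, h⟩ : {v // v ∉ Lo}) ∉ U1 Lo sx f c p ℓ ∧ mm1 ℓ ⟨v, h⟩ = ⟨v, h⟩).card := by
  rcases Glu_sub (L := L) (sx := sx) (f := f) (c := c) (p := p) (mm1 := mm1) v h with h1 | h1
  · have h2 := (Finset.card_le_card h1).trans (Finset.card_union_le _ _)
    have h3 := Glu_win (L := L) (c := c) v hp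
    exact h2.trans (Nat.add_le_add_right h3 _)
  · obtain ⟨ℓ, hℓ, x, b1, b2, b3, b4⟩ := h1
    rw [← b3, Glu_e3 hf hℓ b1 b2, b3] at b4
    exact absurd (b4 ▸ b1) h

end

theorem glue {V : Type} [Fintype V] (G : SimpleGraph V) (Δ p k' L : ℕ) (hp : 1 ≤ p)
    (hL : k' + p - 1 ≤ L) (hL2 : L + 1 ≤ Δ + 2 * p) (c : V → ℕ) (hc : ∀ v, c v < k')
    (hprop : ∀ u v, G.Adj u v → c u ≠ c v) (Lo : Finset V) (sx : V → ℕ) (f : V → ℕ → V)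
    (hf : Fok G Lo sx f c p L) (hcl : ∀ x ∈ Lo, c x + p ≤ sx x)
    (hsx : ∀ x ∈ Lo, dg G x + sx x + 1 ≤ Δ + 2 * p) (hΔ : ∀ v, dg G v ≤ Δ)
    (mm1 : ℕ → {v // v ∉ Lo} → {v // v ∉ Lo})
    (hm : Cnc (G.comap (fun v : {v // v ∉ Lo} => v.1)) L (U1 Lo sx f c p) mm1) :
    H70.HY.HYLab G Δ p := by
  have hpm := hm.pm
  refine final2 G Δ p k' L hp hL hL2 c hc hprop (Glu_m Lo sx f mm1) ?_ ?_ ?_ ?_ ?_ ?_
  · intro ℓ hℓ v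
    exact Glu_inv hf hpm hℓ v
  · intro ℓ hℓ v hv
    exact Glu_adj hf hpm hℓ v hv
  · intro ℓ hℓ ℓ' hℓ' hne v hv
    exact Glu_dis hf hpm hℓ hℓ' hne v hv
  · intro ℓ hℓ v h1 h2
    exact Glu_fix hf hpm hcl hℓ v h1 h2
  · intro v
    by_cases h : v ∈ Lo
    · have h1 := Glu_lo (mm1 := mm1) hf h
      have h2 := hsx v h
      omega
    · have h1 := Glu_cnt (mm1 := mm1) hf hp v h
      have h2 : ((range L).filter fun ℓ => (⟨v, h⟩ : {v // v ∉ Lo}) ∉ U1 Lo sx f c p ℓ ∧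
          mm1 ℓ ⟨v, h⟩ = ⟨v, h⟩).card ≤ 1 := le_trans (le_of_eq (Glu_fc _ _)) (hm.one ⟨v, h⟩)
      have h3 := hΔ v
      omega
  · have key : ∀ a, dg G a + ((range L).filter fun ℓ => Glu_m Lo sx f mm1 ℓ a = a).card = Δ + 2 * p →
        ∃ h : a ∉ Lo, ∃ ℓ < L, (⟨a, h⟩ : {v // v ∉ Lo}) ∉ U1 Lo sx f c p ℓ ∧ mm1 ℓ ⟨a, h⟩ = ⟨a, h⟩ := by
      intro a ha
      by_cases h : a ∈ Lo
      · have h1 := Glu_lo (mm1 := mm1) hf h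
        have h2 := hsx a h
        omega
      · refine ⟨h, ?_⟩
        have h1 := Glu_cnt (mm1 := mm1) hf hp a h
        have h3 := hΔ a
        have h4 : 0 < ((range L).filter fun ℓ => (⟨a, h⟩ : {v // v ∉ Lo}) ∉ U1 Lo sx f c p ℓ ∧
            mm1 ℓ ⟨a, h⟩ = ⟨a, h⟩).card := by omega
        obtain ⟨ℓ, hℓ⟩ := Finset.card_pos.1 h4
        obtain ⟨a1, a2⟩ := Finset.mem_filter.1 hℓ
        exact ⟨ℓ, Finset.mem_range.1 a1, a2⟩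
    intro a b hab ha hb
    obtain ⟨ha', ha2⟩ := key a ha
    obtain ⟨hb', hb2⟩ := key b hb
    obtain ⟨ℓ, hℓ, h5⟩ := hm.ind ⟨a, ha'⟩ ⟨b, hb'⟩ hab ha2 hb2
    refine ⟨ℓ, hℓ, ?_⟩
    have h6 : ¬ ∃ x, x ∈ Lo ∧ sx x ≤ ℓ ∧ f x ℓ = a := by
      intro h7
      have h8 : mm1 ℓ ⟨a, ha'⟩ = ⟨a, ha'⟩ := hpm.fix ℓ hℓ _ (Glu_mem.2 (Or.inr h7))
      rw [h8] at h5
      have h9 : a = b := congrArg Subtype.val h5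
      rw [h9] at hab
      exact G.irrefl hab
    rw [Glu_e4 ha' h6, h5]

end Pool.Agent.H71.DX
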