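import Mathlib
import Pool.Agent.H71.DN.Ntm

/-!
MTC: a large matching of a graph, and the number of boundaries of the set `B`.

`mtch`: `natm` (in `DN/Ntm.lean`) with `N = L = D + 1`, `U = fun _ => ∅`, `s = 0`, `t = 1` gives matchings `μ ℓ`,
`ℓ < D + 1`, with `#{ℓ < D + 1 : μ ℓ v = v} + dg H v ≤ D + 1`, so `#{ℓ < D + 1 : μ ℓ v ≠ v} ≥ dg H v ≥ a` for every
`v`. Double counting: `Σ_{ℓ < D + 1} #{v : μ ℓ v ≠ v} ≥ #V * a`; take the `ℓ` with the largest summand.

`dgc`: degrees in the complement. `dgs`: degrees in the graph induced outside `Lo`.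

`bdB`: a boundary `j < L` of `B` has `j + 1 = L` (at most one `j`), or `j + 1 < L` and the numbers `t_j`, `t_{j+1}`
(`t_ℓ = #{x ∈ Lo : sx x ≤ ℓ}`) have different parity, so they are different and there is `x ∈ Lo` with
`sx x = j + 1`: at most `#Lo` such `j`.
-/

set_option autoImplicit false

namespace Pool.Agent.H71.DX

open Finset Classical
open Pool.Agent.H71.DN

theorem mtch {V : Type} [Fintype V] (H : SimpleGraph V) (a D : ℕ) (ha : ∀ v, a ≤ dg H v)
    (hD : ∀ v, dg H v ≤ D) :
    ∃ π : V → V, Inv π ∧ (∀ v, π v ≠ v → H.Adj v (π v)) ∧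
      Fintype.card V * a ≤ (D + 1) * (univ.filter fun v => π v ≠ v).card := by
  obtain ⟨μ, h1, h2, _, h4, _⟩ := natm H (D + 1) (D + 1) 0 1
    (fun v => Nat.add_le_add_right (hD v) 1) le_rfl (fun _ => ∅) (fun v => by simp) (by simp)
  have h5 : ∀ v, a ≤ ((range (D + 1)).filter fun ℓ => μ ℓ v ≠ v).card := by
    intro v
    have h6 := h4 v
    have h7 := Finset.card_filter_add_card_filter_not (s := range (D + 1)) (fun ℓ => μ ℓ v = v)
    rw [card_range] at h7
    have h8 := ha v
    have h9 : ((range (D + 1)).filter fun ℓ => μ ℓ v ≠ v).card =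
        ((range (D + 1)).filter fun ℓ => ¬ μ ℓ v = v).card := rfl
    omega
  have h10 : Fintype.card V * a ≤
      ∑ ℓ ∈ range (D + 1), (univ.filter fun v => μ ℓ v ≠ v).card := by
    have h11 : ∑ ℓ ∈ range (D + 1), (univ.filter fun v => μ ℓ v ≠ v).card =
        ∑ v : V, ((range (D + 1)).filter fun ℓ => μ ℓ v ≠ v).card := by
      simp only [Finset.card_filter]
      exact Finset.sum_comm
    rw [h11]
    calc Fintype.card V * a = ∑ _v : V, a := by simp
      _ ≤ _ := Finset.sum_le_sum fun v _ => h5 v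
  have h12 : ∑ _ℓ ∈ range (D + 1), Fintype.card V * a ≤
      ∑ ℓ ∈ range (D + 1), (D + 1) * (univ.filter fun v => μ ℓ v ≠ v).card := by
    rw [Finset.sum_const, card_range, smul_eq_mul, ← Finset.mul_sum]
    exact Nat.mul_le_mul_left _ h10
  obtain ⟨ℓ, _, hℓ⟩ := Finset.exists_le_of_sum_le
    (Finset.nonempty_range_iff.2 (Nat.succ_ne_zero D)) h12
  exact ⟨μ ℓ, h1 ℓ, fun v hv => h2 ℓ v hv, hℓ⟩

theorem dgc {V : Type} [Fintype V] (G : SimpleGraph V) (v : V) :
    dg Gᶜ v + dg G v + 1 = Fintype.card V := by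
  have h1 := Finset.card_filter_add_card_filter_not (s := (univ : Finset V)) (fun u => G.Adj v u)
  have h2 : ((univ : Finset V).filter fun u => ¬ G.Adj v u) =
      insert v ((univ : Finset V).filter fun u => Gᶜ.Adj v u) := by
    ext u
    simp only [mem_filter, mem_univ, true_and, mem_insert, SimpleGraph.compl_adj]
    constructor
    · intro h
      by_cases huv : u = v
      · exact Or.inl huv
      · exact Or.inr ⟨fun h' => huv h'.symm, h⟩
    · rintro (h | h)
      · rw [h]
        exact G.irrefl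
      · exact h.2
  have h3 : v ∉ ((univ : Finset V).filter fun u => Gᶜ.Adj v u) := by
    intro h
    exact Gᶜ.irrefl (mem_filter.1 h).2
  rw [h2, Finset.card_insert_of_notMem h3, card_univ] at h1
  have h4 : ((univ : Finset V).filter fun u => Gᶜ.Adj v u).card = dg Gᶜ v := by
    unfold dg
    apply congrArg
    ext u
    simp only [mem_filter]
  have h5 : ((univ : Finset V).filter fun u => G.Adj v u).card = dg G v := rfl
  omega

theorem dgs {V : Type} [Fintype V] (G : SimpleGraph V) (Lo : Finset V) (v : {v // v ∉ Lo}) :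
    dg (G.comap (fun v : {v // v ∉ Lo} => v.1)) v ≤ dg G v.1 ∧
      dg G v.1 ≤ dg (G.comap (fun v : {v // v ∉ Lo} => v.1)) v + Lo.card := by
  constructor
  · unfold dg
    refine Finset.card_le_card_of_injOn (fun u : {v // v ∉ Lo} => u.1) ?_ ?_
    · intro u hu
      exact mem_filter.2 ⟨mem_univ _, (mem_filter.1 (mem_coe.1 hu)).2⟩
    · intro u _ u' _ h
      exact Subtype.ext h
  · unfold dg
    have h1 : ((univ : Finset V).filter fun u => G.Adj v.1 u) ⊆
        (((univ : Finset {v // v ∉ Lo}).filter fun u =>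
          (G.comap (fun v : {v // v ∉ Lo} => v.1)).Adj v u).image
            (fun u : {v // v ∉ Lo} => u.1)) ∪ Lo := by
      intro u hu
      have h2 := (mem_filter.1 hu).2
      by_cases hL : u ∈ Lo
      · exact mem_union_right _ hL
      · exact mem_union_left _ (mem_image.2 ⟨⟨u, hL⟩, mem_filter.2 ⟨mem_univ _, h2⟩, rfl⟩)
    refine (Finset.card_le_card h1).trans ((Finset.card_union_le _ _).trans ?_)
    exact Nat.add_le_add_right Finset.card_image_le _

theorem bdB {V : Type} (Lo : Finset V) (sx : V → ℕ) (n1 L : ℕ) (B : Finset ℕ)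
    (hB : ∀ ℓ, ℓ ∈ B ↔ ℓ < L ∧ ¬ Even (n1 + (Lo.filter fun x => sx x ≤ ℓ).card)) :
    ((range L).filter fun j => ¬ (j ∈ B ↔ j + 1 ∈ B)).card ≤ Lo.card + 1 := by
  have h1 : ((range L).filter fun j => ¬ (j ∈ B ↔ j + 1 ∈ B)) ⊆
      insert (L - 1) (Lo.image fun x => sx x - 1) := by
    intro j hj
    obtain ⟨h2, h3⟩ := mem_filter.1 hj
    rw [mem_range] at h2
    by_cases h4 : j + 1 = L
    · refine mem_insert.2 (Or.inl ?_)
      omega
    · refine mem_insert.2 (Or.inr ?_)
      by_contra h5
      apply h3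
      have h6 : (Lo.filter fun x => sx x ≤ j) = (Lo.filter fun x => sx x ≤ j + 1) := by
        ext x
        simp only [mem_filter]
        constructor
        · rintro ⟨h7, h8⟩
          exact ⟨h7, by omega⟩
        · rintro ⟨h7, h8⟩
          refine ⟨h7, ?_⟩
          by_contra h9
          apply h5
          exact mem_image.2 ⟨x, h7, by omega⟩
      rw [hB, hB, ← h6]
      constructor
      · rintro ⟨_, h7⟩
        exact ⟨by omega, h7⟩
      · rintro ⟨_, h7⟩
        exact ⟨h2, h7⟩
  refine (Finset.card_le_card h1).trans ((Finset.card_insert_le _ _).trans ?_)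
  exact Nat.add_le_add_right Finset.card_image_le _

end Pool.Agent.H71.DX
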