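import Mathlib
import Pool.Agent.H71.DN.Dir
import Pool.Agent.H71.DX.Mtc
import Pool.Agent.H71.DX.LyV

/-!
CaA: graphs with `(1/2 + ε) n ≤ δ`, `Δ ≤ (1 - ε) n` and total truncated deficiency at least `n`.
-/

set_option autoImplicit false

namespace Pool.Agent.H71.DX

open Finset Classical
open Pool.Agent.H71.DN

theorem chi_compl {V : Type} [Fintype V] (G : SimpleGraph V) (π : V → V) (hπ : Inv π)
    (hadj : ∀ v, π v ≠ v → ¬ G.Adj v (π v)) (q : ℕ)
    (hq : 2 * q ≤ (univ.filter fun v => π v ≠ v).card) :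
    ∃ k, k + q = Fintype.card V ∧ G.Colorable k := by
  have h1 : (univ.filter fun v => π v ≠ v).card ≤ Fintype.card V := card_le_univ _
  obtain ⟨c, hc1, _, _, hc4⟩ := lyV π hπ (Ico q (Fintype.card V - q)) (range q)
    (by
      rw [Finset.disjoint_left]
      intro m hm hm2
      simp only [mem_Ico, mem_range] at hm hm2
      omega)
    (by rw [card_range]; exact hq)
    (by
      rw [Nat.card_Ico, card_range]
      omega)
  refine ⟨Fintype.card V - q, by omega, ?_⟩
  refine ⟨SimpleGraph.Coloring.mk (fun v => (⟨c v, ?_⟩ : Fin (Fintype.card V - q))) ?_⟩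
  · have h2 := hc1 v
    simp only [mem_union, mem_Ico, mem_range] at h2
    omega
  · intro u v huv h
    have h2 : c u = c v := by simpa using h
    rcases hc4 u v h2 with h3 | ⟨h3, h4⟩
    · exact G.ne_of_adj huv h3
    · refine hadj u (by rw [h4]; exact fun h => h3 h.symm) ?_
      rw [h4]
      exact huv

theorem caseI (ε : ℝ) (hε : 0 < ε) (hε1 : ε ≤ 1 / 4) :
    ∃ (ρ : ℝ) (n0 : ℕ), 0 < ρ ∧
      ∀ (V : Type) [Fintype V] (G : SimpleGraph V) [DecidableRel G.Adj] (p : ℕ),
        n0 ≤ Fintype.card V → 1 ≤ p →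
        (1 / 2 + ε) * Fintype.card V ≤ G.minDegree →
        (G.maxDegree : ℝ) ≤ (1 - ε) * Fintype.card V →
        (Fintype.card V : ℝ) ≤ ∑ v, min ((G.maxDegree : ℝ) - G.degree v) (ρ * Fintype.card V) →
        H70.HY.HYLab G G.maxDegree p := by
  obtain ⟨θ, ρ, n1, hθ, hρ, hB⟩ := mainB (ε ^ 2) (by positivity) (by nlinarith)
  refine ⟨ρ, max n1 (max 1 ⌈4 / ε ^ 2⌉₊), hρ, ?_⟩
  intro V _ G _ p hn hp hδ hΔ hdef
  have hn1 : n1 ≤ Fintype.card V := (le_max_left _ _).trans hn
  have hn2 : 1 ≤ Fintype.card V := ((le_max_left _ _).trans (le_max_right _ _)).trans hn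
  have hn3 : ⌈4 / ε ^ 2⌉₊ ≤ Fintype.card V :=
    ((le_max_right _ _).trans (le_max_right _ _)).trans hn
  obtain ⟨n, hnn⟩ : ∃ n : ℝ, n = (Fintype.card V : ℝ) := ⟨_, rfl⟩
  have hnpos : 0 < n := by
    rw [hnn]
    exact_mod_cast hn2
  have hn4 : 4 ≤ ε ^ 2 * n := by
    have h1 : 4 / ε ^ 2 ≤ n := by
      rw [hnn]
      exact (Nat.le_ceil _).trans (by exact_mod_cast hn3)
    rw [div_le_iff₀ (by positivity)] at h1
    linarith
  have hΔlt : G.maxDegree < Fintype.card V := by
    have : Nonempty V := Fintype.card_pos_iff.1 hn2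
    exact @SimpleGraph.maxDegree_lt_card_verts V G _ _ this
  have hδΔ : G.minDegree ≤ G.maxDegree := G.minDegree_le_maxDegree
  obtain ⟨π, hπ1, hπ2, hπ3⟩ := mtch Gᶜ (Fintype.card V - 1 - G.maxDegree)
    (Fintype.card V - 1 - G.minDegree) (fun v => by
      have h1 := dgc G v
      have h2 := (dg_bd G v).2
      omega) (fun v => by
      have h1 := dgc G v
      have h2 := (dg_bd G v).1
      omega)
  obtain ⟨k, hk1, hk2⟩ := chi_compl G π hπ1 (fun v hv => (hπ2 v hv).2)
    ((univ.filter fun v => π v ≠ v).card / 2) (by omega)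
  refine hB V G p k hn1 hp hdef ?_ hk2 ?_
  · refine dirac_rob G (ε ^ 2) θ hθ.le ?_
    refine le_trans ?_ hδ
    have h1 : ε ^ 2 ≤ ε := by nlinarith
    rw [← hnn]
    nlinarith
  · obtain ⟨M, hM⟩ : ∃ M, M = (univ.filter fun v => π v ≠ v).card := ⟨_, rfl⟩
    rw [← hM] at hπ3 hk1
    have h1 : n * (n - 1 - G.maxDegree) ≤ (n - G.minDegree) * M := by
      have h2 : ((Fintype.card V * (Fintype.card V - 1 - G.maxDegree) : ℕ) : ℝ) ≤
          (((Fintype.card V - 1 - G.minDegree + 1) * M : ℕ) : ℝ) := by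
        exact_mod_cast hπ3
      have h3 : (((Fintype.card V - 1 - G.maxDegree : ℕ)) : ℝ) = n - 1 - G.maxDegree := by
        rw [hnn]
        have h4 : Fintype.card V - 1 - G.maxDegree + (1 + G.maxDegree) = Fintype.card V := by omega
        have h5 : (((Fintype.card V - 1 - G.maxDegree : ℕ)) : ℝ) + (1 + G.maxDegree) =
            Fintype.card V := by exact_mod_cast h4
        linarith
      have h4 : ((Fintype.card V - 1 - G.minDegree + 1 : ℕ) : ℝ) = n - G.minDegree := by
        rw [hnn]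
        have h4 : Fintype.card V - 1 - G.minDegree + 1 + G.minDegree = Fintype.card V := by omega
        have h5 : ((Fintype.card V - 1 - G.minDegree + 1 : ℕ) : ℝ) + G.minDegree =
            Fintype.card V := by exact_mod_cast h4
        linarith
      rw [Nat.cast_mul, Nat.cast_mul, h3, h4, ← hnn] at h2
      exact h2
    have h2 : (k : ℝ) ≤ n - M / 2 + 1 / 2 := by
      have h3 : 2 * k + M ≤ 2 * Fintype.card V + 1 := by omega
      have h4 : (2 : ℝ) * k + M ≤ 2 * Fintype.card V + 1 := by exact_mod_cast h3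
      rw [← hnn] at h4
      linarith
    rw [← hnn] at hδ hΔ
    -- `M ≥ n (n - 1 - Δ) / ((1/2 - ε) n)`
    have hM0 : (0 : ℝ) ≤ M := Nat.cast_nonneg _
    have h3 : n * (n - 1 - G.maxDegree) ≤ (1 / 2 - ε) * n * M := by
      refine h1.trans (mul_le_mul_of_nonneg_right ?_ hM0)
      linarith
    have h4 : n - 1 - G.maxDegree ≤ (1 / 2 - ε) * M := by
      have h5 : n * (n - 1 - G.maxDegree) ≤ n * ((1 / 2 - ε) * M) := by
        have h6 : n * ((1 / 2 - ε) * M) = (1 / 2 - ε) * n * M := by ring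
        rw [h6]
        exact h3
      exact le_of_mul_le_mul_left h5 hnpos
    -- `k ≤ n - (n - 1 - Δ) / (1 - 2 ε) + 1/2 ≤ (1 - ε²) Δ`
    have h5 : (1 - 2 * ε) * k ≤ (1 - 2 * ε) * n - (n - 1 - G.maxDegree) + 1 / 2 := by
      have h6 : 0 ≤ 1 - 2 * ε := by linarith
      have h7 := mul_le_mul_of_nonneg_left h2 h6
      have h8 : (1 - 2 * ε) * (n - M / 2 + 1 / 2) =
          (1 - 2 * ε) * n - (1 / 2 - ε) * M + (1 - 2 * ε) / 2 := by ring
      linarith
    have h6 : (1 - 2 * ε) * k ≤ (1 - 2 * ε) * ((1 - ε ^ 2) * G.maxDegree) := by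
      refine h5.trans ?_
      have h7 : 0 ≤ (1 - ε) * n - G.maxDegree := by linarith
      have h8 : 0 ≤ 2 * ε * ((1 - ε) * n - G.maxDegree) := by positivity
      have h9 : (G.maxDegree : ℝ) ≤ n := by
        rw [hnn]
        exact_mod_cast hΔlt.le
      have h10 : (1 - 2 * ε) * ε ^ 2 * G.maxDegree ≤ 1 * ε ^ 2 * n := by
        apply mul_le_mul _ h9 (Nat.cast_nonneg _) (by positivity)
        apply mul_le_mul_of_nonneg_right _ (by positivity)
        linarith
      nlinarith
    exact le_of_mul_le_mul_left h6 (by linarith)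

end Pool.Agent.H71.DX
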