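import Mathlib
import Pool.Agent.H71.DX.Defs

/-!
EXP2: the graph `F` of the unused reserve edges has the expansion properties `Ex2`.

Proof (`n = #V`, `Gs = gz G Z`, `Y = univ ∖ Z`; `dz v`, `dy v` the numbers of neighbours of `v` in and outside
`Z`, `dz v + dy v = dg G v =: d v ≥ (1/2 + ε) n`; `η = c / 100`, `c ≤ ε / 16`, `ε ≤ 1/4`).
Claim (*): if `lam n² ≤ ee Gs A B` then `8 n < ee F A B`: `ee F A B + T ≥ ee R A B ≥ q0 lam n² > T + 8 n`.
Facts: `dg Gs v = d v` for `v ∉ Z`, `dg Gs v = dy v` for `v ∈ Z`, and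
 `dy v ≥ (1/2 + c) d v - η n ≥ (1/4 + ε/2 + c/2 - η) n ≥ (1/4 + ε/2) n`,
 `dz v ≥ (1/2 - c) d v - η n ≥ (1/4 + ε/2 - c/2 - c ε - η) n`; `#Z ≤ (1/2 - c + η) n`.
`d1`: `D + S ≤ dg R v ≤ dg F v + S`.
`p2`: let `#A ≥ m`, `ee F A Y0 ≤ 8 n` and suppose `#Y0 + b1 > n`. Each `a ∈ A` has `dg Gs a ≥ (1/4 + ε/2) n`, so at
 least `dg Gs a - (n - #Y0) ≥ (1/4 + ε/2) n - b1 ≥ (ε/4) n` `Gs`-neighbours in `Y0`;
 `ee Gs A Y0 ≥ m (ε/4) n ≥ (c/50) (ε/4) n² ≥ lam n²`; contradiction with (*).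
`p3`: let `#B ≥ b1 - q`, `ee F B Y0 ≤ 8 n`, and suppose `#Y0 > n - b2 ≥ (1/2 - c/2) n`.
 Case 1: `#(B ∖ Z) ≥ η n`. Each `b ∈ B ∖ Z` has `≥ d b - (n - #Y0) ≥ (1/2 + ε) n - b2 ≥ (ε - c/2) n ≥ (ε/2) n`
 neighbours in `Y0`: `ee Gs B Y0 ≥ η n (ε/2) n = c ε n² / 200 ≥ lam n²`.
 Case 2: `#(B ∩ Z) ≥ b1 - q - η n ≥ (1/4 + ε/4) n - 1 - c n / 8 - η n`. `#(Y0 ∖ Z) ≥ (1/2 - c/2) n - #Z ≥ (c/2 - η) n
 ≥ (c/4) n`. Each `y ∈ Y0 ∖ Z` has at least `#(B ∩ Z) + dz y - #Z ≥ (3 ε/4 + c/2 - c ε - 3 η - c/8) n - 1 ≥ (ε/2) n`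
 neighbours in `B ∩ Z` (all these pairs are `Gs`-edges): `ee Gs B Y0 ≥ (c/4) (ε/2) n² ≥ lam n²`.
 Both contradict (*).
`p4`: `#C1, #C2 ≥ b2 - q ≥ (1/2 + c/2) n - 1 - c n / 8`. `#(C1 ∖ Z) ≥ #C1 - #Z ≥ (3 c/2 - η - c/8) n - 1 ≥ c n`. Each
 of its vertices has `≥ d + #C2 - n ≥ (ε + c/2 - c/8) n - 1 ≥ ε n` neighbours in `C2`: `ee Gs C1 C2 ≥ c ε n² ≥
 lam n²`, so by (*) `ee F C1 C2 > 8 n ≥ n`.
(`n ≥ 1000 / c` absorbs the `1`s. `ee` is symmetric: `ee G A B = ∑_{a ∈ A} #{b ∈ B : G.Adj a b}` and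
`= ∑_{b ∈ B} #{a ∈ A : G.Adj a b}`.)
-/

set_option autoImplicit false

namespace Pool.Agent.H71.DX

open Finset Classical
open Pool.Agent.H71.DN

theorem Exp2_ee {V : Type} [Fintype V] (G : SimpleGraph V) (A B : Finset V) :
    ee G A B = ∑ a ∈ A, (B.filter fun y => G.Adj a y).card := by
  unfold ee
  rw [card_filter, sum_product]
  refine sum_congr rfl fun a _ => ?_
  rw [card_filter]

theorem Exp2_ee' {V : Type} [Fintype V] (G : SimpleGraph V) (A B : Finset V) :
    ee G A B = ∑ b ∈ B, (A.filter fun a => G.Adj a b).card := by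
  unfold ee
  rw [card_filter, sum_product_right]
  refine sum_congr rfl fun a _ => ?_
  rw [card_filter]

/-- At least `d v + #Y - n` neighbours of `a` in `Y`. -/
theorem Exp2_nb {V : Type} [Fintype V] (G : SimpleGraph V) (Y : Finset V) (a : V) :
    dg G a + Y.card ≤ (Y.filter fun y => G.Adj a y).card + Fintype.card V := by
  have h1 : (univ.filter fun u => G.Adj a u) ⊆ (Y.filter fun y => G.Adj a y) ∪ Yᶜ := by
    intro u hu
    by_cases h : u ∈ Y
    · exact mem_union_left _ (mem_filter.2 ⟨h, (mem_filter.1 hu).2⟩)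
    · exact mem_union_right _ (mem_compl.2 h)
  have h2 := (card_le_card h1).trans (card_union_le _ _)
  have h3 := card_add_card_compl Y
  unfold dg
  omega

/-- For `a ∉ Z` the neighbours in `gz G Z` are those in `G`. -/
theorem Exp2_out {V : Type} [Fintype V] (G : SimpleGraph V) (Z Y : Finset V) (a : V)
    (ha : a ∉ Z) :
    (Y.filter fun y => (gz G Z).Adj a y) = Y.filter fun y => G.Adj a y := by
  refine filter_congr fun y _ => ?_
  constructor
  · exact fun h => h.1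
  · exact fun h => ⟨h, fun h' => ha h'.1⟩

/-- Splitting the degree at `Z`. -/
theorem Exp2_split {V : Type} [Fintype V] (G : SimpleGraph V) (Z : Finset V) (a : V)
    (ha : a ∈ Z) :
    dg G a = (univ.filter fun u => G.Adj a u ∧ u ∈ Z).card + dg (gz G Z) a := by
  unfold dg
  have h1 : (univ.filter fun u => G.Adj a u) =
      (univ.filter fun u => G.Adj a u ∧ u ∈ Z) ∪ (univ.filter fun u => (gz G Z).Adj a u) := by
    ext u
    simp only [mem_union, mem_filter, mem_univ, true_and]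
    constructor
    · intro h
      by_cases hu : u ∈ Z
      · exact Or.inl ⟨h, hu⟩
      · exact Or.inr ⟨h, fun h' => hu h'.2⟩
    · rintro (h | h)
      · exact h.1
      · exact h.1
  rw [h1, card_union_of_disjoint]
  rw [Finset.disjoint_left]
  intro u hu hu'
  exact (mem_filter.1 hu').2.2 ⟨ha, (mem_filter.1 hu).2.2⟩

/-- Lower bound for `ee` from the left. -/
theorem Exp2_lowL {V : Type} [Fintype V] (G : SimpleGraph V) (A A' B : Finset V) (x t : ℝ)
    (hA : A' ⊆ A) (ht : 0 ≤ t) (hx : x ≤ A'.card)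
    (h : ∀ a ∈ A', t ≤ (B.filter fun y => G.Adj a y).card) : x * t ≤ ee G A B := by
  have h1 : (A'.card : ℝ) * t ≤ ∑ a ∈ A', ((B.filter fun y => G.Adj a y).card : ℝ) := by
    rw [← nsmul_eq_mul]
    exact card_nsmul_le_sum A' _ _ h
  have h2 : ∑ a ∈ A', ((B.filter fun y => G.Adj a y).card : ℝ) ≤ ee G A B := by
    rw [Exp2_ee]
    push_cast
    exact sum_le_sum_of_subset_of_nonneg hA fun _ _ _ => Nat.cast_nonneg _
  have h3 : x * t ≤ A'.card * t := mul_le_mul_of_nonneg_right hx ht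
  linarith

/-- Lower bound for `ee` from the right. -/
theorem Exp2_lowR {V : Type} [Fintype V] (G : SimpleGraph V) (A B' B : Finset V) (x t : ℝ)
    (hB : B' ⊆ B) (ht : 0 ≤ t) (hx : x ≤ B'.card)
    (h : ∀ b ∈ B', t ≤ (A.filter fun a => G.Adj a b).card) : x * t ≤ ee G A B := by
  have h1 : (B'.card : ℝ) * t ≤ ∑ b ∈ B', ((A.filter fun a => G.Adj a b).card : ℝ) := by
    rw [← nsmul_eq_mul]
    exact card_nsmul_le_sum B' _ _ h
  have h2 : ∑ b ∈ B', ((A.filter fun a => G.Adj a b).card : ℝ) ≤ ee G A B := by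
    rw [Exp2_ee']
    push_cast
    exact sum_le_sum_of_subset_of_nonneg hB fun _ _ _ => Nat.cast_nonneg _
  have h3 : x * t ≤ B'.card * t := mul_le_mul_of_nonneg_right hx ht
  linarith

/-- The neighbours of `y ∉ Z` in `A ∩ Z`. -/
theorem Exp2_in {V : Type} [Fintype V] (G : SimpleGraph V) (Z A : Finset V) (y : V)
    (hy : y ∉ Z) :
    (univ.filter fun u => G.Adj y u ∧ u ∈ Z).card + (A ∩ Z).card ≤
      (A.filter fun a => (gz G Z).Adj a y).card + Z.card := by
  have h1 : (univ.filter fun u => G.Adj y u ∧ u ∈ Z) ∪ (A ∩ Z) ⊆ Z := by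
    intro u hu
    rcases mem_union.1 hu with h | h
    · exact (mem_filter.1 h).2.2
    · exact (mem_inter.1 h).2
  have h2 : (univ.filter fun u => G.Adj y u ∧ u ∈ Z) ∩ (A ∩ Z) ⊆
      A.filter fun a => (gz G Z).Adj a y := by
    intro u hu
    have h3 := mem_inter.1 hu
    exact mem_filter.2 ⟨(mem_inter.1 h3.2).1, (mem_filter.1 h3.1).2.1.symm, fun h' => hy h'.2⟩
  have h3 := card_union_add_card_inter (univ.filter fun u => G.Adj y u ∧ u ∈ Z) (A ∩ Z)
  have h4 := card_le_card h1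
  have h5 := card_le_card h2
  omega

theorem expand2 {V : Type} [Fintype V] (G R F : SimpleGraph V) (Z : Finset V)
    (ε c q0 lam : ℝ) (D m b1 b2 q S T : ℕ) (hε1 : ε ≤ 1 / 4) (hc : 0 < c)
    (hc1 : 16 * c ≤ ε) (hn : 1000 ≤ c * Fintype.card V)
    (hd : ∀ v, (1 / 2 + ε) * Fintype.card V ≤ dg G v)
    (hZ : (Z.card : ℝ) ≤ (1 / 2 - c + c / 100) * Fintype.card V)
    (hZd : ∀ v, |((univ.filter fun u => G.Adj v u ∧ u ∈ Z).card : ℝ) -
      (1 / 2 - c) * dg G v| ≤ c / 100 * Fintype.card V)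
    (hR1 : ∀ v, D + S ≤ dg R v)
    (hR2 : ∀ A B : Finset V, lam * (Fintype.card V : ℝ) ^ 2 ≤ ee (gz G Z) A B →
      q0 * (lam * (Fintype.card V : ℝ) ^ 2) ≤ ee R A B)
    (hF1 : ∀ v, dg R v ≤ dg F v + S) (hF2 : ∀ A B, ee R A B ≤ ee F A B + T)
    (hlam : lam ≤ c * ε / 200)
    (hT : (T : ℝ) + 8 * Fintype.card V < q0 * (lam * (Fintype.card V : ℝ) ^ 2))
    (hm : c / 50 * Fintype.card V ≤ m)
    (hb1 : (b1 : ℝ) ≤ (1 / 4 + ε / 4) * Fintype.card V)
    (hb1' : (1 / 4 + ε / 4) * Fintype.card V ≤ b1 + 1)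
    (hb2 : (b2 : ℝ) ≤ (1 / 2 + c / 2) * Fintype.card V)
    (hb2' : (1 / 2 + c / 2) * Fintype.card V ≤ b2 + 1)
    (hq : (q : ℝ) ≤ c / 8 * Fintype.card V) :
    Ex2 F D m b1 b2 q := by
  obtain ⟨N, hN⟩ : ∃ N : ℝ, N = Fintype.card V := ⟨_, rfl⟩
  rw [← hN] at hn hd hZ hZd hR2 hT hm hb1 hb1' hb2 hb2' hq
  have hε : 0 < ε := by linarith
  have hNp : 0 < N := by
    by_contra h
    have : c * N ≤ 0 := mul_nonpos_of_nonneg_of_nonpos hc.le (not_lt.1 h)
    linarith
  have hcN : 0 < c * N := mul_pos hc hNp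
  have hεN : 16 * (c * N) ≤ ε * N := by nlinarith
  have hcε : c * ε * N ≤ c * N / 4 := by nlinarith
  have hcε0 : 0 ≤ c * ε * N := by positivity
  have key : ∀ A B : Finset V, lam * N ^ 2 ≤ ee (gz G Z) A B → 8 * N < ee F A B := by
    intro A B h
    have h1 := hR2 A B h
    have h2 : (ee R A B : ℝ) ≤ ee F A B + T := by exact_mod_cast hF2 A B
    linarith
  have hlam2 : lam * N ^ 2 ≤ c * ε / 200 * N ^ 2 :=
    mul_le_mul_of_nonneg_right hlam (by positivity)
  have hcε2 : 0 ≤ c * ε * N ^ 2 := by positivity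
  -- degrees of `gz G Z`
  have hdy : ∀ v, (1 / 4 + ε / 2) * N ≤ dg (gz G Z) v := by
    intro v
    by_cases hv : v ∈ Z
    · have h1 : (dg G v : ℝ) = (univ.filter fun u => G.Adj v u ∧ u ∈ Z).card +
          dg (gz G Z) v := by exact_mod_cast Exp2_split G Z v hv
      have h2 := (abs_le.1 (hZd v)).2
      have h3 := hd v
      have h4 : (1 / 2 + c) * ((1 / 2 + ε) * N) ≤ (1 / 2 + c) * dg G v :=
        mul_le_mul_of_nonneg_left h3 (by linarith)
      have h5 : (1 / 2 + c) * ((1 / 2 + ε) * N) =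
          (1 / 4 + ε / 2) * N + c * N / 2 + c * ε * N := by ring
      linarith
    · have h1 : dg (gz G Z) v = dg G v := by
        unfold dg
        rw [Exp2_out G Z univ v hv]
      rw [h1]
      have h2 := hd v
      linarith
  have hdz : ∀ v, (1 / 4 + ε / 2) * N - c * N / 2 - c * ε * N - c / 100 * N ≤
      ((univ.filter fun u => G.Adj v u ∧ u ∈ Z).card : ℝ) := by
    intro v
    have h2 := (abs_le.1 (hZd v)).1
    have h3 := hd v
    have h4 : (1 / 2 - c) * ((1 / 2 + ε) * N) ≤ (1 / 2 - c) * dg G v :=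
      mul_le_mul_of_nonneg_left h3 (by linarith)
    have h5 : (1 / 2 - c) * ((1 / 2 + ε) * N) =
        (1 / 4 + ε / 2) * N - c * N / 2 - c * ε * N := by ring
    linarith
  -- vertices outside `Z`
  have hout : ∀ (Y : Finset V) (v : V), v ∉ Z → (1 / 2 + ε) * N + Y.card - N ≤
      ((Y.filter fun y => (gz G Z).Adj v y).card : ℝ) := by
    intro Y v hv
    rw [Exp2_out G Z Y v hv]
    have h1 : (dg G v : ℝ) + Y.card ≤ (Y.filter fun y => G.Adj v y).card + N := by
      rw [hN]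
      exact_mod_cast Exp2_nb G Y v
    have h2 := hd v
    linarith
  have hsd : ∀ A : Finset V, (A.card : ℝ) ≤ (A \ Z).card + (A ∩ Z).card := by
    intro A
    have h := card_sdiff_add_card_inter A Z
    exact_mod_cast h.ge
  have hsd' : ∀ A : Finset V, ((A ∩ Z).card : ℝ) ≤ Z.card := by
    intro A
    exact_mod_cast card_le_card inter_subset_right
  refine ⟨fun v => ?_, fun A Y hA hAY => ?_, fun A Y hA hAY => ?_, fun A B hA hB => ?_⟩
  · have h1 := hR1 v
    have h2 := hF1 v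
    omega
  · by_contra hcon
    push Not at hcon
    have hY : N < Y.card + b1 := by
      rw [hN]
      exact_mod_cast hcon
    have hAY' : (ee F A Y : ℝ) ≤ 8 * N := by
      rw [hN]
      exact_mod_cast hAY
    have hA' : (m : ℝ) ≤ A.card := by exact_mod_cast hA
    have h1 : ∀ a ∈ A, ε / 4 * N ≤ ((Y.filter fun y => (gz G Z).Adj a y).card : ℝ) := by
      intro a _
      have h2 : (dg (gz G Z) a : ℝ) + Y.card ≤
          (Y.filter fun y => (gz G Z).Adj a y).card + N := by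
        rw [hN]
        exact_mod_cast Exp2_nb (gz G Z) Y a
      have h3 := hdy a
      linarith
    have h2 := Exp2_lowL (gz G Z) A A Y (c / 50 * N) (ε / 4 * N) (Subset.refl _)
      (by positivity) (by linarith) h1
    have h3 := key A Y (by
      have h4 : c / 50 * N * (ε / 4 * N) = c * ε / 200 * N ^ 2 := by ring
      linarith)
    linarith
  · by_contra hcon
    push Not at hcon
    have hY : N < Y.card + b2 := by
      rw [hN]
      exact_mod_cast hcon
    have hAY' : (ee F A Y : ℝ) ≤ 8 * N := by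
      rw [hN]
      exact_mod_cast hAY
    have hA' : (b1 : ℝ) ≤ A.card + q := by exact_mod_cast hA
    by_cases hcase : c / 100 * N ≤ (A \ Z).card
    · have h1 : ∀ a ∈ A \ Z, ε / 2 * N ≤
          ((Y.filter fun y => (gz G Z).Adj a y).card : ℝ) := by
        intro a ha
        have h2 := hout Y a (mem_sdiff.1 ha).2
        linarith
      have h2 := Exp2_lowL (gz G Z) A (A \ Z) Y (c / 100 * N) (ε / 2 * N) sdiff_subset
        (by positivity) hcase h1
      have h3 := key A Y (by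
        have h4 : c / 100 * N * (ε / 2 * N) = c * ε / 200 * N ^ 2 := by ring
        linarith)
      linarith
    · push Not at hcase
      have h1 : ∀ y ∈ Y \ Z, ε / 2 * N ≤
          ((A.filter fun a => (gz G Z).Adj a y).card : ℝ) := by
        intro y hy
        have h2 : ((univ.filter fun u => G.Adj y u ∧ u ∈ Z).card : ℝ) + (A ∩ Z).card ≤
            (A.filter fun a => (gz G Z).Adj a y).card + Z.card := by
          exact_mod_cast Exp2_in G Z A y (mem_sdiff.1 hy).2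
        have h3 := hdz y
        have h4 := hsd A
        linarith
      have h5 := hsd Y
      have h6 := hsd' Y
      have h2 := Exp2_lowR (gz G Z) A (Y \ Z) Y (c / 4 * N) (ε / 2 * N) sdiff_subset
        (by positivity) (by linarith) h1
      have h3 := key A Y (by
        have h4 : c / 4 * N * (ε / 2 * N) = c * ε / 200 * N ^ 2 + 24 * (c * ε * N ^ 2) / 200 := by
          ring
        linarith)
      linarith
  · have hA' : (b2 : ℝ) ≤ A.card + q := by exact_mod_cast hA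
    have hB' : (b2 : ℝ) ≤ B.card + q := by exact_mod_cast hB
    have h1 : ∀ a ∈ A \ Z, ε * N ≤ ((B.filter fun y => (gz G Z).Adj a y).card : ℝ) := by
      intro a ha
      have h2 := hout B a (mem_sdiff.1 ha).2
      linarith
    have h5 := hsd A
    have h6 := hsd' A
    have h2 := Exp2_lowL (gz G Z) A (A \ Z) B (c * N) (ε * N) sdiff_subset
      (by positivity) (by linarith) h1
    have h3 := key A B (by
      have h4 : c * N * (ε * N) = c * ε / 200 * N ^ 2 + 199 * (c * ε * N ^ 2) / 200 := by ring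
      linarith)
    have h4 : N < ee F A B := by linarith
    rw [hN] at h4
    exact_mod_cast h4

end Pool.Agent.H71.DX
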