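import Mathlib
import Pool.Agent.H71.DX.Nma0

/-!
NMA: three numerical lemmas.

`fact12`: `(12 s)! ≥ (12 s / e) ^ (12 s)` (`Real.pow_div_factorial_le_exp`: `t ^ t / t! ≤ exp t`), so
 `(12 s)! / s ^ (12 s) ≥ (12 / e) ^ (12 s) ≥ 4 ^ (12 s) > n` as `s ≥ κ n` and `n` is large (`e < 3`).

`meanb` (`n = #V`, `z = (M - 1) / (2 M)`, `r = (M + 1)² / (2 M Q)`, `d = dg G v`; `dz + dy = d`): `|dz - z d| ≤ η n`,
 so `|dy - (1 - z) d| ≤ η n` with `1 - z = (M + 1) / (2 M)`; and `|d - Δ| ≤ ρ n`. For `v ∈ Z`: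
 `J (M + 1) / Q * (1 - z) = J r` and `J (M + 1) / Q ≤ 1`, so `|mean - J r Δ| ≤ (η + ρ) n`. For `v ∉ Z`:
 `J (M + 1) / Q * z + 2 J / Q * (1 - z) = J / Q * (M + 1) (M - 1 + 2) / (2 M) = J r`, and
 `J (M + 1) / Q, 2 J / Q ≤ 1`, so `|mean - J r Δ| ≤ 2 η n + 2 ρ n`. (`z ≤ 1`, `1 - z ≤ 1`.)

`MQJ`: `M = ⌈8/ε⌉₊ ≥ 32`, `c = 1 / (2 M)`, `Q = 5000 M²`, `r = (M + 1)² / (2 M Q)`, `J = ⌊(3 ε / 16) / r⌋₊`.
 `c ≤ ε/16`; `(M + 1)² ≥ M²` and `≤ 4 M²` give `c / 5000 ≤ r ≤ 4 c / 5000`; `J r ∈ (3ε/16 - r, 3ε/16]`, `J ≥ 1`;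
 `J (M + 1) ≤ (3ε/16) (M + 1) / r = (3ε/16) 2 M Q / (M + 1) ≤ (3ε/8) Q ≤ Q / 4`, `M + 1 ≤ Q / 2`, so
 `(J + 1) (M + 1) ≤ Q`. `J ≥ (ε/8) / r`, so `2 J / Q ≥ (ε/4) / (r Q) = (ε/4) 2 M / (M + 1)² ≥ (ε/4) / (2 M) = ε c / 4`
 (`(M + 1)² ≤ 4 M²`), so `2 J / Q / 4 ≥ ε c / 16`.
-/

set_option autoImplicit false

namespace Pool.Agent.H71.DX

open Finset Classical
open Pool.Agent.H71.DN

theorem MQJ (ε : ℝ) (hε : 0 < ε) (hε1 : ε ≤ 1 / 4) :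
    ∃ (M Q J : ℕ) (c r : ℝ), 32 ≤ M ∧ 1 ≤ J ∧ (J + 1) * (M + 1) ≤ Q ∧ c = 1 / (2 * M) ∧
      r = ((M : ℝ) + 1) ^ 2 / (2 * M * Q) ∧ 16 * c ≤ ε ∧ c / 5000 ≤ r ∧ r ≤ 4 * c / 5000 ∧
      3 * ε / 16 - r < J * r ∧ J * r ≤ 3 * ε / 16 ∧ ε * c / 16 ≤ 2 * (J : ℝ) / Q / 4 := by
  obtain ⟨M, hM⟩ : ∃ M : ℕ, M = ⌈8 / ε⌉₊ := ⟨_, rfl⟩
  have hM1 : 8 / ε ≤ (M : ℝ) := by
    rw [hM]
    exact Nat.le_ceil _
  have hM8 : 8 ≤ M * ε := by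
    rw [div_le_iff₀ hε] at hM1
    exact hM1
  have hM32 : (32 : ℝ) ≤ M := by nlinarith
  have hM32' : 32 ≤ M := by exact_mod_cast hM32
  have hM0 : (0 : ℝ) < M := by linarith
  obtain ⟨Q, hQ⟩ : ∃ Q : ℕ, Q = 5000 * M ^ 2 := ⟨_, rfl⟩
  have hQr : (Q : ℝ) = 5000 * (M : ℝ) ^ 2 := by
    rw [hQ]
    push_cast
    ring
  have hQ0 : (0 : ℝ) < Q := by
    rw [hQr]
    positivity
  obtain ⟨c, hc⟩ : ∃ c : ℝ, c = 1 / (2 * M) := ⟨_, rfl⟩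
  have hcM : c * M = 1 / 2 := by
    rw [hc]
    field_simp
  have hc0 : 0 < c := by
    rw [hc]
    positivity
  obtain ⟨r, hr⟩ : ∃ r : ℝ, r = ((M : ℝ) + 1) ^ 2 / (2 * M * Q) := ⟨_, rfl⟩
  have hr0 : 0 < r := by
    rw [hr]
    positivity
  have hrQ : r * (2 * M * Q) = ((M : ℝ) + 1) ^ 2 := by
    rw [hr]
    field_simp
  have hc16 : 16 * c ≤ ε := by
    have : 16 * c * M ≤ ε * M := by nlinarith
    exact le_of_mul_le_mul_right this hM0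
  have hr1 : c / 5000 ≤ r := by
    rw [hr, hc, hQr, div_div, div_le_div_iff₀ (by positivity) (by positivity)]
    nlinarith [mul_pos hM0 hM0, mul_pos (mul_pos hM0 hM0) hM0]
  have hr2 : r ≤ 4 * c / 5000 := by
    rw [hr, hc, hQr, mul_one_div, div_div, div_le_div_iff₀ (by positivity) (by positivity)]
    have h4 : ((M : ℝ) + 1) ^ 2 ≤ 4 * (M : ℝ) ^ 2 := by nlinarith
    nlinarith [mul_le_mul_of_nonneg_right h4 hM0.le]
  obtain ⟨J, hJ⟩ : ∃ J : ℕ, J = ⌊(3 * ε / 16) / r⌋₊ := ⟨_, rfl⟩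
  have hJ1 : (J : ℝ) ≤ (3 * ε / 16) / r := by
    rw [hJ]
    exact Nat.floor_le (by positivity)
  have hJ2 : (3 * ε / 16) / r < J + 1 := by
    rw [hJ]
    exact Nat.lt_floor_add_one _
  have hJr1 : J * r ≤ 3 * ε / 16 := by
    rw [le_div_iff₀ hr0] at hJ1
    exact hJ1
  have hJr2 : 3 * ε / 16 - r < J * r := by
    rw [div_lt_iff₀ hr0] at hJ2
    linarith
  have hrε : r ≤ ε / 16 := by linarith
  have hJp : 1 ≤ J := by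
    by_contra hcon
    have h0 : J = 0 := by omega
    rw [h0] at hJr2
    push_cast at hJr2
    linarith
  refine ⟨M, Q, J, c, r, hM32', hJp, ?_, hc, hr, hc16, hr1, hr2, hJr2, hJr1, ?_⟩
  · have h1 : (J : ℝ) * (M + 1) ≤ Q / 4 := by
      have h2 : (J : ℝ) * r * (2 * M * Q) ≤ 3 * ε / 16 * (2 * M * Q) :=
        mul_le_mul_of_nonneg_right hJr1 (by positivity)
      have h3 : (J : ℝ) * r * (2 * M * Q) = J * (M + 1) * (M + 1) := by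
        rw [mul_assoc, hrQ]
        ring
      rw [h3] at h2
      have h4 : 3 * ε / 16 * (2 * M * Q) ≤ Q / 4 * (M + 1) := by
        have h5 : 3 * ε / 16 * (2 * M * Q) ≤ 3 / 32 * (M * Q) := by
          have : 0 ≤ (M : ℝ) * Q := by positivity
          nlinarith
        nlinarith [mul_pos hM0 hQ0]
      have h6 : (J : ℝ) * (M + 1) * (M + 1) ≤ Q / 4 * (M + 1) := h2.trans h4
      exact le_of_mul_le_mul_right h6 (by linarith)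
    have h2 : (M : ℝ) + 1 ≤ Q / 2 := by
      rw [hQr]
      nlinarith
    have h3 : ((J : ℝ) + 1) * (M + 1) ≤ Q := by nlinarith
    exact_mod_cast h3
  · have h1 : ε / 8 ≤ J * r := by linarith
    have h2 : ε / 8 * (2 * M * Q) ≤ J * ((M : ℝ) + 1) ^ 2 := by
      have := mul_le_mul_of_nonneg_right h1 (show 0 ≤ 2 * (M : ℝ) * Q by positivity)
      rwa [mul_assoc (J : ℝ) r, hrQ] at this
    have h3 : ((M : ℝ) + 1) ^ 2 ≤ 4 * (M : ℝ) ^ 2 := by nlinarith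
    have h4 : ε / 8 * (2 * M * Q) ≤ J * (4 * (M : ℝ) ^ 2) :=
      h2.trans (mul_le_mul_of_nonneg_left h3 (Nat.cast_nonneg J))
    have h5 : ε * Q ≤ 16 * (J * M) := by
      have : ε * Q * (M / 4) ≤ 16 * (J * M) * (M / 4) := by nlinarith
      exact le_of_mul_le_mul_right this (by positivity)
    rw [div_div, div_le_div_iff₀ (by norm_num) (by positivity)]
    have h6 : ε * Q * c ≤ 16 * (J * M) * c := mul_le_mul_of_nonneg_right h5 hc0.le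
    have h7 : 16 * ((J : ℝ) * M) * c = 8 * J := by
      have : 16 * ((J : ℝ) * M) * c = 16 * J * (c * M) := by ring
      rw [this, hcM]
      ring
    nlinarith

end Pool.Agent.H71.DX
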