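import Mathlib
import Pool.Agent.H71.DX.Nma
import Pool.Agent.H71.DX.Nmb0
import Pool.Agent.H71.DX.Exp2

/-!
NMB: the choice of all parameters.

Proof (`n = #V`, all claims for `n ≥ n0(ε)`).  `M, Q, J, c, r` from `MQJ ε`; `c ≤ ε/16 ≤ 1/64`.
 `lam := c ε / 200`, `τ := ε² c² / 10 ^ 9`, `κ := τ² / 1000`, `ρ := τ² c / 10 ^ 6`.
`rndZ M` with `η = ρ` gives `Z` (`(M - 1) / (2 M) = 1/2 - c`), `rndR M Q J` with `η = ρ` and `lam` gives `R, H`. By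
`meanb` (`η = ρ`; for `H` with `J = 1`): `|dg R v - J r Δ| ≤ 5 ρ n`, `|dg H v - r Δ| ≤ 5 ρ n`.
 `dg (G \ (R ⊔ H)) v = dg G v - dg R v - dg H v` (`R, H ≤ G` disjoint).
 `ζ0 := S2 := c2 := cap := ⌈c n / 400⌉₊`, `β := ζ := ⌈c n / 150⌉₊`, `m := ⌈c n / 50⌉₊`, `q := ⌊c n / 8⌋₊`,
 `D := ⌊ε n / 32⌋₊`, `b1 := ⌊(1/4 + ε/4) n⌋₊`, `b2 := ⌊(1/2 + c/2) n⌋₊`, `u := s := ⌈κ n⌉₊ + 1`, `t1 := 12 s`,
 `dS := ⌈4 τ n⌉₊`, `t2 := 12 (s + dS)`, `S1 := c1 := ⌈τ n⌉₊`,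
 `N1 := ⌊(1 - (J + 1) r) Δ + 10 ρ n⌋₊ + 1`, `e0 := ⌈21 ρ n⌉₊ + 2`, `N2 := ⌊r Δ + 5 ρ n⌋₊ + 1`, `f0 := ⌈10 ρ n⌉₊ + 2`,
 `e1 := n e0 / ζ0`, `f1 := n f0 / ζ0`; `natf` gives `K1, ν1` (for `G \ (R ⊔ H)`, `N1`, `e0`) and `K2, ν2` (for
 `H`, `N2`, `f0`), both with `ζ = ζ0`.
Checks (`Δ ≥ n / 2`, `Δ ≤ n`):
 * `dg G0 v ≤ Δ (1 - (J + 1) r) + 10 ρ n`, `≥ Δ (1 - (J + 1) r) - 11 ρ n`; so `dg G0 v + 1 ≤ N1 ≤ dg G0 v + e0`. In
   the same way `dg H v + 1 ≤ N2 ≤ dg H v + f0`.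
 * `e1 ≤ (400 / c) (21 ρ n + 3) ≤ 0.01 τ n`, the same for `f1` and for `n (e0 + f0) / ζ0`.
 * `t1 ≤ 12 κ n + 24`, `e0 + t1 ≤ τ² n / 14`: `hT1`: `14 n (e0 + t1) ≤ τ² n² ≤ S1 c1`.
 * `hdS`: `e1 + s + t1 + S1 + e0 + t1 ≤ 4 τ n`.
 * `t2 ≤ 12 (5 τ n) = 60 τ n`, `f0 ≤ τ n`: `14 n (f0 + t2) ≤ 854 τ n² ≤ c² n² / 160000 ≤ S2 c2`: `hT2`.
 * `ht1`, `ht2`: `fact12`. `hβ1`, `hβ2`, `hζ`: `u + 2 (c n / 400 + 1) ≤ c n / 150` and `c1 ≤ c n / 400`.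
 * `h2`: `3 (c n / 150 + 1) + 4 (c n / 50 + 1) ≤ c n / 8 - 1`; `h1`: `≤ ε n / 32 - 1`.
 * `hK2`: `K2 ≥ N2 - n f0 / ζ0 ≥ r Δ - 0.01 τ n ≥ c n / 10 ^ 4 - τ n`; the left side is at most
   `2 (κ n + 2) + 2 (4 τ n + 1) + n (4 τ n + 1) / (c n / 400 - 1) ≤ 10 τ n + 3300 τ n / c < c n / 10 ^ 5`.
 * `ex`: `expand2` with `q0 = 2 J / Q / 4`, `S = (S1 + (e0 + t1)) + (S2 + (f0 + t2)) ≤ c n / 300`,
   `T = 14 n (e0 + t1) + 14 n (f0 + t2) ≤ 900 τ n²`; `hT`: `900 τ n² + 8 n < ε² c² n² / 3200 ≤ q0 lam n²`;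
   `hR1`: `D + S ≤ ε n / 32 + c n / 300 ≤ ε n / 16 - 5 ρ n ≤ J r Δ - 5 ρ n ≤ dg R v` (`J r ≥ ε/8`).
 * `K1 + K2 ≥ N1 + N2 - n (e0 + f0) / ζ0 - 1 ≥ (1 - J r) Δ - τ n ≥ (1 - 3ε/16) Δ - τ n ≥ (1 - ε/4) Δ`;
   `K1 + K2 ≤ N1 + N2 ≤ (1 - J r) Δ + 15 ρ n + 2 ≤ (1 - 3ε/16 + r) Δ + 15 ρ n + 2 ≤ (1 - ε/8) Δ`.
 * `#Z ≥ (1/2 - c) n - ρ n > (1/2 - 2 c) n + u`, `#Z ≤ (1/2 - c + c/100) n`.
-/

set_option autoImplicit false

namespace Pool.Agent.H71.DX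

open Finset Classical
open Pool.Agent.H71.DN

theorem nmb_basics (ε c τ κ ρ n : ℝ) (hε : 0 < ε) (hε1 : ε ≤ 1 / 4) (hc : 0 < c)
    (hcε : 16 * c ≤ ε) (hτ : τ = ε ^ 2 * c ^ 2 / 10 ^ 9) (hκ : κ = τ ^ 2 / 1000)
    (hρ : ρ = τ ^ 2 * c / 10 ^ 6) (hn : 1000 ≤ ρ * n) :
    0 < n ∧ 0 < τ ∧ 0 < κ ∧ 0 < ρ ∧ 64000 * (ρ * n) ≤ κ * n ∧ 10 ^ 12 * (κ * n) ≤ τ * n ∧
      10 ^ 12 * (τ * n) ≤ c * n ∧ 16 * (c * n) ≤ ε * n ∧ 4 * (ε * n) ≤ n ∧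
      (τ * n) * (τ * n) = 1000 * (n * (κ * n)) ∧
      16 * 10 ^ 9 * (n * (τ * n)) ≤ (c * n) * (c * n) ∧
      10 ^ 8 * (n * (ρ * n)) ≤ (τ * n) * (c * n) ∧
      (ε * n) * (ε * n) * (c * c) = 10 ^ 9 * (n * (τ * n)) := by
  have hc64 : c ≤ 1 / 64 := by linarith
  have hτ0 : 0 < τ := by rw [hτ]; positivity
  have hκ0 : 0 < κ := by rw [hκ]; positivity
  have hρ0 : 0 < ρ := by rw [hρ]; positivity
  have hn0 : 0 < n := by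
    by_contra h
    push Not at h
    have : ρ * n ≤ 0 := mul_nonpos_of_nonneg_of_nonpos hρ0.le h
    linarith
  have hε2 : ε ^ 2 ≤ 1 / 16 := by nlinarith
  have hτc : 10 ^ 12 * τ ≤ c := by
    rw [hτ]
    have h1 : ε ^ 2 * c ≤ 1 / 16 * (1 / 64) := mul_le_mul hε2 hc64 hc.le (by norm_num)
    have h2 : 10 ^ 12 * (ε ^ 2 * c ^ 2 / 10 ^ 9) = (1000 * (ε ^ 2 * c)) * c := by ring
    rw [h2]
    nlinarith
  have hτ1 : 10 ^ 12 * τ ≤ 1 / 64 := hτc.trans hc64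
  have hκτ : 10 ^ 12 * κ ≤ τ := by
    rw [hκ]
    have h2 : 10 ^ 12 * (τ ^ 2 / 1000) = (10 ^ 9 * τ) * τ := by ring
    rw [h2]
    have : 10 ^ 9 * τ ≤ 1 := by linarith
    nlinarith
  have hρκ : 64000 * ρ ≤ κ := by
    have h2 : ρ = κ * c / 1000 := by rw [hρ, hκ]; ring
    rw [h2]
    have : κ * c ≤ κ * (1 / 64) := mul_le_mul_of_nonneg_left hc64 hκ0.le
    linarith
  refine ⟨hn0, hτ0, hκ0, hρ0, ?_, ?_, ?_, ?_, ?_, ?_, ?_, ?_, ?_⟩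
  · nlinarith
  · nlinarith
  · nlinarith
  · nlinarith
  · nlinarith
  · rw [hκ]; ring
  · have h1 : 16 * 10 ^ 9 * τ ≤ c ^ 2 := by
      rw [hτ]
      have h2 : 16 * 10 ^ 9 * (ε ^ 2 * c ^ 2 / 10 ^ 9) = (16 * ε ^ 2) * c ^ 2 := by ring
      rw [h2]
      have h3 : 0 ≤ c ^ 2 := by positivity
      nlinarith
    have h2 : 0 ≤ n * n := by positivity
    have h3 := mul_le_mul_of_nonneg_right h1 h2
    calc 16 * 10 ^ 9 * (n * (τ * n)) = 16 * 10 ^ 9 * τ * (n * n) := by ring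
      _ ≤ c ^ 2 * (n * n) := h3
      _ = (c * n) * (c * n) := by ring
  · have h1 : 10 ^ 8 * ρ ≤ τ * c := by
      rw [hρ]
      have h2 : 10 ^ 8 * (τ ^ 2 * c / 10 ^ 6) = (100 * τ) * (τ * c) := by ring
      rw [h2]
      have h3 : 0 ≤ τ * c := by positivity
      have h4 : 100 * τ ≤ 1 := by linarith
      nlinarith
    have h2 : 0 ≤ n * n := by positivity
    have h3 := mul_le_mul_of_nonneg_right h1 h2
    calc 10 ^ 8 * (n * (ρ * n)) = 10 ^ 8 * ρ * (n * n) := by ring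
      _ ≤ τ * c * (n * n) := h3
      _ = (τ * n) * (c * n) := by ring
  · rw [hτ]; ring

theorem nmb_div (N e z : ℕ) (w t x : ℝ) (hw : 0 < w) (_ht : 0 < t) (hz : w / 400 ≤ z)
    (he : (e : ℝ) ≤ 22 * x) (hxw : 10 ^ 8 * (N * x) ≤ t * w) :
    ((N * e / z : ℕ) : ℝ) ≤ t / 100 := by
  have h1 : (N * e / z) * z ≤ N * e := Nat.div_mul_le_self _ _
  have h2 : (((N * e / z : ℕ) : ℝ)) * z ≤ N * e := by exact_mod_cast h1
  set g : ℝ := ((N * e / z : ℕ) : ℝ) with hg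
  have hg0 : 0 ≤ g := Nat.cast_nonneg _
  have hN0 : (0 : ℝ) ≤ N := Nat.cast_nonneg _
  have h3 : g * (w / 400) ≤ g * z := mul_le_mul_of_nonneg_left hz hg0
  have h4 : (N : ℝ) * e ≤ N * (22 * x) := mul_le_mul_of_nonneg_left he hN0
  have h5 : g * w ≤ (t / 100) * w := by nlinarith
  exact le_of_mul_le_mul_right h5 hw

theorem nmb_nums (N ζ0 β m q D s dS S1 e0 f0 : ℕ) (w y x k t : ℝ)
    (hx : 1000 ≤ x) (hxk : 64000 * x ≤ k) (hkt : 10 ^ 12 * k ≤ t) (htw : 10 ^ 12 * t ≤ w)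
    (hwy : 16 * w ≤ y) (hyn : 4 * y ≤ N) (htt : t * t = 1000 * (N * k))
    (hww : 16 * 10 ^ 9 * (N * t) ≤ w * w) (hxw : 10 ^ 8 * (N * x) ≤ t * w)
    (hζ1 : w / 400 ≤ ζ0) (hζ2 : (ζ0 : ℝ) ≤ w / 400 + 1)
    (hβ1 : w / 150 ≤ β) (hβ2 : (β : ℝ) ≤ w / 150 + 1)
    (hm2 : (m : ℝ) ≤ w / 50 + 1)
    (hq1 : w / 8 ≤ q + 1) (hD1 : y / 32 ≤ D + 1) (hD2 : (D : ℝ) ≤ y / 32)
    (_hs1 : k ≤ s) (hs2 : (s : ℝ) ≤ k + 2)
    (hd1 : 4 * t ≤ dS) (hd2 : (dS : ℝ) ≤ 4 * t + 1)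
    (hS1 : t ≤ S1) (hS2 : (S1 : ℝ) ≤ t + 1)
    (he2 : (e0 : ℝ) ≤ 21 * x + 3) (hf2 : (f0 : ℝ) ≤ 10 * x + 3) :
    β + 2 * β + 3 * m ≤ D ∧ β + 2 * β + 4 * m ≤ q ∧ s + S1 ≤ β ∧ s + ζ0 + ζ0 ≤ β ∧
      ζ0 + s + ζ0 ≤ β ∧ 14 * (N * (e0 + 12 * s)) ≤ S1 * S1 ∧
      14 * (N * (f0 + 12 * (s + dS))) ≤ ζ0 * ζ0 ∧
      N * e0 / ζ0 + s + 12 * s + (S1 + (e0 + 12 * s)) ≤ dS ∧ 2 ≤ ζ0 ∧
      ((N * e0 / ζ0 : ℕ) : ℝ) ≤ t / 100 ∧ ((N * f0 / ζ0 : ℕ) : ℝ) ≤ t / 100 ∧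
      ((2 * s + 2 * dS + N * dS / (ζ0 - 1) : ℕ) : ℝ) < w / 10 ^ 5 ∧
      ((14 * (N * (e0 + 12 * s)) + 14 * (N * (f0 + 12 * (s + dS))) : ℕ) : ℝ) + 8 * N ≤
        801 * (N * t) ∧
      ((D + ((S1 + (e0 + 12 * s)) + (ζ0 + (f0 + 12 * (s + dS)))) : ℕ) : ℝ) ≤
        y / 32 + w / 300 := by
  have hx0 : 0 < x := by linarith
  have hk0 : 0 < k := by linarith
  have ht0 : 0 < t := by linarith
  have hw0 : 0 < w := by linarith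
  have hN0 : (0 : ℝ) ≤ N := Nat.cast_nonneg _
  have he22 : (e0 : ℝ) ≤ 22 * x := by linarith
  have hf22 : (f0 : ℝ) ≤ 22 * x := by linarith
  have hE1 := nmb_div N e0 ζ0 w t x hw0 ht0 hζ1 he22 hxw
  have hE2 := nmb_div N f0 ζ0 w t x hw0 ht0 hζ1 hf22 hxw
  have hA : (e0 : ℝ) + 12 * s ≤ 13 * k := by linarith
  have hB : (f0 : ℝ) + 12 * (s + dS) ≤ 50 * t := by linarith
  have hNA : (N : ℝ) * (e0 + 12 * s) ≤ N * (13 * k) := mul_le_mul_of_nonneg_left hA hN0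
  have hNB : (N : ℝ) * (f0 + 12 * (s + dS)) ≤ N * (50 * t) := mul_le_mul_of_nonneg_left hB hN0
  have hNk : (N : ℝ) * k ≤ N * t / 10 ^ 12 := by
    have : k ≤ t / 10 ^ 12 := by linarith
    calc (N : ℝ) * k ≤ N * (t / 10 ^ 12) := mul_le_mul_of_nonneg_left this hN0
      _ = N * t / 10 ^ 12 := by ring
  have hNt0 : (0 : ℝ) ≤ N * t := by positivity
  have hNk0 : (0 : ℝ) ≤ N * k := by positivity
  refine ⟨?_, ?_, ?_, ?_, ?_, ?_, ?_, ?_, ?_, hE1, hE2, ?_, ?_, ?_⟩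
  · have : ((β + 2 * β + 3 * m : ℕ) : ℝ) ≤ (D : ℕ) := by push_cast; linarith
    exact_mod_cast this
  · have : ((β + 2 * β + 4 * m : ℕ) : ℝ) ≤ (q : ℕ) := by push_cast; linarith
    exact_mod_cast this
  · have : ((s + S1 : ℕ) : ℝ) ≤ (β : ℕ) := by push_cast; linarith
    exact_mod_cast this
  · have : ((s + ζ0 + ζ0 : ℕ) : ℝ) ≤ (β : ℕ) := by push_cast; linarith
    exact_mod_cast this
  · have : ((ζ0 + s + ζ0 : ℕ) : ℝ) ≤ (β : ℕ) := by push_cast; linarith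
    exact_mod_cast this
  · have h1 : t * t ≤ (S1 : ℝ) * S1 := mul_le_mul hS1 hS1 ht0.le (ht0.le.trans hS1)
    have : ((14 * (N * (e0 + 12 * s)) : ℕ) : ℝ) ≤ ((S1 * S1 : ℕ) : ℝ) := by
      push_cast; linarith
    exact_mod_cast this
  · have h0 : 0 ≤ w / 400 := by positivity
    have h1 : w / 400 * (w / 400) ≤ (ζ0 : ℝ) * ζ0 := mul_le_mul hζ1 hζ1 h0 (h0.trans hζ1)
    have h2 : w / 400 * (w / 400) = w * w / 160000 := by ring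
    have : ((14 * (N * (f0 + 12 * (s + dS))) : ℕ) : ℝ) ≤ ((ζ0 * ζ0 : ℕ) : ℝ) := by
      push_cast; linarith
    exact_mod_cast this
  · have : ((N * e0 / ζ0 + s + 12 * s + (S1 + (e0 + 12 * s)) : ℕ) : ℝ) ≤ (dS : ℕ) := by
      rw [Nat.cast_add, Nat.cast_add, Nat.cast_add]
      push_cast at hE1 ⊢
      linarith
    exact_mod_cast this
  · have : ((2 : ℕ) : ℝ) ≤ (ζ0 : ℕ) := by push_cast; linarith
    exact_mod_cast this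
  · have h2 : 2 ≤ ζ0 := by
      have : ((2 : ℕ) : ℝ) ≤ (ζ0 : ℕ) := by push_cast; linarith
      exact_mod_cast this
    have hz : ((ζ0 - 1 : ℕ) : ℝ) = ζ0 - 1 := by
      rw [Nat.cast_sub (by omega)]; norm_num
    have hz1 : w / 800 ≤ ((ζ0 - 1 : ℕ) : ℝ) := by rw [hz]; linarith
    have h3 : (N * dS / (ζ0 - 1)) * (ζ0 - 1) ≤ N * dS := Nat.div_mul_le_self _ _
    have h4 : ((N * dS / (ζ0 - 1) : ℕ) : ℝ) * ((ζ0 - 1 : ℕ) : ℝ) ≤ N * dS := by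
      exact_mod_cast h3
    set g : ℝ := ((N * dS / (ζ0 - 1) : ℕ) : ℝ) with hg
    have hg0 : 0 ≤ g := Nat.cast_nonneg _
    have h5 : g * (w / 800) ≤ g * ((ζ0 - 1 : ℕ) : ℝ) := mul_le_mul_of_nonneg_left hz1 hg0
    have h6 : (N : ℝ) * dS ≤ N * (5 * t) := mul_le_mul_of_nonneg_left (by linarith) hN0
    have h7 : g * w ≤ (w / 10 ^ 6) * w := by nlinarith
    have h8 : g ≤ w / 10 ^ 6 := le_of_mul_le_mul_right h7 hw0
    rw [Nat.cast_add, ← hg]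
    push_cast
    linarith
  · push_cast
    have h1 : (8 : ℝ) * N ≤ N * t / 100 := by
      have : (8 : ℝ) ≤ t / 100 := by linarith
      calc (8 : ℝ) * N ≤ (t / 100) * N := mul_le_mul_of_nonneg_right this hN0
        _ = N * t / 100 := by ring
    linarith
  · push_cast
    linarith

theorem params2 (ε : ℝ) (hε : 0 < ε) (hε1 : ε ≤ 1 / 4) :
    ∃ (c κ ρ : ℝ) (n0 : ℕ), 0 < c ∧ 16 * c ≤ ε ∧ 0 < κ ∧ 0 < ρ ∧
      ∀ (V : Type) [Fintype V] (G : SimpleGraph V) (Δ : ℕ), n0 ≤ Fintype.card V →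
        (∀ v, (1 / 2 + ε) * Fintype.card V ≤ dg G v) →
        (∀ v, dg G v ≤ Δ ∧ (Δ : ℝ) ≤ dg G v + ρ * Fintype.card V) → Δ ≤ Fintype.card V →
        ∃ (R H : SimpleGraph V) (Z : Finset V)
          (K1 K2 ζ0 e0 e1 f0 f1 u s t1 t2 D m b1 b2 q ζ β S1 c1 S2 c2 dS cap : ℕ)
          (ν1 ν2 : ℕ → V → V),
          Par2 G R H Z K1 K2 ζ0 e0 e1 f0 f1 u s t1 t2 D m b1 b2 q ζ β S1 c1 S2 c2 dS cap ν1 ν2 ∧
          (1 - ε / 4) * Δ ≤ ((K1 + K2 : ℕ) : ℝ) ∧ ((K1 + K2 : ℕ) : ℝ) ≤ (1 - ε / 8) * Δ ∧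
          κ * Fintype.card V + 1 ≤ u ∧ κ * Fintype.card V + 1 ≤ s ∧
          (1 / 2 - 2 * c) * Fintype.card V + u < Z.card := by
  obtain ⟨M, Q, J, c, r, hM32, hJ1, hQ, hc, hr, hcε, hr1, hr2, hJr1, hJr2, hq0⟩ := MQJ ε hε hε1
  have hM0 : (0 : ℝ) < M := by
    have : 0 < M := by omega
    exact_mod_cast this
  have hc0 : 0 < c := by rw [hc]; positivity
  have hM2 : 2 ≤ M := by omega
  have hQJ : J * (M + 1) ≤ Q := le_trans (Nat.mul_le_mul_right _ (Nat.le_succ J)) hQ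
  have hQ0 : 0 < Q := lt_of_lt_of_le (by positivity) hQ
  have hQ1 : 1 * (M + 1) ≤ Q := le_trans (Nat.mul_le_mul_right _ (Nat.le_add_left 1 J)) hQ
  have hz : ((M : ℝ) - 1) / (2 * M) = 1 / 2 - c := by rw [hc]; field_simp
  obtain ⟨τ, hτ⟩ : ∃ τ : ℝ, τ = ε ^ 2 * c ^ 2 / 10 ^ 9 := ⟨_, rfl⟩
  obtain ⟨κ, hκ⟩ : ∃ κ : ℝ, κ = τ ^ 2 / 1000 := ⟨_, rfl⟩
  obtain ⟨ρ, hρ⟩ : ∃ ρ : ℝ, ρ = τ ^ 2 * c / 10 ^ 6 := ⟨_, rfl⟩
  obtain ⟨lam, hlam⟩ : ∃ lam : ℝ, lam = c * ε / 200 := ⟨_, rfl⟩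
  have hτ0 : 0 < τ := by rw [hτ]; positivity
  have hκ0 : 0 < κ := by rw [hκ]; positivity
  have hρ0 : 0 < ρ := by rw [hρ]; positivity
  have hlam0 : 0 < lam := by rw [hlam]; positivity
  obtain ⟨nZ, hnZ⟩ := rndZ M hM2 ρ hρ0
  obtain ⟨nR, hnR⟩ := rndR M Q J hM2 hJ1 hQ ρ lam hρ0 hlam0
  obtain ⟨nF, hnF⟩ := fact12 κ hκ0
  refine ⟨c, κ, ρ, max (max nZ nR) (max nF ⌈1000 / ρ⌉₊), hc0, hcε, hκ0, hρ0, ?_⟩
  intro V _ G Δ hn hd hΔ hΔn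
  have hn1 : nZ ≤ Fintype.card V := le_trans (le_trans (le_max_left _ _) (le_max_left _ _)) hn
  have hn2 : nR ≤ Fintype.card V := le_trans (le_trans (le_max_right _ _) (le_max_left _ _)) hn
  have hn3 : nF ≤ Fintype.card V := le_trans (le_trans (le_max_left _ _) (le_max_right _ _)) hn
  have hn4 : ⌈1000 / ρ⌉₊ ≤ Fintype.card V :=
    le_trans (le_trans (le_max_right _ _) (le_max_right _ _)) hn
  have hn5 : 1000 ≤ ρ * Fintype.card V := by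
    have h1 : 1000 / ρ ≤ Fintype.card V := le_trans (Nat.le_ceil _) (by exact_mod_cast hn4)
    rw [div_le_iff₀ hρ0] at h1
    linarith
  obtain ⟨Z, hZ1, hZ2⟩ := hnZ V G hn1
  obtain ⟨R, H, hR, hH, hRH, hdR, hdH, hee⟩ := hnR V G Z hn2
  have hmR := meanb G Z M Q J Δ hM2 hQJ hQ0 ρ ρ hZ2 hΔ
  have hmH := meanb G Z M Q 1 Δ hM2 hQ1 hQ0 ρ ρ hZ2 hΔ
  rw [hz] at hZ1 hZ2
  rw [← hr] at hmR hmH
  rw [Nat.cast_one, one_mul] at hmH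
  set N : ℕ := Fintype.card V with hN
  obtain ⟨hN0, -, -, -, hxk, hkt, htw, hwy, hyn, htt, hww, hxw, hyy⟩ :=
    nmb_basics ε c τ κ ρ N hε hε1 hc0 hcε hτ hκ hρ hn5
  obtain ⟨x, hx⟩ : ∃ x : ℝ, x = ρ * N := ⟨_, rfl⟩
  obtain ⟨k, hk⟩ : ∃ k : ℝ, k = κ * N := ⟨_, rfl⟩
  obtain ⟨t, ht⟩ : ∃ t : ℝ, t = τ * N := ⟨_, rfl⟩
  obtain ⟨w, hw⟩ : ∃ w : ℝ, w = c * N := ⟨_, rfl⟩
  obtain ⟨y, hy⟩ : ∃ y : ℝ, y = ε * N := ⟨_, rfl⟩
  rw [← hx, ← hk] at hxk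
  rw [← hk, ← ht] at hkt
  rw [← ht, ← hw] at htw
  rw [← hw, ← hy] at hwy
  rw [← hy] at hyn
  rw [← hk, ← ht] at htt
  rw [← ht, ← hw] at hww
  rw [← hx, ← ht, ← hw] at hxw
  rw [← ht, ← hy] at hyy
  rw [← hx] at hn5
  have hx0 : 0 < x := by linarith
  have hk0 : 0 < k := by linarith
  have ht0 : 0 < t := by linarith
  have hw0 : 0 < w := by linarith
  have hy0 : 0 < y := by linarith
  -- degrees of `R` and `H`
  have hdR5 : ∀ v, |(dg R v : ℝ) - J * r * Δ| ≤ 5 * x := by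
    intro v
    have h1 := hdR v
    have h2 := hmR v
    have h3 := abs_sub_le (dg R v : ℝ) (mean G Z M Q J v) (J * r * Δ)
    rw [hx]
    linarith
  have hdH5 : ∀ v, |(dg H v : ℝ) - r * Δ| ≤ 5 * x := by
    intro v
    have h1 := hdH v
    have h2 := hmH v
    have h3 := abs_sub_le (dg H v : ℝ) (mean G Z M Q 1 v) (r * Δ)
    rw [hx]
    linarith
  have hgz : gz G Z ≤ G := fun a b h => h.1
  have hsum := fun v => nmb_dg G R H (hR.trans hgz) (hH.trans hgz) hRH v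
  have hd0 := fun v => nmb_deg _ _ _ _ Δ (J * r * Δ) (r * Δ) x (hsum v) (hdR5 v) (hdH5 v)
    (hΔ v).1 (by rw [hx]; exact (hΔ v).2)
  -- bounds for `Δ`
  have hΔ2 : (Δ : ℝ) ≤ N := by exact_mod_cast hΔn
  have hΔ1 : (N : ℝ) / 2 ≤ Δ := by
    have hNpos : 0 < Fintype.card V := by
      rw [← hN]; exact_mod_cast hN0
    obtain ⟨v⟩ := Fintype.card_pos_iff.1 hNpos
    have h1 := hd v
    have h2 : (dg G v : ℝ) ≤ Δ := by exact_mod_cast (hΔ v).1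
    have h3 : 0 < ε * N := by positivity
    linarith
  have hr0 : 0 < r := lt_of_lt_of_le (by positivity) hr1
  have hrΔ1 : w / 10 ^ 4 ≤ r * Δ := by
    have h1 : c / 5000 * (N / 2) ≤ r * Δ := mul_le_mul hr1 hΔ1 (by positivity) hr0.le
    rw [hw]
    linarith
  have hrΔ2 : r * Δ ≤ 4 * w / 5000 := by
    have h1 : r * Δ ≤ 4 * c / 5000 * N := mul_le_mul hr2 hΔ2 (by positivity) (by positivity)
    rw [hw]
    linarith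
  have hJrΔ1 : 3 / 16 * (ε * Δ) - r * Δ ≤ J * r * Δ := by
    have h1 : (3 * ε / 16 - r) * Δ ≤ J * r * Δ :=
      mul_le_mul_of_nonneg_right hJr1.le (by positivity)
    linarith
  have hJrΔ2 : J * r * Δ ≤ 3 / 16 * (ε * Δ) := by
    have h1 : J * r * Δ ≤ 3 * ε / 16 * Δ := mul_le_mul_of_nonneg_right hJr2 (by positivity)
    linarith
  have hεΔ1 : y / 2 ≤ ε * Δ := by
    have h1 : ε * (N / 2) ≤ ε * Δ := mul_le_mul_of_nonneg_left hΔ1 hε.le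
    rw [hy]; linarith
  have hεΔ2 : ε * Δ ≤ y := by
    have h1 : ε * Δ ≤ ε * N := mul_le_mul_of_nonneg_left hΔ2 hε.le
    rw [hy]; linarith
  -- the parameters
  obtain ⟨ζ0, hζ1, hζ2⟩ := nmb_ceil (w / 400) (by positivity)
  obtain ⟨β, hβ1, hβ2⟩ := nmb_ceil (w / 150) (by positivity)
  obtain ⟨m, hm1, hm2⟩ := nmb_ceil (w / 50) (by positivity)
  obtain ⟨q, hq1, hq2⟩ := nmb_floor (w / 8) (by positivity)
  obtain ⟨D, hD1, hD2⟩ := nmb_floor (y / 32) (by positivity)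
  obtain ⟨b1, hb11, hb12⟩ := nmb_floor ((1 / 4 + ε / 4) * N) (by positivity)
  obtain ⟨b2, hb21, hb22⟩ := nmb_floor ((1 / 2 + c / 2) * N) (by positivity)
  obtain ⟨s', hs1, hs2⟩ := nmb_ceil k (by positivity)
  obtain ⟨s, hs⟩ : ∃ s : ℕ, s = s' + 1 := ⟨_, rfl⟩
  have hsr : (s : ℝ) = s' + 1 := by rw [hs]; push_cast; ring
  obtain ⟨dS, hdS1, hdS2⟩ := nmb_ceil (4 * t) (by positivity)
  obtain ⟨S1, hS11, hS12⟩ := nmb_ceil t (by positivity)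
  obtain ⟨e', he1, he2⟩ := nmb_ceil (21 * x) (by positivity)
  obtain ⟨e0, he0⟩ : ∃ e0 : ℕ, e0 = e' + 2 := ⟨_, rfl⟩
  have her : (e0 : ℝ) = e' + 2 := by rw [he0]; push_cast; ring
  obtain ⟨f', hf1, hf2⟩ := nmb_ceil (10 * x) (by positivity)
  obtain ⟨f0, hf0⟩ : ∃ f0 : ℕ, f0 = f' + 2 := ⟨_, rfl⟩
  have hfr : (f0 : ℝ) = f' + 2 := by rw [hf0]; push_cast; ring
  obtain ⟨p1, p2, p3, p4, p5, p6, p7, p8, p9, p10, p11, p12, p13, p14⟩ :=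
    nmb_nums N ζ0 β m q D s dS S1 e0 f0 w y x k t hn5 hxk hkt htw hwy hyn htt hww hxw
      hζ1 hζ2 hβ1 hβ2 hm2 hq2.le hD2.le hD1 (by linarith) (by linarith) hdS1 hdS2 hS11 hS12
      (by linarith) (by linarith)
  -- the first family
  obtain ⟨n1, hn11, hn12⟩ := nmb_floor (Δ - J * r * Δ - r * Δ + 10 * x) (by linarith)
  obtain ⟨K1, ν1, hK1, hK1', hν1⟩ := natf (G \ (R ⊔ H)) (n1 + 1) ζ0 e0 (by omega)
    (by
      intro v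
      have h1 : ((dg (G \ (R ⊔ H)) v : ℕ) : ℝ) < ((n1 + 1 : ℕ) : ℝ) := by
        push_cast
        linarith [(hd0 v).1]
      have h2 : dg (G \ (R ⊔ H)) v < n1 + 1 := by exact_mod_cast h1
      omega)
    (by
      intro v
      have h1 : ((n1 + 1 : ℕ) : ℝ) ≤ ((dg (G \ (R ⊔ H)) v + e0 : ℕ) : ℝ) := by
        push_cast
        linarith [(hd0 v).2]
      exact_mod_cast h1)
  -- the second family
  obtain ⟨n2, hn21, hn22⟩ := nmb_floor (r * Δ + 5 * x) (by positivity)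
  obtain ⟨K2, ν2, hK2, hK2', hν2⟩ := natf H (n2 + 1) ζ0 f0 (by omega)
    (by
      intro v
      have h0 := abs_le.1 (hdH5 v)
      have h1 : ((dg H v : ℕ) : ℝ) < ((n2 + 1 : ℕ) : ℝ) := by
        push_cast
        linarith [h0.1, h0.2]
      have h2 : dg H v < n2 + 1 := by exact_mod_cast h1
      omega)
    (by
      intro v
      have h0 := abs_le.1 (hdH5 v)
      have h1 : ((n2 + 1 : ℕ) : ℝ) ≤ ((dg H v + f0 : ℕ) : ℝ) := by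
        push_cast
        linarith [h0.1, h0.2]
      exact_mod_cast h1)
  rw [← hN] at hK1' hν1 hK2' hν2
  have hK1r : ((n1 : ℝ) + 1) ≤ K1 + t / 100 := by
    have h1 : ((n1 + 1 : ℕ) : ℝ) ≤ ((K1 + N * e0 / ζ0 : ℕ) : ℝ) := Nat.cast_le.2 hK1'
    rw [Nat.cast_add K1, Nat.cast_add n1, Nat.cast_one] at h1
    linarith
  have hK2r : ((n2 : ℝ) + 1) ≤ K2 + t / 100 := by
    have h1 : ((n2 + 1 : ℕ) : ℝ) ≤ ((K2 + N * f0 / ζ0 : ℕ) : ℝ) := Nat.cast_le.2 hK2'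
    rw [Nat.cast_add K2, Nat.cast_add n2, Nat.cast_one] at h1
    linarith
  have hK1s : (K1 : ℝ) ≤ n1 + 1 := by exact_mod_cast hK1
  have hK2s : (K2 : ℝ) ≤ n2 + 1 := by exact_mod_cast hK2
  refine ⟨R, H, Z, K1, K2, ζ0, e0, N * e0 / ζ0, f0, N * f0 / ζ0, s, s, 12 * s, 12 * (s + dS),
    D, m, b1, b2, q, β, β, S1, S1, ζ0, ζ0, dS, ζ0, ν1, ν2, ?_, ?_, ?_, ?_, ?_, ?_⟩
  · refine ⟨hR, hH, hRH, hν1, hν2, ?_, ?_, ?_, ?_, p1, p2, p3, p4, p5, p6, p7, p8, p9, ?_, ?_⟩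
    · exact hnF _ s hn3 (by rw [← hk]; linarith)
    · exact hnF _ (s + dS) hn3 (by
        rw [← hk]; push_cast
        have : (0 : ℝ) ≤ dS := Nat.cast_nonneg _
        linarith)
    · have h1 : ((0 : ℕ) : ℝ) < S1 := by push_cast; linarith
      exact_mod_cast h1
    · omega
    · have h1 : ((2 * s + 2 * dS + N * dS / (ζ0 - 1) : ℕ) : ℝ) < (K2 : ℕ) := by
        refine lt_trans p12 ?_
        linarith
      exact_mod_cast h1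
    · intro F hF hF1 hF2
      refine expand2 G R F Z ε c (2 * J / Q / 4) lam D m b1 b2 q _ _ hε1 hc0 hcε
        ?_ hd ?_ ?_ ?_ hee hF1 hF2 hlam.le ?_ ?_ hb11 hb12.le hb21 hb22.le ?_
      · rw [← hN, ← hw]; linarith
      · have h1 := abs_le.1 hZ1
        rw [← hN]
        have h2 : (1 / 2 - c + c / 100) * (N : ℝ) = (1 / 2 - c) * N + w / 100 := by
          rw [hw]; ring
        rw [h2]
        rw [← hx] at h1
        linarith [h1.1, h1.2]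
      · intro v
        refine le_trans (hZ2 v) ?_
        rw [← hN, ← hx]
        have h2 : c / 100 * (N : ℝ) = w / 100 := by rw [hw]; ring
        rw [h2]
        linarith
      · intro v
        have h0 := abs_le.1 (hdR5 v)
        have h1 : ((D + ((S1 + (e0 + 12 * s)) + (ζ0 + (f0 + 12 * (s + dS)))) : ℕ) : ℝ) ≤
            (dg R v : ℕ) := by
          refine le_trans p14 ?_
          linarith [h0.1, h0.2]
        exact_mod_cast h1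
      · rw [← hN]
        refine lt_of_le_of_lt p13 ?_
        have h1 : ε * c / 16 * (lam * (N : ℝ) ^ 2) ≤ 2 * (J : ℝ) / Q / 4 * (lam * (N : ℝ) ^ 2) :=
          mul_le_mul_of_nonneg_right hq0 (by positivity)
        refine lt_of_lt_of_le ?_ h1
        have h2 : ε * c / 16 * (lam * (N : ℝ) ^ 2) = y * y * (c * c) / 3200 := by
          rw [hlam, hy]; ring
        rw [h2, hyy]
        have h3 : 0 < (N : ℝ) * t := by positivity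
        linarith
      · rw [← hN]
        have h2 : c / 50 * (N : ℝ) = w / 50 := by rw [hw]; ring
        rw [h2]; exact hm1
      · rw [← hN]
        have h2 : c / 8 * (N : ℝ) = w / 8 := by rw [hw]; ring
        rw [h2]; exact hq1
  · push_cast; linarith
  · push_cast; linarith
  · rw [← hk]; linarith
  · rw [← hk]; linarith
  · have h1 := abs_le.1 hZ1
    rw [← hx] at h1
    have h2 : (1 / 2 - 2 * c) * (N : ℝ) = (1 / 2 - c) * N - w := by rw [hw]; ring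
    rw [h2]
    linarith [h1.1, h1.2]

end Pool.Agent.H71.DX
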