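import Mathlib
import Pool.Agent.H71.DX.Cr2
import Pool.Agent.H71.DX.Nmb

/-!
The core theorem for nearly regular dense graphs, with one miss for every vertex.
-/

set_option autoImplicit false

namespace Pool.Agent.H71.DX

open Finset Classical
open Pool.Agent.H71.DN

theorem core2 (ε : ℝ) (hε : 0 < ε) (hε1 : ε ≤ 1 / 4) :
    ∃ (c κ ρ : ℝ) (n0 : ℕ), 0 < c ∧ 16 * c ≤ ε ∧ 0 < κ ∧ 0 < ρ ∧
      ∀ (V : Type) [Fintype V] (G : SimpleGraph V) (Δ : ℕ), n0 ≤ Fintype.card V →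
        (∀ v, (1 / 2 + ε) * Fintype.card V ≤ dg G v) →
        (∀ v, dg G v ≤ Δ ∧ (Δ : ℝ) ≤ dg G v + ρ * Fintype.card V) → Δ ≤ Fintype.card V →
        ∃ L : ℕ, (1 - ε / 4) * Δ ≤ (L : ℝ) ∧ (L : ℝ) ≤ (1 - ε / 8) * Δ ∧
          ∀ U : ℕ → Finset V, (∀ ℓ < L, ((U ℓ).card : ℝ) ≤ κ * Fintype.card V) →
            (∀ v, (mul L U v : ℝ) ≤ κ * Fintype.card V) →
            ((((range L).filter fun ℓ => ¬ Even (univ \ U ℓ).card).card : ℝ) ≤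
              (1 / 2 - 2 * c) * Fintype.card V) →
            ∃ mm : ℕ → V → V, Cnc G L U mm := by
  obtain ⟨c, κ, ρ, n0, hc, hc1, hκ, hρ, h⟩ := params2 ε hε hε1
  refine ⟨c, κ, ρ, n0, hc, hc1, hκ, hρ, ?_⟩
  intro V _ G Δ hn hd hreg hΔ
  obtain ⟨R, H, Z, K1, K2, ζ0, e0, e1, f0, f1, u, s, t1, t2, D, m, b1, b2, q, ζ, β, S1, c1, S2,
    c2, dS, cap, ν1, ν2, hP, hL1, hL2, hu, hs, hZ⟩ := h V G Δ hn hd hreg hΔ
  refine ⟨K1 + K2, hL1, hL2, ?_⟩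
  intro U hU hm hw
  refine cr2 G R H Z K1 K2 ζ0 e0 e1 f0 f1 u s t1 t2 D m b1 b2 q ζ β S1 c1 S2 c2 dS cap ν1 ν2 hP
    U ?_ ?_ ?_
  · intro ℓ hℓ
    have h1 := hU ℓ hℓ
    have h2 : (((U ℓ).card + 1 : ℕ) : ℝ) ≤ u := by
      push_cast
      linarith
    exact_mod_cast h2
  · intro v
    have h1 := hm v
    have h2 : ((mul (K1 + K2) U v + 1 : ℕ) : ℝ) ≤ s := by
      push_cast
      linarith
    exact_mod_cast h2
  · have h2 : ((((range (K1 + K2)).filter fun ℓ => ¬ Even (univ \ U ℓ).card).card + u : ℕ) : ℝ)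
        < Z.card := by
      push_cast
      linarith
    exact_mod_cast h2

end Pool.Agent.H71.DX
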