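import Mathlib

/-!
LYN: which labels carry one vertex (`Y1`) and which carry two (`Y2`); the number of labels of wrong
parity.

`B` is the set of the labels `ℓ < L` whose window `{m : |m - ℓ| < p}` should contain an odd number of
elements of `Y1`. `rb` bounds the number of boundaries of `B`. `M0` pairs are available, `n1` vertices.

Proof.  `y := #B - w0` (natural subtraction), `q := min M0 ((n1 - y) / 2)`, `k' := r + (n1 - q)`. (`y ≤ n1`: if
`y > 0` then `2 y + 2 w0 ≤ 2 L ≤ n1 + 2 w0`.) `Y` := the `y` smallest elements of `B' := {ℓ ∈ B : r ≤ ℓ}`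
(`#B' ≥ #B - r ≥ #B - w0 = y`).
Claim: `Y ⊆ [r, k')`. If `y > 0`: let `M = max Y`. The elements of `[r, M]` are those of `Y` and elements not
in `B`, of which there are at most `L - #B` (`M < L`): `M + 1 - r ≤ y + (L - #B)`. And
`k' - r = n1 - q ≥ (n1 + y) / 2`; `y + L - #B ≤ (n1 + y) / 2` because
`2 L + y - 2 #B = 2 L - w0 - #B ≤ 2 L - 2 w0 ≤ n1` (`#B = w0 + y`). So `M < k'`.
`Y2` := the `q` smallest elements of `[r, k') ∖ Y` (it has `n1 - q - y ≥ q` elements as `2 q ≤ n1 - y`),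
`Y1 := [r, k') ∖ Y2 ⊇ Y`. So `#Y2 = q ≤ M0`, `#Y1 = n1 - 2 q`, `k' = r + #Y1 + #Y2`.
There is `e` with `Y2 = [r, e) ∖ Y` and `Y1 = Y ∪ [e, k')` (`e` = 1 + the largest element of `Y2`, or `r`).
`#(Y1 ∖ Y) = n1 - 2 q - y ≤ (n1 - 2 M0) + 1`.
Bound of `k'`: `n1 - q = max (n1 - M0) (n1 - (n1 - y) / 2)`, so `2 k' ≤ 2 r + max (2 n1 - 2 M0) (n1 + y + 1)`.
Wrong labels: `ℓ < L` with `¬ (ℓ ∈ B ↔ Odd O_ℓ)`, `O_ℓ = #{m ∈ Y1 : ℓ < m + p ∧ m < ℓ + p}`. Let
`W_ℓ = [ℓ + 1 - p, ℓ + p - 1]`.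
 (1) `ℓ < p`: at most `p` labels.
 (2) `ℓ ≥ p`, `W_ℓ ⊆ Y1`: `O_ℓ = 2 p - 1` is odd, so wrong means `ℓ ∉ B`; but `ℓ ∈ Y1`: `ℓ ∈ Y1 ∖ Y`.
 (3) `W_ℓ ∩ Y1 = ∅`: `O_ℓ = 0`, wrong means `ℓ ∈ B`, `ℓ ∉ Y1`, so `ℓ ∈ B ∖ Y`: at most `#B - y ≤ w0` labels.
 (4) otherwise there is `j ∈ W_ℓ` with `j + 1 ∈ W_ℓ` and `¬ (j ∈ Y1 ↔ j + 1 ∈ Y1)` (a boundary of `Y1`); each
   boundary `j` serves at most `2 p` labels `ℓ`. Boundaries of `Y1 = Y ∪ [e, k')`: a boundary of `Y`, or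
   `j + 1 ∈ {e, k'}`. Boundaries of `Y = B ∩ [r, M + 1)`: a boundary of `B` (with `j < L`), or
   `j + 1 ∈ {r, M + 1}`. So at most `rb + 4` boundaries.
 Total `≤ p + (n1 - 2 M0 + 1) + w0 + 2 p (rb + 4)`.
-/

set_option autoImplicit false

namespace Pool.Agent.H71.DX

open Finset Classical

private theorem LyN_ivt (S : Finset ℕ) (y : ℕ) (hy : y ≤ S.card) :
    ∃ t, (S.filter fun m => m < t).card = y ∧ (0 < y → 1 ≤ t ∧ t - 1 ∈ S) := by
  induction y with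
  | zero => exact ⟨0, by simp, fun h => absurd h (lt_irrefl _)⟩
  | succ y ih =>
    obtain ⟨t, h1, -⟩ := ih (by omega)
    have h2 : (S.filter fun m => ¬ m < t).Nonempty := by
      rw [← card_pos]
      have h3 := S.card_filter_add_card_filter_not (fun m => m < t)
      omega
    obtain ⟨m, hm, hmin⟩ := (S.filter fun m => ¬ m < t).exists_minimal h2
    rw [mem_filter, not_lt] at hm
    refine ⟨m + 1, ?_, fun _ => ⟨by omega, by rw [Nat.add_sub_cancel]; exact hm.1⟩⟩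
    have h4 : (S.filter fun x => x < m + 1) = insert m (S.filter fun x => x < t) := by
      ext x
      simp only [mem_filter, mem_insert]
      constructor
      · rintro ⟨hx, hx1⟩
        by_cases hxt : x < t
        · exact Or.inr ⟨hx, hxt⟩
        · left
          have := hmin (mem_filter.2 ⟨hx, hxt⟩) (by omega)
          omega
      · rintro (rfl | ⟨hx, hx1⟩)
        · exact ⟨hm.1, by omega⟩
        · exact ⟨hx, by omega⟩
    rw [h4, card_insert_of_notMem, h1]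
    rw [mem_filter]
    omega

private theorem LyN_conn (Y1 : Finset ℕ) (a b : ℕ) (h : ∀ j, a ≤ j → j + 1 ≤ b → (j ∈ Y1 ↔ j + 1 ∈ Y1)) :
    ∀ i, a + i ≤ b → (a + i ∈ Y1 ↔ a ∈ Y1) := by
  intro i
  induction i with
  | zero => intro _; simp
  | succ i ih =>
    intro hi
    have h1 := ih (by omega)
    have h2 := h (a + i) (by omega) (by omega)
    rw [← h1, ← add_assoc]
    exact h2.symm

private theorem LyN_wrong (L p : ℕ) (B Y1 Y Bd : Finset ℕ) (hp : 1 ≤ p) (hYB : Y ⊆ B) (hY1 : Y ⊆ Y1)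
    (hBd : ∀ j, ¬ (j ∈ Y1 ↔ j + 1 ∈ Y1) → j ∈ Bd) :
    ((range L).filter fun ℓ =>
        ¬ (ℓ ∈ B ↔ Odd (Y1.filter fun m => ℓ < m + p ∧ m < ℓ + p).card)).card ≤
      (B \ Y).card + (Y1 \ Y).card + p + 2 * p * Bd.card := by
  have hsub : ((range L).filter fun ℓ =>
        ¬ (ℓ ∈ B ↔ Odd (Y1.filter fun m => ℓ < m + p ∧ m < ℓ + p).card)) ⊆
      ((B \ Y) ∪ (Y1 \ Y) ∪ range p) ∪ Bd.biUnion (fun j => Ico (j + 2 - p) (j + p)) := by
    intro ℓ hℓ
    rw [mem_filter] at hℓ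
    obtain ⟨-, hw⟩ := hℓ
    rw [mem_union, mem_union, mem_union]
    by_cases h1 : ℓ < p
    · exact Or.inl (Or.inr (mem_range.2 h1))
    push Not at h1
    by_cases hA : ∀ m ∈ Ico (ℓ + 1 - p) (ℓ + p), m ∈ Y1
    · left; left; right
      have e1 : (Y1.filter fun m => ℓ < m + p ∧ m < ℓ + p) = Ico (ℓ + 1 - p) (ℓ + p) := by
        ext m
        rw [mem_filter, mem_Ico]
        constructor
        · rintro ⟨-, h2, h3⟩
          omega
        · rintro ⟨h2, h3⟩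
          exact ⟨hA m (mem_Ico.2 ⟨h2, h3⟩), by omega, h3⟩
      have e2 : Odd (Y1.filter fun m => ℓ < m + p ∧ m < ℓ + p).card := by
        rw [e1, Nat.card_Ico]
        exact ⟨p - 1, by omega⟩
      have e3 : ℓ ∉ B := fun h => hw ⟨fun _ => e2, fun _ => h⟩
      rw [mem_sdiff]
      exact ⟨hA ℓ (mem_Ico.2 ⟨by omega, by omega⟩), fun h => e3 (hYB h)⟩
    by_cases hN : ∀ m ∈ Ico (ℓ + 1 - p) (ℓ + p), m ∉ Y1
    · left; left; left
      have e1 : (Y1.filter fun m => ℓ < m + p ∧ m < ℓ + p) = ∅ := by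
        rw [filter_eq_empty_iff]
        rintro m hm ⟨h2, h3⟩
        exact hN m (mem_Ico.2 ⟨by omega, h3⟩) hm
      have e2 : ¬ Odd (Y1.filter fun m => ℓ < m + p ∧ m < ℓ + p).card := by
        rw [e1, card_empty]
        decide
      have e3 : ℓ ∈ B := by
        by_contra h
        exact hw ⟨fun h' => absurd h' h, fun h' => absurd h' e2⟩
      rw [mem_sdiff]
      exact ⟨e3, fun h => hN ℓ (mem_Ico.2 ⟨by omega, by omega⟩) (hY1 h)⟩
    right
    push Not at hA hN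
    obtain ⟨m1, hm1, hm1'⟩ := hA
    obtain ⟨m2, hm2, hm2'⟩ := hN
    rw [mem_Ico] at hm1 hm2
    by_contra hcon
    have hno : ∀ j, ℓ + 1 - p ≤ j → j + 1 ≤ ℓ + p - 1 → (j ∈ Y1 ↔ j + 1 ∈ Y1) := by
      intro j hj1 hj2
      by_contra hj
      apply hcon
      rw [mem_biUnion]
      exact ⟨j, hBd j hj, mem_Ico.2 ⟨by omega, by omega⟩⟩
    have c1 := LyN_conn Y1 (ℓ + 1 - p) (ℓ + p - 1) hno (m1 - (ℓ + 1 - p)) (by omega)
    have c2 := LyN_conn Y1 (ℓ + 1 - p) (ℓ + p - 1) hno (m2 - (ℓ + 1 - p)) (by omega)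
    rw [show ℓ + 1 - p + (m1 - (ℓ + 1 - p)) = m1 by omega] at c1
    rw [show ℓ + 1 - p + (m2 - (ℓ + 1 - p)) = m2 by omega] at c2
    exact hm1' (c1.2 (c2.1 hm2'))
  refine (card_le_card hsub).trans ?_
  refine (card_union_le _ _).trans ?_
  refine add_le_add ((card_union_le _ _).trans (add_le_add (card_union_le _ _) (by rw [card_range]))) ?_
  refine card_biUnion_le.trans ?_
  calc ∑ j ∈ Bd, (Ico (j + 2 - p) (j + p)).card ≤ ∑ _j ∈ Bd, 2 * p := sum_le_sum fun j _ => by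
        rw [Nat.card_Ico]; omega
    _ = 2 * p * Bd.card := by rw [sum_const, smul_eq_mul, mul_comm]

private theorem LyN_bd (r t e k' L : ℕ) (B Y1 : Finset ℕ) (hB : B ⊆ range L) (rb : ℕ)
    (hbd : ((range L).filter fun j => ¬ (j ∈ B ↔ j + 1 ∈ B)).card ≤ rb)
    (hY1 : ∀ m, m ∈ Y1 ↔ r ≤ m ∧ m < k' ∧ (e ≤ m ∨ (m ∈ B ∧ m < t))) :
    ∃ Bd : Finset ℕ, (∀ j, ¬ (j ∈ Y1 ↔ j + 1 ∈ Y1) → j ∈ Bd) ∧ Bd.card ≤ rb + 4 := by
  refine ⟨((range L).filter fun j => ¬ (j ∈ B ↔ j + 1 ∈ B)) ∪ {r - 1, t - 1, e - 1, k' - 1}, ?_, ?_⟩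
  · intro j hj
    rw [mem_union]
    by_cases h1 : j + 1 = r
    · right; simp; omega
    by_cases h2 : j + 1 = t
    · right; simp; omega
    by_cases h3 : j + 1 = e
    · right; simp; omega
    by_cases h4 : j + 1 = k'
    · right; simp; omega
    left
    rw [mem_filter, mem_range]
    have h5 : ¬ (j ∈ B ↔ j + 1 ∈ B) := by
      intro h
      apply hj
      rw [hY1, hY1, ← h]
      have g1 : r ≤ j ↔ r ≤ j + 1 := by omega
      have g2 : j < k' ↔ j + 1 < k' := by omega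
      have g3 : e ≤ j ↔ e ≤ j + 1 := by omega
      have g4 : j < t ↔ j + 1 < t := by omega
      rw [g1, g2, g3, g4]
    refine ⟨?_, h5⟩
    by_contra h6
    apply h5
    constructor
    · intro h
      exact absurd (mem_range.1 (hB h)) h6
    · intro h
      have := mem_range.1 (hB h)
      omega
  · refine (card_union_le _ _).trans (add_le_add hbd ?_)
    exact card_le_four

theorem lyN (n1 r L p M0 w0 rb : ℕ) (B : Finset ℕ) (hp : 1 ≤ p) (hB : B ⊆ range L)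
    (hbd : ((range L).filter fun j => ¬ (j ∈ B ↔ j + 1 ∈ B)).card ≤ rb)
    (hM : 2 * M0 ≤ n1) (hr : r ≤ w0) (hL : 2 * L ≤ n1 + 2 * w0) :
    ∃ (Y1 Y2 : Finset ℕ) (k' : ℕ), Disjoint Y1 Y2 ∧ (∀ m ∈ Y1 ∪ Y2, r ≤ m ∧ m < k') ∧
      Y2.card ≤ M0 ∧ Y1.card + 2 * Y2.card = n1 ∧ k' = r + Y1.card + Y2.card ∧
      2 * k' ≤ 2 * r + max (2 * n1 - 2 * M0) (n1 + (B.card - w0) + 1) ∧
      ((range L).filter fun ℓ =>
        ¬ (ℓ ∈ B ↔ Odd (Y1.filter fun m => ℓ < m + p ∧ m < ℓ + p).card)).card ≤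
        w0 + (n1 - 2 * M0 + 1) + p + 2 * p * (rb + 4) := by
  set y := B.card - w0 with hy
  have hBL : B.card ≤ L := by
    have := card_le_card hB
    rwa [card_range] at this
  set B' := B.filter (fun m => r ≤ m) with hB'
  have hcB' : y ≤ B'.card := by
    have h1 := B.card_filter_add_card_filter_not (fun m => r ≤ m)
    have h2 : (B.filter fun m => ¬ r ≤ m) ⊆ range r := by
      intro m hm
      rw [mem_filter, not_le] at hm
      exact mem_range.2 hm.2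
    have h3 := card_le_card h2
    rw [card_range] at h3
    rw [hB']
    omega
  obtain ⟨t, ht, ht1⟩ := LyN_ivt B' y hcB'
  set Y := B'.filter (fun m => m < t) with hY
  have memY : ∀ m, m ∈ Y ↔ m ∈ B ∧ r ≤ m ∧ m < t := by
    intro m
    rw [hY, mem_filter, hB', mem_filter, and_assoc]
  have hy2 : 2 * y ≤ n1 := by omega
  set q := min M0 ((n1 - y) / 2) with hq
  have hqM : q ≤ M0 := min_le_left _ _
  have hqy : 2 * q ≤ n1 - y := by
    have := min_le_right M0 ((n1 - y) / 2)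
    omega
  have hq1 : q = M0 ∨ n1 - y ≤ 2 * q + 1 := by
    rcases min_choice M0 ((n1 - y) / 2) with h | h
    · left; rw [hq, h]
    · right; rw [hq, h]; omega
  set k' := r + (n1 - q) with hk'
  have htk : 0 < y → t ≤ k' := by
    intro hy0
    obtain ⟨ht2, hm⟩ := ht1 hy0
    rw [hB', mem_filter] at hm
    have hmL := mem_range.1 (hB hm.1)
    have h1 : Ico r t ⊆ Y ∪ (range L \ B) := by
      intro x hx
      rw [mem_Ico] at hx
      rw [mem_union, memY, mem_sdiff, mem_range]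
      by_cases hxB : x ∈ B
      · exact Or.inl ⟨hxB, hx.1, hx.2⟩
      · exact Or.inr ⟨by omega, hxB⟩
    have h2 := (card_le_card h1).trans (card_union_le _ _)
    rw [Nat.card_Ico, card_sdiff_of_subset hB, card_range, ht] at h2
    omega
  have hYk : Y ⊆ Ico r k' := by
    intro m hm
    have hm' := (memY m).1 hm
    have hy0 : 0 < y := by
      rw [← ht]
      exact card_pos.2 ⟨m, hm⟩
    rw [mem_Ico]
    exact ⟨hm'.2.1, lt_of_lt_of_le hm'.2.2 (htk hy0)⟩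
  set W := Ico r k' \ Y with hW
  have hWc : W.card = n1 - q - y := by
    rw [hW, card_sdiff_of_subset hYk, Nat.card_Ico, ht]
    omega
  obtain ⟨e, he, -⟩ := LyN_ivt W q (by omega)
  set Y2 := W.filter (fun m => m < e) with hY2
  have memY2 : ∀ m, m ∈ Y2 ↔ ((r ≤ m ∧ m < k') ∧ m ∉ Y) ∧ m < e := by
    intro m
    rw [hY2, mem_filter, hW, mem_sdiff, mem_Ico]
  have hY2s : Y2 ⊆ Ico r k' := by
    intro m hm
    rw [mem_Ico]
    exact ((memY2 m).1 hm).1.1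
  set Y1 := Ico r k' \ Y2 with hY1
  have memY1 : ∀ m, m ∈ Y1 ↔ r ≤ m ∧ m < k' ∧ (e ≤ m ∨ (m ∈ B ∧ m < t)) := by
    intro m
    rw [hY1, mem_sdiff, mem_Ico, memY2, memY]
    constructor
    · rintro ⟨⟨h1, h2⟩, h3⟩
      refine ⟨h1, h2, ?_⟩
      by_contra h4
      rw [not_or, not_le] at h4
      exact h3 ⟨⟨⟨h1, h2⟩, fun h5 => h4.2 ⟨h5.1, h5.2.2⟩⟩, h4.1⟩
    · rintro ⟨h1, h2, h3⟩
      refine ⟨⟨h1, h2⟩, ?_⟩
      rintro ⟨⟨-, h4⟩, h5⟩
      rcases h3 with h3 | h3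
      · omega
      · exact h4 ⟨h3.1, h1, h3.2⟩
  have hY1c : Y1.card = n1 - 2 * q := by
    rw [hY1, card_sdiff_of_subset hY2s, Nat.card_Ico, he]
    omega
  have hYY1 : Y ⊆ Y1 := by
    intro m hm
    have h1 := (memY m).1 hm
    have h2 := mem_Ico.1 (hYk hm)
    rw [memY1]
    exact ⟨h2.1, h2.2, Or.inr ⟨h1.1, h1.2.2⟩⟩
  have hYB : Y ⊆ B := fun m hm => ((memY m).1 hm).1
  refine ⟨Y1, Y2, k', ?_, ?_, ?_, ?_, ?_, ?_, ?_⟩
  · rw [hY1]; exact sdiff_disjoint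
  · intro m hm
    rw [mem_union] at hm
    rcases hm with hm | hm
    · have := (memY1 m).1 hm
      exact ⟨this.1, this.2.1⟩
    · exact ((memY2 m).1 hm).1.1
  · rw [he]; exact hqM
  · rw [hY1c, he]; omega
  · rw [hY1c, he, hk']; omega
  · rcases hq1 with h | h
    · refine le_trans ?_ (Nat.add_le_add_left (le_max_left _ _) _)
      rw [hk']; omega
    · refine le_trans ?_ (Nat.add_le_add_left (le_max_right _ _) _)
      rw [hk']; omega
  · obtain ⟨Bd, hBd, hBdc⟩ := LyN_bd r t e k' L B Y1 hB rb hbd memY1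
    refine (LyN_wrong L p B Y1 Y Bd hp hYB hYY1 hBd).trans ?_
    have c1 : (B \ Y).card ≤ w0 := by
      rw [card_sdiff_of_subset hYB, ht]; omega
    have c2 : (Y1 \ Y).card ≤ n1 - 2 * M0 + 1 := by
      rw [card_sdiff_of_subset hYY1, ht, hY1c]
      omega
    have c3 : 2 * p * Bd.card ≤ 2 * p * (rb + 4) := Nat.mul_le_mul_left _ hBdc
    omega

end Pool.Agent.H71.DX
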