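import Mathlib
import Pool.Agent.H71.DX.GluA

/-!
WND: the labels of the vertices (`Lo` gets the labels `0, ..., r - 1`, `r = #Lo`, one each; the other vertices have
labels `c1 v ≥ r`, twice each label of `Y2`, once each label of `Y1`), and the sizes of the windows.

`lab`: `c v := if v ∈ Lo then (index of v in Lo) else c1 ⟨v, _⟩`, the index being a bijection of `Lo` with
`range Lo.card` (`Lo.equivFin`).

`wpar`: `#{v : V1 | c v in the window of ℓ} = Σ_{m ∈ Y1 ∪ Y2, |m - ℓ| < p} #{v : V1 | c1 v = m}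
 = #(Y1 ∩ window) + 2 #(Y2 ∩ window)`.
`wcard`: the window consists of at most `2 p - 1` labels, each label is used at most twice outside `Lo`:
 at most `2 (2 p - 1)` vertices outside `Lo`, and at most `#Lo` vertices of `Lo`.
-/

set_option autoImplicit false

namespace Pool.Agent.H71.DX

open Finset Classical
open Pool.Agent.H71.DN

theorem lab {V : Type} [Fintype V] (G : SimpleGraph V) (Lo : Finset V) (Y : Finset ℕ) (k' : ℕ)
    (hY : ∀ m ∈ Y, Lo.card ≤ m ∧ m < k') (hk : Lo.card ≤ k') (c1 : {v // v ∉ Lo} → ℕ)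
    (h1 : ∀ v, c1 v ∈ Y) (h2 : ∀ u v : {v // v ∉ Lo}, c1 u = c1 v → ¬ G.Adj u.1 v.1) :
    ∃ c : V → ℕ, (∀ v, c v < k') ∧ (∀ u v, G.Adj u v → c u ≠ c v) ∧ (∀ v ∈ Lo, c v < Lo.card) ∧
      ∀ v : {v // v ∉ Lo}, c v.1 = c1 v := by
  obtain ⟨c, hc⟩ : ∃ c : V → ℕ, ∀ v, c v =
      if h : v ∈ Lo then (Lo.equivFin ⟨v, h⟩ : ℕ) else c1 ⟨v, h⟩ := ⟨_, fun _ => rfl⟩
  have hcL : ∀ v (h : v ∈ Lo), c v = (Lo.equivFin ⟨v, h⟩ : ℕ) := fun v h => by rw [hc, dif_pos h]
  have hcN : ∀ v (h : v ∉ Lo), c v = c1 ⟨v, h⟩ := fun v h => by rw [hc, dif_neg h]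
  have hL : ∀ v ∈ Lo, c v < Lo.card := fun v h => by
    rw [hcL v h]
    exact (Lo.equivFin ⟨v, h⟩).2
  have hN : ∀ v, v ∉ Lo → Lo.card ≤ c v ∧ c v < k' := fun v h => by
    rw [hcN v h]
    exact hY _ (h1 _)
  refine ⟨c, ?_, ?_, hL, fun v => hcN v.1 v.2⟩
  · intro v
    by_cases h : v ∈ Lo
    · exact lt_of_lt_of_le (hL v h) hk
    · exact (hN v h).2
  · intro u v huv he
    by_cases hu : u ∈ Lo
    · by_cases hv : v ∈ Lo
      · rw [hcL u hu, hcL v hv] at he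
        have h3 := Lo.equivFin.injective (Fin.ext he)
        exact huv.ne (congrArg Subtype.val h3)
      · have a := hL u hu
        have b := (hN v hv).1
        omega
    · by_cases hv : v ∈ Lo
      · have a := hL v hv
        have b := (hN u hu).1
        omega
      · rw [hcN u hu, hcN v hv] at he
        exact h2 _ _ he huv

theorem wpar {V : Type} [Fintype V] (Lo : Finset V) (Y1 Y2 : Finset ℕ) (hd : Disjoint Y1 Y2)
    (c1 : {v // v ∉ Lo} → ℕ) (h1 : ∀ v, c1 v ∈ Y1 ∪ Y2)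
    (h2 : ∀ m ∈ Y2, (univ.filter fun v => c1 v = m).card = 2)
    (h3 : ∀ m ∈ Y1, (univ.filter fun v => c1 v = m).card = 1) (c : V → ℕ)
    (hc : ∀ v : {v // v ∉ Lo}, c v.1 = c1 v) (p ℓ : ℕ) :
    (univ.filter fun v : {v // v ∉ Lo} => v.1 ∈ Wn c p ℓ).card =
      (Y1.filter fun m => ℓ < m + p ∧ m < ℓ + p).card +
        2 * (Y2.filter fun m => ℓ < m + p ∧ m < ℓ + p).card := by
  have hw : ∀ v : {v // v ∉ Lo}, v.1 ∈ Wn c p ℓ ↔ ℓ < c1 v + p ∧ c1 v < ℓ + p := by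
    intro v
    unfold Wn
    rw [Finset.mem_filter, hc v]
    constructor
    · rintro ⟨-, a, b⟩
      exact ⟨b, a⟩
    · rintro ⟨a, b⟩
      exact ⟨Finset.mem_univ _, b, a⟩
  have h4 := Finset.card_eq_sum_card_fiberwise (f := c1)
    (s := univ.filter fun v : {v // v ∉ Lo} => v.1 ∈ Wn c p ℓ)
    (t := (Y1 ∪ Y2).filter fun m => ℓ < m + p ∧ m < ℓ + p) (by
      intro v hv
      have hv2 := (Finset.mem_filter.1 (Finset.mem_coe.1 hv)).2
      exact Finset.mem_coe.2 (Finset.mem_filter.2 ⟨h1 v, (hw v).1 hv2⟩))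
  rw [h4, Finset.filter_union, Finset.sum_union (Finset.disjoint_filter_filter hd)]
  have h5 : ∀ m, (ℓ < m + p ∧ m < ℓ + p) →
      ((univ.filter fun v : {v // v ∉ Lo} => v.1 ∈ Wn c p ℓ).filter fun v => c1 v = m).card =
      (univ.filter fun v => c1 v = m).card := by
    intro m hm
    refine congrArg Finset.card ?_
    ext v
    rw [Finset.mem_filter, Finset.mem_filter, Finset.mem_filter, hw v]
    constructor
    · rintro ⟨⟨a, -⟩, b⟩
      exact ⟨a, b⟩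
    · rintro ⟨a, b⟩
      rw [b]
      exact ⟨⟨a, hm⟩, rfl⟩
  refine congrArg₂ (fun x y => x + y) ?_ ?_
  · rw [Finset.sum_congr rfl fun m hm => (h5 m (Finset.mem_filter.1 hm).2).trans
      (h3 m (Finset.mem_filter.1 hm).1), Finset.sum_const, smul_eq_mul, mul_one]
  · rw [Finset.sum_congr rfl fun m hm => (h5 m (Finset.mem_filter.1 hm).2).trans
      (h2 m (Finset.mem_filter.1 hm).1), Finset.sum_const, smul_eq_mul, mul_comm]

theorem wcard {V : Type} [Fintype V] (Lo : Finset V) (Y1 Y2 : Finset ℕ) (hd : Disjoint Y1 Y2)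
    (c1 : {v // v ∉ Lo} → ℕ) (h1 : ∀ v, c1 v ∈ Y1 ∪ Y2)
    (h2 : ∀ m ∈ Y2, (univ.filter fun v => c1 v = m).card = 2)
    (h3 : ∀ m ∈ Y1, (univ.filter fun v => c1 v = m).card = 1) (c : V → ℕ)
    (hc : ∀ v : {v // v ∉ Lo}, c v.1 = c1 v) (p ℓ : ℕ) :
    (Wn c p ℓ).card ≤ 4 * p + Lo.card := by
  have h4 := wpar Lo Y1 Y2 hd c1 h1 h2 h3 c hc p ℓ
  have h5 : (Wn c p ℓ) ⊆ ((univ.filter fun v : {v // v ∉ Lo} => v.1 ∈ Wn c p ℓ).image
      Subtype.val) ∪ Lo := by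
    intro v hv
    rw [Finset.mem_union]
    by_cases h : v ∈ Lo
    · exact Or.inr h
    · exact Or.inl (Finset.mem_image.2 ⟨⟨v, h⟩, Finset.mem_filter.2 ⟨Finset.mem_univ _, hv⟩, rfl⟩)
  have h6 : (Y1.filter fun m => ℓ < m + p ∧ m < ℓ + p).card +
      (Y2.filter fun m => ℓ < m + p ∧ m < ℓ + p).card ≤ 2 * p := by
    rw [← Finset.card_union_of_disjoint (Finset.disjoint_filter_filter hd), ← Finset.filter_union]
    have h7 : ((Y1 ∪ Y2).filter fun m => ℓ < m + p ∧ m < ℓ + p) ⊆ Finset.Ico (ℓ + 1 - p) (ℓ + p) := by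
      intro m hm
      have h8 := (Finset.mem_filter.1 hm).2
      rw [Finset.mem_Ico]
      omega
    refine (Finset.card_le_card h7).trans ?_
    rw [Nat.card_Ico]
    omega
  have h7 := (Finset.card_le_card h5).trans (Finset.card_union_le _ _)
  have h8 := Finset.card_image_le (s := univ.filter fun v : {v // v ∉ Lo} => v.1 ∈ Wn c p ℓ)
    (f := Subtype.val)
  omega

end Pool.Agent.H71.DX
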