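import Mathlib
import Pool.Agent.H71.DX.Glu
import Pool.Agent.H71.DX.LyN
import Pool.Agent.H71.DX.LyV
import Pool.Agent.H71.DX.Mtc
import Pool.Agent.H71.DX.Wnd

/-!
OUT: from the core theorem on the vertices outside `Lo` to a labelling.
-/

set_option autoImplicit false

namespace Pool.Agent.H71.DX

open Finset Classical
open Pool.Agent.H71.DN

theorem outer {V : Type} [Fintype V] (G : SimpleGraph V) (Δ p L M0 w0 w1 κ1 n1 : ℕ) (hp : 1 ≤ p)
    (Lo : Finset V) (hΔ : ∀ v, dg G v ≤ Δ) (hn1 : n1 = Fintype.card {v // v ∉ Lo})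
    (π : {v // v ∉ Lo} → {v // v ∉ Lo}) (hπ : Inv π)
    (hπ2 : ∀ v, π v ≠ v → ¬ G.Adj v.1 (π v).1)
    (hM : 2 * M0 ≤ (univ.filter fun v => π v ≠ v).card) (hr : Lo.card ≤ w0)
    (hL : 2 * L ≤ n1 + 2 * w0)
    (hk : 2 * Lo.card + max (2 * n1 - 2 * M0) (n1 + (L - w0) + 1) + 2 * p ≤ 2 * L + 2)
    (hLΔ : L + 1 + 2 * p + 3 * Lo.card ≤ Δ) (hdeg : ∀ v, 4 * p + 3 * Lo.card ≤ dg G v)
    (hLo : ∀ x ∈ Lo, dg G x + Lo.card ≤ Δ)
    (hw1 : w0 + (n1 - 2 * M0 + 1) + p + 2 * p * (Lo.card + 1 + 4) ≤ w1)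
    (hκ : 4 * p + 2 * Lo.card ≤ κ1)
    (hcore : ∀ U : ℕ → Finset {v // v ∉ Lo}, (∀ ℓ < L, (U ℓ).card ≤ κ1) →
      (∀ v, mul L U v ≤ κ1) →
      ((range L).filter fun ℓ => ¬ Even (univ \ U ℓ).card).card ≤ w1 →
      ∃ mm, Cnc (G.comap (fun v : {v // v ∉ Lo} => v.1)) L U mm) :
    H70.HY.HYLab G Δ p := by
  obtain ⟨sx, hsx⟩ : ∃ sx : V → ℕ, ∀ x, sx x = Δ + 2 * p - 1 - dg G x := ⟨_, fun _ => rfl⟩
  obtain ⟨B, hB⟩ : ∃ B : Finset ℕ, ∀ ℓ, ℓ ∈ B ↔
      ℓ < L ∧ ¬ Even (n1 + (Lo.filter fun x => sx x ≤ ℓ).card) :=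
    ⟨(range L).filter fun ℓ => ¬ Even (n1 + (Lo.filter fun x => sx x ≤ ℓ).card), fun ℓ => by
      simp only [mem_filter, mem_range]⟩
  have hBL : B ⊆ range L := fun ℓ hℓ => by
    rw [mem_range]
    exact ((hB ℓ).1 hℓ).1
  have hBc : B.card ≤ L := by
    have h1 := card_le_card hBL
    rwa [card_range] at h1
  have hMn : 2 * M0 ≤ n1 := hM.trans (by rw [hn1]; exact card_le_univ _)
  obtain ⟨Y1, Y2, k', hY, hYk, hY2, hYs, hk', hk2, hw⟩ :=
    lyN n1 Lo.card L p M0 w0 (Lo.card + 1) B hp hBL (bdB Lo sx n1 L B hB) hMn hr hL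
  obtain ⟨c1, hc1, hc2, hc3, hc4⟩ := lyV π hπ Y1 Y2 hY (by
    refine le_trans (show 2 * Y2.card ≤ 2 * M0 by omega) (hM.trans (card_le_card ?_))
    intro v hv
    simp only [mem_filter, mem_univ, true_and] at hv ⊢
    exact hv) (by rw [hYs, hn1])
  obtain ⟨c, hck, hcp, hcl, hcc⟩ := lab G Lo (Y1 ∪ Y2) k' hYk (by omega) c1 hc1 (by
    intro u v huv
    rcases hc4 u v huv with h | ⟨h1, h2⟩
    · rw [h]
      exact G.irrefl
    · have h3 := hπ2 u (by rw [h2]; exact fun h => h1 h.symm)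
      rwa [h2] at h3)
  have hWc : ∀ ℓ, (Wn c p ℓ).card ≤ 4 * p + Lo.card := fun ℓ =>
    wcard Lo Y1 Y2 hY c1 hc1 hc2 hc3 c hcc p ℓ
  obtain ⟨f, hf1, hf2, hf3⟩ := lwp G Lo L (4 * p + Lo.card) sx (Wn c p) (fun ℓ _ => hWc ℓ) (by
    intro x hx
    have h1 := hdeg x
    have h2 := hΔ x
    rw [hsx]
    omega)
  have hf : Fok G Lo sx f c p L := ⟨hf1, hf2, hf3⟩
  have hlk : 2 * k' ≤ 2 * Lo.card + max (2 * n1 - 2 * M0) (n1 + (L - w0) + 1) := by
    refine hk2.trans (Nat.add_le_add_left (max_le_max le_rfl ?_) _)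
    omega
  obtain ⟨mm1, hmm⟩ := hcore (U1 Lo sx f c p) (fun ℓ _ => by
      have h1 := u1_card Lo sx f c p ℓ
      have h2 := hWc ℓ
      omega) (fun v => by
      have h1 := u1_mul G Lo sx f c p L hf v
      omega) (by
      refine le_trans (card_le_card ?_) (hw.trans hw1)
      intro ℓ hℓ
      simp only [mem_filter, mem_range] at hℓ ⊢
      refine ⟨hℓ.1, ?_⟩
      intro h
      apply hℓ.2
      rw [u1_par G Lo sx f c p L hf ℓ hℓ.1, wpar Lo Y1 Y2 hY c1 hc1 hc2 hc3 c hcc p ℓ,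
        ← hn1, ← add_assoc, Nat.even_add]
      rw [hB] at h
      constructor
      · intro _
        exact ⟨_, two_mul _⟩
      · intro _
        rw [Nat.even_add]
        constructor
        · intro h1
          by_contra h2
          exact ((h.2 (Nat.not_even_iff_odd.1 h2)).2) h1
        · intro h1
          by_contra h2
          have h3 := h.1 ⟨hℓ.1, h2⟩
          exact (Nat.not_even_iff_odd.2 h3) h1)
  refine glue G Δ p k' L hp ?_ ?_ c hck hcp Lo sx f hf ?_ ?_ hΔ mm1 hmm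
  · omega
  · omega
  · intro x hx
    have h1 := hcl x hx
    have h2 := hLo x hx
    rw [hsx]
    omega
  · intro x hx
    have h2 := hΔ x
    rw [hsx]
    omega

end Pool.Agent.H71.DX
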