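import Mathlib
import Pool.Agent.H71.DX.CaA
import Pool.Agent.H71.DX.Core2
import Pool.Agent.H71.DX.Out

/-!
MNE: all graphs with `(1/2 + ε) n ≤ δ` and `Δ ≤ (1 - ε) n`, all `p ≥ 1`.
-/

set_option autoImplicit false

namespace Pool.Agent.H71.DX

open Finset Classical
open Pool.Agent.H71.DN

theorem evn (a b : ℝ) (ha : 0 < a) : ∃ N : ℕ, ∀ n : ℕ, N ≤ n → b ≤ a * n := by
  refine ⟨⌈b / a⌉₊, ?_⟩
  intro n hn
  have h1 : b / a ≤ n := (Nat.le_ceil _).trans (by exact_mod_cast hn)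
  rw [div_le_iff₀ ha] at h1
  linarith

theorem cards {V : Type} [Fintype V] (Lo : Finset V) :
    Fintype.card {v // v ∉ Lo} + Lo.card = Fintype.card V := by
  rw [Fintype.card_subtype]
  have h1 := card_filter_add_card_filter_not (s := (univ : Finset V)) (fun v => v ∈ Lo)
  have h2 : univ.filter (fun v => v ∈ Lo) = Lo := by
    ext v
    simp only [mem_filter, mem_univ, true_and]
  rw [h2, card_univ] at h1
  omega

theorem caseII (ε : ℝ) (hε : 0 < ε) (hε1 : ε ≤ 1 / 4) (ρB : ℝ) (hρB : 0 < ρB) :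
    ∃ n0 : ℕ,
      ∀ (V : Type) [Fintype V] (G : SimpleGraph V) [DecidableRel G.Adj] (p : ℕ),
        n0 ≤ Fintype.card V → 1 ≤ p →
        (1 / 2 + ε) * Fintype.card V ≤ G.minDegree →
        (G.maxDegree : ℝ) ≤ (1 - ε) * Fintype.card V →
        ∑ v, min ((G.maxDegree : ℝ) - G.degree v) (ρB * Fintype.card V) < Fintype.card V →
        H70.HY.HYLab G G.maxDegree p := by
  obtain ⟨c, κ, ρ, nc, hc, hc1, hκ, hρ, hcore⟩ := core2 (ε / 2) (by positivity) (by linarith)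
  obtain ⟨ρ', hρ'⟩ : ∃ ρ' : ℝ, ρ' = min (ρ / 2) (min (c * ε / 50) ρB) := ⟨_, rfl⟩
  have hρ'0 : 0 < ρ' := by
    rw [hρ']
    exact lt_min (by positivity) (lt_min (by positivity) hρB)
  have hρ1 : ρ' ≤ ρ / 2 := by rw [hρ']; exact min_le_left _ _
  have hρ2 : ρ' ≤ c * ε / 50 := by
    rw [hρ']; exact (min_le_right _ _).trans (min_le_left _ _)
  have hρ3 : ρ' ≤ ρB := by
    rw [hρ']; exact (min_le_right _ _).trans (min_le_right _ _)
  obtain ⟨R, hR⟩ : ∃ R : ℕ, 1 / ρ' ≤ R := ⟨_, Nat.le_ceil _⟩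
  obtain ⟨κ₂, hκ₂⟩ : ∃ κ₂ : ℝ, κ₂ = min (c / (4 * (2 * R + 11))) (min (κ / 16) (ε / 128)) :=
    ⟨_, rfl⟩
  have hκ₂0 : 0 < κ₂ := by
    rw [hκ₂]
    exact lt_min (by positivity) (lt_min (by positivity) (by positivity))
  have hκ₂1 : κ₂ ≤ c / (4 * (2 * R + 11)) := by rw [hκ₂]; exact min_le_left _ _
  have hκ₂2 : κ₂ ≤ κ / 16 := by
    rw [hκ₂]; exact (min_le_right _ _).trans (min_le_left _ _)
  have hκ₂3 : κ₂ ≤ ε / 128 := by
    rw [hκ₂]; exact (min_le_right _ _).trans (min_le_right _ _)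
  obtain ⟨N0, hN0⟩ := H28.HZ.all κ₂ hκ₂0
  obtain ⟨M2, hM2⟩ := evn (1 / 2) N0 (by norm_num)
  obtain ⟨M3, hM3⟩ := evn (c * ε) (1000 * (R + 2)) (by positivity)
  obtain ⟨M4, hM4⟩ := evn ρ' (R + 1) hρ'0
  obtain ⟨M5, hM5⟩ := evn (κ / 4) (2 * R + 1) (by positivity)
  obtain ⟨M6, hM6⟩ := evn (ρ / 2) (R + ρ * R) (by positivity)
  refine ⟨nc + R + M2 + M3 + M4 + M5 + M6 + 1, ?_⟩
  intro V _ G _ p hn hp hδ hΔ hdef
  have hn2 := hM2 (Fintype.card V) (by omega)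
  have hn3 := hM3 (Fintype.card V) (by omega)
  have hn4 := hM4 (Fintype.card V) (by omega)
  have hn5 := hM5 (Fintype.card V) (by omega)
  have hn6 := hM6 (Fintype.card V) (by omega)
  have hn7 : 1 ≤ Fintype.card V := by omega
  obtain ⟨n, hnn⟩ : ∃ n : ℝ, n = (Fintype.card V : ℝ) := ⟨_, rfl⟩
  have hnpos : 0 < n := by
    rw [hnn]
    exact_mod_cast hn7
  have hεn2 : ∀ v, (1 / 2 + ε) * n ≤ dg G v := by
    intro v
    rw [hnn]
    exact hδ.trans (by exact_mod_cast (dg_bd G v).1)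
  have hδΔ : (G.minDegree : ℝ) ≤ G.maxDegree := by exact_mod_cast G.minDegree_le_maxDegree
  have hΔ2 : (1 / 2 + ε) * n ≤ G.maxDegree := by
    rw [hnn]
    exact hδ.trans hδΔ
  have hεn : 0 < ε * n := by positivity
  have hcn : 0 < c * n := by positivity
  rw [← hnn] at hδ hΔ hdef hn2 hn3 hn4 hn5 hn6
  by_cases hpκ : κ₂ * n < p
  · apply hN0 V G p
    · have h2 : (N0 : ℝ) ≤ G.maxDegree := by linarith
      exact_mod_cast h2
    · have h0 : (G.maxDegree : ℝ) ≤ n := by linarith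
      have h1 : κ₂ * (G.maxDegree : ℝ) ≤ κ₂ * n := mul_le_mul_of_nonneg_left h0 hκ₂0.le
      linarith
  push Not at hpκ
  have hp0 : (1 : ℝ) ≤ p := by exact_mod_cast hp
  -- the low vertices
  obtain ⟨Δ, hΔd⟩ : ∃ Δ, Δ = G.maxDegree := ⟨_, rfl⟩
  rw [← hΔd] at hδΔ hΔ hΔ2 hdef ⊢
  have hdΔ : ∀ v, dg G v ≤ Δ := fun v => by rw [hΔd]; exact (dg_bd G v).2
  obtain ⟨Lo, hLo⟩ : ∃ Lo : Finset V, ∀ v, v ∈ Lo ↔ (dg G v : ℝ) + ρ' * n < Δ :=
    ⟨univ.filter fun v => (dg G v : ℝ) + ρ' * n < Δ, fun v => by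
      simp only [mem_filter, mem_univ, true_and]⟩
  have hLoR : Lo.card ≤ R := by
    have h1 : ∑ v ∈ Lo, ρ' * n ≤ ∑ v, min ((Δ : ℝ) - G.degree v) (ρB * n) := by
      refine le_trans (sum_le_sum (f := fun _ => ρ' * n)
        (g := fun v => min ((Δ : ℝ) - G.degree v) (ρB * n)) ?_)
        (sum_le_sum_of_subset_of_nonneg (subset_univ _) ?_)
      · intro v hv
        have h2 := (hLo v).1 hv
        rw [dg_eq] at h2
        exact le_min (by linarith) (mul_le_mul_of_nonneg_right hρ3 hnpos.le)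
      · intro v _ _
        have h2 := hdΔ v
        rw [dg_eq] at h2
        have h3 : (G.degree v : ℝ) ≤ Δ := by exact_mod_cast h2
        exact le_min (by linarith) (by positivity)
    rw [sum_const, nsmul_eq_mul] at h1
    have h2 : (Lo.card : ℝ) * ρ' * n < 1 * n := by linarith
    have h3 : (Lo.card : ℝ) * ρ' < 1 := lt_of_mul_lt_mul_right h2 hnpos.le
    have h4 : (Lo.card : ℝ) < 1 / ρ' := by rwa [lt_div_iff₀ hρ'0]
    have h5 : (Lo.card : ℝ) < R := h4.trans_le hR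
    exact_mod_cast h5.le
  obtain ⟨r, hr⟩ : ∃ r, r = Lo.card := ⟨_, rfl⟩
  have hrR : (r : ℝ) ≤ R := by rw [hr]; exact_mod_cast hLoR
  have hr0 : (0 : ℝ) ≤ r := Nat.cast_nonneg _
  have hcε : c * ε * n ≤ ε * n / 32 := by
    have h1 : c ≤ 1 / 32 := by linarith
    have h2 : c * (ε * n) ≤ 1 / 32 * (ε * n) := mul_le_mul_of_nonneg_right h1 hεn.le
    linarith
  have hcε2 : c * ε * n ≤ c * n / 4 := by
    have h2 : c * n * ε ≤ c * n * (1 / 4) := mul_le_mul_of_nonneg_left hε1 hcn.le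
    linarith
  have hR0 : (0 : ℝ) ≤ R := Nat.cast_nonneg _
  obtain ⟨n1, hn1⟩ : ∃ n1, n1 = Fintype.card {v // v ∉ Lo} := ⟨_, rfl⟩
  have hn1r : n1 + r = Fintype.card V := by rw [hn1, hr]; exact cards Lo
  have hn1R : (n1 : ℝ) = n - r := by
    have h1 : ((n1 : ℝ)) + r = Fintype.card V := by exact_mod_cast hn1r
    rw [hnn]
    linarith
  obtain ⟨G1, hG1⟩ : ∃ G1, G1 = G.comap (fun v : {v // v ∉ Lo} => v.1) := ⟨_, rfl⟩
  have hdg1 : ∀ v, dg G1 v ≤ dg G v.1 ∧ dg G v.1 ≤ dg G1 v + r := by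
    intro v
    rw [hG1, hr]
    exact dgs G Lo v
  have hdg2 : ∀ v, (dg G1 v : ℝ) ≤ dg G v.1 ∧ (dg G v.1 : ℝ) ≤ dg G1 v + r := fun v =>
    ⟨by exact_mod_cast (hdg1 v).1, by exact_mod_cast (hdg1 v).2⟩
  have hhi : ∀ v : {v // v ∉ Lo}, (Δ : ℝ) ≤ dg G v.1 + ρ' * n := by
    intro v
    have h1 := v.2
    rw [hLo] at h1
    linarith
  have hρn : ρ' * n ≤ ρ / 2 * n := mul_le_mul_of_nonneg_right hρ1 hnpos.le
  have hρn2 : ρ' * n ≤ c * ε / 50 * n := mul_le_mul_of_nonneg_right hρ2 hnpos.le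
  have hρr : ρ * r ≤ ρ * R := mul_le_mul_of_nonneg_left hrR hρ.le
  obtain ⟨L, hL1, hL2, hcr⟩ := hcore {v // v ∉ Lo} G1 Δ (by omega) (by
      intro v
      rw [← hn1, hn1R]
      have h1 := hεn2 v.1
      have h2 := hdg2 v
      have h3 : (1 / 2 + ε / 2) * (n - r) ≤ (1 / 2 + ε / 2) * n :=
        mul_le_mul_of_nonneg_left (by linarith) (by positivity)
      linarith) (by
      intro v
      rw [← hn1, hn1R]
      refine ⟨(hdg1 v).1.trans (hdΔ _), ?_⟩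
      have h1 := hhi v
      have h2 := hdg2 v
      linarith) (by
      rw [← hn1]
      have h1 : (Δ : ℝ) ≤ n1 := by
        rw [hn1R]
        linarith
      exact_mod_cast h1)
  rw [← hn1] at hcr
  rw [hn1R] at hcr
  have hεε : ε * (ε * n) ≤ 1 / 4 * (ε * n) := mul_le_mul_of_nonneg_right hε1 hεn.le
  have hLlo : (1 / 2 + 13 / 16 * ε) * n ≤ L := by
    refine le_trans ?_ hL1
    have h1 : (1 - ε / 2 / 4) * ((1 / 2 + ε) * n) ≤ (1 - ε / 2 / 4) * Δ :=
      mul_le_mul_of_nonneg_left hΔ2 (by linarith)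
    linarith
  have hLhi : (L : ℝ) + ε * n / 32 ≤ Δ := by
    have h1 : ε * n / 32 ≤ ε / 16 * Δ := by
      have h2 : ε / 16 * ((1 / 2 + ε) * n) ≤ ε / 16 * Δ :=
        mul_le_mul_of_nonneg_left hΔ2 (by positivity)
      have h3 : 0 ≤ ε * (ε * n) := by positivity
      linarith
    linarith
  -- the matching of the complement
  obtain ⟨s, hs⟩ : ∃ s : ℕ, s = ⌊ρ' * n⌋₊ := ⟨_, rfl⟩
  have hs1 : (s : ℝ) ≤ ρ' * n := by rw [hs]; exact Nat.floor_le (by positivity)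
  have hs2 : ∀ v : {v // v ∉ Lo}, Δ ≤ dg G v.1 + s := by
    intro v
    have h1 := hhi v
    have h2 : Δ - dg G v.1 ≤ s := by
      rw [hs]
      apply Nat.le_floor
      rw [Nat.cast_sub (hdΔ v.1)]
      linarith
    omega
  have hΔn1 : Δ + 1 ≤ n1 := by
    have h1 : ((Δ + 1 : ℕ) : ℝ) ≤ n1 := by
      rw [hn1R]
      push_cast
      linarith
    exact_mod_cast h1
  obtain ⟨a, ha⟩ : ∃ a, a + 1 + Δ = n1 := ⟨n1 - (Δ + 1), by omega⟩
  obtain ⟨π, hπ1, hπ2, hπ3⟩ := mtch G1ᶜ a (a + s + r) (fun v => by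
      have h1 := dgc G1 v
      have h2 := (hdg1 v).1
      have h3 := hdΔ v.1
      omega) (fun v => by
      have h1 := dgc G1 v
      have h2 := (hdg1 v).2
      have h3 := hs2 v
      omega)
  rw [← hn1] at hπ3
  obtain ⟨M, hM1, hM⟩ : ∃ M, n1 * a ≤ (a + s + r + 1) * M ∧
      M ≤ (univ.filter fun v => π v ≠ v).card := ⟨_, hπ3, card_le_card (by
    intro v hv
    simp only [mem_filter, mem_univ, true_and] at hv ⊢
    exact hv)⟩
  have hMn : M ≤ n1 := hM.trans (by rw [hn1]; exact card_le_univ _)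
  have haR : (a : ℝ) + 1 + Δ = n - r := by
    rw [← hn1R]
    exact_mod_cast ha
  have ha2 : ε * n / 2 ≤ a := by linarith
  have hMR : n - r - M ≤ c * n / 16 := by
    have h1 : (n1 : ℝ) * a ≤ (a + s + r + 1) * M := by exact_mod_cast hM1
    rw [hn1R] at h1
    have hMn' : (M : ℝ) ≤ n - r := by rw [← hn1R]; exact_mod_cast hMn
    have hM0 : (0 : ℝ) ≤ M := Nat.cast_nonneg _
    have h2 : a * (n - r - M) ≤ (s + r + 1) * M := by linarith
    have h3 : (s + r + 1) * (M : ℝ) ≤ (s + r + 1) * n :=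
      mul_le_mul_of_nonneg_left (by linarith) (by positivity)
    have h4 : (ε * n / 2) * (n - r - M) ≤ a * (n - r - M) :=
      mul_le_mul_of_nonneg_right ha2 (by linarith)
    have h5 : n * (ε / 2 * (n - r - M)) ≤ n * (s + r + 1) := by linarith
    have h6 : ε / 2 * (n - r - M) ≤ s + r + 1 := le_of_mul_le_mul_left h5 hnpos
    have h7 : ε / 2 * (n - r - M) ≤ ε / 2 * (c * n / 16) := by linarith
    exact le_of_mul_le_mul_left h7 (by positivity)
  obtain ⟨M0, hM0⟩ : ∃ M0, M0 = M / 2 := ⟨_, rfl⟩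
  have hM0a : 2 * M0 ≤ M := by omega
  have hM0b : M ≤ 2 * M0 + 1 := by omega
  have hM0R : n - r - 2 * M0 ≤ c * n / 16 + 1 := by
    have h1 : (M : ℝ) ≤ 2 * M0 + 1 := by exact_mod_cast hM0b
    linarith
  have hM0n : 2 * M0 ≤ n1 := hM0a.trans hMn
  have hc2 : c ≤ 1 / 32 := by linarith
  have hcn2 : c * n ≤ 1 / 32 * n := mul_le_mul_of_nonneg_right hc2 hnpos.le
  have hcn3 : c * n ≤ 1 / 32 * (ε * n) := by
    have h1 : c ≤ ε / 32 := by linarith
    have h2 := mul_le_mul_of_nonneg_right h1 hnpos.le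
    linarith
  obtain ⟨w0, hw0⟩ : ∃ w0 : ℕ, w0 = ⌊(1 / 2 - 3 * c) * n⌋₊ := ⟨_, rfl⟩
  have hw0a : (w0 : ℝ) ≤ (1 / 2 - 3 * c) * n := by
    rw [hw0]
    apply Nat.floor_le
    apply mul_nonneg _ hnpos.le
    linarith
  have hw0b : (1 / 2 - 3 * c) * n < w0 + 1 := by rw [hw0]; exact Nat.lt_floor_add_one _
  have hpn : (p : ℝ) ≤ ε / 128 * n := hpκ.trans (mul_le_mul_of_nonneg_right hκ₂3 hnpos.le)
  have hpn2 : (p : ℝ) ≤ κ / 16 * n := hpκ.trans (mul_le_mul_of_nonneg_right hκ₂2 hnpos.le)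
  have hpn3 : (p : ℝ) * (2 * r + 11) ≤ c * n / 4 := by
    have h1 : (p : ℝ) ≤ c / (4 * (2 * R + 11)) * n :=
      hpκ.trans (mul_le_mul_of_nonneg_right hκ₂1 hnpos.le)
    have h2 : (p : ℝ) * (2 * r + 11) ≤ c / (4 * (2 * R + 11)) * n * (2 * R + 11) := by
      apply mul_le_mul h1 (by linarith) (by positivity) (by positivity)
    have h3 : c / (4 * (2 * R + 11)) * n * (2 * (R : ℝ) + 11) = c * n / 4 := by
      field_simp
    linarith
  refine outer G Δ p L M0 w0 ⌊(1 / 2 - 2 * c) * (n - r)⌋₊ ⌊κ * (n - r)⌋₊ n1 hp Lo hdΔ hn1 π hπ1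
    ?_ (hM0a.trans hM) ?_ ?_ ?_ ?_ ?_ ?_ ?_ ?_ ?_
  · intro v hv
    have h1 := (hπ2 v hv).2
    rw [hG1] at h1
    exact h1
  · -- r ≤ w0
    rw [← hr]
    have h1 : (r : ℝ) ≤ w0 := by linarith
    exact_mod_cast h1
  · -- 2 L ≤ n1 + 2 w0
    have h1 : (2 : ℝ) * L ≤ n1 + 2 * w0 := by
      rw [hn1R]
      linarith
    exact_mod_cast h1
  · -- k' + p - 1 ≤ L
    rw [← hr]
    have h1 : 2 * r + (2 * n1 - 2 * M0) + 2 * p ≤ 2 * L + 2 := by
      have h2 : 2 * r + 2 * n1 + 2 * p ≤ 2 * L + 2 + 2 * M0 := by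
        have h3 : 2 * (r : ℝ) + 2 * n1 + 2 * p ≤ 2 * L + 2 + 2 * M0 := by
          rw [hn1R]
          linarith
        exact_mod_cast h3
      omega
    have h2 : 2 * r + (n1 + (L - w0) + 1) + 2 * p ≤ 2 * L + 2 := by
      rcases le_total w0 L with h | h
      · have h3 : 2 * r + (n1 + L + 1) + 2 * p ≤ 2 * L + 2 + w0 := by
          have h4 : 2 * (r : ℝ) + (n1 + L + 1) + 2 * p ≤ 2 * L + 2 + w0 := by
            rw [hn1R]
            linarith
          exact_mod_cast h4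
        omega
      · have h3 : 2 * r + (n1 + 1) + 2 * p ≤ 2 * L + 2 := by
          have h4 : 2 * (r : ℝ) + (n1 + 1) + 2 * p ≤ 2 * L + 2 := by
            rw [hn1R]
            linarith
          exact_mod_cast h4
        omega
    rcases le_total (2 * n1 - 2 * M0) (n1 + (L - w0) + 1) with h | h
    · rw [max_eq_right h]
      exact h2
    · rw [max_eq_left h]
      exact h1
  · rw [← hr]
    have h1 : (L : ℝ) + 1 + 2 * p + 3 * r ≤ Δ := by linarith
    exact_mod_cast h1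
  · intro v
    rw [← hr]
    have h2 := hεn2 v
    have h1 : 4 * (p : ℝ) + 3 * r ≤ dg G v := by linarith
    exact_mod_cast h1
  · intro x hx
    rw [← hr]
    have h2 := (hLo x).1 hx
    have h1 : (dg G x : ℝ) + r ≤ Δ := by linarith
    exact_mod_cast h1
  · rw [← hr]
    apply Nat.le_floor
    have h2 : ((n1 - 2 * M0 : ℕ) : ℝ) = n - r - 2 * M0 := by
      rw [Nat.cast_sub hM0n, hn1R]
      push_cast
      ring
    push_cast
    rw [h2]
    have h3 : (1 / 2 - 2 * c) * (n - r) = (1 / 2 - 2 * c) * n - (1 / 2 - 2 * c) * r := by ring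
    have h4 : (1 / 2 - 2 * c) * r ≤ 1 * r := mul_le_mul_of_nonneg_right (by linarith) hr0
    have h5 : (p : ℝ) * (2 * r + 11) = p + 2 * p * (r + 1 + 4) := by ring
    rw [h3]
    linarith
  · rw [← hr]
    apply Nat.le_floor
    push_cast
    have h3 : κ * r ≤ κ * (n / 4) := by
      apply mul_le_mul_of_nonneg_left _ hκ.le
      linarith
    linarith
  · intro U hU1 hU2 hU3
    rw [← hG1]
    have hf1 : 0 ≤ κ * (n - r) := by
      apply mul_nonneg hκ.le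
      linarith
    have hf2 : 0 ≤ (1 / 2 - 2 * c) * (n - r) := by
      apply mul_nonneg
      · linarith
      · linarith
    refine hcr U ?_ ?_ ?_
    · intro ℓ hℓ
      refine le_trans ?_ (Nat.floor_le hf1)
      exact_mod_cast hU1 ℓ hℓ
    · intro v
      refine le_trans ?_ (Nat.floor_le hf1)
      exact_mod_cast hU2 v
    · refine le_trans ?_ (Nat.floor_le hf2)
      refine le_trans (Nat.cast_le.2 (card_le_card ?_)) (Nat.cast_le.2 hU3)
      intro ℓ hℓ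
      simp only [mem_filter, mem_range] at hℓ ⊢
      refine ⟨hℓ.1, fun h => hℓ.2 ?_⟩
      refine (congrArg Even (congrArg Finset.card ?_)).mp h
      ext v
      simp only [mem_sdiff, mem_univ, true_and]

/-- The Havet-Yu bound for all graphs with `(1/2 + ε) n ≤ δ` and `Δ ≤ (1 - ε) n`. -/
theorem mainE (ε : ℝ) (hε : 0 < ε) :
    ∃ n0 : ℕ,
      ∀ (V : Type) [Fintype V] (G : SimpleGraph V) [DecidableRel G.Adj] (p : ℕ),
        n0 ≤ Fintype.card V → 1 ≤ p →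
        (1 / 2 + ε) * Fintype.card V ≤ G.minDegree →
        (G.maxDegree : ℝ) ≤ (1 - ε) * Fintype.card V →
        H70.HY.HYLab G G.maxDegree p := by
  obtain ⟨ε', hε'⟩ : ∃ ε' : ℝ, ε' = min ε (1 / 4) := ⟨_, rfl⟩
  have hε'0 : 0 < ε' := by rw [hε']; exact lt_min hε (by norm_num)
  have hε'1 : ε' ≤ 1 / 4 := by rw [hε']; exact min_le_right _ _
  have hε'2 : ε' ≤ ε := by rw [hε']; exact min_le_left _ _
  obtain ⟨ρ, n1, hρ, h1⟩ := caseI ε' hε'0 hε'1
  obtain ⟨n2, h2⟩ := caseII ε' hε'0 hε'1 ρ hρ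
  refine ⟨n1 + n2, ?_⟩
  intro V _ G _ p hn hp hδ hΔ
  have hn0 : (0 : ℝ) ≤ Fintype.card V := Nat.cast_nonneg _
  have h3 := mul_le_mul_of_nonneg_right hε'2 hn0
  have hδ' : (1 / 2 + ε') * Fintype.card V ≤ G.minDegree := by linarith
  have hΔ' : (G.maxDegree : ℝ) ≤ (1 - ε') * Fintype.card V := by linarith
  rcases le_or_gt (Fintype.card V : ℝ)
    (∑ v, min ((G.maxDegree : ℝ) - G.degree v) (ρ * Fintype.card V)) with h | h
  · exact h1 V G p (by omega) hp hδ' hΔ' h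
  · exact h2 V G p (by omega) hp hδ' hΔ' h

end Pool.Agent.H71.DX
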